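import Pool.Agent.H67GF.Refl
import Pool.Agent.H984R3.Per.UpPi
import Pool.Agent.H984R3.Per.LowEV
import Pool.Agent.H985R3.TA.Main

/-!
Faces on the exploration path: the bounds in terms of the angle of view.
-/

set_option autoImplicit false

namespace Pool.Agent.H67GF

open H974 H731C H342P Finset MeasureTheory Filter Topology Pool.Agent.H67LP

theorem meas_cls (I : Set ℤ) (e : Edg) : MeasurableSet {ω | e ∈ Cls I (opn ω)} := by
  have h : {ω | e ∈ Cls I (opn ω)} =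
      ({ω | e ∈ opn ω}ᶜ ∩ {_ω | 0 ≤ e.2.1}) ∩ {_ω | e ∉ Wir I} := rfl
  rw [h]
  exact ((meas_opn e).compl.inter (MeasurableSet.const _)).inter (MeasurableSet.const _)

theorem meas_DC (I : Set ℤ) (f : Vtx) : MeasurableSet {ω | DC I (opn ω) f} := by
  have e : {ω | DC I (opn ω) f} = ⋃ k : ℤ, ⋃ n : ℕ, {ω | stp (Cls I (opn ω)) n f (k, -1)} := by
    ext ω
    rw [Set.mem_iUnion]
    constructor
    · rintro ⟨k, hk⟩
      refine ⟨k, ?_⟩
      rw [Set.mem_iUnion]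
      exact dreach_iff_stp.mp hk
    · rintro ⟨k, hk⟩
      rw [Set.mem_iUnion] at hk
      exact ⟨k, dreach_iff_stp.mpr hk⟩
  rw [e]
  exact MeasurableSet.iUnion (fun k => MeasurableSet.iUnion (fun n =>
    meas_stp (fun e => meas_cls I e) n _ _))

theorem meas_path (I : Set ℤ) (x y : ℤ) : MeasurableSet (PathE I x y) := by
  have e : PathE I x y = {ω | DC I (opn ω) (x, y)} ∩
      ⋃ v : Vtx, {_ω | Cor (x, y) v} ∩ {ω | CI I (opn ω) v} := by
    ext ω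
    simp only [Set.mem_inter_iff, Set.mem_iUnion]
    rfl
  rw [e]
  exact (meas_DC I _).inter (MeasurableSet.iUnion (fun v =>
    (MeasurableSet.const _).inter (meas_CI I v)))

theorem sqrt_norm {η B : ℝ} (hη : 0 < η) :
    Real.sqrt (1 + (B / η) ^ 2) = Real.sqrt (η ^ 2 + B ^ 2) / η := by
  have h1 : 1 + (B / η) ^ 2 = (η ^ 2 + B ^ 2) / η ^ 2 := by
    field_simp
  rw [h1, Real.sqrt_div (by positivity), Real.sqrt_sq hη.le]

theorem sin_sub_arctan {η A B : ℝ} (hη : 0 < η) :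
    Real.sin (Real.arctan (B / η) - Real.arctan (A / η)) =
      ((B - A) * η) / (Real.sqrt (η ^ 2 + B ^ 2) * Real.sqrt (η ^ 2 + A ^ 2)) := by
  have s1 : 0 < Real.sqrt (η ^ 2 + B ^ 2) := Real.sqrt_pos.mpr (by positivity)
  have s2 : 0 < Real.sqrt (η ^ 2 + A ^ 2) := Real.sqrt_pos.mpr (by positivity)
  rw [Real.sin_sub, Real.sin_arctan, Real.cos_arctan, Real.sin_arctan, Real.cos_arctan,
    sqrt_norm hη, sqrt_norm hη]
  field_simp

theorem sin_add_arctan {η B : ℝ} (hη : 0 < η) :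
    Real.sin (Real.pi / 2 + Real.arctan (B / η)) = η / Real.sqrt (η ^ 2 + B ^ 2) := by
  have s1 : 0 < Real.sqrt (η ^ 2 + B ^ 2) := Real.sqrt_pos.mpr (by positivity)
  rw [add_comm, Real.sin_add_pi_div_two, Real.cos_arctan, sqrt_norm hη]
  field_simp

theorem root_bounds {h η B q : ℝ} (hη : h / 2 ≤ η) (hη2 : η ≤ h) (hh : 1 ≤ h)
    (hq1 : q ≤ |B| + 1) (hq2 : |B| ≤ q + 1) (hq : 0 ≤ q) :
    (q + h) / 8 ≤ Real.sqrt (η ^ 2 + B ^ 2) ∧ Real.sqrt (η ^ 2 + B ^ 2) ≤ 2 * (q + h) := by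
  have hB := abs_nonneg B
  have hB2 : |B| ^ 2 = B ^ 2 := sq_abs B
  constructor
  · apply Real.le_sqrt_of_sq_le
    rw [← hB2]
    have h1 : q + h ≤ |B| + 4 * η := by linarith
    have h2 : (q + h) ^ 2 ≤ (|B| + 4 * η) ^ 2 := pow_le_pow_left₀ (by linarith) h1 2
    nlinarith [sq_nonneg (|B| - 4 * η), sq_nonneg η, sq_nonneg (|B|)]
  · rw [Real.sqrt_le_left (by linarith), ← hB2]
    have h1 : η + |B| ≤ 2 * (q + h) := by linarith
    have h2 : (η + |B|) ^ 2 ≤ (2 * (q + h)) ^ 2 := pow_le_pow_left₀ (by linarith) h1 2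
    nlinarith [mul_nonneg (by linarith : 0 ≤ η) hB]

theorem sinI_cmp {h η l A B p q : ℝ} (hη : h / 2 ≤ η) (hη2 : η ≤ h) (hh : 1 ≤ h) (hl : 1 ≤ l)
    (hAB : B - A = l) (hq1 : q ≤ |B| + 1) (hq2 : |B| ≤ q + 1) (hq : 0 ≤ q)
    (hp1 : p ≤ |A| + 1) (hp2 : |A| ≤ p + 1) (hp : 0 ≤ p) :
    Psi h l p q ≤ 8 * Real.sin (Real.arctan (B / η) - Real.arctan (A / η)) ∧
      Real.sin (Real.arctan (B / η) - Real.arctan (A / η)) ≤ 64 * Psi h l p q := by
  have hη0 : 0 < η := by linarith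
  rw [sin_sub_arctan hη0, hAB]
  obtain ⟨b1, b2⟩ := root_bounds hη hη2 hh hq1 hq2 hq
  obtain ⟨a1, a2⟩ := root_bounds hη hη2 hh hp1 hp2 hp
  set s1 : ℝ := Real.sqrt (η ^ 2 + B ^ 2)
  set s2 : ℝ := Real.sqrt (η ^ 2 + A ^ 2)
  have s10 : 0 < s1 := by linarith
  have s20 : 0 < s2 := by linarith
  have k1 : s1 * s2 ≤ (2 * (q + h)) * (2 * (p + h)) := mul_le_mul b2 a2 s20.le (by linarith)
  have k2 : ((q + h) / 8) * ((p + h) / 8) ≤ s1 * s2 :=
    mul_le_mul b1 a1 (by positivity) s10.le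
  unfold Psi
  constructor
  · rw [mul_div_assoc', div_le_div_iff₀ (by positivity) (by positivity)]
    calc h * l * (s1 * s2) ≤ h * l * ((2 * (q + h)) * (2 * (p + h))) :=
          mul_le_mul_of_nonneg_left k1 (by positivity)
      _ = 8 * (l * (h / 2)) * ((p + h) * (q + h)) := by ring
      _ ≤ 8 * (l * η) * ((p + h) * (q + h)) := by
          apply mul_le_mul_of_nonneg_right _ (by positivity)
          have := mul_le_mul_of_nonneg_left hη (by linarith : 0 ≤ l)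
          linarith
  · rw [mul_div_assoc', div_le_div_iff₀ (by positivity) (by positivity)]
    calc l * η * ((p + h) * (q + h)) ≤ l * h * ((p + h) * (q + h)) :=
          mul_le_mul_of_nonneg_right (mul_le_mul_of_nonneg_left hη2 (by linarith)) (by positivity)
      _ = 64 * (h * l) * (((q + h) / 8) * ((p + h) / 8)) := by ring
      _ ≤ _ := mul_le_mul_of_nonneg_left k2 (by positivity)

theorem sinInf_cmp {h η B q : ℝ} (hη : h / 2 ≤ η) (hη2 : η ≤ h) (hh : 1 ≤ h)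
    (hq1 : q ≤ |B| + 1) (hq2 : |B| ≤ q + 1) (hq : 0 ≤ q) :
    h / (q + h) ≤ 8 * Real.sin (Real.pi / 2 + Real.arctan (B / η)) ∧
      Real.sin (Real.pi / 2 + Real.arctan (B / η)) ≤ 64 * (h / (q + h)) := by
  have hη0 : 0 < η := by linarith
  rw [sin_add_arctan hη0]
  obtain ⟨b1, b2⟩ := root_bounds hη hη2 hh hq1 hq2 hq
  set s1 : ℝ := Real.sqrt (η ^ 2 + B ^ 2)
  have s10 : 0 < s1 := by linarith
  constructor
  · rw [mul_div_assoc', div_le_div_iff₀ (by positivity) (by positivity)]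
    nlinarith [mul_le_mul_of_nonneg_left b2 (by linarith : 0 ≤ h)]
  · rw [mul_div_assoc', div_le_div_iff₀ (by positivity) (by positivity)]
    nlinarith [mul_le_mul_of_nonneg_left b1 (by linarith : 0 ≤ h),
      mul_le_mul_of_nonneg_right hη2 (by linarith : 0 ≤ q + h)]

/-- the angle of view of an interval -/
noncomputable def vw (a b x y : ℤ) : ℝ :=
  Real.arctan (((b : ℝ) - (x : ℝ)) / ((y : ℝ) + 1 / 2)) -
    Real.arctan (((a : ℝ) - 1 - (x : ℝ)) / ((y : ℝ) + 1 / 2))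

/-- the angle of view of a half-line -/
noncomputable def vwInf (b x y : ℤ) : ℝ :=
  Real.pi / 2 + Real.arctan (((b : ℝ) - (x : ℝ)) / ((y : ℝ) + 1 / 2))

theorem vw_cmp {a b x y : ℤ} (hab : a ≤ b) (hy : 0 ≤ y) :
    Psi ((y + 1 : ℤ) : ℝ) ((b - a + 1 : ℤ) : ℝ) ((|x - a| : ℤ) : ℝ) ((|x - b| : ℤ) : ℝ) ≤
      8 * Real.sin (vw a b x y) ∧ Real.sin (vw a b x y) ≤
      64 * Psi ((y + 1 : ℤ) : ℝ) ((b - a + 1 : ℤ) : ℝ) ((|x - a| : ℤ) : ℝ) ((|x - b| : ℤ) : ℝ) := by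
  have hy0 : (0 : ℝ) ≤ (y : ℝ) := by exact_mod_cast hy
  have q1 := abs_cases (x - a)
  have q2 := abs_cases (x - b)
  have q3 := abs_cases (b - x)
  have q4 := abs_cases (a - 1 - x)
  have eA : |(a : ℝ) - 1 - (x : ℝ)| = ((|a - 1 - x| : ℤ) : ℝ) := by push_cast; rfl
  have eB : |(b : ℝ) - (x : ℝ)| = ((|b - x| : ℤ) : ℝ) := by push_cast; rfl
  unfold vw
  apply sinI_cmp
  · push_cast; linarith
  · push_cast; linarith
  · push_cast; linarith
  · exact_mod_cast (by omega : 1 ≤ b - a + 1)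
  · push_cast; ring
  · rw [eB]; exact_mod_cast (by omega : |x - b| ≤ |b - x| + 1)
  · rw [eB]; exact_mod_cast (by omega : |b - x| ≤ |x - b| + 1)
  · exact_mod_cast abs_nonneg _
  · rw [eA]; exact_mod_cast (by omega : |x - a| ≤ |a - 1 - x| + 1)
  · rw [eA]; exact_mod_cast (by omega : |a - 1 - x| ≤ |x - a| + 1)
  · exact_mod_cast abs_nonneg _

theorem vwInf_cmp {b x y : ℤ} (hy : 0 ≤ y) :
    ((y + 1 : ℤ) : ℝ) / (((|x - b| : ℤ) : ℝ) + ((y + 1 : ℤ) : ℝ)) ≤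
      8 * Real.sin (vwInf b x y) ∧ Real.sin (vwInf b x y) ≤
      64 * (((y + 1 : ℤ) : ℝ) / (((|x - b| : ℤ) : ℝ) + ((y + 1 : ℤ) : ℝ))) := by
  have hy0 : (0 : ℝ) ≤ (y : ℝ) := by exact_mod_cast hy
  have q2 := abs_cases (x - b)
  have q3 := abs_cases (b - x)
  have eB : |(b : ℝ) - (x : ℝ)| = ((|b - x| : ℤ) : ℝ) := by push_cast; rfl
  unfold vwInf
  apply sinInf_cmp
  · push_cast; linarith
  · push_cast; linarith
  · push_cast; linarith
  · rw [eB]; exact_mod_cast (by omega : |x - b| ≤ |b - x| + 1)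
  · rw [eB]; exact_mod_cast (by omega : |b - x| ≤ |x - b| + 1)
  · exact_mod_cast abs_nonneg _

/-- the Green's function of chordal `SLE(6)` -/
noncomputable def grn (y θ : ℝ) : ℝ := y ^ (-(1 / 4) : ℝ) * (Real.sin θ) ^ ((1 : ℝ) / 3)

theorem cmp_final {c C P h X S : ℝ} (hc : 0 < c) (hC : 0 < C) (hh : 0 ≤ h) (hX : 0 ≤ X)
    (h1 : X ≤ 8 * S) (h2 : S ≤ 64 * X) (hlow : c * h * X ^ ((1 : ℝ) / 3) ≤ P)
    (hup : P ≤ 4 * (C * h * X ^ ((1 : ℝ) / 3))) :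
    c / 4 * (h * S ^ ((1 : ℝ) / 3)) ≤ P ∧ P ≤ 8 * C * (h * S ^ ((1 : ℝ) / 3)) := by
  have hS : 0 ≤ S := by linarith
  have k1 := cube_root_le (K := 2) hX hS (by norm_num) h1 (by norm_num)
  have k2 := cube_root_le (K := 4) hS hX (by norm_num) h2 (by norm_num)
  constructor
  · refine le_trans ?_ hlow
    calc c / 4 * (h * S ^ ((1 : ℝ) / 3)) ≤ c / 4 * (h * (4 * X ^ ((1 : ℝ) / 3))) :=
          mul_le_mul_of_nonneg_left (mul_le_mul_of_nonneg_left k2 hh) (by positivity)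
      _ = _ := by ring
  · refine hup.trans ?_
    calc 4 * (C * h * X ^ ((1 : ℝ) / 3)) ≤ 4 * (C * h * (2 * S ^ ((1 : ℝ) / 3))) :=
          mul_le_mul_of_nonneg_left (mul_le_mul_of_nonneg_left k1 (by positivity)) (by norm_num)
      _ = _ := by ring

theorem inputs : (∃ c : ℝ, 0 < c ∧ H984P.LowA c (1/4)) ∧
    (∃ C : ℝ, 0 < C ∧ H342P.TwoUp C (1/4)) := by
  refine ⟨?_, ?_⟩
  · obtain ⟨B, m0, κ, hκ, h⟩ := H985T.EV_lower
    obtain ⟨c, hc, h2⟩ := H984P.lowA_of_EV (B := B) (m0 := m0) (s := 1/4) hκ (by norm_num)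
      (fun m hm => by
        obtain ⟨ρ, c, s, c', f0, h1, h2, h3⟩ := h m hm
        exact ⟨ρ, c, s, c', f0, h2, h1, h3⟩)
    exact ⟨c, hc, h2⟩
  · obtain ⟨C, hC, h⟩ := H985T.pi2_upper
    exact ⟨C, hC, H984P.twoUp_of_pi2 hC (by norm_num) h⟩

theorem main_Icc : ∃ c C : ℝ, 0 < c ∧ 0 < C ∧ ∀ a b x y : ℤ, a ≤ b → 0 ≤ y →
    c * grn ((y : ℝ) + 1) (vw a b x y) ≤ (bondLaw half).real (PathE (Set.Icc a b) x y) ∧
    (bondLaw half).real (PathE (Set.Icc a b) x y) ≤ C * grn ((y : ℝ) + 1) (vw a b x y) := by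
  obtain ⟨⟨κ, hκ, hL⟩, C0, hC0, hU⟩ := inputs
  obtain ⟨c, hc, h1⟩ := path_lower hκ hL
  obtain ⟨C, hC, h2⟩ := path_upper hC0 hU
  refine ⟨c / 4, 8 * C, by positivity, by positivity, ?_⟩
  intro a b x y hab hy
  have hh : (1 : ℝ) ≤ ((y + 1 : ℤ) : ℝ) := by exact_mod_cast (by omega : 1 ≤ y + 1)
  have hl : (1 : ℝ) ≤ ((b - a + 1 : ℤ) : ℝ) := by exact_mod_cast (by omega : 1 ≤ b - a + 1)
  obtain ⟨g1, g2⟩ := vw_cmp (x := x) hab hy
  have e : (y : ℝ) + 1 = ((y + 1 : ℤ) : ℝ) := by push_cast; rfl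
  unfold grn
  rw [e]
  exact cmp_final hc hC (by positivity) (Psi_nonneg hh hl (by exact_mod_cast abs_nonneg _)
    (by exact_mod_cast abs_nonneg _)) g1 g2 (h1 a b x y hab hy)
    (PathE_le (fun v hv => h2 a b x y v hab hy hv))

theorem main_Iic0 : ∃ c C : ℝ, 0 < c ∧ 0 < C ∧ ∀ b x y : ℤ, 0 ≤ y →
    c * ((y + 1 : ℤ) : ℝ) ^ (-(1/4 : ℝ)) *
        (((y + 1 : ℤ) : ℝ) / (((|x - b| : ℤ) : ℝ) + ((y + 1 : ℤ) : ℝ))) ^ ((1 : ℝ) / 3) ≤
      (bondLaw half).real (PathE (Set.Iic b) x y) ∧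
    (bondLaw half).real (PathE (Set.Iic b) x y) ≤ 4 * (C * ((y + 1 : ℤ) : ℝ) ^ (-(1/4 : ℝ)) *
        (((y + 1 : ℤ) : ℝ) / (((|x - b| : ℤ) : ℝ) + ((y + 1 : ℤ) : ℝ))) ^ ((1 : ℝ) / 3)) := by
  obtain ⟨⟨κ, hκ, hL⟩, C0, hC0, hU⟩ := inputs
  obtain ⟨c, hc, h1⟩ := path_lower_Iic hκ hL
  obtain ⟨C, hC, h2⟩ := path_upper_Iic hC0 hU
  exact ⟨c, C, hc, hC, fun b x y hy => ⟨h1 b x y hy, PathE_le (fun v hv => h2 b x y v hy hv)⟩⟩

theorem main_all : ∃ c C : ℝ, 0 < c ∧ 0 < C ∧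
    (∀ a b x y : ℤ, a ≤ b → 0 ≤ y →
      c * grn ((y : ℝ) + 1) (vw a b x y) ≤ (bondLaw half).real (PathE (Set.Icc a b) x y) ∧
      (bondLaw half).real (PathE (Set.Icc a b) x y) ≤ C * grn ((y : ℝ) + 1) (vw a b x y)) ∧
    (∀ b x y : ℤ, 0 ≤ y →
      c * grn ((y : ℝ) + 1) (vwInf b x y) ≤ (bondLaw half).real (PathE (Set.Iic b) x y) ∧
      (bondLaw half).real (PathE (Set.Iic b) x y) ≤ C * grn ((y : ℝ) + 1) (vwInf b x y)) ∧
    (∀ (z : ℂ) (δ : ℝ), 0 < δ → 2 * δ ≤ z.im →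
      c * (δ ^ ((1 : ℝ) / 4) * grn z.im z.arg) ≤
        (bondLaw half).real (PathE (Set.Iic 0) ⌊z.re / δ⌋ ⌊z.im / δ⌋) ∧
      (bondLaw half).real (PathE (Set.Iic 0) ⌊z.re / δ⌋ ⌊z.im / δ⌋) ≤
        C * (δ ^ ((1 : ℝ) / 4) * grn z.im z.arg)) := by
  obtain ⟨c1, C1, hc1, hC1, h1⟩ := main_Icc
  obtain ⟨c2, C2, hc2, hC2, h2⟩ := main_Iic0
  refine ⟨min c1 (min (c2 / 4) (c2 / 8)), max C1 (max (8 * C2) (16 * C2)), by positivity,
    by positivity, ?_, ?_, ?_⟩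
  · intro a b x y hab hy
    obtain ⟨g1, g2⟩ := h1 a b x y hab hy
    obtain ⟨s1, s2⟩ := vw_cmp (x := x) hab hy
    have hh : (1 : ℝ) ≤ ((y + 1 : ℤ) : ℝ) := by exact_mod_cast (by omega : 1 ≤ y + 1)
    have hl : (1 : ℝ) ≤ ((b - a + 1 : ℤ) : ℝ) := by exact_mod_cast (by omega : 1 ≤ b - a + 1)
    have hP := Psi_nonneg hh hl (p := ((|x - a| : ℤ) : ℝ)) (q := ((|x - b| : ℤ) : ℝ))
      (by exact_mod_cast abs_nonneg _) (by exact_mod_cast abs_nonneg _)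
    have hS : 0 ≤ Real.sin (vw a b x y) := by linarith
    have hy0 : (0 : ℝ) ≤ (y : ℝ) := by exact_mod_cast hy
    have hG : 0 ≤ grn ((y : ℝ) + 1) (vw a b x y) := by unfold grn; positivity
    exact ⟨(mul_le_mul_of_nonneg_right (min_le_left _ _) hG).trans g1,
      g2.trans (mul_le_mul_of_nonneg_right (le_max_left _ _) hG)⟩
  · intro b x y hy
    obtain ⟨g1, g2⟩ := h2 b x y hy
    obtain ⟨s1, s2⟩ := vwInf_cmp (b := b) (x := x) hy
    have hh : (1 : ℝ) ≤ ((y + 1 : ℤ) : ℝ) := by exact_mod_cast (by omega : 1 ≤ y + 1)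
    have hq : (0 : ℝ) ≤ ((|x - b| : ℤ) : ℝ) := by exact_mod_cast abs_nonneg _
    have hX : 0 ≤ ((y + 1 : ℤ) : ℝ) / (((|x - b| : ℤ) : ℝ) + ((y + 1 : ℤ) : ℝ)) := by
      positivity
    have hS : 0 ≤ Real.sin (vwInf b x y) := by linarith
    have hy0 : (0 : ℝ) ≤ (y : ℝ) := by exact_mod_cast hy
    have hG : 0 ≤ grn ((y : ℝ) + 1) (vwInf b x y) := by unfold grn; positivity
    have k := cmp_final (h := ((y + 1 : ℤ) : ℝ) ^ (-(1/4 : ℝ))) hc2 hC2 (by positivity) hX s1 s2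
      g1 g2
    have e : (y : ℝ) + 1 = ((y + 1 : ℤ) : ℝ) := by push_cast; rfl
    have k1 : c2 / 4 * grn ((y : ℝ) + 1) (vwInf b x y) ≤
        (bondLaw half).real (PathE (Set.Iic b) x y) := by
      unfold grn; rw [e]; exact k.1
    have k2 : (bondLaw half).real (PathE (Set.Iic b) x y) ≤
        8 * C2 * grn ((y : ℝ) + 1) (vwInf b x y) := by
      unfold grn; rw [e]; exact k.2
    exact ⟨(mul_le_mul_of_nonneg_right ((min_le_right _ _).trans (min_le_left _ _)) hG).trans k1,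
      k2.trans (mul_le_mul_of_nonneg_right ((le_max_left _ _).trans (le_max_right _ _)) hG)⟩
  · intro z δ hδ hz
    have hzi : 0 < z.im := by linarith
    have hn : 0 < ‖z‖ := by
      apply norm_pos_iff.mpr
      intro h0
      rw [h0] at hzi
      simp at hzi
    have hsin : Real.sin z.arg = z.im / ‖z‖ := Complex.sin_arg z
    obtain ⟨Y, hY⟩ : ∃ Y : ℤ, Y = ⌊z.im / δ⌋ := ⟨_, rfl⟩
    obtain ⟨X, hX⟩ : ∃ X : ℤ, X = ⌊z.re / δ⌋ := ⟨_, rfl⟩
    rw [← hY, ← hX]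
    have y1 : (Y : ℝ) ≤ z.im / δ := by rw [hY]; exact Int.floor_le _
    have y2 : z.im / δ < (Y : ℝ) + 1 := by rw [hY]; exact Int.lt_floor_add_one _
    have x1 : (X : ℝ) ≤ z.re / δ := by rw [hX]; exact Int.floor_le _
    have x2 : z.re / δ < (X : ℝ) + 1 := by rw [hX]; exact Int.lt_floor_add_one _
    have t1 : 2 ≤ z.im / δ := by rw [le_div_iff₀ hδ]; exact hz
    have hY0 : 0 ≤ Y := by rw [hY]; exact Int.floor_nonneg.mpr (by positivity)
    obtain ⟨g1, g2⟩ := h2 0 X Y hY0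
    obtain ⟨t, ht⟩ : ∃ t : ℝ, t = z.im / δ := ⟨_, rfl⟩
    obtain ⟨u, hu⟩ : ∃ u : ℝ, u = z.re / δ := ⟨_, rfl⟩
    rw [← ht] at y1 y2 t1
    rw [← hu] at x1 x2
    have t0 : 0 < t := by linarith
    have hq : ((|X - 0| : ℤ) : ℝ) = |(X : ℝ)| := by push_cast; rw [sub_zero]
    rw [hq] at g1 g2
    have e1 : ((Y + 1 : ℤ) : ℝ) = (Y : ℝ) + 1 := by push_cast; rfl
    rw [e1] at g1 g2
    have hnn : ‖z‖ / δ = Real.sqrt (u ^ 2 + t ^ 2) := by
      have h5 : u ^ 2 + t ^ 2 = (‖z‖ / δ) ^ 2 := by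
        rw [hu, ht, div_pow, div_pow, div_pow, ← add_div]
        congr 1
        rw [← Complex.normSq_eq_norm_sq, Complex.normSq_apply]
        ring
      rw [h5, Real.sqrt_sq (by positivity)]
    have hS : Real.sin z.arg = t / (‖z‖ / δ) := by
      rw [hsin, ht]
      field_simp
    have ua := abs_nonneg u
    have hd : |u - (X : ℝ)| ≤ 1 := abs_le.mpr ⟨by linarith, by linarith⟩
    have Xa : |(X : ℝ)| ≤ |u| + 1 := by
      have k1 := abs_sub_abs_le_abs_sub (X : ℝ) u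
      rw [abs_sub_comm] at k1
      linarith
    have Xb : |u| ≤ |(X : ℝ)| + 1 := by
      have k1 := abs_sub_abs_le_abs_sub u (X : ℝ)
      linarith
    obtain ⟨r1, r2⟩ := root_bounds (h := t) (η := t) (B := u) (q := |(X : ℝ)|) (by linarith) le_rfl
      (by linarith) Xa Xb (abs_nonneg _)
    have e2 : t ^ 2 + u ^ 2 = u ^ 2 + t ^ 2 := by ring
    rw [e2, ← hnn] at r1 r2
    set w : ℝ := |(X : ℝ)| with hw
    have hw0 : 0 ≤ w := abs_nonneg _
    set R : ℝ := ‖z‖ / δ with hR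
    have hR0 : 0 < R := by linarith
    set H : ℝ := (Y : ℝ) + 1 with hH
    have H1 : t ≤ H := y2.le
    have H2 : H ≤ 2 * t := by linarith
    have H0 : 0 < H := by linarith
    have s1 : H / (w + H) ≤ 64 * Real.sin z.arg := by
      rw [hS, mul_div_assoc', div_le_div_iff₀ (by positivity) hR0]
      have a1 : H * R ≤ 2 * t * (2 * (w + t)) := mul_le_mul H2 r2 hR0.le (by linarith)
      have a2 : 2 * t * (2 * (w + t)) ≤ 64 * t * (w + H) := by nlinarith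
      linarith
    have s2 : Real.sin z.arg ≤ 64 * (H / (w + H)) := by
      rw [hS, mul_div_assoc', div_le_div_iff₀ hR0 (by positivity)]
      have a1 : t * (w + H) ≤ H * (2 * (w + t)) := by nlinarith
      have a2 : H * (2 * (w + t)) ≤ H * (64 * R) := mul_le_mul_of_nonneg_left (by linarith) H0.le
      linarith
    have hS0 : 0 ≤ Real.sin z.arg := by
      rw [hS]; positivity
    have k1 := cube_root_le (K := 4) (by positivity) hS0 (by norm_num) s1 (by norm_num)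
    have k2 := cube_root_le (K := 4) hS0 (by positivity) (by norm_num) s2 (by norm_num)
    have e3 : δ ^ ((1 : ℝ) / 4) * z.im ^ (-(1 / 4) : ℝ) = t ^ (-(1 / 4) : ℝ) := by
      rw [ht, Real.div_rpow hzi.le hδ.le, Real.rpow_neg hδ.le, div_inv_eq_mul, mul_comm]
    have e4 : δ ^ ((1 : ℝ) / 4) * grn z.im z.arg =
        t ^ (-(1 / 4) : ℝ) * Real.sin z.arg ^ ((1 : ℝ) / 3) := by
      unfold grn
      rw [← mul_assoc, e3]
    rw [e4]
    have m1 : H ^ (-(1 / 4 : ℝ)) ≤ t ^ (-(1 / 4 : ℝ)) :=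
      Real.rpow_le_rpow_of_nonpos t0 H1 (by norm_num)
    have m2 : t ^ (-(1 / 4 : ℝ)) ≤ 2 * H ^ (-(1 / 4 : ℝ)) := by
      have a1 : (H / 2) ^ (-(1 / 4 : ℝ)) = 2 ^ ((1 : ℝ) / 4) * H ^ (-(1 / 4 : ℝ)) := by
        rw [Real.div_rpow H0.le (by norm_num), Real.rpow_neg (by norm_num : (0 : ℝ) ≤ 2),
          div_inv_eq_mul, mul_comm]
      have a2 : t ^ (-(1 / 4 : ℝ)) ≤ (H / 2) ^ (-(1 / 4 : ℝ)) :=
        Real.rpow_le_rpow_of_nonpos (by positivity) (by linarith) (by norm_num)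
      have a3 : (2 : ℝ) ^ ((1 : ℝ) / 4) ≤ 2 := by
        calc (2 : ℝ) ^ ((1 : ℝ) / 4) ≤ 2 ^ (1 : ℝ) :=
              Real.rpow_le_rpow_of_exponent_le (by norm_num) (by norm_num)
          _ = 2 := Real.rpow_one 2
      rw [a1] at a2
      exact a2.trans (mul_le_mul_of_nonneg_right a3 (by positivity))
    set P : ℝ := (bondLaw half).real (PathE (Set.Iic 0) X Y) with hP
    set U : ℝ := (H / (w + H)) ^ ((1 : ℝ) / 3) with hU
    set V : ℝ := Real.sin z.arg ^ ((1 : ℝ) / 3) with hV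
    have hU0 : 0 ≤ U := by positivity
    have hV0 : 0 ≤ V := by positivity
    constructor
    · have b1 : min c1 (min (c2 / 4) (c2 / 8)) ≤ c2 / 8 :=
        (min_le_right _ _).trans (min_le_right _ _)
      refine le_trans ?_ g1
      calc min c1 (min (c2 / 4) (c2 / 8)) * (t ^ (-(1 / 4) : ℝ) * V)
          ≤ c2 / 8 * (t ^ (-(1 / 4) : ℝ) * V) := mul_le_mul_of_nonneg_right b1 (by positivity)
        _ ≤ c2 / 8 * ((2 * H ^ (-(1 / 4 : ℝ))) * (4 * U)) :=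
            mul_le_mul_of_nonneg_left (mul_le_mul m2 k2 hV0 (by positivity)) (by positivity)
        _ = _ := by ring
    · refine g2.trans ?_
      calc 4 * (C2 * H ^ (-(1 / 4 : ℝ)) * U) ≤ 4 * (C2 * t ^ (-(1 / 4 : ℝ)) * (4 * V)) := by
            apply mul_le_mul_of_nonneg_left _ (by norm_num)
            exact mul_le_mul (mul_le_mul_of_nonneg_left m1 hC2.le) k1 hU0 (by positivity)
        _ = 16 * C2 * (t ^ (-(1 / 4) : ℝ) * V) := by ring
        _ ≤ _ := by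
            apply mul_le_mul_of_nonneg_right _ (by positivity)
            exact (le_max_right _ _).trans (le_max_right _ _)

end Pool.Agent.H67GF
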