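import Mathlib

/-!
The second moment method for finitely many events, and a sum.
-/

set_option autoImplicit false

namespace Pool.Agent.H67GF

open Finset MeasureTheory Filter Topology

theorem second_moment {Ω : Type*} [MeasurableSpace Ω] (μ : Measure Ω) [IsProbabilityMeasure μ]
    {ι : Type*} (s : Finset ι) (A : ι → Set Ω) (hA : ∀ i, MeasurableSet (A i)) (U : Set Ω)
    (hU : MeasurableSet U) (hsub : ∀ i ∈ s, A i ⊆ U) (t : ℝ) :
    2 * t * ∑ i ∈ s, μ.real (A i) ≤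
      ∑ i ∈ s, ∑ j ∈ s, μ.real (A i ∩ A j) + t ^ 2 * μ.real U := by
  have hint : ∀ B : Set Ω, MeasurableSet B → Integrable (B.indicator (1 : Ω → ℝ)) μ := by
    intro B hB
    exact (integrable_const (1 : ℝ)).indicator hB
  have hval : ∀ B : Set Ω, MeasurableSet B → ∫ ω, B.indicator (1 : Ω → ℝ) ω ∂μ = μ.real B :=
    fun B hB => integral_indicator_one hB
  have i1 : Integrable (fun ω => ∑ i ∈ s, ∑ j ∈ s, (A i ∩ A j).indicator (1 : Ω → ℝ) ω) μ :=
    integrable_finset_sum _ (fun i _ => integrable_finset_sum _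
      (fun j _ => hint _ ((hA i).inter (hA j))))
  have i2 : Integrable (fun ω => t ^ 2 * U.indicator (1 : Ω → ℝ) ω) μ :=
    (hint U hU).const_mul _
  have i3 : Integrable (fun ω => 2 * t * ∑ i ∈ s, (A i).indicator (1 : Ω → ℝ) ω) μ :=
    (integrable_finset_sum _ (fun i _ => hint _ (hA i))).const_mul _
  have e : ∫ ω, ((∑ i ∈ s, ∑ j ∈ s, (A i ∩ A j).indicator (1 : Ω → ℝ) ω) +
      t ^ 2 * U.indicator (1 : Ω → ℝ) ω) ∂μ =
      ∑ i ∈ s, ∑ j ∈ s, μ.real (A i ∩ A j) + t ^ 2 * μ.real U := by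
    rw [integral_add i1 i2, integral_const_mul, hval U hU, integral_finset_sum]
    · congr 1
      apply Finset.sum_congr rfl
      intro i _
      rw [integral_finset_sum]
      · apply Finset.sum_congr rfl
        intro j _
        exact hval _ ((hA i).inter (hA j))
      · intro j _
        exact hint _ ((hA i).inter (hA j))
    · intro i _
      exact integrable_finset_sum _ (fun j _ => hint _ ((hA i).inter (hA j)))
  have e2 : ∫ ω, 2 * t * ∑ i ∈ s, (A i).indicator (1 : Ω → ℝ) ω ∂μ =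
      2 * t * ∑ i ∈ s, μ.real (A i) := by
    rw [integral_const_mul, integral_finset_sum]
    · congr 1
      apply Finset.sum_congr rfl
      intro i _
      exact hval _ (hA i)
    · intro i _
      exact hint _ (hA i)
  rw [← e, ← e2]
  apply integral_mono i3 (i1.add i2)
  intro ω
  show 2 * t * ∑ i ∈ s, (A i).indicator (1 : Ω → ℝ) ω ≤
    (∑ i ∈ s, ∑ j ∈ s, (A i ∩ A j).indicator (1 : Ω → ℝ) ω) + t ^ 2 * U.indicator (1 : Ω → ℝ) ω
  have e3 : ∑ i ∈ s, ∑ j ∈ s, (A i ∩ A j).indicator (1 : Ω → ℝ) ω =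
      (∑ i ∈ s, (A i).indicator (1 : Ω → ℝ) ω) * (∑ i ∈ s, (A i).indicator (1 : Ω → ℝ) ω) := by
    rw [Finset.sum_mul_sum]
    apply Finset.sum_congr rfl
    intro i _
    apply Finset.sum_congr rfl
    intro j _
    rw [Set.inter_indicator_one]
    rfl
  rw [e3]
  by_cases hω : ω ∈ U
  · rw [Set.indicator_of_mem hω]
    simp only [Pi.one_apply, mul_one]
    nlinarith [sq_nonneg (∑ i ∈ s, (A i).indicator (1 : Ω → ℝ) ω - t)]
  · have h0 : ∑ i ∈ s, (A i).indicator (1 : Ω → ℝ) ω = 0 := by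
      apply Finset.sum_eq_zero
      intro i hi
      exact Set.indicator_of_notMem (fun h => hω (hsub i hi h)) _
    rw [h0, Set.indicator_of_notMem hω]
    simp

theorem step_root (n : ℕ) : ((n : ℝ) + 1) ^ (-(1/4 : ℝ)) ≤
    2 * (((n : ℝ) + 1) ^ (3/4 : ℝ) - (n : ℝ) ^ (3/4 : ℝ)) := by
  have hn : (0 : ℝ) ≤ (n : ℝ) := by positivity
  have hn1 : (0 : ℝ) < (n : ℝ) + 1 := by positivity
  have h1 := Real.geom_mean_le_arith_mean2_weighted (w₁ := 3/4) (w₂ := 1/4) (p₁ := (n : ℝ))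
    (p₂ := (n : ℝ) + 1) (by norm_num) (by norm_num) hn hn1.le (by norm_num)
  have h2 : ((n : ℝ) + 1) ^ (3/4 : ℝ) = ((n : ℝ) + 1) * ((n : ℝ) + 1) ^ (-(1/4 : ℝ)) := by
    conv_rhs => rw [← Real.rpow_one ((n : ℝ) + 1)]
    rw [Real.rpow_one, ← Real.rpow_one_add' hn1.le (by norm_num)]
    norm_num
  have h3 : ((n : ℝ) + 1) ^ (1/4 : ℝ) * ((n : ℝ) + 1) ^ (-(1/4 : ℝ)) = 1 := by
    rw [← Real.rpow_add hn1]
    norm_num
  have hz : 0 ≤ ((n : ℝ) + 1) ^ (-(1/4 : ℝ)) := by positivity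
  have h4 : (n : ℝ) ^ (3/4 : ℝ) ≤ ((n : ℝ) + 1/4) * ((n : ℝ) + 1) ^ (-(1/4 : ℝ)) := by
    calc (n : ℝ) ^ (3/4 : ℝ) = ((n : ℝ) ^ (3/4 : ℝ) * ((n : ℝ) + 1) ^ (1/4 : ℝ)) *
          ((n : ℝ) + 1) ^ (-(1/4 : ℝ)) := by rw [mul_assoc, h3, mul_one]
      _ ≤ (3/4 * (n : ℝ) + 1/4 * ((n : ℝ) + 1)) * ((n : ℝ) + 1) ^ (-(1/4 : ℝ)) :=
          mul_le_mul_of_nonneg_right h1 hz
      _ = _ := by ring
  rw [h2]
  nlinarith

/-- the weight of a distance -/
noncomputable def wt (k : ℤ) : ℝ := ((max 1 |k| : ℤ) : ℝ) ^ (-(1/4 : ℝ))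

theorem wt_nonneg (k : ℤ) : 0 ≤ wt k := by
  unfold wt
  apply Real.rpow_nonneg
  exact_mod_cast (by omega : 0 ≤ max 1 |k|)

theorem sum_range_wt (n : ℕ) : ∑ k ∈ range (n + 1), wt (k : ℤ) ≤ 1 + 2 * (n : ℝ) ^ (3/4 : ℝ) := by
  induction n with
  | zero => simp [wt]
  | succ n ih =>
    rw [Finset.sum_range_succ]
    have h1 : wt (((n + 1 : ℕ) : ℤ)) = ((n : ℝ) + 1) ^ (-(1/4 : ℝ)) := by
      unfold wt
      congr 1
      have : max 1 |((n + 1 : ℕ) : ℤ)| = (n : ℤ) + 1 := by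
        rw [abs_of_nonneg (by positivity)]
        push_cast
        omega
      rw [this]
      push_cast
      rfl
    rw [h1]
    have h2 := step_root n
    push_cast
    linarith

theorem sum_wt {x r x' : ℤ} (hr : 0 ≤ r) (hx : x - r ≤ x' ∧ x' ≤ x + r) :
    ∑ j ∈ Finset.Icc (x - r) (x + r), wt (j - x') ≤ 6 * ((2 * r + 1 : ℤ) : ℝ) ^ (3/4 : ℝ) := by
  obtain ⟨n, hn⟩ : ∃ n : ℕ, (n : ℤ) = 2 * r := ⟨(2 * r).toNat, by omega⟩
  have hsub : Finset.Icc (x - r) (x + r) ⊆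
      (range (n + 1)).image (fun k : ℕ => x' + (k : ℤ)) ∪
      (range (n + 1)).image (fun k : ℕ => x' - (k : ℤ)) := by
    intro j hj
    rw [Finset.mem_Icc] at hj
    rw [Finset.mem_union, Finset.mem_image, Finset.mem_image]
    rcases le_or_gt x' j with h | h
    · left
      exact ⟨(j - x').toNat, by rw [Finset.mem_range]; omega, by omega⟩
    · right
      exact ⟨(x' - j).toNat, by rw [Finset.mem_range]; omega, by omega⟩
  have h0 := sum_range_wt n
  have h1 : ∑ j ∈ (range (n + 1)).image (fun k : ℕ => x' + (k : ℤ)), wt (j - x') =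
      ∑ k ∈ range (n + 1), wt (k : ℤ) := by
    rw [Finset.sum_image (fun a _ b _ h => by
      have : x' + (a : ℤ) = x' + (b : ℤ) := h
      omega)]
    apply Finset.sum_congr rfl
    intro k _
    congr 1
    ring
  have h2 : ∑ j ∈ (range (n + 1)).image (fun k : ℕ => x' - (k : ℤ)), wt (j - x') =
      ∑ k ∈ range (n + 1), wt (k : ℤ) := by
    rw [Finset.sum_image (fun a _ b _ h => by
      have : x' - (a : ℤ) = x' - (b : ℤ) := h
      omega)]
    apply Finset.sum_congr rfl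
    intro k _
    unfold wt
    have : x' - (k : ℤ) - x' = -(k : ℤ) := by ring
    rw [this, abs_neg]
  have h3 : ∑ j ∈ Finset.Icc (x - r) (x + r), wt (j - x') ≤
      ∑ j ∈ (range (n + 1)).image (fun k : ℕ => x' + (k : ℤ)) ∪
      (range (n + 1)).image (fun k : ℕ => x' - (k : ℤ)), wt (j - x') :=
    Finset.sum_le_sum_of_subset_of_nonneg hsub (fun j _ _ => wt_nonneg _)
  have h4 : ∑ j ∈ (range (n + 1)).image (fun k : ℕ => x' + (k : ℤ)) ∪
      (range (n + 1)).image (fun k : ℕ => x' - (k : ℤ)), wt (j - x') ≤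
      ∑ j ∈ (range (n + 1)).image (fun k : ℕ => x' + (k : ℤ)), wt (j - x') +
      ∑ j ∈ (range (n + 1)).image (fun k : ℕ => x' - (k : ℤ)), wt (j - x') := by
    rw [← Finset.sum_union_inter]
    have : 0 ≤ ∑ j ∈ (range (n + 1)).image (fun k : ℕ => x' + (k : ℤ)) ∩
      (range (n + 1)).image (fun k : ℕ => x' - (k : ℤ)), wt (j - x') :=
      Finset.sum_nonneg (fun j _ => wt_nonneg _)
    linarith
  have hm : (1 : ℝ) ≤ ((2 * r + 1 : ℤ) : ℝ) := by exact_mod_cast (by omega : 1 ≤ 2 * r + 1)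
  have h5 : (1 : ℝ) ≤ ((2 * r + 1 : ℤ) : ℝ) ^ (3/4 : ℝ) := Real.one_le_rpow hm (by norm_num)
  have h6 : (n : ℝ) ^ (3/4 : ℝ) ≤ ((2 * r + 1 : ℤ) : ℝ) ^ (3/4 : ℝ) := by
    apply Real.rpow_le_rpow (by positivity) _ (by norm_num)
    have : (n : ℤ) ≤ 2 * r + 1 := by omega
    exact_mod_cast this
  rw [h1, h2] at h4
  linarith

end Pool.Agent.H67GF
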