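import Pool.Agent.H67GF.Meso
import Pool.Agent.H67GF.Mom
import Pool.Agent.H67GF.Final

/-!
The exploration path comes close to a face: bounds on all scales.
-/

set_option autoImplicit false

namespace Pool.Agent.H67GF

open H974 H731C H342P Finset MeasureTheory Filter Topology Pool.Agent.H67LP

theorem meas_ball (I : Set ℤ) (x y r : ℤ) : MeasurableSet (PathB I x y r) := by
  have e : PathB I x y r = ⋃ x' : ℤ, ⋃ y' : ℤ,
      {_ω | (x - r ≤ x' ∧ x' ≤ x + r) ∧ (y - r ≤ y' ∧ y' ≤ y + r)} ∩ PathE I x' y' := by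
    ext ω
    simp only [Set.mem_iUnion, Set.mem_inter_iff]
    constructor
    · rintro ⟨x', y', h1, h2, h3⟩
      exact ⟨x', y', ⟨h1, h2⟩, h3⟩
    · rintro ⟨x', y', ⟨h1, h2⟩, h3⟩
      exact ⟨x', y', h1, h2, h3⟩
  rw [e]
  exact MeasurableSet.iUnion (fun x' => MeasurableSet.iUnion (fun y' =>
    (MeasurableSet.const _).inter (meas_path I x' y')))

/-- the second moment method -/
theorem ball_lower {c C : ℝ} (hc : 0 < c) (hC : 0 < C) : ∃ c' : ℝ, 0 < c' ∧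
    ∀ (I : Set ℤ) (x y r : ℤ) (T : ℝ), 0 ≤ r → 0 ≤ T →
    (∀ x' y', (x - r ≤ x' ∧ x' ≤ x + r) → (y - r ≤ y' ∧ y' ≤ y + r) →
      c * T ≤ (bondLaw half).real (PathE I x' y')) →
    (∀ x' y' x'' y'', (x - r ≤ x' ∧ x' ≤ x + r) → (y - r ≤ y' ∧ y' ≤ y + r) →
      (x - r ≤ x'' ∧ x'' ≤ x + r) → (y - r ≤ y'' ∧ y'' ≤ y + r) →
      (bondLaw half).real (PathE I x' y' ∩ PathE I x'' y'') ≤ C * T * wt (x'' - x')) →
    c' * (((r + 1 : ℤ) : ℝ) ^ (1/4 : ℝ) * T) ≤ (bondLaw half).real (PathB I x y r) := by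
  refine ⟨c ^ 2 / (6 * C), by positivity, ?_⟩
  intro I x y r T hr hT h1 h2
  obtain ⟨n, hn⟩ : ∃ n : ℝ, n = ((2 * r + 1 : ℤ) : ℝ) := ⟨_, rfl⟩
  have hn1 : 1 ≤ n := by rw [hn]; exact_mod_cast (by omega : 1 ≤ 2 * r + 1)
  have hn0 : 0 ≤ n := by linarith
  obtain ⟨a, ha⟩ : ∃ a : ℝ, a = n ^ (1/4 : ℝ) := ⟨_, rfl⟩
  have ha0 : 0 < a := by rw [ha]; positivity
  have ha4 : a ^ 4 = n := by
    rw [ha, ← Real.rpow_natCast, ← Real.rpow_mul hn0]
    norm_num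
  have ha3 : n ^ (3/4 : ℝ) = a ^ 3 := by
    rw [ha, ← Real.rpow_natCast (n ^ (1/4 : ℝ)) 3, ← Real.rpow_mul hn0]
    norm_num
  set P : ℝ := (bondLaw half).real (PathB I x y r) with hP
  have hP0 : 0 ≤ P := measureReal_nonneg
  obtain ⟨s, hs⟩ : ∃ s : Finset (ℤ × ℤ), s = Finset.Icc (x - r) (x + r) ×ˢ
    Finset.Icc (y - r) (y + r) := ⟨_, rfl⟩
  have hmem : ∀ g ∈ s, (x - r ≤ g.1 ∧ g.1 ≤ x + r) ∧ (y - r ≤ g.2 ∧ g.2 ≤ y + r) := by
    intro g hg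
    rw [hs, Finset.mem_product, Finset.mem_Icc, Finset.mem_Icc] at hg
    exact hg
  have hcard1 : ((Finset.Icc (y - r) (y + r)).card : ℝ) = n := by
    rw [Int.card_Icc, hn]
    have : (((y + r + 1 - (y - r)).toNat : ℕ) : ℤ) = 2 * r + 1 := by omega
    exact_mod_cast this
  have hcard2 : ((Finset.Icc (x - r) (x + r)).card : ℝ) = n := by
    rw [Int.card_Icc, hn]
    have : (((x + r + 1 - (x - r)).toNat : ℕ) : ℤ) = 2 * r + 1 := by omega
    exact_mod_cast this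
  have hcard : (s.card : ℝ) = n * n := by
    rw [hs, Finset.card_product]
    push_cast
    rw [hcard1, hcard2]
  have hS1 : n * n * (c * T) ≤ ∑ g ∈ s, (bondLaw half).real (PathE I g.1 g.2) := by
    have k1 : ∑ _g ∈ s, c * T ≤ ∑ g ∈ s, (bondLaw half).real (PathE I g.1 g.2) :=
      Finset.sum_le_sum (fun g hg => h1 g.1 g.2 (hmem g hg).1 (hmem g hg).2)
    rw [Finset.sum_const, nsmul_eq_mul, hcard] at k1
    exact k1
  have hS2 : ∑ g ∈ s, ∑ g' ∈ s, (bondLaw half).real (PathE I g.1 g.2 ∩ PathE I g'.1 g'.2) ≤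
      n * n * (C * T * (n * (6 * a ^ 3))) := by
    have k1 : ∑ g ∈ s, ∑ g' ∈ s, (bondLaw half).real (PathE I g.1 g.2 ∩ PathE I g'.1 g'.2) ≤
        ∑ _g ∈ s, C * T * (n * (6 * a ^ 3)) := by
      apply Finset.sum_le_sum
      intro g hg
      obtain ⟨m1, m2⟩ := hmem g hg
      have k2 : ∑ g' ∈ s, (bondLaw half).real (PathE I g.1 g.2 ∩ PathE I g'.1 g'.2) ≤
          ∑ g' ∈ s, C * T * wt (g'.1 - g.1) :=
        Finset.sum_le_sum (fun g' hg' => h2 _ _ _ _ m1 m2 (hmem g' hg').1 (hmem g' hg').2)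
      refine k2.trans ?_
      rw [← Finset.mul_sum]
      apply mul_le_mul_of_nonneg_left _ (by positivity)
      rw [hs, Finset.sum_product]
      simp only [Finset.sum_const, nsmul_eq_mul]
      rw [← Finset.mul_sum, hcard1]
      apply mul_le_mul_of_nonneg_left _ hn0
      rw [← ha3, hn]
      exact sum_wt hr m1
    rw [Finset.sum_const, nsmul_eq_mul, hcard] at k1
    exact k1
  obtain ⟨t, ht⟩ : ∃ t : ℝ, t = 6 * C / c * a ^ 7 := ⟨_, rfl⟩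
  have ht0 : 0 ≤ t := by rw [ht]; positivity
  have key := second_moment (bondLaw half) s (fun g => PathE I g.1 g.2)
    (fun g => meas_path I g.1 g.2) (PathB I x y r) (meas_ball I x y r) (by
      intro g hg ω hω
      exact ⟨g.1, g.2, (hmem g hg).1, (hmem g hg).2, hω⟩) t
  have k3 : 2 * t * (n * n * (c * T)) ≤ n * n * (C * T * (n * (6 * a ^ 3))) + t ^ 2 * P :=
    (mul_le_mul_of_nonneg_left hS1 (by positivity)).trans (key.trans (by linarith))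
  rw [← ha4, ht] at k3
  have k4 : 6 * C * T * a ^ 15 ≤ (36 * C ^ 2 / c ^ 2 * a ^ 14) * P := by
    have e1 : 2 * (6 * C / c * a ^ 7) * (a ^ 4 * a ^ 4 * (c * T)) = 12 * C * T * a ^ 15 := by
      field_simp
      ring
    have e2 : (6 * C / c * a ^ 7) ^ 2 * P = (36 * C ^ 2 / c ^ 2 * a ^ 14) * P := by
      field_simp
      ring
    have e3 : a ^ 4 * a ^ 4 * (C * T * (a ^ 4 * (6 * a ^ 3))) = 6 * C * T * a ^ 15 := by ring
    rw [e1, e2, e3] at k3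
    linarith
  have k5 : c ^ 2 / (6 * C) * (a * T) ≤ P := by
    have e1 : (36 * C ^ 2 / c ^ 2 * a ^ 14) * (c ^ 2 / (6 * C) * (a * T)) =
        6 * C * T * a ^ 15 := by
      field_simp
      ring
    rw [← e1] at k4
    exact le_of_mul_le_mul_left k4 (by positivity)
  refine le_trans ?_ k5
  apply mul_le_mul_of_nonneg_left _ (by positivity)
  apply mul_le_mul_of_nonneg_right _ hT
  rw [ha]
  apply Real.rpow_le_rpow _ _ (by norm_num)
  · exact_mod_cast (by omega : 0 ≤ r + 1)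
  · rw [hn]
    exact_mod_cast (by omega : r + 1 ≤ 2 * r + 1)

/-- lower bounds at faces -/
def HLow (c : ℝ) (I : Set ℤ) (Z : ℤ → ℤ → ℝ) : Prop := ∀ x y : ℤ, 0 ≤ y →
  c * ((y + 1 : ℤ) : ℝ) ^ (-(1/4 : ℝ)) * Z x y ≤ (bondLaw half).real (PathE I x y)

/-- upper bounds near faces -/
def HUp (C : ℝ) (I : Set ℤ) (Z : ℤ → ℤ → ℝ) : Prop :=
  ∀ (x y : ℤ) (E : Set (sqLattice.edgeSet → Bool)) (X0 : ℝ), 0 ≤ y → E ⊆ NPt I x y →
    Loc x y E X0 → (bondLaw half).real E ≤ C * X0 * Z x y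

/-- Harnack inequality -/
def HCmp (Z : ℤ → ℤ → ℝ) : Prop := (∀ x y : ℤ, 0 ≤ y → 0 ≤ Z x y) ∧
  ∀ x y x' y' r : ℤ, 0 ≤ y → 0 ≤ y' → 0 ≤ r → |x' - x| ≤ r → |y' - y| ≤ r → 32 * r ≤ y + 1 →
    Z x y ≤ 2 * Z x' y' ∧ Z x' y' ≤ 2 * Z x y

theorem four {I : Set ℤ} {x y : ℤ} {B : Set (sqLattice.edgeSet → Bool)} {X : ℝ}
    (h : ∀ v, Cor (x, y) v → (bondLaw half).real (PathV I (x, y) v ∩ B) ≤ X) :
    (bondLaw half).real (PathE I x y ∩ B) ≤ 4 * X := by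
  have h1 := h (x, y) ⟨Or.inl rfl, Or.inl rfl⟩
  have h2 := h (x + 1, y) ⟨Or.inr rfl, Or.inl rfl⟩
  have h3 := h (x, y + 1) ⟨Or.inl rfl, Or.inr rfl⟩
  have h4 := h (x + 1, y + 1) ⟨Or.inr rfl, Or.inr rfl⟩
  have h5 := measureReal_union_le (μ := bondLaw half) (PathV I (x, y) (x, y) ∩ B)
    (PathV I (x, y) (x + 1, y) ∩ B)
  have h6 := measureReal_union_le (μ := bondLaw half) (PathV I (x, y) (x, y + 1) ∩ B)
    (PathV I (x, y) (x + 1, y + 1) ∩ B)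
  have h7 := measureReal_union_le (μ := bondLaw half)
    ((PathV I (x, y) (x, y) ∩ B) ∪ (PathV I (x, y) (x + 1, y) ∩ B))
    ((PathV I (x, y) (x, y + 1) ∩ B) ∪ (PathV I (x, y) (x + 1, y + 1) ∩ B))
  have hsub : PathE I x y ∩ B ⊆
      ((PathV I (x, y) (x, y) ∩ B) ∪ (PathV I (x, y) (x + 1, y) ∩ B)) ∪
      ((PathV I (x, y) (x, y + 1) ∩ B) ∪ (PathV I (x, y) (x + 1, y + 1) ∩ B)) := by
    rintro ω ⟨hω, hB⟩
    rcases PathE_sub I x y hω with (h | h) | (h | h)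
    · exact Or.inl (Or.inl ⟨h, hB⟩)
    · exact Or.inl (Or.inr ⟨h, hB⟩)
    · exact Or.inr (Or.inl ⟨h, hB⟩)
    · exact Or.inr (Or.inr ⟨h, hB⟩)
  have h8 := real_mono' hsub
  linarith

theorem PathV_NPt {I : Set ℤ} {x y : ℤ} {v : Vtx} (hy : 0 ≤ y) (hv : Cor (x, y) v) :
    PathV I (x, y) v ⊆ NPt I x y := by
  rintro ω ⟨h1, h2⟩
  exact ⟨x, y, v, by omega, by omega, hv, h1, h2⟩

theorem one_pt {C0 C : ℝ} (hC0 : 0 < C0) (hU : TwoUp C0 (1/4)) (hC : 0 < C) :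
    ∃ C' : ℝ, 0 < C' ∧ ∀ (I : Set ℤ) (Z : ℤ → ℤ → ℝ), HUp C I Z → HCmp Z → ∀ x y : ℤ, 0 ≤ y →
      (bondLaw half).real (PathE I x y) ≤ C' * ((y + 1 : ℤ) : ℝ) ^ (-(1/4 : ℝ)) * Z x y := by
  refine ⟨4 * (C * (2 * (C0 + 1))), by positivity, ?_⟩
  intro I Z hUp hZ x y hy
  have h1 := PathE_le (I := I) (x := x) (y := y)
    (X := C * (2 * (C0 + 1) * ((y + 1 : ℤ) : ℝ) ^ (-(1/4 : ℝ))) * Z x y) (by
      intro v hv
      apply hUp x y _ _ hy (PathV_NPt hy hv)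
      refine loc_sub (S := VB v ((y + 1) / 8)) (A := fun F => 1 ≤ (y + 1) / 8 →
        Two v (x, y) ((y + 1) / 8) (↑F : Set Edg)) ?_ ?_ (two_bound hC0 hU hy hv)
      · obtain ⟨hv1, hv2⟩ := hv
        simp only at hv1 hv2
        unfold VB BX
        rintro ⟨p, q, _ | _⟩ h
        · rw [mem_RE_false] at h ⊢
          omega
        · rw [mem_RE_true] at h ⊢
          omega
      · intro ω h1 hm
        exact two_of_path (by omega) hm hv h1)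
  refine h1.trans (le_of_eq (by ring))

theorem two_pt {C0 C : ℝ} (hC0 : 0 < C0) (hU : TwoUp C0 (1/4)) (hC : 0 < C) :
    ∃ C' : ℝ, 0 < C' ∧ ∀ (I : Set ℤ) (Z : ℤ → ℤ → ℝ), HUp C I Z → HCmp Z →
    ∀ x y x' y' d : ℤ, 1 ≤ d → 16 * d ≤ y + 1 → (d = |x' - x| ∨ d = |y' - y|) → |x' - x| ≤ d →
      |y' - y| ≤ d → (bondLaw half).real (PathE I x y ∩ PathE I x' y') ≤
        C' * ((d : ℝ) ^ (-(1/4 : ℝ)) * ((y + 1 : ℤ) : ℝ) ^ (-(1/4 : ℝ))) * Z x y := by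
  obtain ⟨C2, hC2, h2⟩ := loc_two hC0 hU
  refine ⟨16 * (C * C2), by positivity, ?_⟩
  intro I Z hUp hZ x y x' y' d hd hdy hcase hdx hdy'
  have h3 : ∀ v, Cor (x, y) v → (bondLaw half).real (PathV I (x, y) v ∩ PathE I x' y') ≤
      4 * (C * (C2 * ((d : ℝ) ^ (-(1/4 : ℝ)) * ((y + 1 : ℤ) : ℝ) ^ (-(1/4 : ℝ)))) * Z x y) := by
    intro v hv
    rw [Set.inter_comm]
    apply four
    intro v' hv'
    rw [Set.inter_comm]
    apply hUp x y _ _ (by omega)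
    · exact Set.inter_subset_left.trans (PathV_NPt (by omega) hv)
    · exact h2 I x y x' y' d v v' hd hdy hcase hdx hdy' hv hv'
  refine (four h3).trans (le_of_eq (by ring))

theorem meso_abs {C0 c C : ℝ} (hC0 : 0 < C0) (hU : TwoUp C0 (1/4)) (hc : 0 < c) (hC : 0 < C) :
    ∃ c' : ℝ, 0 < c' ∧ ∀ (I : Set ℤ) (Z : ℤ → ℤ → ℝ), HLow c I Z → HUp C I Z → HCmp Z →
    ∀ x y r : ℤ, 0 ≤ y → 0 ≤ r → 2 * r ≤ y + 1 →
      c' * (((r + 1 : ℤ) : ℝ) / ((y + 1 : ℤ) : ℝ)) ^ (1/4 : ℝ) * Z x y ≤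
        (bondLaw half).real (PathB I x y r) := by
  obtain ⟨C1, hC1, h1⟩ := one_pt hC0 hU hC
  obtain ⟨C2, hC2, h2⟩ := two_pt hC0 hU hC
  obtain ⟨c', hc', hb⟩ := ball_lower (c := c / 4) (C := max (4 * C1) (4 * C2)) (by positivity)
    (by positivity)
  have main : ∀ (I : Set ℤ) (Z : ℤ → ℤ → ℝ), HLow c I Z → HUp C I Z → HCmp Z →
      ∀ x y r : ℤ, 0 ≤ y → 0 ≤ r → 64 * r ≤ y + 1 →
      c' * (((r + 1 : ℤ) : ℝ) / ((y + 1 : ℤ) : ℝ)) ^ (1/4 : ℝ) * Z x y ≤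
        (bondLaw half).real (PathB I x y r) := by
    intro I Z hL hUp hZ x y r hy hr hry
    have hyr : (0 : ℝ) < ((y + 1 : ℤ) : ℝ) := by exact_mod_cast (by omega : 0 < y + 1)
    have hrr : (0 : ℝ) < ((r + 1 : ℤ) : ℝ) := by exact_mod_cast (by omega : 0 < r + 1)
    have hZ0 : 0 ≤ Z x y := hZ.1 x y hy
    have hw0 : 0 ≤ ((y + 1 : ℤ) : ℝ) ^ (-(1/4 : ℝ)) := by positivity
    have h3 := hb I x y r (((y + 1 : ℤ) : ℝ) ^ (-(1/4 : ℝ)) * Z x y) hr (by positivity) (by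
      intro x' y' hx' hy'
      have hy0' : 0 ≤ y' := by omega
      refine le_trans ?_ (hL x' y' hy0')
      have hyr' : (0 : ℝ) < ((y' + 1 : ℤ) : ℝ) := by exact_mod_cast (by omega : 0 < y' + 1)
      have e1 := quarter hyr' hyr (by exact_mod_cast (by omega : y' + 1 ≤ 16 * (y + 1)))
      have e2 := (hZ.2 x y x' y' r hy hy0' hr (abs_le.mpr ⟨by omega, by omega⟩)
        (abs_le.mpr ⟨by omega, by omega⟩) (by omega)).1
      calc c / 4 * (((y + 1 : ℤ) : ℝ) ^ (-(1/4 : ℝ)) * Z x y)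
          ≤ c / 4 * ((2 * ((y' + 1 : ℤ) : ℝ) ^ (-(1/4 : ℝ))) * (2 * Z x' y')) := by
            apply mul_le_mul_of_nonneg_left _ (by positivity)
            exact mul_le_mul e1 e2 hZ0 (by positivity)
        _ = _ := by ring) (by
      intro x' y' x'' y'' hx' hy' hx'' hy''
      have hy0' : 0 ≤ y' := by omega
      have hyr' : (0 : ℝ) < ((y' + 1 : ℤ) : ℝ) := by exact_mod_cast (by omega : 0 < y' + 1)
      have e1 := quarter hyr hyr' (by exact_mod_cast (by omega : y + 1 ≤ 16 * (y' + 1)))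
      have e2 := (hZ.2 x y x' y' r hy hy0' hr (abs_le.mpr ⟨by omega, by omega⟩)
        (abs_le.mpr ⟨by omega, by omega⟩) (by omega)).2
      have hZ0' : 0 ≤ Z x' y' := hZ.1 x' y' hy0'
      have e3 : ((y' + 1 : ℤ) : ℝ) ^ (-(1/4 : ℝ)) * Z x' y' ≤
          4 * (((y + 1 : ℤ) : ℝ) ^ (-(1/4 : ℝ)) * Z x y) := by
        calc ((y' + 1 : ℤ) : ℝ) ^ (-(1/4 : ℝ)) * Z x' y'
            ≤ (2 * ((y + 1 : ℤ) : ℝ) ^ (-(1/4 : ℝ))) * (2 * Z x y) :=
              mul_le_mul e1 e2 hZ0' (by positivity)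
          _ = _ := by ring
      have hw := wt_nonneg (x'' - x')
      obtain ⟨d, hd⟩ : ∃ d : ℤ, d = max |x'' - x'| |y'' - y'| := ⟨_, rfl⟩
      have q1 := abs_cases (x'' - x')
      have q2 := abs_cases (y'' - y')
      rcases le_or_gt d 0 with hd0 | hd0
      · have ex : x'' - x' = 0 := by omega
        have ew : wt (x'' - x') = 1 := by
          rw [ex]
          unfold wt
          simp
        rw [ew, mul_one]
        calc (bondLaw half).real (PathE I x' y' ∩ PathE I x'' y'')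
            ≤ (bondLaw half).real (PathE I x' y') := real_mono' Set.inter_subset_left
          _ ≤ C1 * ((y' + 1 : ℤ) : ℝ) ^ (-(1/4 : ℝ)) * Z x' y' := h1 I Z hUp hZ x' y' hy0'
          _ = C1 * (((y' + 1 : ℤ) : ℝ) ^ (-(1/4 : ℝ)) * Z x' y') := by ring
          _ ≤ C1 * (4 * (((y + 1 : ℤ) : ℝ) ^ (-(1/4 : ℝ)) * Z x y)) :=
              mul_le_mul_of_nonneg_left e3 hC1.le
          _ = (4 * C1) * (((y + 1 : ℤ) : ℝ) ^ (-(1/4 : ℝ)) * Z x y) := by ring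
          _ ≤ _ := mul_le_mul_of_nonneg_right (le_max_left _ _) (by positivity)
      · have h5 := h2 I Z hUp hZ x' y' x'' y'' d (by omega) (by omega) (by omega) (by omega)
          (by omega)
        have e5 : (d : ℝ) ^ (-(1/4 : ℝ)) ≤ wt (x'' - x') := by
          unfold wt
          apply Real.rpow_le_rpow_of_nonpos
          · exact_mod_cast (by omega : 0 < max 1 |x'' - x'|)
          · exact_mod_cast (by omega : max 1 |x'' - x'| ≤ d)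
          · norm_num
        have hdn : 0 ≤ (d : ℝ) ^ (-(1/4 : ℝ)) := by
          apply Real.rpow_nonneg
          exact_mod_cast hd0.le
        have hz' : 0 ≤ ((y' + 1 : ℤ) : ℝ) ^ (-(1/4 : ℝ)) * Z x' y' := by positivity
        calc (bondLaw half).real (PathE I x' y' ∩ PathE I x'' y'')
            ≤ C2 * ((d : ℝ) ^ (-(1/4 : ℝ)) * ((y' + 1 : ℤ) : ℝ) ^ (-(1/4 : ℝ))) * Z x' y' := h5
          _ = C2 * ((d : ℝ) ^ (-(1/4 : ℝ)) *
                (((y' + 1 : ℤ) : ℝ) ^ (-(1/4 : ℝ)) * Z x' y')) := by ring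
          _ ≤ C2 * (wt (x'' - x') * (4 * (((y + 1 : ℤ) : ℝ) ^ (-(1/4 : ℝ)) * Z x y))) := by
              apply mul_le_mul_of_nonneg_left _ hC2.le
              exact mul_le_mul e5 e3 hz' hw
          _ = (4 * C2) * ((((y + 1 : ℤ) : ℝ) ^ (-(1/4 : ℝ)) * Z x y) * wt (x'' - x')) := by ring
          _ ≤ (max (4 * C1) (4 * C2)) *
                ((((y + 1 : ℤ) : ℝ) ^ (-(1/4 : ℝ)) * Z x y) * wt (x'' - x')) :=
              mul_le_mul_of_nonneg_right (le_max_right _ _) (by positivity)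
          _ = _ := by ring)
    refine le_trans (le_of_eq ?_) h3
    rw [Real.div_rpow hrr.le hyr.le, Real.rpow_neg hyr.le]
    field_simp
  refine ⟨c' / 4, by positivity, ?_⟩
  intro I Z hL hUp hZ x y r hy hr hry
  have hyr : (0 : ℝ) < ((y + 1 : ℤ) : ℝ) := by exact_mod_cast (by omega : 0 < y + 1)
  have hrr : (0 : ℝ) < ((r + 1 : ℤ) : ℝ) := by exact_mod_cast (by omega : 0 < r + 1)
  have hZ0 : 0 ≤ Z x y := hZ.1 x y hy
  have hA0 : 0 ≤ (((r + 1 : ℤ) : ℝ) / ((y + 1 : ℤ) : ℝ)) ^ (1/4 : ℝ) := by positivity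
  rcases le_or_gt (64 * r) (y + 1) with h64 | h64
  · refine le_trans ?_ (main I Z hL hUp hZ x y r hy hr h64)
    rw [mul_assoc, mul_assoc]
    exact mul_le_mul_of_nonneg_right (by linarith) (by positivity)
  · obtain ⟨r0, hr0⟩ : ∃ r0 : ℤ, r0 = (y + 1) / 64 := ⟨_, rfl⟩
    have h5 := main I Z hL hUp hZ x y r0 hy (by omega) (by omega)
    have hr0r : (0 : ℝ) < ((r0 + 1 : ℤ) : ℝ) := by exact_mod_cast (by omega : 0 < r0 + 1)
    have hsub : PathB I x y r0 ⊆ PathB I x y r := by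
      rintro ω ⟨x', y', g1, g2, g3⟩
      exact ⟨x', y', by omega, by omega, g3⟩
    refine le_trans ?_ (h5.trans (real_mono' hsub))
    have e1 : ((r + 1 : ℤ) : ℝ) / ((y + 1 : ℤ) : ℝ) ≤
        4 ^ 4 * (((r0 + 1 : ℤ) : ℝ) / ((y + 1 : ℤ) : ℝ)) := by
      rw [mul_div_assoc', div_le_div_iff_of_pos_right hyr]
      have h7 : ((r + 1 : ℤ) : ℝ) ≤ 256 * ((r0 + 1 : ℤ) : ℝ) := by
        exact_mod_cast (by omega : r + 1 ≤ 256 * (r0 + 1))
      linarith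
    have e2 := quarter_up (by positivity) (by positivity) (by norm_num) e1
    calc c' / 4 * (((r + 1 : ℤ) : ℝ) / ((y + 1 : ℤ) : ℝ)) ^ (1/4 : ℝ) * Z x y
        ≤ c' / 4 * (4 * (((r0 + 1 : ℤ) : ℝ) / ((y + 1 : ℤ) : ℝ)) ^ (1/4 : ℝ)) * Z x y := by
          apply mul_le_mul_of_nonneg_right _ hZ0
          exact mul_le_mul_of_nonneg_left e2 (by positivity)
      _ = _ := by ring

theorem meso_up {C : ℝ} (hC : 0 < C) :
    ∃ C' : ℝ, 0 < C' ∧ ∀ (I : Set ℤ) (Z : ℤ → ℤ → ℝ), HUp C I Z →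
    ∀ x y r : ℤ, 0 ≤ y → 0 ≤ r → 2 * r ≤ y + 1 →
      (bondLaw half).real (PathB I x y r) ≤
        C' * (((r + 1 : ℤ) : ℝ) / ((y + 1 : ℤ) : ℝ)) ^ (1/4 : ℝ) * Z x y := by
  obtain ⟨C1, hC1, h1⟩ := loc_meso
  refine ⟨C * C1, by positivity, ?_⟩
  intro I Z hUp x y r hy hr hry
  refine (hUp x y _ _ hy (PathB_sub hry) (h1 I x y r hy hr hry)).trans (le_of_eq (by ring))

end Pool.Agent.H67GF
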