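import Pool.Agent.H67GF.Ball

/-!
Distance from a face to the exploration path: bounds in terms of the angle of view.
-/

set_option autoImplicit false

namespace Pool.Agent.H67GF

open H974 H731C H342P Finset MeasureTheory Filter Topology Pool.Agent.H67LP

theorem Psi_near {h l p q h' p' q' : ℝ} (hh : 1 ≤ h) (hh' : 1 ≤ h') (hl : 1 ≤ l) (hp : 0 ≤ p)
    (hq : 0 ≤ q) (hp' : 0 ≤ p') (hq' : 0 ≤ q') (h1 : h ≤ 2 * h') (h2 : p' + h' ≤ 2 * (p + h))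
    (h3 : q' + h' ≤ 2 * (q + h)) : Psi h l p q ≤ 8 * Psi h' l p' q' := by
  unfold Psi
  rw [mul_div_assoc', div_le_div_iff₀ (by positivity) (by positivity)]
  have k1 : (p' + h') * (q' + h') ≤ (2 * (p + h)) * (2 * (q + h)) :=
    mul_le_mul h2 h3 (by positivity) (by positivity)
  calc h * l * ((p' + h') * (q' + h')) ≤ (2 * h') * l * ((2 * (p + h)) * (2 * (q + h))) :=
        mul_le_mul (mul_le_mul_of_nonneg_right h1 (by linarith)) k1 (by positivity)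
          (by positivity)
    _ = _ := by ring

/-- the boundary factor for intervals -/
noncomputable def ZI (a b x y : ℤ) : ℝ :=
  (Psi ((y + 1 : ℤ) : ℝ) ((b - a + 1 : ℤ) : ℝ) ((|x - a| : ℤ) : ℝ) ((|x - b| : ℤ) : ℝ)) ^
    ((1 : ℝ) / 3)

/-- the boundary factor for half-lines -/
noncomputable def ZH (b x y : ℤ) : ℝ :=
  (((y + 1 : ℤ) : ℝ) / (((|x - b| : ℤ) : ℝ) + ((y + 1 : ℤ) : ℝ))) ^ ((1 : ℝ) / 3)

theorem ZI_near {a b x y x' y' r : ℤ} (hab : a ≤ b) (hy : 0 ≤ y) (hy' : 0 ≤ y') (_hr : 0 ≤ r)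
    (hx1 : |x' - x| ≤ r) (hy1 : |y' - y| ≤ r) (h1 : 16 * r ≤ y + 1) (h2 : 16 * r ≤ y' + 1) :
    ZI a b x y ≤ 2 * ZI a b x' y' := by
  have q1 := abs_cases (x' - x)
  have q2 := abs_cases (y' - y)
  have q3 := abs_cases (x - a)
  have q4 := abs_cases (x' - a)
  have q5 := abs_cases (x - b)
  have q6 := abs_cases (x' - b)
  have hh : (1 : ℝ) ≤ ((y + 1 : ℤ) : ℝ) := by exact_mod_cast (by omega : 1 ≤ y + 1)
  have hh' : (1 : ℝ) ≤ ((y' + 1 : ℤ) : ℝ) := by exact_mod_cast (by omega : 1 ≤ y' + 1)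
  have hl : (1 : ℝ) ≤ ((b - a + 1 : ℤ) : ℝ) := by exact_mod_cast (by omega : 1 ≤ b - a + 1)
  have e1 : Psi ((y + 1 : ℤ) : ℝ) ((b - a + 1 : ℤ) : ℝ) ((|x - a| : ℤ) : ℝ)
      ((|x - b| : ℤ) : ℝ) ≤ 8 * Psi ((y' + 1 : ℤ) : ℝ) ((b - a + 1 : ℤ) : ℝ)
        ((|x' - a| : ℤ) : ℝ) ((|x' - b| : ℤ) : ℝ) := by
    apply Psi_near hh hh' hl (by exact_mod_cast abs_nonneg _) (by exact_mod_cast abs_nonneg _)
      (by exact_mod_cast abs_nonneg _) (by exact_mod_cast abs_nonneg _)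
    · exact_mod_cast (by omega : y + 1 ≤ 2 * (y' + 1))
    · exact_mod_cast (by omega : |x' - a| + (y' + 1) ≤ 2 * (|x - a| + (y + 1)))
    · exact_mod_cast (by omega : |x' - b| + (y' + 1) ≤ 2 * (|x - b| + (y + 1)))
  exact cube_root_le (K := 2) (Psi_nonneg hh hl (by exact_mod_cast abs_nonneg _)
    (by exact_mod_cast abs_nonneg _)) (Psi_nonneg hh' hl (by exact_mod_cast abs_nonneg _)
    (by exact_mod_cast abs_nonneg _)) (by norm_num) e1 (by norm_num)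

theorem ZH_near {b x y x' y' r : ℤ} (hy : 0 ≤ y) (hy' : 0 ≤ y') (_hr : 0 ≤ r)
    (hx1 : |x' - x| ≤ r) (hy1 : |y' - y| ≤ r) (h1 : 16 * r ≤ y + 1) (h2 : 16 * r ≤ y' + 1) :
    ZH b x y ≤ 2 * ZH b x' y' := by
  have q1 := abs_cases (x' - x)
  have q2 := abs_cases (y' - y)
  have q5 := abs_cases (x - b)
  have q6 := abs_cases (x' - b)
  have hh : (1 : ℝ) ≤ ((y + 1 : ℤ) : ℝ) := by exact_mod_cast (by omega : 1 ≤ y + 1)
  have hh' : (1 : ℝ) ≤ ((y' + 1 : ℤ) : ℝ) := by exact_mod_cast (by omega : 1 ≤ y' + 1)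
  have hq : (0 : ℝ) ≤ ((|x - b| : ℤ) : ℝ) := by exact_mod_cast abs_nonneg _
  have hq' : (0 : ℝ) ≤ ((|x' - b| : ℤ) : ℝ) := by exact_mod_cast abs_nonneg _
  have e1 : ((y + 1 : ℤ) : ℝ) / (((|x - b| : ℤ) : ℝ) + ((y + 1 : ℤ) : ℝ)) ≤
      8 * (((y' + 1 : ℤ) : ℝ) / (((|x' - b| : ℤ) : ℝ) + ((y' + 1 : ℤ) : ℝ))) := by
    rw [mul_div_assoc', div_le_div_iff₀ (by positivity) (by positivity)]
    have k1 : ((y + 1 : ℤ) : ℝ) ≤ 2 * ((y' + 1 : ℤ) : ℝ) := by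
      exact_mod_cast (by omega : y + 1 ≤ 2 * (y' + 1))
    have k2 : ((|x' - b| : ℤ) : ℝ) + ((y' + 1 : ℤ) : ℝ) ≤
        2 * (((|x - b| : ℤ) : ℝ) + ((y + 1 : ℤ) : ℝ)) := by
      exact_mod_cast (by omega : |x' - b| + (y' + 1) ≤ 2 * (|x - b| + (y + 1)))
    calc ((y + 1 : ℤ) : ℝ) * (((|x' - b| : ℤ) : ℝ) + ((y' + 1 : ℤ) : ℝ))
        ≤ (2 * ((y' + 1 : ℤ) : ℝ)) * (2 * (((|x - b| : ℤ) : ℝ) + ((y + 1 : ℤ) : ℝ))) :=
          mul_le_mul k1 k2 (by positivity) (by positivity)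
      _ = 4 * (((y' + 1 : ℤ) : ℝ) * (((|x - b| : ℤ) : ℝ) + ((y + 1 : ℤ) : ℝ))) := by ring
      _ ≤ 8 * (((y' + 1 : ℤ) : ℝ) * (((|x - b| : ℤ) : ℝ) + ((y + 1 : ℤ) : ℝ))) :=
          mul_le_mul_of_nonneg_right (by norm_num) (by positivity)
      _ = _ := by ring
  exact cube_root_le (K := 2) (by positivity) (by positivity) (by norm_num) e1 (by norm_num)

theorem cmpI {a b : ℤ} (hab : a ≤ b) : HCmp (ZI a b) := by
  constructor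
  · intro x y hy
    have hh : (1 : ℝ) ≤ ((y + 1 : ℤ) : ℝ) := by exact_mod_cast (by omega : 1 ≤ y + 1)
    have hl : (1 : ℝ) ≤ ((b - a + 1 : ℤ) : ℝ) := by exact_mod_cast (by omega : 1 ≤ b - a + 1)
    unfold ZI
    apply Real.rpow_nonneg
    exact Psi_nonneg hh hl (by exact_mod_cast abs_nonneg _) (by exact_mod_cast abs_nonneg _)
  · intro x y x' y' r hy hy' hr hx1 hy1 h
    have q2 := abs_cases (y' - y)
    have k1 : 16 * r ≤ y + 1 := by omega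
    have k2 : 16 * r ≤ y' + 1 := by omega
    refine ⟨ZI_near hab hy hy' hr hx1 hy1 k1 k2, ?_⟩
    rw [abs_sub_comm] at hx1 hy1
    exact ZI_near hab hy' hy hr hx1 hy1 k2 k1

theorem cmpH (b : ℤ) : HCmp (ZH b) := by
  constructor
  · intro x y hy
    have hh : (1 : ℝ) ≤ ((y + 1 : ℤ) : ℝ) := by exact_mod_cast (by omega : 1 ≤ y + 1)
    have hq : (0 : ℝ) ≤ ((|x - b| : ℤ) : ℝ) := by exact_mod_cast abs_nonneg _
    unfold ZH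
    positivity
  · intro x y x' y' r hy hy' hr hx1 hy1 h
    have q2 := abs_cases (y' - y)
    have k1 : 16 * r ≤ y + 1 := by omega
    have k2 : 16 * r ≤ y' + 1 := by omega
    refine ⟨ZH_near hy hy' hr hx1 hy1 k1 k2, ?_⟩
    rw [abs_sub_comm] at hx1 hy1
    exact ZH_near hy' hy hr hx1 hy1 k2 k1

/-- bounds on all scales, and for two faces -/
theorem scales : ∃ c C : ℝ, 0 < c ∧ 0 < C ∧ ∀ (I : Set ℤ) (Z : ℤ → ℤ → ℝ),
    ((∃ a b : ℤ, a ≤ b ∧ I = Set.Icc a b ∧ Z = ZI a b) ∨ (∃ b : ℤ, I = Set.Iic b ∧ Z = ZH b)) →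
    (∀ x y r : ℤ, 0 ≤ y → 0 ≤ r → 2 * r ≤ y + 1 →
      c * (((r + 1 : ℤ) : ℝ) / ((y + 1 : ℤ) : ℝ)) ^ (1/4 : ℝ) * Z x y ≤
        (bondLaw half).real (PathB I x y r) ∧
      (bondLaw half).real (PathB I x y r) ≤
        C * (((r + 1 : ℤ) : ℝ) / ((y + 1 : ℤ) : ℝ)) ^ (1/4 : ℝ) * Z x y) ∧
    (∀ x y x' y' d : ℤ, 1 ≤ d → 16 * d ≤ y + 1 → (d = |x' - x| ∨ d = |y' - y|) → |x' - x| ≤ d →
      |y' - y| ≤ d → (bondLaw half).real (PathE I x y ∩ PathE I x' y') ≤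
        C * ((d : ℝ) ^ (-(1/4 : ℝ)) * ((y + 1 : ℤ) : ℝ) ^ (-(1/4 : ℝ))) * Z x y) := by
  obtain ⟨⟨κ, hκ, hL⟩, C0, hC0, hU⟩ := inputs
  obtain ⟨c1, hc1, l1⟩ := path_lower hκ hL
  obtain ⟨c2, hc2, l2⟩ := path_lower_Iic hκ hL
  obtain ⟨C1, hC1, u1⟩ := gen_upper
  obtain ⟨C2, hC2, u2⟩ := gen_upper_Iic
  obtain ⟨c3, hc3, m1⟩ := meso_abs hC0 hU hc1 hC1
  obtain ⟨c4, hc4, m2⟩ := meso_abs hC0 hU hc2 hC2
  obtain ⟨C3, hC3, n1⟩ := meso_up hC1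
  obtain ⟨C4, hC4, n2⟩ := meso_up hC2
  obtain ⟨C5, hC5, t1⟩ := two_pt hC0 hU hC1
  obtain ⟨C6, hC6, t2⟩ := two_pt hC0 hU hC2
  refine ⟨min c3 c4, C3 + C4 + C5 + C6, by positivity, by positivity, ?_⟩
  rintro I Z (⟨a, b, hab, rfl, rfl⟩ | ⟨b, rfl, rfl⟩)
  · have H1 : HLow c1 (Set.Icc a b) (ZI a b) := fun x y hy => l1 a b x y hab hy
    have H2 : HUp C1 (Set.Icc a b) (ZI a b) := fun x y E X0 hy hE hX => u1 a b x y E X0 hab hy hE hX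
    have H3 := cmpI hab
    constructor
    · intro x y r hy hr hry
      have hyr : (0 : ℝ) < ((y + 1 : ℤ) : ℝ) := by exact_mod_cast (by omega : 0 < y + 1)
      have hrr : (0 : ℝ) < ((r + 1 : ℤ) : ℝ) := by exact_mod_cast (by omega : 0 < r + 1)
      have hn : 0 ≤ (((r + 1 : ℤ) : ℝ) / ((y + 1 : ℤ) : ℝ)) ^ (1/4 : ℝ) * ZI a b x y :=
        mul_nonneg (by positivity) (H3.1 x y hy)
      constructor
      · refine le_trans ?_ (m1 _ _ H1 H2 H3 x y r hy hr hry)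
        rw [mul_assoc, mul_assoc]
        exact mul_le_mul_of_nonneg_right (min_le_left _ _) hn
      · refine (n1 _ _ H2 x y r hy hr hry).trans ?_
        rw [mul_assoc, mul_assoc]
        exact mul_le_mul_of_nonneg_right (by linarith) hn
    · intro x y x' y' d hd hdy hcase hdx hdy'
      have hyr : (0 : ℝ) < ((y + 1 : ℤ) : ℝ) := by exact_mod_cast (by omega : 0 < y + 1)
      have hdr : (0 : ℝ) < (d : ℝ) := by exact_mod_cast (by omega : 0 < d)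
      refine (t1 _ _ H2 H3 x y x' y' d hd hdy hcase hdx hdy').trans ?_
      have hn : 0 ≤ ((d : ℝ) ^ (-(1/4 : ℝ)) * ((y + 1 : ℤ) : ℝ) ^ (-(1/4 : ℝ))) * ZI a b x y :=
        mul_nonneg (by positivity) (H3.1 x y (by omega))
      calc C5 * ((d : ℝ) ^ (-(1/4 : ℝ)) * ((y + 1 : ℤ) : ℝ) ^ (-(1/4 : ℝ))) * ZI a b x y
          = C5 * (((d : ℝ) ^ (-(1/4 : ℝ)) * ((y + 1 : ℤ) : ℝ) ^ (-(1/4 : ℝ))) * ZI a b x y) := by ring
        _ ≤ (C3 + C4 + C5 + C6) *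
            (((d : ℝ) ^ (-(1/4 : ℝ)) * ((y + 1 : ℤ) : ℝ) ^ (-(1/4 : ℝ))) * ZI a b x y) :=
            mul_le_mul_of_nonneg_right (by linarith) hn
        _ = _ := by ring
  · have H1 : HLow c2 (Set.Iic b) (ZH b) := fun x y hy => l2 b x y hy
    have H2 : HUp C2 (Set.Iic b) (ZH b) := fun x y E X0 hy hE hX => u2 b x y E X0 hy hE hX
    have H3 := cmpH b
    constructor
    · intro x y r hy hr hry
      have hyr : (0 : ℝ) < ((y + 1 : ℤ) : ℝ) := by exact_mod_cast (by omega : 0 < y + 1)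
      have hrr : (0 : ℝ) < ((r + 1 : ℤ) : ℝ) := by exact_mod_cast (by omega : 0 < r + 1)
      have hn : 0 ≤ (((r + 1 : ℤ) : ℝ) / ((y + 1 : ℤ) : ℝ)) ^ (1/4 : ℝ) * ZH b x y :=
        mul_nonneg (by positivity) (H3.1 x y hy)
      constructor
      · refine le_trans ?_ (m2 _ _ H1 H2 H3 x y r hy hr hry)
        rw [mul_assoc, mul_assoc]
        exact mul_le_mul_of_nonneg_right (min_le_right _ _) hn
      · refine (n2 _ _ H2 x y r hy hr hry).trans ?_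
        rw [mul_assoc, mul_assoc]
        exact mul_le_mul_of_nonneg_right (by linarith) hn
    · intro x y x' y' d hd hdy hcase hdx hdy'
      have hyr : (0 : ℝ) < ((y + 1 : ℤ) : ℝ) := by exact_mod_cast (by omega : 0 < y + 1)
      have hdr : (0 : ℝ) < (d : ℝ) := by exact_mod_cast (by omega : 0 < d)
      refine (t2 _ _ H2 H3 x y x' y' d hd hdy hcase hdx hdy').trans ?_
      have hn : 0 ≤ ((d : ℝ) ^ (-(1/4 : ℝ)) * ((y + 1 : ℤ) : ℝ) ^ (-(1/4 : ℝ))) * ZH b x y :=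
        mul_nonneg (by positivity) (H3.1 x y (by omega))
      calc C6 * ((d : ℝ) ^ (-(1/4 : ℝ)) * ((y + 1 : ℤ) : ℝ) ^ (-(1/4 : ℝ))) * ZH b x y
          = C6 * (((d : ℝ) ^ (-(1/4 : ℝ)) * ((y + 1 : ℤ) : ℝ) ^ (-(1/4 : ℝ))) * ZH b x y) := by ring
        _ ≤ (C3 + C4 + C5 + C6) *
            (((d : ℝ) ^ (-(1/4 : ℝ)) * ((y + 1 : ℤ) : ℝ) ^ (-(1/4 : ℝ))) * ZH b x y) :=
            mul_le_mul_of_nonneg_right (by linarith) hn
        _ = _ := by ring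

theorem ZI_sin {a b x y : ℤ} (hab : a ≤ b) (hy : 0 ≤ y) :
    ZI a b x y ≤ 2 * Real.sin (vw a b x y) ^ ((1 : ℝ) / 3) ∧
    Real.sin (vw a b x y) ^ ((1 : ℝ) / 3) ≤ 4 * ZI a b x y := by
  have hh : (1 : ℝ) ≤ ((y + 1 : ℤ) : ℝ) := by exact_mod_cast (by omega : 1 ≤ y + 1)
  have hl : (1 : ℝ) ≤ ((b - a + 1 : ℤ) : ℝ) := by exact_mod_cast (by omega : 1 ≤ b - a + 1)
  obtain ⟨g1, g2⟩ := vw_cmp (x := x) hab hy
  have hX := Psi_nonneg hh hl (p := ((|x - a| : ℤ) : ℝ)) (q := ((|x - b| : ℤ) : ℝ))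
    (by exact_mod_cast abs_nonneg _) (by exact_mod_cast abs_nonneg _)
  have hS : 0 ≤ Real.sin (vw a b x y) := by linarith
  exact ⟨cube_root_le (K := 2) hX hS (by norm_num) g1 (by norm_num),
    cube_root_le (K := 4) hS hX (by norm_num) g2 (by norm_num)⟩

theorem ZH_sin {b x y : ℤ} (hy : 0 ≤ y) :
    ZH b x y ≤ 2 * Real.sin (vwInf b x y) ^ ((1 : ℝ) / 3) ∧
    Real.sin (vwInf b x y) ^ ((1 : ℝ) / 3) ≤ 4 * ZH b x y := by
  have hh : (1 : ℝ) ≤ ((y + 1 : ℤ) : ℝ) := by exact_mod_cast (by omega : 1 ≤ y + 1)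
  have hq : (0 : ℝ) ≤ ((|x - b| : ℤ) : ℝ) := by exact_mod_cast abs_nonneg _
  obtain ⟨g1, g2⟩ := vwInf_cmp (b := b) (x := x) hy
  have hX : 0 ≤ ((y + 1 : ℤ) : ℝ) / (((|x - b| : ℤ) : ℝ) + ((y + 1 : ℤ) : ℝ)) := by
    positivity
  have hS : 0 ≤ Real.sin (vwInf b x y) := by linarith
  exact ⟨cube_root_le (K := 2) hX hS (by norm_num) g1 (by norm_num),
    cube_root_le (K := 4) hS hX (by norm_num) g2 (by norm_num)⟩

theorem arg_cmp {z : ℂ} {δ : ℝ} (hδ : 0 < δ) (hz : 2 * δ ≤ z.im) :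
    ZH 0 ⌊z.re / δ⌋ ⌊z.im / δ⌋ ≤ 4 * Real.sin z.arg ^ ((1 : ℝ) / 3) ∧
    Real.sin z.arg ^ ((1 : ℝ) / 3) ≤ 4 * ZH 0 ⌊z.re / δ⌋ ⌊z.im / δ⌋ := by
  have hzi : 0 < z.im := by linarith
  have hn : 0 < ‖z‖ := by
    apply norm_pos_iff.mpr
    intro h0
    rw [h0] at hzi
    simp at hzi
  have hsin : Real.sin z.arg = z.im / ‖z‖ := Complex.sin_arg z
  obtain ⟨Y, hY⟩ : ∃ Y : ℤ, Y = ⌊z.im / δ⌋ := ⟨_, rfl⟩
  obtain ⟨X, hX⟩ : ∃ X : ℤ, X = ⌊z.re / δ⌋ := ⟨_, rfl⟩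
  rw [← hY, ← hX]
  have y1 : (Y : ℝ) ≤ z.im / δ := by rw [hY]; exact Int.floor_le _
  have y2 : z.im / δ < (Y : ℝ) + 1 := by rw [hY]; exact Int.lt_floor_add_one _
  have x1 : (X : ℝ) ≤ z.re / δ := by rw [hX]; exact Int.floor_le _
  have x2 : z.re / δ < (X : ℝ) + 1 := by rw [hX]; exact Int.lt_floor_add_one _
  have t1 : 2 ≤ z.im / δ := by rw [le_div_iff₀ hδ]; exact hz
  obtain ⟨t, ht⟩ : ∃ t : ℝ, t = z.im / δ := ⟨_, rfl⟩
  obtain ⟨u, hu⟩ : ∃ u : ℝ, u = z.re / δ := ⟨_, rfl⟩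
  rw [← ht] at y1 y2 t1
  rw [← hu] at x1 x2
  have t0 : 0 < t := by linarith
  have hnn : ‖z‖ / δ = Real.sqrt (u ^ 2 + t ^ 2) := by
    have h5 : u ^ 2 + t ^ 2 = (‖z‖ / δ) ^ 2 := by
      rw [hu, ht, div_pow, div_pow, div_pow, ← add_div]
      congr 1
      rw [← Complex.normSq_eq_norm_sq, Complex.normSq_apply]
      ring
    rw [h5, Real.sqrt_sq (by positivity)]
  have hS : Real.sin z.arg = t / (‖z‖ / δ) := by
    rw [hsin, ht]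
    field_simp
  have hd : |u - (X : ℝ)| ≤ 1 := abs_le.mpr ⟨by linarith, by linarith⟩
  have Xa : |(X : ℝ)| ≤ |u| + 1 := by
    have k1 := abs_sub_abs_le_abs_sub (X : ℝ) u
    rw [abs_sub_comm] at k1
    linarith
  have Xb : |u| ≤ |(X : ℝ)| + 1 := by
    have k1 := abs_sub_abs_le_abs_sub u (X : ℝ)
    linarith
  obtain ⟨r1, r2⟩ := root_bounds (h := t) (η := t) (B := u) (q := |(X : ℝ)|) (by linarith) le_rfl
    (by linarith) Xa Xb (abs_nonneg _)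
  have e2 : t ^ 2 + u ^ 2 = u ^ 2 + t ^ 2 := by ring
  rw [e2, ← hnn] at r1 r2
  unfold ZH
  have hq : ((|X - 0| : ℤ) : ℝ) = |(X : ℝ)| := by push_cast; rw [sub_zero]
  have e1 : ((Y + 1 : ℤ) : ℝ) = (Y : ℝ) + 1 := by push_cast; rfl
  rw [hq, e1]
  set w : ℝ := |(X : ℝ)| with hw
  have hw0 : 0 ≤ w := abs_nonneg _
  set R : ℝ := ‖z‖ / δ with hR
  have hR0 : 0 < R := by linarith
  set H : ℝ := (Y : ℝ) + 1 with hH
  have H1 : t ≤ H := y2.le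
  have H2 : H ≤ 2 * t := by linarith
  have H0 : 0 < H := by linarith
  have s1 : H / (w + H) ≤ 64 * Real.sin z.arg := by
    rw [hS, mul_div_assoc', div_le_div_iff₀ (by positivity) hR0]
    have a1 : H * R ≤ 2 * t * (2 * (w + t)) := mul_le_mul H2 r2 hR0.le (by linarith)
    have a2 : 2 * t * (2 * (w + t)) ≤ 64 * t * (w + H) := by nlinarith
    linarith
  have s2 : Real.sin z.arg ≤ 64 * (H / (w + H)) := by
    rw [hS, mul_div_assoc', div_le_div_iff₀ hR0 (by positivity)]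
    have a1 : t * (w + H) ≤ H * (2 * (w + t)) := by nlinarith
    have a2 : H * (2 * (w + t)) ≤ H * (64 * R) := mul_le_mul_of_nonneg_left (by linarith) H0.le
    linarith
  have hS0 : 0 ≤ Real.sin z.arg := by
    rw [hS]; positivity
  exact ⟨cube_root_le (K := 4) (by positivity) hS0 (by norm_num) s1 (by norm_num),
    cube_root_le (K := 4) hS0 (by positivity) (by norm_num) s2 (by norm_num)⟩

/-- the rescaled path comes within distance `ρ` of `z` -/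
def NearP (δ ρ : ℝ) (z : ℂ) : Set (sqLattice.edgeSet → Bool) :=
  {ω | ∃ x' y' : ℤ, ω ∈ PathE (Set.Iic 0) x' y' ∧
    ‖(δ : ℂ) * ((x' : ℂ) + (y' : ℂ) * Complex.I) - z‖ ≤ ρ}

theorem near_sub {z : ℂ} {δ ρ : ℝ} (hδ : 0 < δ) (hρ : 2 * δ ≤ ρ) :
    PathB (Set.Iic 0) ⌊z.re / δ⌋ ⌊z.im / δ⌋ (⌊ρ / (2 * δ)⌋ - 1) ⊆ NearP δ ρ z := by
  rintro ω ⟨x', y', hx', hy', hω⟩
  refine ⟨x', y', hω, ?_⟩
  have h2δ : 0 < 2 * δ := by linarith
  have f1 : (⌊ρ / (2 * δ)⌋ : ℝ) ≤ ρ / (2 * δ) := Int.floor_le _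
  have key : ∀ (u : ℝ) (n : ℤ), ⌊u / δ⌋ - (⌊ρ / (2 * δ)⌋ - 1) ≤ n →
      n ≤ ⌊u / δ⌋ + (⌊ρ / (2 * δ)⌋ - 1) → |δ * (n : ℝ) - u| ≤ ρ / 2 := by
    intro u n h1 h2
    have g1 : (⌊u / δ⌋ : ℝ) ≤ u / δ := Int.floor_le _
    have g2 : u / δ < (⌊u / δ⌋ : ℝ) + 1 := Int.lt_floor_add_one _
    have h1' : (⌊u / δ⌋ : ℝ) - ((⌊ρ / (2 * δ)⌋ : ℝ) - 1) ≤ (n : ℝ) := by exact_mod_cast h1
    have h2' : (n : ℝ) ≤ (⌊u / δ⌋ : ℝ) + ((⌊ρ / (2 * δ)⌋ : ℝ) - 1) := by exact_mod_cast h2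
    have e1 : δ * (n : ℝ) - u = δ * ((n : ℝ) - u / δ) := by field_simp
    have e2 : ρ / 2 = δ * (ρ / (2 * δ)) := by field_simp
    rw [e1, e2, abs_mul, abs_of_pos hδ]
    apply mul_le_mul_of_nonneg_left _ hδ.le
    rw [abs_le]
    constructor <;> linarith
  have k1 := key z.re x' hx'.1 hx'.2
  have k2 := key z.im y' hy'.1 hy'.2
  have h3 := Complex.norm_le_abs_re_add_abs_im ((δ : ℂ) * ((x' : ℂ) + (y' : ℂ) * Complex.I) - z)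
  have e1 : ((δ : ℂ) * ((x' : ℂ) + (y' : ℂ) * Complex.I) - z).re = δ * (x' : ℝ) - z.re := by
    simp
  have e2 : ((δ : ℂ) * ((x' : ℂ) + (y' : ℂ) * Complex.I) - z).im = δ * (y' : ℝ) - z.im := by
    simp
  rw [e1, e2] at h3
  linarith

theorem sub_near {z : ℂ} {δ ρ : ℝ} (hδ : 0 < δ) :
    NearP δ ρ z ⊆ PathB (Set.Iic 0) ⌊z.re / δ⌋ ⌊z.im / δ⌋ (⌊ρ / δ⌋ + 1) := by
  rintro ω ⟨x', y', hω, hn⟩
  have f2 : ρ / δ < (⌊ρ / δ⌋ : ℝ) + 1 := Int.lt_floor_add_one _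
  have key : ∀ (u : ℝ) (n : ℤ), |δ * (n : ℝ) - u| ≤ ρ →
      ⌊u / δ⌋ - (⌊ρ / δ⌋ + 1) ≤ n ∧ n ≤ ⌊u / δ⌋ + (⌊ρ / δ⌋ + 1) := by
    intro u n h
    have g1 : (⌊u / δ⌋ : ℝ) ≤ u / δ := Int.floor_le _
    have g2 : u / δ < (⌊u / δ⌋ : ℝ) + 1 := Int.lt_floor_add_one _
    have e1 : δ * (n : ℝ) - u = δ * ((n : ℝ) - u / δ) := by field_simp
    have e2 : ρ = δ * (ρ / δ) := by field_simp
    rw [e1, e2, abs_mul, abs_of_pos hδ] at h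
    have h1 := le_of_mul_le_mul_left h hδ
    rw [abs_le] at h1
    constructor
    · have : (⌊u / δ⌋ : ℝ) - ((⌊ρ / δ⌋ : ℝ) + 1) < (n : ℝ) + 1 := by linarith
      have h5 : ⌊u / δ⌋ - (⌊ρ / δ⌋ + 1) < n + 1 := by exact_mod_cast this
      omega
    · have : (n : ℝ) < (⌊u / δ⌋ : ℝ) + 1 + ((⌊ρ / δ⌋ : ℝ) + 1) := by linarith
      have h5 : n < ⌊u / δ⌋ + 1 + (⌊ρ / δ⌋ + 1) := by exact_mod_cast this
      omega
  have e1 : ((δ : ℂ) * ((x' : ℂ) + (y' : ℂ) * Complex.I) - z).re = δ * (x' : ℝ) - z.re := by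
    simp
  have e2 : ((δ : ℂ) * ((x' : ℂ) + (y' : ℂ) * Complex.I) - z).im = δ * (y' : ℝ) - z.im := by
    simp
  have k1 := (Complex.abs_re_le_norm ((δ : ℂ) * ((x' : ℂ) + (y' : ℂ) * Complex.I) - z)).trans hn
  have k2 := (Complex.abs_im_le_norm ((δ : ℂ) * ((x' : ℂ) + (y' : ℂ) * Complex.I) - z)).trans hn
  rw [e1] at k1
  rw [e2] at k2
  exact ⟨x', y', key _ _ k1, key _ _ k2, hω⟩

end Pool.Agent.H67GF
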