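import Pool.Agent.H67GF.Scal

/-!
The exploration path of a half-line comes close to a point, at all scales: upper bounds in
half-boxes.
-/

set_option autoImplicit false

namespace Pool.Agent.H67GF

open H974 H731C H342P Finset MeasureTheory Filter Topology Pool.Agent.H67LP

/-- the path passes at some face of the half-box -/
def NPs (I : Set ℤ) (x y : ℤ) : Set (sqLattice.edgeSet → Bool) :=
  {ω | ∃ (x' y' : ℤ) (v : Vtx), (x - (y + 1) ≤ x' ∧ x' ≤ x + (y + 1)) ∧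
    (0 ≤ y' ∧ y' ≤ y + 1) ∧ Cor (x', y') v ∧ DC I (opn ω) (x', y') ∧ CI I (opn ω) v}

theorem far_gen2 : ∃ C : ℝ, 0 < C ∧
    ∀ (a b x y D : ℤ) (E : Set (sqLattice.edgeSet → Bool)) (X0 : ℝ), a ≤ b → 0 ≤ y →
    (D = x - b ∨ D = a - x) → 12 * (y + 1) ≤ D → E ⊆ NPs (Set.Icc a b) x y → Loc x y E X0 →
    (bondLaw half).real E ≤ C * X0 * (Phi (2 * (y + 1)) (b - a + 1) D) ^ ((1 : ℝ) / 3) := by
  obtain ⟨C, hC, hUB⟩ := UB_upper
  refine ⟨C, hC, ?_⟩
  intro a b x y D E X0 hab hy hcase hD hE hL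
  set r : ℤ := 2 * (y + 1) with hr
  set A : ℕ → Set (sqLattice.edgeSet → Bool) := fun N =>
    {ω | ω ∈ E ∧ UBf a b x r (FF (OE x r N) ω)} with hA
  have hmono : Monotone A := by
    intro N M hNM ω h
    refine ⟨h.1, ?_⟩
    obtain ⟨i, w, h1, h2, h3⟩ := h.2
    refine ⟨i, w, h1, h2, h3.mono ?_⟩
    rw [FF_coe, FF_coe]
    refine Set.inter_subset_inter_right _ ?_
    unfold OE
    rw [Finset.coe_sdiff, Finset.coe_sdiff]
    refine Set.sdiff_subset_sdiff_left ?_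
    exact_mod_cast RE_mono' (by exact_mod_cast hNM)
  have hsub : E ⊆ ⋃ N, A N := by
    intro ω hω
    obtain ⟨x', y', v, hx', hy', hv, -, i, hi, hri⟩ := hE hω
    obtain ⟨N, hN⟩ := window hri
    rw [Set.mem_iUnion]
    refine ⟨N, hω, ?_⟩
    obtain ⟨w, hw1, hw2⟩ := first_hit (A' := ↑(RE (x - r) (x + r) 0 r))
      (P := fun w => inR (x - r) (x + r) 0 (0 + r) w) (by
        intro e he
        have := RE_ends (Finset.mem_coe.mp he)
        rw [zero_add]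
        exact this) hN (by
        obtain ⟨h1, h2⟩ := hv
        simp only at h1 h2
        exact ⟨⟨by omega, by omega⟩, by omega, by omega⟩)
    refine ⟨i, w, hi, hw1, ?_⟩
    rw [FF_coe]
    unfold OE
    rw [Finset.coe_sdiff]
    exact hw2
  refine (real_mono' hsub).trans (real_iUnion_le hmono ?_)
  filter_upwards [eventually_ge_atTop (|x| + |a| + |b| + 20 * D).toNat] with N hN
  have h1 := hUB a b x r D N hab (by omega) hcase (by omega) (by omega)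
  have h2 := (hL.sub (E' := A N) (fun ω hω => hω.1)).indep (T := OE x r N) (by
    refine Disjoint.mono_left (BX_sub hy) ?_
    exact Finset.disjoint_sdiff) (UBf a b x r) (fun ω hω => hω.2) h1
  refine h2.trans (le_of_eq (by ring))

theorem deep_gen2 : ∃ (K : ℕ) (C : ℝ), 2 ≤ K ∧
    0 < C ∧ ∀ (a b x y e : ℤ) (E : Set (sqLattice.edgeSet → Bool)) (X0 : ℝ), 0 ≤ y →
    (K : ℤ) * (2 * (y + 1)) ≤ e → e ≤ x - a → e ≤ b - x → E ⊆ NPs (Set.Icc a b) x y →
    Loc x y E X0 → (bondLaw half).real E ≤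
      C * X0 * (((2 * (y + 1) : ℤ) : ℝ) / ((e : ℝ) + ((2 * (y + 1) : ℤ) : ℝ))) ^ ((1 : ℝ) / 3) := by
  obtain ⟨K, C, hK, hC, hQ⟩ := QE_upper
  refine ⟨K, C, hK, hC, ?_⟩
  intro a b x y e E X0 hy he he1 he2 hE hL
  obtain ⟨N, hN⟩ := hQ a b x (2 * (y + 1)) e (by omega) he he1 he2
  have hKz : (2 : ℤ) ≤ (K : ℤ) := by exact_mod_cast hK
  have hk1 : 2 * (y + 1) ≤ (K : ℤ) * (2 * (y + 1)) := by nlinarith
  have h2 := hL.indep (T := OE x (2 * (y + 1)) N) (by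
    refine Disjoint.mono_left (BX_sub hy) ?_
    exact Finset.disjoint_sdiff) (fun F => ¬ QEf a b x (K * (2 * (y + 1))) F) (by
      rintro ω hω ⟨i1, i2, hi1, hi2, hr⟩
      obtain ⟨x', y', v, hx', hy', hv, hDC, -⟩ := hE hω
      rw [FF_coe] at hr
      unfold OE at hr
      rw [Finset.coe_sdiff] at hr
      exact surr_arc (I := Set.Icc a b) (G := opn ω) (z := x) (r := 2 * (y + 1)) (x := x')
        (y := y') (N := N) (i1 := i1) (i2 := i2) (fun k h1 h2 => ⟨by omega, by omega⟩) (by omega)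
        (by omega) (by omega) (by omega) (by omega) (by omega) hr (DC_Out hDC)) hN
  refine h2.trans (le_of_eq (by ring))

theorem gen_upper2 : ∃ C : ℝ, 0 < C ∧
    ∀ (a b x y : ℤ) (E : Set (sqLattice.edgeSet → Bool)) (X0 : ℝ), a ≤ b → 0 ≤ y →
    (y + 1) / 8 < b - a + 1 → E ⊆ NPs (Set.Icc a b) x y → Loc x y E X0 →
    (bondLaw half).real E ≤ C * X0 *
        (Psi ((y + 1 : ℤ) : ℝ) ((b - a + 1 : ℤ) : ℝ) ((|x - a| : ℤ) : ℝ) ((|x - b| : ℤ) : ℝ)) ^
          ((1 : ℝ) / 3) := by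
  obtain ⟨C1, hC1, hfar⟩ := far_gen2
  obtain ⟨K, C2, hK, hC2, hdeep⟩ := deep_gen2
  obtain ⟨M, hM⟩ : ∃ M : ℝ, M = 2 * K + 12 := ⟨_, rfl⟩
  have hM0 : 0 ≤ M := by rw [hM]; positivity
  obtain ⟨L, hL⟩ : ∃ L : ℝ, L = (M + 1) * (8 * (M + 1) + 1) := ⟨_, rfl⟩
  have hL1 : 1 ≤ L := by rw [hL]; nlinarith
  refine ⟨2 * C1 + 2 * C2 + L, by positivity, ?_⟩
  intro a b x y E X0 hab hy hb hE hLoc
  have hX0 := hLoc.nonneg
  set h : ℝ := ((y + 1 : ℤ) : ℝ) with hh'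
  set l : ℝ := ((b - a + 1 : ℤ) : ℝ) with hl'
  set p : ℝ := ((|x - a| : ℤ) : ℝ) with hp'
  set q : ℝ := ((|x - b| : ℤ) : ℝ) with hq'
  have hh : 1 ≤ h := by rw [hh']; exact_mod_cast (by omega : 1 ≤ y + 1)
  have hl : 1 ≤ l := by rw [hl']; exact_mod_cast (by omega : 1 ≤ b - a + 1)
  have hp : 0 ≤ p := by rw [hp']; exact_mod_cast abs_nonneg _
  have hq : 0 ≤ q := by rw [hq']; exact_mod_cast abs_nonneg _
  have hX := Psi_nonneg hh hl hp hq
  have hX3 : 0 ≤ (Psi h l p q) ^ ((1 : ℝ) / 3) := by positivity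
  have hx : 0 ≤ X0 * (Psi h l p q) ^ ((1 : ℝ) / 3) := mul_nonneg hX0 hX3
  have fin : ∀ c : ℝ, c ≤ 2 * C1 + 2 * C2 + L →
      c * X0 * (Psi h l p q) ^ ((1 : ℝ) / 3) ≤
        (2 * C1 + 2 * C2 + L) * X0 * (Psi h l p q) ^ ((1 : ℝ) / 3) := by
    intro c hc
    rw [mul_assoc, mul_assoc]
    exact mul_le_mul_of_nonneg_right hc hx
  have step : ∀ c d Z : ℝ, 0 ≤ c → Z ^ ((1 : ℝ) / 3) ≤ d * (Psi h l p q) ^ ((1 : ℝ) / 3) →
      c * X0 * Z ^ ((1 : ℝ) / 3) ≤ (c * d) * X0 * (Psi h l p q) ^ ((1 : ℝ) / 3) := by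
    intro c d Z hc hZ
    calc c * X0 * Z ^ ((1 : ℝ) / 3)
        ≤ c * X0 * (d * (Psi h l p q) ^ ((1 : ℝ) / 3)) :=
          mul_le_mul_of_nonneg_left hZ (by positivity)
      _ = _ := by ring
  obtain ⟨D, hD⟩ : ∃ D : ℤ, D = max 0 (max (a - x) (x - b)) := ⟨_, rfl⟩
  have q1 := abs_cases (x - a)
  have q2 := abs_cases (x - b)
  rcases le_or_gt (12 * (y + 1)) D with hf | hc
  · -- far
    have h1 := hfar a b x y D E X0 hab hy (by omega) hf hE hLoc
    have hDr : (0 : ℝ) ≤ (D : ℝ) := by exact_mod_cast (by omega : 0 ≤ D)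
    have h2 : Phi (2 * (y + 1)) (b - a + 1) D ≤ 8 * Psi h l p q := by
      have h3 := A1 (D := (D : ℝ)) hh hl hDr hp hq (by
        rcases (by omega : (|x - a| ≤ D ∧ |x - b| ≤ D + (b - a + 1)) ∨
          (|x - b| ≤ D ∧ |x - a| ≤ D + (b - a + 1))) with ⟨g1, g2⟩ | ⟨g1, g2⟩
        · left
          rw [hp', hq', hl']
          exact ⟨by exact_mod_cast g1, by exact_mod_cast g2⟩
        · right
          rw [hp', hq', hl']
          exact ⟨by exact_mod_cast g1, by exact_mod_cast g2⟩)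
      refine le_trans (le_of_eq ?_) h3
      unfold Phi
      rw [hh', hl']
      push_cast
      ring
    have hP0 := Phi_nonneg (h := 2 * (y + 1)) (l := b - a + 1) (D := D) (by omega) (by omega)
      (by omega)
    have h3 := cube_root_le (K := 2) hP0 hX (by norm_num) h2 (by norm_num)
    refine (h1.trans (step C1 2 _ hC1.le h3)).trans (fin _ ?_)
    nlinarith
  · · have h8 : h ≤ 8 * l := by
        rw [hh', hl']
        exact_mod_cast (by omega : y + 1 ≤ 8 * (b - a + 1))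
      obtain ⟨e, he⟩ : ∃ e : ℤ, e = min (x - a) (b - x) := ⟨_, rfl⟩
      rcases lt_or_ge e ((K : ℤ) * (2 * (y + 1))) with hlt | hge
      · -- trivial
        have h1 := triv_gen hLoc
        have hKh : (0 : ℤ) ≤ (K : ℤ) * (2 * (y + 1)) := by positivity
        have hM2 : (((K : ℤ) * (2 * (y + 1)) + 12 * (y + 1) : ℤ) : ℝ) = M * h := by
          rw [hM, hh']
          push_cast
          ring
        have h2 := A3 hh hl hM0 hp hq (by
          rcases (by omega : (|x - a| ≤ (K : ℤ) * (2 * (y + 1)) + 12 * (y + 1) ∧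
              |x - b| ≤ (K : ℤ) * (2 * (y + 1)) + 12 * (y + 1) + (b - a + 1)) ∨
            (|x - b| ≤ (K : ℤ) * (2 * (y + 1)) + 12 * (y + 1) ∧
              |x - a| ≤ (K : ℤ) * (2 * (y + 1)) + 12 * (y + 1) + (b - a + 1))) with
            ⟨g1, g2⟩ | ⟨g1, g2⟩
          · left
            rw [← hM2, hp', hq', hl']
            exact ⟨by exact_mod_cast g1, by exact_mod_cast g2⟩
          · right
            rw [← hM2, hp', hq', hl']
            exact ⟨by exact_mod_cast g1, by exact_mod_cast g2⟩) h8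
        rw [← hL] at h2
        have h3 := cube_root_le (K := L) (x := 1) (by norm_num) hX (by linarith) h2 (by nlinarith [mul_le_mul hL1 hL1 (by norm_num) (by linarith : (0:ℝ) ≤ L), sq_nonneg L])
        rw [Real.one_rpow] at h3
        calc _ ≤ 1 * X0 * 1 := by rw [mul_one, one_mul]; exact h1
          _ ≤ 1 * X0 * (L * (Psi h l p q) ^ ((1 : ℝ) / 3)) :=
              mul_le_mul_of_nonneg_left h3 (by positivity)
          _ = L * X0 * (Psi h l p q) ^ ((1 : ℝ) / 3) := by ring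
          _ ≤ _ := fin _ (by nlinarith)
      · -- deep
        have h1 := hdeep a b x y e E X0 hy hge (by omega) (by omega) hE hLoc
        have hKz : (2 : ℤ) ≤ (K : ℤ) := by exact_mod_cast hK
        have hk1 : 2 * (y + 1) ≤ (K : ℤ) * (2 * (y + 1)) := by nlinarith
        have her : (0 : ℝ) ≤ (e : ℝ) := by exact_mod_cast (by omega : 0 ≤ e)
        have h2 := A4 (e := (e : ℝ)) hh hl her hp hq (by
          rcases (by omega : (|x - a| ≤ e ∧ |x - b| ≤ b - a + 1) ∨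
            (|x - b| ≤ e ∧ |x - a| ≤ b - a + 1)) with ⟨g1, g2⟩ | ⟨g1, g2⟩
          · left
            rw [hp', hq', hl']
            exact ⟨by exact_mod_cast g1, by exact_mod_cast g2⟩
          · right
            rw [hp', hq', hl']
            exact ⟨by exact_mod_cast g1, by exact_mod_cast g2⟩)
          (by rw [hh', hl']; exact_mod_cast (by omega : y + 1 ≤ b - a + 1))
        have e1 : ((2 * (y + 1) : ℤ) : ℝ) = 2 * h := by rw [hh']; push_cast; ring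
        rw [e1] at h1
        have h3 := cube_root_le (K := 2) (by positivity) hX (by norm_num) h2 (by norm_num)
        refine (h1.trans (step C2 2 _ hC2.le h3)).trans (fin _ ?_)
        nlinarith

theorem gen_upper_Iic2 : ∃ C : ℝ, 0 < C ∧
    ∀ (b x y : ℤ) (E : Set (sqLattice.edgeSet → Bool)) (X0 : ℝ), 0 ≤ y →
    E ⊆ NPs (Set.Iic b) x y → Loc x y E X0 →
    (bondLaw half).real E ≤ C * X0 *
        (((y + 1 : ℤ) : ℝ) / (((|x - b| : ℤ) : ℝ) + ((y + 1 : ℤ) : ℝ))) ^ ((1 : ℝ) / 3) := by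
  obtain ⟨C, hC, hup⟩ := gen_upper2
  refine ⟨2 * C, by positivity, ?_⟩
  intro b x y E X0 hy hE hLoc
  have hX0 := hLoc.nonneg
  set A : ℕ → Set (sqLattice.edgeSet → Bool) := fun M =>
    {ω | ω ∈ E ∧ ∃ (x' y' : ℤ) (v : Vtx), (x - (y + 1) ≤ x' ∧ x' ≤ x + (y + 1)) ∧
      (0 ≤ y' ∧ y' ≤ y + 1) ∧ Cor (x', y') v ∧
      DC (Set.Iic b) (opn ω) (x', y') ∧ CI (Set.Icc (-(M : ℤ)) b) (opn ω) v} with hA
  have hmono : Monotone A := by
    rintro N M hNM ω ⟨h0, x', y', v, h1, h2, h3, h4, h5⟩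
    exact ⟨h0, x', y', v, h1, h2, h3, h4, CI_mono (Set.Icc_subset_Icc_left (by
      have : (N : ℤ) ≤ M := by exact_mod_cast hNM
      omega)) h5⟩
  have hsub : E ⊆ ⋃ M, A M := by
    intro ω hω
    obtain ⟨x', y', v, h1, h2, h3, h4, i, hi, hr⟩ := hE hω
    rw [Set.mem_iUnion]
    exact ⟨i.natAbs, hω, x', y', v, h1, h2, h3, h4, i, ⟨by omega, hi⟩, hr⟩
  refine (real_mono' hsub).trans (real_iUnion_le hmono ?_)
  filter_upwards [eventually_ge_atTop (|b| + 2 * |x| + 2 + (y + 1)).toNat] with M hM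
  have hb1 := le_abs_self b
  have hb2 := neg_abs_le b
  have hx1 := le_abs_self x
  have hx2 := neg_abs_le x
  have hsub2 : A M ⊆ NPs (Set.Icc (-(M : ℤ)) b) x y := by
    rintro ω ⟨-, x', y', v, h1, h2, h3, ⟨k, hk⟩, h5⟩
    refine ⟨x', y', v, h1, h2, h3, ⟨k, hk.mono ?_⟩, h5⟩
    rintro e ⟨h3, h4⟩
    refine ⟨h3, ?_⟩
    rintro ⟨h5, h6, h7⟩
    exact h4 ⟨h5, h6.2, h7.2⟩
  have h1 := hup (-(M : ℤ)) b x y (A M) X0 (by omega) hy (by omega) hsub2 (hLoc.sub (fun ω hω => hω.1))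
  refine h1.trans ?_
  set h : ℝ := ((y + 1 : ℤ) : ℝ) with hh'
  have hh : 1 ≤ h := by rw [hh']; exact_mod_cast (by omega : 1 ≤ y + 1)
  have hl : (1 : ℝ) ≤ ((b - -(M : ℤ) + 1 : ℤ) : ℝ) := by
    exact_mod_cast (by omega : 1 ≤ b - -(M : ℤ) + 1)
  have hp : (0 : ℝ) ≤ ((|x - -(M : ℤ)| : ℤ) : ℝ) := by exact_mod_cast abs_nonneg _
  have hq : (0 : ℝ) ≤ ((|x - b| : ℤ) : ℝ) := by exact_mod_cast abs_nonneg _
  have h2 : Psi h ((b - -(M : ℤ) + 1 : ℤ) : ℝ) ((|x - -(M : ℤ)| : ℤ) : ℝ) ((|x - b| : ℤ) : ℝ) ≤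
      8 * (h / (((|x - b| : ℤ) : ℝ) + h)) := by
    unfold Psi
    rw [mul_div_assoc', div_le_div_iff₀ (by positivity) (by positivity)]
    have h3 : ((b - -(M : ℤ) + 1 : ℤ) : ℝ) ≤ 8 * (((|x - -(M : ℤ)| : ℤ) : ℝ) + h) := by
      have h4 : ((b - -(M : ℤ) + 1 : ℤ) : ℝ) ≤ 8 * ((|x - -(M : ℤ)| : ℤ) : ℝ) := by
        exact_mod_cast (by
          have := abs_cases (x - -(M : ℤ))
          omega : b - -(M : ℤ) + 1 ≤ 8 * |x - -(M : ℤ)|)
      linarith
    calc h * ((b - -(M : ℤ) + 1 : ℤ) : ℝ) * (((|x - b| : ℤ) : ℝ) + h)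
        = (h * (((|x - b| : ℤ) : ℝ) + h)) * ((b - -(M : ℤ) + 1 : ℤ) : ℝ) := by ring
      _ ≤ (h * (((|x - b| : ℤ) : ℝ) + h)) * (8 * (((|x - -(M : ℤ)| : ℤ) : ℝ) + h)) :=
          mul_le_mul_of_nonneg_left h3 (by positivity)
      _ = _ := by ring
  have h3 := cube_root_le (K := 2) (Psi_nonneg hh hl hp hq) (by positivity) (by norm_num) h2
    (by norm_num)
  calc _ ≤ C * X0 * (2 * (h / (((|x - b| : ℤ) : ℝ) + h)) ^ ((1 : ℝ) / 3)) :=
        mul_le_mul_of_nonneg_left h3 (by positivity)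
    _ = _ := by ring

end Pool.Agent.H67GF
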