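import Pool.Agent.H67GF.Half

/-!
The exploration path of a half-line comes close to a point, at all scales.
-/

set_option autoImplicit false

namespace Pool.Agent.H67GF

open H974 H731C H342P Finset MeasureTheory Filter Topology Pool.Agent.H67LP

/-- the path passes at some face of the upper half-plane at distance at most `r` -/
def PathH (I : Set ℤ) (x y r : ℤ) : Set (sqLattice.edgeSet → Bool) :=
  {ω | ∃ x' y' : ℤ, (x - r ≤ x' ∧ x' ≤ x + r) ∧ (y - r ≤ y' ∧ y' ≤ y + r) ∧ 0 ≤ y' ∧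
    ω ∈ PathE I x' y'}

theorem meas_pathH (I : Set ℤ) (x y r : ℤ) : MeasurableSet (PathH I x y r) := by
  have e : PathH I x y r = ⋃ x' : ℤ, ⋃ y' : ℤ,
      {_ω | (x - r ≤ x' ∧ x' ≤ x + r) ∧ (y - r ≤ y' ∧ y' ≤ y + r) ∧ 0 ≤ y'} ∩
        PathE I x' y' := by
    ext ω
    simp only [Set.mem_iUnion, Set.mem_inter_iff]
    constructor
    · rintro ⟨x', y', h1, h2, h3, h4⟩
      exact ⟨x', y', ⟨h1, h2, h3⟩, h4⟩
    · rintro ⟨x', y', ⟨h1, h2, h3⟩, h4⟩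
      exact ⟨x', y', h1, h2, h3, h4⟩
  rw [e]
  exact MeasurableSet.iUnion (fun x' => MeasurableSet.iUnion (fun y' =>
    (MeasurableSet.const _).inter (meas_path I x' y')))

theorem PathH_eq {I : Set ℤ} {x y r : ℤ} (hy : 0 ≤ y) (h : 2 * r ≤ y + 1) :
    PathH I x y r = PathB I x y r := by
  ext ω
  constructor
  · rintro ⟨x', y', h1, h2, -, h4⟩
    exact ⟨x', y', h1, h2, h4⟩
  · rintro ⟨x', y', h1, h2, h4⟩
    exact ⟨x', y', h1, h2, by omega, h4⟩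

theorem PathH_sub {I : Set ℤ} {x y r : ℤ} (hy : 0 ≤ y) (hr : 0 ≤ r) :
    PathH I x y r ⊆ NPs I x (y + r) := by
  rintro ω ⟨x', y', h1, h2, h3, h4, v, h5, h6⟩
  exact ⟨x', y', v, by omega, by omega, h5, h4, h6⟩

theorem frac_mono {h1 h2 q K : ℝ} (h1p : 0 < h1) (h2p : 0 < h2) (hq : 0 ≤ q) (hK : 1 ≤ K)
    (h : h1 ≤ K * h2) : h1 / (q + h1) ≤ K * (h2 / (q + h2)) := by
  rw [mul_div_assoc', div_le_div_iff₀ (by positivity) (by positivity)]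
  have k1 : h1 * q ≤ (K * h2) * q := mul_le_mul_of_nonneg_right h hq
  have k2 : 1 * (h1 * h2) ≤ K * (h1 * h2) := mul_le_mul_of_nonneg_right hK (by positivity)
  nlinarith

/-- `ZH` depends on the height in a regular way -/
theorem ZH_mono {b x y1 y2 : ℤ} (h1 : 0 ≤ y1) (h2 : 0 ≤ y2) (h : y1 + 1 ≤ 8 * (y2 + 1)) :
    ZH b x y1 ≤ 2 * ZH b x y2 := by
  have p1 : (0 : ℝ) < ((y1 + 1 : ℤ) : ℝ) := by exact_mod_cast (by omega : 0 < y1 + 1)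
  have p2 : (0 : ℝ) < ((y2 + 1 : ℤ) : ℝ) := by exact_mod_cast (by omega : 0 < y2 + 1)
  have hq : (0 : ℝ) ≤ ((|x - b| : ℤ) : ℝ) := by exact_mod_cast abs_nonneg _
  have k := frac_mono (K := 8) p1 p2 hq (by norm_num)
    (by exact_mod_cast h : ((y1 + 1 : ℤ) : ℝ) ≤ 8 * ((y2 + 1 : ℤ) : ℝ))
  exact cube_root_le (K := 2) (by positivity) (by positivity) (by norm_num) k (by norm_num)

theorem half_all : ∃ c C : ℝ, 0 < c ∧ 0 < C ∧ ∀ b x y r : ℤ, 0 ≤ y → 0 ≤ r →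
    c * (((r + 1 : ℤ) : ℝ) / ((y + r + 1 : ℤ) : ℝ)) ^ (1/4 : ℝ) * ZH b x (y + r) ≤
      (bondLaw half).real (PathH (Set.Iic b) x y r) ∧
    (bondLaw half).real (PathH (Set.Iic b) x y r) ≤
      C * (((r + 1 : ℤ) : ℝ) / ((y + r + 1 : ℤ) : ℝ)) ^ (1/4 : ℝ) * ZH b x (y + r) := by
  obtain ⟨c, C, hc, hC, hmain⟩ := scales
  obtain ⟨C2, hC2, hup⟩ := gen_upper_Iic2
  refine ⟨c / 8, 8 * C + 2 * C2, by positivity, by positivity, ?_⟩
  intro b x y r hy hr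
  have hm := (hmain (Set.Iic b) (ZH b) (Or.inr ⟨b, rfl, rfl⟩)).1
  have hZ := (cmpH b).1 x (y + r) (by omega)
  have hYr : (0 : ℝ) < ((y + r + 1 : ℤ) : ℝ) := by exact_mod_cast (by omega : 0 < y + r + 1)
  have hrr : (0 : ℝ) < ((r + 1 : ℤ) : ℝ) := by exact_mod_cast (by omega : 0 < r + 1)
  have hA0 : 0 ≤ (((r + 1 : ℤ) : ℝ) / ((y + r + 1 : ℤ) : ℝ)) ^ (1/4 : ℝ) := by positivity
  rcases le_or_gt (2 * r) (y + 1) with h | h
  · obtain ⟨g1, g2⟩ := hm x y r hy hr h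
    rw [PathH_eq hy h]
    have hyr : (0 : ℝ) < ((y + 1 : ℤ) : ℝ) := by exact_mod_cast (by omega : 0 < y + 1)
    have hB0 : 0 ≤ (((r + 1 : ℤ) : ℝ) / ((y + 1 : ℤ) : ℝ)) ^ (1/4 : ℝ) := by positivity
    have hZ' := (cmpH b).1 x y hy
    have z1 := ZH_mono (b := b) (x := x) (y1 := y + r) (y2 := y) (by omega) hy (by omega)
    have z2 := ZH_mono (b := b) (x := x) (y1 := y) (y2 := y + r) hy (by omega) (by omega)
    have e1 : ((r + 1 : ℤ) : ℝ) / ((y + r + 1 : ℤ) : ℝ) ≤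
        2 ^ 4 * (((r + 1 : ℤ) : ℝ) / ((y + 1 : ℤ) : ℝ)) := by
      rw [mul_div_assoc', div_le_div_iff₀ hYr hyr]
      have : ((y + 1 : ℤ) : ℝ) ≤ 16 * ((y + r + 1 : ℤ) : ℝ) := by
        exact_mod_cast (by omega : y + 1 ≤ 16 * (y + r + 1))
      nlinarith [mul_le_mul_of_nonneg_left this hrr.le]
    have e2 : ((r + 1 : ℤ) : ℝ) / ((y + 1 : ℤ) : ℝ) ≤
        2 ^ 4 * (((r + 1 : ℤ) : ℝ) / ((y + r + 1 : ℤ) : ℝ)) := by
      rw [mul_div_assoc', div_le_div_iff₀ hyr hYr]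
      have : ((y + r + 1 : ℤ) : ℝ) ≤ 16 * ((y + 1 : ℤ) : ℝ) := by
        exact_mod_cast (by omega : y + r + 1 ≤ 16 * (y + 1))
      nlinarith [mul_le_mul_of_nonneg_left this hrr.le]
    have d1 := quarter_up (by positivity) (by positivity) (by norm_num) e1
    have d2 := quarter_up (by positivity) (by positivity) (by norm_num) e2
    constructor
    · exact comb hc hC hA0 hB0 hZ' hZ d1 (by linarith) g1
    · refine (comb_up hC hA0 hB0 hZ' hZ d2 (by linarith) g2).trans ?_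
      rw [mul_assoc, mul_assoc (8 * C + 2 * C2)]
      exact mul_le_mul_of_nonneg_right (by linarith) (by positivity)
  · constructor
    · obtain ⟨s, hs⟩ : ∃ s : ℤ, s = r / 4 := ⟨_, rfl⟩
      obtain ⟨w, hw⟩ : ∃ w : ℤ, w = y + r / 2 := ⟨_, rfl⟩
      have g1 := (hm x w s (by omega) (by omega) (by omega)).1
      have hsub : PathB (Set.Iic b) x w s ⊆ PathH (Set.Iic b) x y r := by
        rintro ω ⟨x', y', h1, h2, h3⟩
        exact ⟨x', y', by omega, by omega, by omega, h3⟩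
      have hw0 : 0 ≤ w := by omega
      have hZ' := (cmpH b).1 x w hw0
      have hwr : (0 : ℝ) < ((w + 1 : ℤ) : ℝ) := by exact_mod_cast (by omega : 0 < w + 1)
      have hsr : (0 : ℝ) < ((s + 1 : ℤ) : ℝ) := by exact_mod_cast (by omega : 0 < s + 1)
      have z1 := ZH_mono (b := b) (x := x) (y1 := y + r) (y2 := w) (by omega) hw0 (by omega)
      have e1 : ((r + 1 : ℤ) : ℝ) / ((y + r + 1 : ℤ) : ℝ) ≤
          2 ^ 4 * (((s + 1 : ℤ) : ℝ) / ((w + 1 : ℤ) : ℝ)) := by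
        rw [mul_div_assoc', div_le_div_iff₀ hYr hwr]
        have a1 : ((r + 1 : ℤ) : ℝ) ≤ 4 * ((s + 1 : ℤ) : ℝ) := by
          exact_mod_cast (by omega : r + 1 ≤ 4 * (s + 1))
        have a2 : ((w + 1 : ℤ) : ℝ) ≤ 4 * ((y + r + 1 : ℤ) : ℝ) := by
          exact_mod_cast (by omega : w + 1 ≤ 4 * (y + r + 1))
        calc ((r + 1 : ℤ) : ℝ) * ((w + 1 : ℤ) : ℝ) ≤
              (4 * ((s + 1 : ℤ) : ℝ)) * (4 * ((y + r + 1 : ℤ) : ℝ)) :=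
              mul_le_mul a1 a2 hwr.le (by positivity)
          _ = _ := by ring
      have d1 := quarter_up (by positivity) (by positivity) (by norm_num) e1
      exact comb hc hC hA0 (by positivity) hZ' hZ d1 (by linarith) (g1.trans (real_mono' hsub))
    · have g2 := hup b x (y + r) (PathH (Set.Iic b) x y r) 1 (by omega) (PathH_sub hy hr)
        (loc_one _ _ _)
      have e1 : (1 : ℝ) ≤ 2 ^ 4 * (((r + 1 : ℤ) : ℝ) / ((y + r + 1 : ℤ) : ℝ)) := by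
        rw [mul_div_assoc', le_div_iff₀ hYr, one_mul]
        have : ((y + r + 1 : ℤ) : ℝ) ≤ 16 * ((r + 1 : ℤ) : ℝ) := by
          exact_mod_cast (by omega : y + r + 1 ≤ 16 * (r + 1))
        linarith
      have d1 := quarter_up (by norm_num) (by positivity) (by norm_num) e1
      rw [Real.one_rpow] at d1
      have g3 : (bondLaw half).real (PathH (Set.Iic b) x y r) ≤ C2 * 1 * ZH b x (y + r) := g2
      refine g3.trans ?_
      calc C2 * 1 * ZH b x (y + r)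
          ≤ C2 * (2 * (((r + 1 : ℤ) : ℝ) / ((y + r + 1 : ℤ) : ℝ)) ^ (1/4 : ℝ)) *
            ZH b x (y + r) :=
            mul_le_mul_of_nonneg_right (mul_le_mul_of_nonneg_left d1 hC2.le) hZ
        _ = (2 * C2) * ((((r + 1 : ℤ) : ℝ) / ((y + r + 1 : ℤ) : ℝ)) ^ (1/4 : ℝ) *
            ZH b x (y + r)) := by ring
        _ ≤ (8 * C + 2 * C2) * ((((r + 1 : ℤ) : ℝ) / ((y + r + 1 : ℤ) : ℝ)) ^ (1/4 : ℝ) *
            ZH b x (y + r)) := mul_le_mul_of_nonneg_right (by linarith) (by positivity)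
        _ = _ := by ring

/-- the rescaled path comes within distance `ρ` of `z` -/
def NearH (δ ρ : ℝ) (z : ℂ) : Set (sqLattice.edgeSet → Bool) :=
  {ω | ∃ x' y' : ℤ, 0 ≤ y' ∧ ω ∈ PathE (Set.Iic 0) x' y' ∧
    ‖(δ : ℂ) * ((x' : ℂ) + (y' : ℂ) * Complex.I) - z‖ ≤ ρ}

theorem nearH_sub {z : ℂ} {δ ρ : ℝ} (hδ : 0 < δ) (hρ : 2 * δ ≤ ρ) :
    PathH (Set.Iic 0) ⌊z.re / δ⌋ ⌊z.im / δ⌋ (⌊ρ / (2 * δ)⌋ - 1) ⊆ NearH δ ρ z := by
  rintro ω ⟨x', y', hx', hy', h0, hω⟩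
  refine ⟨x', y', h0, hω, ?_⟩
  have h2δ : 0 < 2 * δ := by linarith
  have f1 : (⌊ρ / (2 * δ)⌋ : ℝ) ≤ ρ / (2 * δ) := Int.floor_le _
  have key : ∀ (u : ℝ) (n : ℤ), ⌊u / δ⌋ - (⌊ρ / (2 * δ)⌋ - 1) ≤ n →
      n ≤ ⌊u / δ⌋ + (⌊ρ / (2 * δ)⌋ - 1) → |δ * (n : ℝ) - u| ≤ ρ / 2 := by
    intro u n h1 h2
    have g1 : (⌊u / δ⌋ : ℝ) ≤ u / δ := Int.floor_le _
    have g2 : u / δ < (⌊u / δ⌋ : ℝ) + 1 := Int.lt_floor_add_one _
    have h1' : (⌊u / δ⌋ : ℝ) - ((⌊ρ / (2 * δ)⌋ : ℝ) - 1) ≤ (n : ℝ) := by exact_mod_cast h1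
    have h2' : (n : ℝ) ≤ (⌊u / δ⌋ : ℝ) + ((⌊ρ / (2 * δ)⌋ : ℝ) - 1) := by exact_mod_cast h2
    have e1 : δ * (n : ℝ) - u = δ * ((n : ℝ) - u / δ) := by field_simp
    have e2 : ρ / 2 = δ * (ρ / (2 * δ)) := by field_simp
    rw [e1, e2, abs_mul, abs_of_pos hδ]
    apply mul_le_mul_of_nonneg_left _ hδ.le
    rw [abs_le]
    constructor <;> linarith
  have k1 := key z.re x' hx'.1 hx'.2
  have k2 := key z.im y' hy'.1 hy'.2
  have h3 := Complex.norm_le_abs_re_add_abs_im ((δ : ℂ) * ((x' : ℂ) + (y' : ℂ) * Complex.I) - z)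
  have e1 : ((δ : ℂ) * ((x' : ℂ) + (y' : ℂ) * Complex.I) - z).re = δ * (x' : ℝ) - z.re := by
    simp
  have e2 : ((δ : ℂ) * ((x' : ℂ) + (y' : ℂ) * Complex.I) - z).im = δ * (y' : ℝ) - z.im := by
    simp
  rw [e1, e2] at h3
  linarith

theorem sub_nearH {z : ℂ} {δ ρ : ℝ} (hδ : 0 < δ) :
    NearH δ ρ z ⊆ PathH (Set.Iic 0) ⌊z.re / δ⌋ ⌊z.im / δ⌋ (⌊ρ / δ⌋ + 1) := by
  rintro ω ⟨x', y', h0, hω, hn⟩
  have f2 : ρ / δ < (⌊ρ / δ⌋ : ℝ) + 1 := Int.lt_floor_add_one _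
  have key : ∀ (u : ℝ) (n : ℤ), |δ * (n : ℝ) - u| ≤ ρ →
      ⌊u / δ⌋ - (⌊ρ / δ⌋ + 1) ≤ n ∧ n ≤ ⌊u / δ⌋ + (⌊ρ / δ⌋ + 1) := by
    intro u n h
    have g1 : (⌊u / δ⌋ : ℝ) ≤ u / δ := Int.floor_le _
    have g2 : u / δ < (⌊u / δ⌋ : ℝ) + 1 := Int.lt_floor_add_one _
    have e1 : δ * (n : ℝ) - u = δ * ((n : ℝ) - u / δ) := by field_simp
    have e2 : ρ = δ * (ρ / δ) := by field_simp
    rw [e1, e2, abs_mul, abs_of_pos hδ] at h
    have h1 := le_of_mul_le_mul_left h hδ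
    rw [abs_le] at h1
    constructor
    · have : (⌊u / δ⌋ : ℝ) - ((⌊ρ / δ⌋ : ℝ) + 1) < (n : ℝ) + 1 := by linarith
      have h5 : ⌊u / δ⌋ - (⌊ρ / δ⌋ + 1) < n + 1 := by exact_mod_cast this
      omega
    · have : (n : ℝ) < (⌊u / δ⌋ : ℝ) + 1 + ((⌊ρ / δ⌋ : ℝ) + 1) := by linarith
      have h5 : n < ⌊u / δ⌋ + 1 + (⌊ρ / δ⌋ + 1) := by exact_mod_cast this
      omega
  have e1 : ((δ : ℂ) * ((x' : ℂ) + (y' : ℂ) * Complex.I) - z).re = δ * (x' : ℝ) - z.re := by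
    simp
  have e2 : ((δ : ℂ) * ((x' : ℂ) + (y' : ℂ) * Complex.I) - z).im = δ * (y' : ℝ) - z.im := by
    simp
  have k1 := (Complex.abs_re_le_norm ((δ : ℂ) * ((x' : ℂ) + (y' : ℂ) * Complex.I) - z)).trans hn
  have k2 := (Complex.abs_im_le_norm ((δ : ℂ) * ((x' : ℂ) + (y' : ℂ) * Complex.I) - z)).trans hn
  rw [e1] at k1
  rw [e2] at k2
  exact ⟨x', y', key _ _ k1, key _ _ k2, h0, hω⟩

theorem nearH_main : ∃ c C : ℝ, 0 < c ∧ 0 < C ∧ ∀ (z : ℂ) (δ ρ : ℝ), 0 < δ → 2 * δ ≤ ρ →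
    0 ≤ z.im →
      c * (ρ / (z.im + ρ)) ^ ((1 : ℝ) / 4) *
        Real.sin (z + (ρ : ℂ) * Complex.I).arg ^ ((1 : ℝ) / 3) ≤
        (bondLaw half).real (NearH δ ρ z) ∧
      (bondLaw half).real (NearH δ ρ z) ≤
        C * (ρ / (z.im + ρ)) ^ ((1 : ℝ) / 4) *
          Real.sin (z + (ρ : ℂ) * Complex.I).arg ^ ((1 : ℝ) / 3) := by
  obtain ⟨c, C, hc, hC, hmain⟩ := half_all
  refine ⟨c / 16, 16 * C, by positivity, by positivity, ?_⟩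
  intro z δ ρ hδ hρ hz
  have hρ0 : 0 < ρ := by linarith
  obtain ⟨w, hw⟩ : ∃ w : ℂ, w = z + (ρ : ℂ) * Complex.I := ⟨_, rfl⟩
  have hwre : w.re = z.re := by rw [hw]; simp
  have hwim : w.im = z.im + ρ := by rw [hw]; simp
  obtain ⟨s1, s2⟩ := arg_cmp (z := w) (δ := δ) hδ (by rw [hwim]; linarith)
  rw [← hw]
  rw [hwre, hwim] at s1 s2
  have k1 := nearH_sub (z := z) hδ hρ
  have k2 := sub_nearH (z := z) (ρ := ρ) hδ
  have e1 : 2 ≤ ρ / δ := by rw [le_div_iff₀ hδ]; linarith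
  have e3 : ρ / (2 * δ) = (ρ / δ) / 2 := by field_simp
  have e4 : ρ / (z.im + ρ) = (ρ / δ) / (z.im / δ + ρ / δ) := by field_simp
  have e5 : (z.im + ρ) / δ = z.im / δ + ρ / δ := by field_simp
  have e6 : 0 ≤ z.im / δ := by positivity
  rw [e3] at k1
  rw [e4]
  rw [e5] at s1 s2
  obtain ⟨t, ht⟩ : ∃ t : ℝ, t = ρ / δ := ⟨_, rfl⟩
  obtain ⟨u, hu⟩ : ∃ u : ℝ, u = z.im / δ := ⟨_, rfl⟩
  rw [← ht, ← hu] at k1 k2 s1 s2
  rw [← ht] at e1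
  rw [← hu] at e6
  rw [← ht, ← hu]
  obtain ⟨Y, hY⟩ : ∃ Y : ℤ, Y = ⌊u⌋ := ⟨_, rfl⟩
  obtain ⟨W, hW⟩ : ∃ W : ℤ, W = ⌊u + t⌋ := ⟨_, rfl⟩
  obtain ⟨X, hX⟩ : ∃ X : ℤ, X = ⌊z.re / δ⌋ := ⟨_, rfl⟩
  obtain ⟨n, hn⟩ : ∃ n : ℤ, n = ⌊t / 2⌋ := ⟨_, rfl⟩
  obtain ⟨m, hm'⟩ : ∃ m : ℤ, m = ⌊t⌋ := ⟨_, rfl⟩
  rw [← hX, ← hW] at s1 s2
  rw [← hX, ← hY] at k1 k2
  rw [← hn] at k1
  rw [← hm'] at k2
  have f1 : (Y : ℝ) ≤ u := by rw [hY]; exact Int.floor_le _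
  have f2 : u < (Y : ℝ) + 1 := by rw [hY]; exact Int.lt_floor_add_one _
  have f3 : (n : ℝ) ≤ t / 2 := by rw [hn]; exact Int.floor_le _
  have f4 : t / 2 < (n : ℝ) + 1 := by rw [hn]; exact Int.lt_floor_add_one _
  have f5 : (m : ℝ) ≤ t := by rw [hm']; exact Int.floor_le _
  have f6 : t < (m : ℝ) + 1 := by rw [hm']; exact Int.lt_floor_add_one _
  have f7 : (W : ℝ) ≤ u + t := by rw [hW]; exact Int.floor_le _
  have f8 : u + t < (W : ℝ) + 1 := by rw [hW]; exact Int.lt_floor_add_one _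
  have n1 : 1 ≤ n := by
    rw [hn, Int.le_floor]
    push_cast
    linarith
  have n1r : (1 : ℝ) ≤ (n : ℝ) := by exact_mod_cast n1
  have m1 : 2 ≤ m := by
    rw [hm', Int.le_floor]
    push_cast
    linarith
  have m1r : (2 : ℝ) ≤ (m : ℝ) := by exact_mod_cast m1
  have Y1 : 0 ≤ Y := by
    rw [hY]
    exact Int.floor_nonneg.mpr e6
  have Y1r : (0 : ℝ) ≤ (Y : ℝ) := by exact_mod_cast Y1
  have W1 : 0 ≤ W := by
    rw [hW]
    exact Int.floor_nonneg.mpr (by linarith)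
  have g1 := (hmain 0 X Y (n - 1) Y1 (by omega)).1
  have g2 := (hmain 0 X Y (m + 1) Y1 (by omega)).2
  have t0 : 0 < t := by linarith
  have ut0 : 0 < u + t := by linarith
  -- heights
  have b1 : W + 1 ≤ 8 * (Y + (n - 1) + 1) := by
    have : (W : ℝ) + 1 ≤ 8 * ((Y : ℝ) + ((n : ℝ) - 1) + 1) := by linarith
    exact_mod_cast this
  have b2 : Y + (m + 1) + 1 ≤ 8 * (W + 1) := by
    have : (Y : ℝ) + ((m : ℝ) + 1) + 1 ≤ 8 * ((W : ℝ) + 1) := by linarith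
    exact_mod_cast this
  have z1 := ZH_mono (b := 0) (x := X) (y1 := W) (y2 := Y + (n - 1)) W1 (by omega) b1
  have z2 := ZH_mono (b := 0) (x := X) (y1 := Y + (m + 1)) (y2 := W) (by omega) W1 b2
  have hZ1 := (cmpH 0).1 X (Y + (n - 1)) (by omega)
  have hZ2 := (cmpH 0).1 X (Y + (m + 1)) (by omega)
  have hZW := (cmpH 0).1 X W W1
  have hS : 0 ≤ Real.sin w.arg ^ ((1 : ℝ) / 3) := by linarith
  have p1 : (0 : ℝ) < ((Y + (n - 1) + 1 : ℤ) : ℝ) := by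
    exact_mod_cast (by omega : 0 < Y + (n - 1) + 1)
  have p2 : (0 : ℝ) < ((Y + (m + 1) + 1 : ℤ) : ℝ) := by
    exact_mod_cast (by omega : 0 < Y + (m + 1) + 1)
  have c1 : ((Y + (n - 1) + 1 : ℤ) : ℝ) = (Y : ℝ) + (n : ℝ) := by push_cast; ring
  have c2 : ((Y + (m + 1) + 1 : ℤ) : ℝ) = (Y : ℝ) + (m : ℝ) + 2 := by push_cast; ring
  have c3 : ((n - 1 + 1 : ℤ) : ℝ) = (n : ℝ) := by push_cast; ring
  have c4 : ((m + 1 + 1 : ℤ) : ℝ) = (m : ℝ) + 2 := by push_cast; ring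
  have r1 : t / (u + t) ≤ 2 ^ 4 * (((n - 1 + 1 : ℤ) : ℝ) / ((Y + (n - 1) + 1 : ℤ) : ℝ)) := by
    rw [mul_div_assoc', div_le_div_iff₀ ut0 p1, c1, c3]
    have a1 : t ≤ 4 * (n : ℝ) := by linarith
    have a2 : (Y : ℝ) + (n : ℝ) ≤ u + t := by linarith
    calc t * ((Y : ℝ) + (n : ℝ)) ≤ (4 * (n : ℝ)) * (u + t) :=
          mul_le_mul a1 a2 (by linarith) (by linarith)
      _ = 4 * ((n : ℝ) * (u + t)) := by ring
      _ ≤ 16 * ((n : ℝ) * (u + t)) := mul_le_mul_of_nonneg_right (by norm_num)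
          (mul_nonneg (by linarith) ut0.le)
      _ = _ := by ring
  have r2 : ((m + 1 + 1 : ℤ) : ℝ) / ((Y + (m + 1) + 1 : ℤ) : ℝ) ≤ 2 ^ 4 * (t / (u + t)) := by
    rw [mul_div_assoc', div_le_div_iff₀ p2 ut0, c2, c4]
    have a1 : (m : ℝ) + 2 ≤ 2 * t := by linarith
    have a2 : u + t ≤ (Y : ℝ) + (m : ℝ) + 2 := by linarith
    calc ((m : ℝ) + 2) * (u + t) ≤ (2 * t) * ((Y : ℝ) + (m : ℝ) + 2) :=
          mul_le_mul a1 a2 ut0.le (by linarith)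
      _ = 2 * (t * ((Y : ℝ) + (m : ℝ) + 2)) := by ring
      _ ≤ 16 * (t * ((Y : ℝ) + (m : ℝ) + 2)) := mul_le_mul_of_nonneg_right (by norm_num)
          (mul_nonneg t0.le (by linarith))
      _ = _ := by ring
  have hnr : (0 : ℝ) ≤ ((n - 1 + 1 : ℤ) : ℝ) := by rw [c3]; linarith
  have hmr : (0 : ℝ) ≤ ((m + 1 + 1 : ℤ) : ℝ) := by rw [c4]; linarith
  have d1 := quarter_up (by positivity) (by positivity) (by norm_num) r1
  have d2 := quarter_up (by positivity) (by positivity) (by norm_num) r2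
  have q1 : 0 ≤ (t / (u + t)) ^ (1/4 : ℝ) := by positivity
  have q2 : 0 ≤ (((n - 1 + 1 : ℤ) : ℝ) / ((Y + (n - 1) + 1 : ℤ) : ℝ)) ^ (1/4 : ℝ) := by
    positivity
  have q3 : 0 ≤ (((m + 1 + 1 : ℤ) : ℝ) / ((Y + (m + 1) + 1 : ℤ) : ℝ)) ^ (1/4 : ℝ) := by
    positivity
  constructor
  · refine le_trans ?_ (g1.trans (real_mono' k1))
    set A : ℝ := (t / (u + t)) ^ ((1 : ℝ) / 4) with hA
    set B : ℝ := (((n - 1 + 1 : ℤ) : ℝ) / ((Y + (n - 1) + 1 : ℤ) : ℝ)) ^ ((1 : ℝ) / 4) with hB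
    calc c / 16 * A * Real.sin w.arg ^ ((1 : ℝ) / 3)
        ≤ c / 16 * (2 * B) * (4 * (2 * ZH 0 X (Y + (n - 1)))) :=
          mul_le_mul (mul_le_mul_of_nonneg_left d1 (by positivity)) (by linarith) hS
            (by positivity)
      _ = _ := by ring
  · refine ((real_mono' k2).trans g2).trans ?_
    set A : ℝ := (t / (u + t)) ^ ((1 : ℝ) / 4) with hA
    set B : ℝ := (((m + 1 + 1 : ℤ) : ℝ) / ((Y + (m + 1) + 1 : ℤ) : ℝ)) ^ ((1 : ℝ) / 4) with hB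
    calc C * B * ZH 0 X (Y + (m + 1))
        ≤ C * (2 * A) * (2 * (4 * Real.sin w.arg ^ ((1 : ℝ) / 3))) :=
          mul_le_mul (mul_le_mul_of_nonneg_left d2 (by positivity)) (by linarith) hZ2
            (by positivity)
      _ = _ := by ring

/-- all the bounds -/
theorem full_dist : ∃ c C : ℝ, 0 < c ∧ 0 < C ∧
    (∀ a b x y r : ℤ, a ≤ b → 0 ≤ y → 0 ≤ r → 2 * r ≤ y + 1 →
      c * (((r : ℝ) + 1) / ((y : ℝ) + 1)) ^ ((1 : ℝ) / 4) *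
        Real.sin (vw a b x y) ^ ((1 : ℝ) / 3) ≤ (bondLaw half).real (PathH (Set.Icc a b) x y r) ∧
      (bondLaw half).real (PathH (Set.Icc a b) x y r) ≤
        C * (((r : ℝ) + 1) / ((y : ℝ) + 1)) ^ ((1 : ℝ) / 4) *
          Real.sin (vw a b x y) ^ ((1 : ℝ) / 3)) ∧
    (∀ b x y r : ℤ, 0 ≤ y → 0 ≤ r →
      c * (((r : ℝ) + 1) / ((y : ℝ) + (r : ℝ) + 1)) ^ ((1 : ℝ) / 4) *
        Real.sin (vwInf b x (y + r)) ^ ((1 : ℝ) / 3) ≤
        (bondLaw half).real (PathH (Set.Iic b) x y r) ∧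
      (bondLaw half).real (PathH (Set.Iic b) x y r) ≤
        C * (((r : ℝ) + 1) / ((y : ℝ) + (r : ℝ) + 1)) ^ ((1 : ℝ) / 4) *
          Real.sin (vwInf b x (y + r)) ^ ((1 : ℝ) / 3)) ∧
    (∀ (z : ℂ) (δ ρ : ℝ), 0 < δ → 2 * δ ≤ ρ → 0 ≤ z.im →
      c * (ρ / (z.im + ρ)) ^ ((1 : ℝ) / 4) *
        Real.sin (z + (ρ : ℂ) * Complex.I).arg ^ ((1 : ℝ) / 3) ≤
        (bondLaw half).real (NearH δ ρ z) ∧
      (bondLaw half).real (NearH δ ρ z) ≤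
        C * (ρ / (z.im + ρ)) ^ ((1 : ℝ) / 4) *
          Real.sin (z + (ρ : ℂ) * Complex.I).arg ^ ((1 : ℝ) / 3)) := by
  obtain ⟨c1, C1, hc1, hC1, h1, -, -⟩ := main_dist
  obtain ⟨c2, C2, hc2, hC2, h2⟩ := half_all
  obtain ⟨c3, C3, hc3, hC3, h3⟩ := nearH_main
  have fin : ∀ {c C c' C' A S P : ℝ}, 0 ≤ A → 0 ≤ S → c' ≤ c → C ≤ C' →
      (c * A * S ≤ P ∧ P ≤ C * A * S) → c' * A * S ≤ P ∧ P ≤ C' * A * S := by
    rintro c C c' C' A S P hA hS hc hC ⟨k1, k2⟩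
    constructor
    · refine le_trans ?_ k1
      rw [mul_assoc, mul_assoc]
      exact mul_le_mul_of_nonneg_right hc (by positivity)
    · refine k2.trans ?_
      rw [mul_assoc, mul_assoc]
      exact mul_le_mul_of_nonneg_right hC (by positivity)
  refine ⟨min c1 (min (c2 / 8) c3), C1 + 8 * C2 + C3, by positivity, by positivity, ?_, ?_, ?_⟩
  · intro a b x y r hab hy hr hry
    rw [PathH_eq hy hry]
    have hyr : (0 : ℝ) ≤ (y : ℝ) := by exact_mod_cast hy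
    have hrr : (0 : ℝ) ≤ (r : ℝ) := by exact_mod_cast hr
    have s := ZI_sin (x := x) hab hy
    have hZ := (cmpI hab).1 x y hy
    exact fin (by positivity) (by linarith [s.1]) (min_le_left _ _) (by linarith)
      (h1 a b x y r hab hy hr hry)
  · intro b x y r hy hr
    have hyr : (0 : ℝ) ≤ (y : ℝ) := by exact_mod_cast hy
    have hrr : (0 : ℝ) ≤ (r : ℝ) := by exact_mod_cast hr
    obtain ⟨s1, s2⟩ := ZH_sin (b := b) (x := x) (y := y + r) (by omega)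
    have hZ := (cmpH b).1 x (y + r) (by omega)
    have hS : 0 ≤ Real.sin (vwInf b x (y + r)) ^ ((1 : ℝ) / 3) := by linarith
    obtain ⟨g1, g2⟩ := h2 b x y r hy hr
    have e : (((r : ℝ) + 1) / ((y : ℝ) + (r : ℝ) + 1)) =
        (((r + 1 : ℤ) : ℝ) / ((y + r + 1 : ℤ) : ℝ)) := by
      push_cast; rfl
    have hB0 : 0 ≤ (((r : ℝ) + 1) / ((y : ℝ) + (r : ℝ) + 1)) ^ ((1 : ℝ) / 4) := by positivity
    rw [← e] at g1 g2
    refine fin (c := c2 / 8) (C := 8 * C2) hB0 hS ((min_le_right _ _).trans (min_le_left _ _))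
      (by linarith) ⟨?_, ?_⟩
    · exact comb hc2 hC2 hB0 hB0 hZ hS (by linarith) s2 g1
    · exact comb_up hC2 hB0 hB0 hZ hS (by linarith) (by linarith) g2
  · intro z δ ρ hδ hρ hz
    have hw : (z + (ρ : ℂ) * Complex.I).im = z.im + ρ := by simp
    have hsin : 0 ≤ Real.sin (z + (ρ : ℂ) * Complex.I).arg := by
      rw [Complex.sin_arg, hw]
      apply div_nonneg (by linarith) (norm_nonneg _)
    have hρ0 : 0 < ρ := by linarith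
    exact fin (by positivity) (by positivity) ((min_le_right _ _).trans (min_le_right _ _))
      (by linarith) (h3 z δ ρ hδ hρ hz)

end Pool.Agent.H67GF
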