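import Pool.Agent.H67GF.Up3
import Pool.Agent.H984R3.Per.SHarris
import Pool.Agent.H984R3.Per.Rot
import Pool.Agent.H984R3.Per.LowEV

/-!
Faces on the exploration path: the separated two-arm event, rotated (open arm to the right, dual arm
to the left), and the signed Harris inequality.
-/

set_option autoImplicit false

namespace Pool.Agent.H67GF

open H974 H731C H342P Finset MeasureTheory Filter Topology Pool.Agent.H67LP

/-- an open arm to the right from the vertex `(x + 1, y)`, a closed dual arm to the left from the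
face `(x, y)` -/
def RAr (x y : ℤ) (m : ℕ) (G : Set Edg) : Prop :=
  (∃ w : Vtx, w.1 = x + 1 + 12 * m ∧
    Reach (G ∩ ↑(RE (x + 1 - 3 * m) (x + 1 + 12 * m) (y - 12 * m) (y + 12 * m))) (x + 1, y) w) ∧
  ∃ g : Vtx, g.1 = x - 12 * m ∧
    DReach ({e | dl e ∈ RE (x - 12 * m) (x + 3 * m) (y - 12 * m) (y + 12 * m)} \ G) (x, y) g

/-- rotation by 90 degrees and translation of the edges -/
def rot (x y : ℤ) : Edg ≃ Edg where
  toFun e := if e.2.2 then (x + 1 - e.2.1, y + e.1, false) else (x - e.2.1, y + e.1, true)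
  invFun e := if e.2.2 then (e.2.1 - y, x - e.1, false) else (e.2.1 - y, x + 1 - e.1, true)
  left_inv := by
    rintro ⟨p, q, _ | _⟩ <;> simp
  right_inv := by
    rintro ⟨p, q, _ | _⟩ <;> simp

theorem rot_t (x y p q : ℤ) : rot x y (p, q, true) = (x + 1 - q, y + p, false) := rfl
theorem rot_f (x y p q : ℤ) : rot x y (p, q, false) = (x - q, y + p, true) := rfl
theorem rots_t (x y p q : ℤ) : (rot x y).symm (p, q, true) = (q - y, x - p, false) := rfl
theorem rots_f (x y p q : ℤ) : (rot x y).symm (p, q, false) = (q - y, x + 1 - p, true) := rfl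

theorem rot_reach {x y : ℤ} {F : Set Edg} {u v : Vtx} (h : Reach F u v) :
    Reach (rot x y '' F) (x + 1 - u.2, y + u.1) (x + 1 - v.2, y + v.1) := by
  induction h with
  | refl => exact Reach.refl _ _
  | @tail v w _ hs ih =>
    refine ih.trans (Adj.reach ?_)
    obtain ⟨⟨p, q, o⟩, he, hc⟩ := hs
    refine ⟨rot x y (p, q, o), Set.mem_image_of_mem _ he, ?_⟩
    obtain ⟨v1, v2⟩ := v
    obtain ⟨w1, w2⟩ := w
    cases o
    · rw [rot_f]
      simp only [src_mk, tgt_false, tgt_true, Prod.mk.injEq] at hc ⊢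
      omega
    · rw [rot_t]
      simp only [src_mk, tgt_false, tgt_true, Prod.mk.injEq] at hc ⊢
      omega

theorem rot_dreach {x y : ℤ} {F : Set Edg} {u v : Vtx} (h : DReach F u v) :
    DReach (rot x y '' F) (x - u.2, y + u.1) (x - v.2, y + v.1) := by
  induction h with
  | refl => exact DReach.refl _ _
  | @tail v w _ hs ih =>
    refine ih.trans (DAdj.reach ?_)
    obtain ⟨⟨p, q, o⟩, he, hc⟩ := hs
    refine ⟨rot x y (p, q, o), Set.mem_image_of_mem _ he, ?_⟩
    obtain ⟨v1, v2⟩ := v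
    obtain ⟨w1, w2⟩ := w
    cases o
    · rw [rot_f]
      simp [dsrc, dtgt] at hc ⊢
      omega
    · rw [rot_t]
      simp [dsrc, dtgt] at hc ⊢
      omega

theorem RAr_of_RA {x y : ℤ} {m : ℕ} {F : Finset Edg} (h : H984P.RA (0, 0) m (↑F : Set Edg)) :
    RAr x y m (↑(F.map (rot x y).toEmbedding) : Set Edg) := by
  obtain ⟨⟨w, hw, hr⟩, g, hg, hd⟩ := h
  simp only at hw hg
  have hco : (↑(F.map (rot x y).toEmbedding) : Set Edg) = rot x y '' (↑F : Set Edg) := by
    simp
  constructor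
  · refine ⟨(x + 1 - w.2, y + w.1), by simp only; omega, ?_⟩
    have h1 := rot_reach (x := x) (y := y) hr
    simp only [sub_zero, add_zero] at h1
    refine h1.mono ?_
    rintro _ ⟨⟨p, q, o⟩, ⟨he1, he2⟩, rfl⟩
    refine ⟨by rw [hco]; exact Set.mem_image_of_mem _ he1, ?_⟩
    unfold H984P.PR at he2
    rw [Finset.mem_coe] at he2 ⊢
    cases o
    · rw [rot_f, mem_RE_true]
      rw [mem_RE_false] at he2
      simp only at he2
      omega
    · rw [rot_t, mem_RE_false]
      rw [mem_RE_true] at he2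
      simp only at he2
      omega
  · refine ⟨(x - g.2, y + g.1), by simp only; omega, ?_⟩
    have h1 := rot_dreach (x := x) (y := y) hd
    simp only [sub_zero, add_zero] at h1
    refine h1.mono ?_
    rintro _ ⟨⟨p, q, o⟩, ⟨he1, he2⟩, rfl⟩
    refine ⟨?_, ?_⟩
    · have he3 : dl (p, q, o) ∈ H984P.DR (0, 0) m := he1
      unfold H984P.DR at he3
      show dl (rot x y (p, q, o)) ∈ RE (x - 12 * m) (x + 3 * m) (y - 12 * m) (y + 12 * m)
      cases o
      · rw [rot_f, dl_t, mem_RE_false]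
        rw [dl_f, mem_RE_true] at he3
        simp only at he3
        omega
      · rw [rot_t, dl_f, mem_RE_true]
        rw [dl_t, mem_RE_false] at he3
        simp only at he3
        omega
    · rw [hco]
      rintro ⟨e', he', hee⟩
      rw [(rot x y).injective hee] at he'
      exact he2 he'

/-- the edges near the corner -/
noncomputable def NBr (x y : ℤ) (m : ℕ) : Finset Edg :=
  RE (x + 1 - 14 * m) (x + 1 + 13 * m) (y - 13 * m) (y + 14 * m)

theorem RAr_local {x y : ℤ} {m : ℕ} {F : Finset Edg} :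
    RAr x y m (↑F : Set Edg) ↔ RAr x y m (↑(F ∩ NBr x y m) : Set Edg) := by
  unfold RAr NBr
  have e1 : (↑F : Set Edg) ∩ ↑(RE (x + 1 - 3 * m) (x + 1 + 12 * m) (y - 12 * m) (y + 12 * m)) =
      (↑(F ∩ RE (x + 1 - 14 * m) (x + 1 + 13 * m) (y - 13 * m) (y + 14 * m)) : Set Edg) ∩
        ↑(RE (x + 1 - 3 * m) (x + 1 + 12 * m) (y - 12 * m) (y + 12 * m)) := by
    ext ⟨p, q, _ | _⟩
    · simp only [Set.mem_inter_iff, Finset.mem_coe, Finset.mem_inter, mem_RE_false]
      constructor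
      · rintro ⟨h1, h2⟩
        exact ⟨⟨h1, by omega⟩, h2⟩
      · rintro ⟨⟨h1, -⟩, h2⟩
        exact ⟨h1, h2⟩
    · simp only [Set.mem_inter_iff, Finset.mem_coe, Finset.mem_inter, mem_RE_true]
      constructor
      · rintro ⟨h1, h2⟩
        exact ⟨⟨h1, by omega⟩, h2⟩
      · rintro ⟨⟨h1, -⟩, h2⟩
        exact ⟨h1, h2⟩
  have e2 : ({e | dl e ∈ RE (x - 12 * m) (x + 3 * m) (y - 12 * m) (y + 12 * m)} : Set Edg) \ ↑F =
      {e | dl e ∈ RE (x - 12 * m) (x + 3 * m) (y - 12 * m) (y + 12 * m)} \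
        (↑(F ∩ RE (x + 1 - 14 * m) (x + 1 + 13 * m) (y - 13 * m) (y + 14 * m)) : Set Edg) := by
    ext ⟨p, q, o⟩
    constructor
    · rintro ⟨h1, h2⟩
      refine ⟨h1, fun h3 => h2 ?_⟩
      rw [Finset.mem_coe, Finset.mem_inter] at h3
      exact h3.1
    · rintro ⟨h1, h2⟩
      refine ⟨h1, fun h3 => h2 ?_⟩
      rw [Finset.mem_coe, Finset.mem_inter]
      refine ⟨h3, ?_⟩
      have h4 : dl (p, q, o) ∈ RE (x - 12 * m) (x + 3 * m) (y - 12 * m) (y + 12 * m) := h1
      cases o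
      · rw [dl_f, mem_RE_true] at h4
        rw [mem_RE_false]
        omega
      · rw [dl_t, mem_RE_false] at h4
        rw [mem_RE_true]
        omega
  rw [e1, e2]

theorem RAr_lower {κ : ℝ} (hL : H984P.LowA κ (1/4)) {x y : ℤ} {m : ℕ} (hm : 1 ≤ m)
    {S : Finset Edg} (hS : NBr x y m ⊆ S) :
    κ * (m : ℝ) ^ (-(1/4 : ℝ)) ≤ P2 S (fun F => RAr x y m (↑F : Set Edg)) := by
  have h1 := hL m hm
  have h2 : P2 S (fun F => RAr x y m (↑F : Set Edg)) =
      P2 (NBr x y m) (fun F => RAr x y m (↑F : Set Edg)) :=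
    Pr_local hS (fun F _ => RAr_local)
  have h3 : NBr x y m = (RE (-(13 * m : ℕ)) (14 * m : ℕ) (-(13 * m : ℕ)) (14 * m : ℕ)).map
      (rot x y).toEmbedding := by
    unfold NBr
    ext ⟨p, q, _ | _⟩
    · simp only [Finset.mem_map_equiv, rots_f, mem_RE_false, mem_RE_true]
      push_cast
      omega
    · simp only [Finset.mem_map_equiv, rots_t, mem_RE_false, mem_RE_true]
      push_cast
      omega
  rw [h2, h3]
  unfold P2
  rw [Pr_map]
  refine h1.trans (Pr_mono okhalf2 ?_)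
  intro F _ hF
  exact RAr_of_RA hF

/-- the signed Harris inequality -/
theorem signed {x y : ℤ} {m : ℕ} {S T1 T2 : Finset Edg} (h1 : T1 ⊆ S) (h2 : T2 ⊆ S)
    (hd : Disjoint T1 T2)
    (hOA : Disjoint (RE (x + 1 - 3 * m) (x + 1 + 12 * m) (y - 12 * m) (y + 12 * m)) T2)
    (hDA : ∀ e ∈ T1, dl e ∉ RE (x - 12 * m) (x + 3 * m) (y - 12 * m) (y + 12 * m))
    {O C : Finset Edg → Prop} (hO : IncrE T1 O) (hC : IncrE (dmp T2) C) :
    P2 S (fun F => RAr x y m (↑F : Set Edg)) * (P2 T1 O * P2 (dmp T2) C) ≤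
      P2 S (fun F => RAr x y m (↑F : Set Edg) ∧ (O (F ∩ T1) ∧ C (dmp (T2 \ F)))) := by
  have e1 : P2 T1 O = P2 S (fun F => O (F ∩ T1)) := (P2_restrict h1 O).symm
  have e2 : P2 (dmp T2) C = P2 S (fun F => C (dmp (T2 \ F))) := by
    rw [← P2_dual, ← P2_restrict h2 (fun F => C (dmp (T2 \ F)))]
    apply Pr_congr
    intro F _
    have : T2 \ (F ∩ T2) = T2 \ F := by
      ext e
      simp only [Finset.mem_sdiff, Finset.mem_inter]
      tauto
    rw [this]
  rw [e1, e2]
  refine H984P.harris_signed okhalf2 h1 h2 hd (N := fun F => RAr x y m (↑F : Set Edg))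
    (f := fun F => O (F ∩ T1)) (g := fun F => C (dmp (T2 \ F))) ?_ ?_ ?_ ?_ ?_
  · intro F _
    rw [Finset.inter_assoc, Finset.inter_self]
  · intro F G hFG hF
    exact hO _ _ (Finset.inter_subset_inter_right hFG) Finset.inter_subset_right hF
  · intro F _
    have : T2 \ (F ∩ T2) = T2 \ F := by
      ext e
      simp only [Finset.mem_sdiff, Finset.mem_inter]
      tauto
    show C (dmp (T2 \ F)) ↔ C (dmp (T2 \ (F ∩ T2)))
    rw [this]
  · intro F G hFG hG
    refine hC _ _ ?_ ?_ hG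
    · intro e he
      rw [mem_dmp, Finset.mem_sdiff] at he ⊢
      exact ⟨he.1, fun h' => he.2 (hFG h')⟩
    · intro e he
      rw [mem_dmp, Finset.mem_sdiff] at he
      rw [mem_dmp]
      exact he.1
  · intro F G _ _ h3 h4 h5 hN
    obtain ⟨⟨w, hw, hr⟩, g, hg, hdr⟩ := hN
    refine ⟨⟨w, hw, hr.mono ?_⟩, g, hg, hdr.mono ?_⟩
    · rintro e ⟨he1, he2⟩
      refine ⟨?_, he2⟩
      rw [Finset.mem_coe] at he1 he2 ⊢
      have hn : e ∉ T2 := Finset.disjoint_left.mp hOA he2
      by_cases ht : e ∈ T1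
      · exact (Finset.mem_inter.1 (h4 (Finset.mem_inter.2 ⟨he1, ht⟩))).1
      · have : e ∈ F \ (T1 ∪ T2) := by
          rw [Finset.mem_sdiff, Finset.mem_union]
          exact ⟨he1, fun h => h.elim ht hn⟩
        rw [h3, Finset.mem_sdiff] at this
        exact this.1
    · rintro e ⟨he1, he2⟩
      refine ⟨he1, ?_⟩
      intro hG
      apply he2
      rw [Finset.mem_coe] at hG ⊢
      have hn : e ∉ T1 := fun h => hDA e h he1
      by_cases ht : e ∈ T2
      · exact (Finset.mem_inter.1 (h5 (Finset.mem_inter.2 ⟨hG, ht⟩))).1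
      · have : e ∈ G \ (T1 ∪ T2) := by
          rw [Finset.mem_sdiff, Finset.mem_union]
          exact ⟨hG, fun h => h.elim hn ht⟩
        rw [← h3, Finset.mem_sdiff] at this
        exact this.1

end Pool.Agent.H67GF
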