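import Pool.Agent.H67GF.Low1

/-!
Faces on the exploration path: deterministic part of the lower bounds.
-/

set_option autoImplicit false

namespace Pool.Agent.H67GF

open H974 H731C H342P Finset MeasureTheory Filter Topology Pool.Agent.H67LP

/-- `g` is joined to the face `(q, -1)` by a closed dual path -/
def DQ (I : Set ℤ) (G : Set Edg) (q : ℤ) (g : Vtx) : Prop := DReach (Cls I G) (q, -1) g

theorem DQ_step {I : Set ℤ} {G : Set Edg} {q : ℤ} {e : Edg} (he : e ∈ Cls I G) :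
    DQ I G q (dsrc e) ↔ DQ I G q (dtgt e) := by
  constructor
  · intro h
    exact DReach.trans h (DAdj.reach ⟨e, he, Or.inl ⟨rfl, rfl⟩⟩)
  · intro h
    exact DReach.trans h (DAdj.reach ⟨e, he, Or.inr ⟨rfl, rfl⟩⟩)

/-- closed dual paths which start at a free boundary face -/
theorem inv2 {I : Set ℤ} {G F : Set Edg} (hF : F ⊆ dl '' (Gᶜ ∩ HP)) {q : ℤ}
    (hq : ¬ (q ∈ I ∧ q + 1 ∈ I)) {g : Vtx} (h : Reach F (q, -1) g) :
    -1 ≤ g.2 ∧ (0 ≤ g.2 → DQ I G q g) ∧ (g.2 = -1 → g.1 = q ∨ DQ I G q (g.1, 0)) := by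
  induction h with
  | refl => exact ⟨le_rfl, fun h => by simp at h, fun _ => Or.inl rfl⟩
  | @tail v w _ hs ih =>
    obtain ⟨h1, h2, h3⟩ := ih
    obtain ⟨e, he, hc⟩ := hs
    obtain ⟨⟨a, b, _ | _⟩, ⟨heG, hb⟩, rfl⟩ := hF he
    · have hb0 : 0 ≤ b := hb
      have hst := DQ_step (I := I) (G := G) (q := q) (e := (a, b, false))
        ⟨⟨heG, hb0⟩, by rintro ⟨⟨-, h⟩, -⟩; simp at h⟩
      simp only [dsrc_false, dtgt_mk] at hst
      simp only [dl_f, src_mk, tgt_true] at hc
      have ea : a - 1 + 1 = a := by ring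
      rw [ea] at hc
      rcases hc with ⟨k1, k2⟩ | ⟨k1, k2⟩
      · rw [← k1] at h1 h2
        rw [← k2]
        refine ⟨by simp only; omega, fun _ => hst.mp (h2 hb0), fun h => ?_⟩
        simp only at h
        omega
      · rw [← k2] at h1 h2
        rw [← k1]
        refine ⟨by simp only; omega, fun _ => hst.mpr (h2 hb0), fun h => ?_⟩
        simp only at h
        omega
    · have hb0 : 0 ≤ b := hb
      simp only [dl_t, src_mk, tgt_false] at hc
      have ea : b - 1 + 1 = b := by ring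
      rw [ea] at hc
      rcases hb0.eq_or_lt with h0 | h0
      · subst h0
        rcases hc with ⟨k1, k2⟩ | ⟨k1, k2⟩
        · rw [← k1] at h3
          rw [← k2]
          have hO : DQ I G q (a, 0) := by
            rcases h3 (by simp) with h4 | h4
            · have h4' : a = q := h4
              subst h4'
              have hnw : ((a, 0, true) : Edg) ∈ Cls I G :=
                ⟨⟨heG, le_rfl⟩, fun h5 => hq h5.2⟩
              have h6 := (DQ_step (q := a) hnw).mp (by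
                simpa [DQ] using DReach.refl (Cls I G) (a, -1))
              simpa using h6
            · exact h4
          exact ⟨by simp, fun _ => hO, fun h => by simp at h⟩
        · rw [← k2] at h2
          rw [← k1]
          exact ⟨by simp, fun h => by simp at h, fun _ => Or.inr (h2 le_rfl)⟩
      · have hst := DQ_step (I := I) (G := G) (q := q) (e := (a, b, true))
          ⟨⟨heG, hb0⟩, by
            rintro ⟨⟨h, -⟩, -⟩
            have h' : b = 0 := h
            omega⟩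
        simp only [dsrc_true, dtgt_mk] at hst
        rcases hc with ⟨k1, k2⟩ | ⟨k1, k2⟩
        · rw [← k1] at h1 h2
          rw [← k2]
          refine ⟨by simp only; omega, fun _ => hst.mp (h2 (by simp only; omega)), fun h => ?_⟩
          simp only at h
          omega
        · rw [← k2] at h1 h2
          rw [← k1]
          refine ⟨by simp only; omega, fun _ => hst.mpr (h2 (by simp only; omega)), fun h => ?_⟩
          simp only at h
          omega

theorem DC_of {I : Set ℤ} {G F : Set Edg} (hF : F ⊆ dl '' (Gᶜ ∩ HP)) {q : ℤ}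
    (hq : ¬ (q ∈ I ∧ q + 1 ∈ I)) {g : Vtx} (hg : 0 ≤ g.2) (h : Reach F (q, -1) g) : DC I G g :=
  ⟨q, DReach.symm ((inv2 hF hq h).2.1 hg)⟩

theorem open_start {G : Set Edg} {x y X s s' : ℤ} {m : ℕ} {w : Vtx} (hw : w.1 = x + 1 + 12 * m)
    (harm : Reach (G ∩ ↑(RE (x + 1 - 3 * m) (x + 1 + 12 * m) (y - 12 * m) (y + 12 * m)))
      (x + 1, y) w)
    (hook : 1 ≤ m → ∃ p p' : ℤ,
      Reach (G ∩ ↑(RE (x + 1 + 4 * m) (x + 1 + 8 * m) (y - 12 * m) (y + 12 * m)))
        (p, y - 12 * m) (p', y + 12 * m))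
    (hs : y - m ≤ s ∧ s ≤ y + m)
    (tube : Reach (G ∩ ↑(RE (x + 1 + 4 * m) X (y - m) (y + m))) (x + 1 + 4 * m, s) (X, s'))
    (hX : x + 1 + 8 * m ≤ X) (hy : 12 * m ≤ y) :
    Reach (G ∩ HP) (x + 1, y) (x + 1 + 4 * m, s) := by
  rcases Nat.eq_zero_or_pos m with h0 | h0
  · subst h0
    have e1 : s = y := by simp at hs; omega
    rw [e1]
    simpa using Reach.refl _ _
  · obtain ⟨p, p', hk⟩ := hook h0
    have k1 := cross_meet (a := x + 1 + 4 * m) (b := x + 1 + 8 * m) (C := y - 12 * m)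
      (D := y + 12 * m) (by omega) (by omega) (by omega) le_rfl (by omega) le_rfl harm
      (by simp only; omega) (by omega) hk le_rfl le_rfl
    have k2 := cross_meet (a := x + 1 + 4 * m) (b := x + 1 + 8 * m) (C := y - 12 * m)
      (D := y + 12 * m) (by omega) (by omega) (by omega) (by omega) (by omega) (by omega) tube
      (by simp only; omega) (by simp only; omega) hk (by simp only; omega) (by simp only; omega)
    exact (k1.mono (Set.inter_subset_inter_right _ (HP_RE (by omega)))).trans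
      (k2.symm.mono (Set.inter_subset_inter_right _ (HP_RE (by omega))))

theorem dual_start {H : Set Edg} {x y X s s' : ℤ} {m : ℕ} {g : Vtx} (hg : g.1 = x - 12 * m)
    (harm : Reach (H ∩ ↑(RE (x - 12 * m) (x + 3 * m) (y - 12 * m) (y + 12 * m))) (x, y) g)
    (hook : 1 ≤ m → ∃ p p' : ℤ,
      Reach (H ∩ ↑(RE (x - 8 * m) (x - 4 * m) (y - 12 * m) (y + 12 * m)))
        (p, y - 12 * m) (p', y + 12 * m))
    (hs : y - m ≤ s' ∧ s' ≤ y + m)
    (tube : Reach (H ∩ ↑(RE X (x - 4 * m) (y - m) (y + m))) (X, s) (x - 4 * m, s'))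
    (hX : X ≤ x - 8 * m) :
    Reach H (x, y) (x - 4 * m, s') := by
  rcases Nat.eq_zero_or_pos m with h0 | h0
  · subst h0
    have e1 : s' = y := by simp at hs; omega
    rw [e1]
    simpa using Reach.refl _ _
  · obtain ⟨p, p', hk⟩ := hook h0
    have k1 := cross_meet (a := x - 8 * m) (b := x - 4 * m) (C := y - 12 * m)
      (D := y + 12 * m) (by omega) (by omega) (by omega) le_rfl (by omega) le_rfl harm.symm
      (by omega) (by simp only; omega) hk le_rfl le_rfl
    have k2 := cross_meet (a := x - 8 * m) (b := x - 4 * m) (C := y - 12 * m)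
      (D := y + 12 * m) (by omega) (by omega) (by omega) (by omega) (by omega) (by omega) tube
      (by simp only; omega) (by simp only; omega) hk (by simp only; omega) (by simp only; omega)
    exact (harm.mono Set.inter_subset_left).trans ((k1.mono Set.inter_subset_left).trans
      ((k2.symm.mono Set.inter_subset_left).trans (tube.mono Set.inter_subset_left)))

/-- the dual arm of `RAr` in the lattice of faces -/
theorem arm_dual {x y : ℤ} {m : ℕ} {S : Finset Edg} (hS : NBr x y m ⊆ S)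
    (hHP : (↑S : Set Edg) ⊆ HP) {ω : sqLattice.edgeSet → Bool} {g : Vtx}
    (h : DReach ({e | dl e ∈ RE (x - 12 * m) (x + 3 * m) (y - 12 * m) (y + 12 * m)} \
      (↑(FF S ω) : Set Edg)) (x, y) g) :
    Reach ((dl '' ((opn ω)ᶜ ∩ HP)) ∩ ↑(RE (x - 12 * m) (x + 3 * m) (y - 12 * m) (y + 12 * m)))
      (x, y) g := by
  rw [← reach_dl] at h
  refine h.mono ?_
  rintro _ ⟨⟨p, q, o⟩, ⟨h1, h2⟩, rfl⟩
  have h4 : dl (p, q, o) ∈ RE (x - 12 * m) (x + 3 * m) (y - 12 * m) (y + 12 * m) := h1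
  have h5 : ((p, q, o) : Edg) ∈ S := by
    apply hS
    unfold NBr
    cases o
    · rw [dl_f, mem_RE_true] at h4
      rw [mem_RE_false]
      omega
    · rw [dl_t, mem_RE_false] at h4
      rw [mem_RE_true]
      omega
  refine ⟨⟨(p, q, o), ⟨?_, hHP (Finset.mem_coe.mpr h5)⟩, rfl⟩, Finset.mem_coe.mpr h4⟩
  intro h6
  apply h2
  rw [FF_coe]
  exact ⟨h6, Finset.mem_coe.mpr h5⟩

/-- hook, tube to the left and tube to the free boundary, in the lattice of faces -/
def Cnr (x y c0 h : ℤ) (m : ℕ) (D : Finset Edg) : Prop :=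
  (1 ≤ m → TBc (x - 8 * m) (x - 4 * m) (y - 12 * m) (y + 12 * m) D) ∧
    LRc (c0 - h) (x - 4 * m) (y - m) (y + m) D ∧ TBc (c0 - h) (c0 - h + 63 * m) (-1) (y + m) D

theorem TB_RE {a b c d : ℤ} {F : Finset Edg} {G : Set Edg} (hFG : (↑F : Set Edg) ⊆ G)
    (h : TBc a b c d F) : ∃ p p' : ℤ, ((a ≤ p ∧ p ≤ b) ∧ (a ≤ p' ∧ p' ≤ b)) ∧
      Reach (G ∩ ↑(RE a b c d)) (p, c) (p', d) := by
  obtain ⟨p, p', h1, h2, h3⟩ := h
  refine ⟨p, p', ⟨h1, h2⟩, h3.mono ?_⟩
  rintro e ⟨h4, h5⟩
  exact ⟨hFG h4, Finset.mem_coe.mpr (TBE_subset_RE (Finset.mem_coe.mp h5))⟩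

theorem LR_RE {a b c d : ℤ} {F : Finset Edg} {G : Set Edg} (hFG : (↑F : Set Edg) ⊆ G)
    (h : LRc a b c d F) : ∃ p p' : ℤ, ((c ≤ p ∧ p ≤ d) ∧ (c ≤ p' ∧ p' ≤ d)) ∧
      Reach (G ∩ ↑(RE a b c d)) (a, p) (b, p') := by
  obtain ⟨p, p', h1, h2, h3⟩ := h
  refine ⟨p, p', ⟨h1, h2⟩, h3.mono ?_⟩
  rintro e ⟨h4, h5⟩
  exact ⟨hFG h4, Finset.mem_coe.mpr (LRE_subset_RE (Finset.mem_coe.mp h5))⟩

theorem dual_near {I : Set ℤ} {G H : Set Edg} (hH : H ⊆ dl '' (Gᶜ ∩ HP)) {x y c0 h a : ℤ} {m : ℕ}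
    {g : Vtx} (hg : g.1 = x - 12 * m)
    (harm : Reach (H ∩ ↑(RE (x - 12 * m) (x + 3 * m) (y - 12 * m) (y + 12 * m))) (x, y) g)
    {D : Finset Edg} (hD : (↑D : Set Edg) ⊆ H) (hC : Cnr x y c0 h m D)
    (hy : 0 ≤ y) (hh : 1 ≤ h) (hhm : 128 * m ≤ h) (hc0 : c0 ≤ x) (hca : c0 ≤ a)
    (hhy : h ≤ y + 1) (hI : ∀ k ∈ I, a ≤ k) : DC I G (x, y) := by
  obtain ⟨h1, h2, h3⟩ := hC
  obtain ⟨s, s', ⟨hs, hs'⟩, tube⟩ := LR_RE hD h2
  obtain ⟨k, k', ⟨hk, hk'⟩, vert⟩ := TB_RE hD h3
  have st := dual_start hg harm (fun hm => by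
    obtain ⟨p, p', -, hp⟩ := TB_RE hD (h1 hm)
    exact ⟨p, p', hp⟩) hs' tube (by omega)
  have hkq : Reach H (k, -1) (c0 - h, s) := by
    rcases Nat.eq_zero_or_pos m with h0 | h0
    · subst h0
      have e1 : s = y := by simp at hs; omega
      have e2 : k = c0 - h := by simp at hk; omega
      have e3 : k' = c0 - h := by simp at hk'; omega
      rw [e1, e2]
      rw [e2, e3] at vert
      have := vert.mono Set.inter_subset_left
      simpa using this
    · have k2 := cross_meet (a := c0 - h) (b := c0 - h + 63 * m) (C := -1)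
        (D := y + m) (by omega) (by omega) (by omega) (by omega) (by omega) (by omega) tube
        le_rfl (by simp only; omega) vert (by simp only; omega) le_rfl
      exact (k2.mono Set.inter_subset_left).symm
  have hfin : Reach H (k, -1) (x, y) :=
    hkq.trans ((tube.mono Set.inter_subset_left).trans st.symm)
  refine DC_of hH (q := k) ?_ hy hfin
  rintro ⟨h4, -⟩
  have := hI k h4
  omega

/-- hook, tube to the right, and a connection to the boundary interval `[a', b']` -/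
def Onr (x y z X a' b' : ℤ) (m : ℕ) (F : Finset Edg) : Prop :=
  (1 ≤ m → TBc (x + 1 + 4 * m) (x + 1 + 8 * m) (y - 12 * m) (y + 12 * m) F) ∧
    LRc (x + 1 + 4 * m) X (y - m) (y + m) F ∧ TBc (X - 4 * m) X 0 (y + m) F ∧
    LRc z X 0 (4 * m) F ∧ (1 ≤ m → HC z 0 (8 * m) F ∧ IA a' b' z 0 (24 * m) F)

theorem open_near {I : Set ℤ} {G : Set Edg} {x y z X a' b' : ℤ} {m : ℕ} {w : Vtx}
    (hw : w.1 = x + 1 + 12 * m)
    (harm : Reach (G ∩ ↑(RE (x + 1 - 3 * m) (x + 1 + 12 * m) (y - 12 * m) (y + 12 * m)))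
      (x + 1, y) w)
    {F : Finset Edg} (hF : (↑F : Set Edg) ⊆ G) (hO : Onr x y z X a' b' m F)
    (hy : 0 ≤ y) (hym : 100 * m ≤ y + 1) (hxX : x + 1 + 12 * m ≤ X) (hzX : z + 24 * m < X)
    (hz : a' ≤ z ∧ z ≤ b') (hab : b' ≤ a' + 8 * m)
    (hI : ∀ k, a' ≤ k → k ≤ b' → k ∈ I) : CI I G (x + 1, y) := by
  obtain ⟨h1, h2, h3, h4, h5⟩ := hO
  obtain ⟨s, s', ⟨hs, hs'⟩, tube⟩ := LR_RE hF h2
  obtain ⟨p, p', ⟨hp, hp'⟩, vert⟩ := TB_RE hF h3
  obtain ⟨t, t', ⟨ht, ht'⟩, low⟩ := LR_RE hF h4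
  have st := open_start hw harm (fun hm => by
    obtain ⟨p, p', -, hp⟩ := TB_RE hF (h1 hm)
    exact ⟨p, p', hp⟩) hs tube (by omega) (by omega)
  have hHP : ∀ A B C D : ℤ, 0 ≤ C → G ∩ (↑(RE A B C D) : Set Edg) ⊆ G ∩ HP :=
    fun A B C D hC => Set.inter_subset_inter_right _ (HP_RE hC)
  rcases Nat.eq_zero_or_pos m with h0 | h0
  · subst h0
    simp only [Nat.cast_zero, mul_zero, sub_zero, add_zero] at *
    have e1 : s' = y := by omega
    have e2 : p = X := by omega
    have e3 : p' = X := by omega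
    have e4 : t = 0 := by omega
    have e5 : t' = 0 := by omega
    subst e1 e4 e5
    rw [e2, e3] at vert
    refine ⟨z, hI z hz.1 hz.2, ?_⟩
    exact (low.mono (hHP _ _ _ _ le_rfl)).trans ((vert.mono (hHP _ _ _ _ le_rfl)).trans
      ((tube.symm.mono (hHP _ _ _ _ hy)).trans st.symm))
  · have k1 := cross_meet (a := X - 4 * m) (b := X) (C := 0) (D := y + m) (by omega) (by omega)
      le_rfl (by omega) (by omega) le_rfl tube (by simp only; omega) le_rfl vert
      (by simp only; omega) le_rfl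
    have k2 := cross_meet (a := X - 4 * m) (b := X) (C := 0) (D := y + m) (by omega) (by omega)
      le_rfl le_rfl (by omega) (by omega) low (by simp only; omega) le_rfl vert
      (by simp only; omega) (by simp only; omega)
    obtain ⟨hHC, i, v, hi, hv, hr⟩ := h5 h0
    obtain ⟨fl, fr, hfl, hfr, hmeet⟩ := HC_meet (z := z) (t := 0) (r := 8 * m) (by omega) hHC
    have e24 : 3 * (8 * (m : ℤ)) = 24 * m := by ring
    have m1 := (hmeet (i, 0) v ⟨⟨by simp only; omega, by simp only; omega⟩, by simp, by simp⟩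
      (by rw [e24]; exact hv) (hr.mono (by
        refine Set.inter_subset_inter_right _ ?_
        rw [e24]
        exact_mod_cast VE_subset_RE))).1
    obtain ⟨t2, t2', ht2, ht2', hlow⟩ := h4
    obtain ⟨w2, hw2, hr2⟩ := exit_hp (G := (↑F : Set Edg)) (z := z) (m := 8 * m) (n := 24 * m)
      (u := (z, t2)) (v := (X, t2')) (by omega)
      ⟨⟨by simp only; omega, by simp only; omega⟩, by simp only; omega, by simp only; omega⟩
      (by right; left; simp only; omega) (hlow.mono (by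
        refine Set.inter_subset_inter_right _ ?_
        intro e he
        exact HP_RE le_rfl (Finset.mem_coe.mpr (LRE_subset_RE (Finset.mem_coe.mp he)))))
    have m2 := (hmeet (z, t2) w2
      ⟨⟨by simp only; omega, by simp only; omega⟩, by simp only; omega, by simp only; omega⟩
      (by rw [e24]; exact hw2) (by rw [e24]; exact hr2)).1
    have k3 := cross_meet (a := X - 4 * m) (b := X) (C := 0) (D := y + m) (by omega) (by omega)
      le_rfl le_rfl (by omega) (by omega) (F := G) (u := (z, t2)) (v := (X, t2')) (A := z)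
      (c := 0) (d := 4 * m) (hlow.mono (by
        rintro e ⟨h7, h8⟩
        exact ⟨hF h7, Finset.mem_coe.mpr (LRE_subset_RE (Finset.mem_coe.mp h8))⟩))
      (by simp only; omega) le_rfl vert (by simp only; omega) (by simp only; omega)
    have hFG : ∀ A B C D : ℤ, 0 ≤ C → (↑F : Set Edg) ∩ (↑(RE A B C D) : Set Edg) ⊆ G ∩ HP := by
      rintro A B C D hC e ⟨h7, h8⟩
      exact ⟨hF h7, HP_RE hC h8⟩
    refine ⟨i, hI i hi.1 hi.2, ?_⟩
    exact (m1.mono (hFG _ _ _ _ le_rfl)).trans ((m2.symm.mono (hFG _ _ _ _ le_rfl)).trans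
      ((k3.mono (hHP _ _ _ _ le_rfl)).trans ((k1.symm.mono (hHP _ _ _ _ le_rfl)).trans st.symm)))

end Pool.Agent.H67GF
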