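import Pool.Agent.H67GF.Low2

/-!
Faces on the exploration path: deterministic part of the lower bounds, far from the interval and
deep inside the interval.
-/

set_option autoImplicit false

namespace Pool.Agent.H67GF

open H974 H731C H342P Finset MeasureTheory Filter Topology Pool.Agent.H67LP

/-- hook, tube to the right, half-circuit, and a connection of the interval to the half-box -/
def Ofar (x y a b r r1 N : ℤ) (m : ℕ) (F : Finset Edg) : Prop :=
  (1 ≤ m → TBc (x + 1 + 4 * m) (x + 1 + 8 * m) (y - 12 * m) (y + 12 * m) F) ∧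
    LRc (x + 1 + 4 * m) (x + 3 * r) (y - m) (y + m) F ∧ HC x 0 r F ∧
    UBf a b x r1 (F ∩ OE x r1 N)

theorem open_far {I : Set ℤ} {G : Set Edg} {x y a b r r1 N : ℤ} {m : ℕ} {w : Vtx}
    (hw : w.1 = x + 1 + 12 * m)
    (harm : Reach (G ∩ ↑(RE (x + 1 - 3 * m) (x + 1 + 12 * m) (y - 12 * m) (y + 12 * m)))
      (x + 1, y) w)
    {F : Finset Edg} (hF : (↑F : Set Edg) ⊆ G) (hO : Ofar x y a b r r1 N m F)
    (hy : 0 ≤ y) (hym : 100 * m ≤ y + 1) (hr : r = 2 * (y + 1)) (hr1 : r1 = r - 1)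
    (ha : x + 3 * r ≤ a) (hI : ∀ k, a ≤ k → k ≤ b → k ∈ I) : CI I G (x + 1, y) := by
  obtain ⟨h1, ⟨s, s', hs, hs', tube0⟩, hHC, i, w0, hi, hw0, hub⟩ := hO
  have tube : Reach (G ∩ ↑(RE (x + 1 + 4 * m) (x + 3 * r) (y - m) (y + m)))
      (x + 1 + 4 * m, s) (x + 3 * r, s') := tube0.mono (by
    rintro e ⟨h7, h8⟩
    exact ⟨hF h7, Finset.mem_coe.mpr (LRE_subset_RE (Finset.mem_coe.mp h8))⟩)
  have st := open_start hw harm (fun hm => by
    obtain ⟨p, p', -, hp⟩ := TB_RE hF (h1 hm)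
    exact ⟨p, p', hp⟩) hs tube (by omega) (by omega)
  obtain ⟨fl, fr, hfl, hfr, hmeet⟩ := HC_meet (z := x) (t := 0) (r := r) (by omega) hHC
  have m1 := (hmeet (x + 1 + 4 * m, s) (x + 3 * r, s')
    ⟨⟨by simp only; omega, by simp only; omega⟩, by simp only; omega, by simp only; omega⟩
    (Or.inr (Or.inl rfl)) (tube0.mono (by
      rintro e ⟨h7, h8⟩
      refine ⟨h7, ?_⟩
      exact_mod_cast RE_subset (by omega) (by omega) (by omega) (by omega)
        (LRE_subset_RE (Finset.mem_coe.mp h8))))).1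
  have hub1 : Reach ((↑F : Set Edg) ∩ HP) (i, 0) w0 := hub.mono (by
    intro e he
    rw [Finset.mem_coe, Finset.mem_inter] at he
    exact ⟨he.1, HP_RE le_rfl (Finset.mem_coe.mpr (Finset.mem_sdiff.mp he.2).1)⟩)
  obtain ⟨⟨g1, g2⟩, g3, g4⟩ := hw0
  obtain ⟨w2, hw2, hr2⟩ := exit_hp (G := (↑F : Set Edg)) (z := x) (m := r) (n := 3 * r)
    (u := w0) (v := (i, 0)) (by omega) ⟨⟨by omega, by omega⟩, by omega, by omega⟩
    (by right; left; simp only; omega) hub1.symm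
  have m2 := (hmeet w0 w2 ⟨⟨by omega, by omega⟩, by omega, by omega⟩ hw2 hr2).1
  have hFG : ∀ A B C D : ℤ, 0 ≤ C → (↑F : Set Edg) ∩ (↑(RE A B C D) : Set Edg) ⊆ G ∩ HP := by
    rintro A B C D hC e ⟨h7, h8⟩
    exact ⟨hF h7, HP_RE hC h8⟩
  refine ⟨i, hI i hi.1 hi.2, ?_⟩
  exact (hub1.mono (Set.inter_subset_inter_left _ hF)).trans ((m2.mono (hFG _ _ _ _ le_rfl)).trans
    ((m1.symm.mono (hFG _ _ _ _ le_rfl)).trans st.symm))

theorem exit_t {G : Set Edg} {z t m n : ℤ} {u v : Vtx} (hmn : m ≤ n)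
    (hu : inR (z - m) (z + m) t (t + m) u) (hv : v.1 ≤ z - n ∨ z + n ≤ v.1)
    (hG : ∀ e ∈ G, t ≤ e.2.1) (h : Reach G u v) :
    ∃ w, onH z t n w ∧ Reach (G ∩ ↑(RE (z - n) (z + n) t (t + n))) u w := by
  obtain ⟨⟨hu1, hu2⟩, hu3, hu4⟩ := hu
  obtain ⟨w, hw1, hw2, hw3⟩ := first_exit (G := G) (a := z - n) (b := z + n)
    (c := t - 1) (d := t + n) (u := u) (v := v) ⟨⟨by omega, by omega⟩, by omega, by omega⟩ h
    (by rcases hv with hv | hv
        · exact Or.inl hv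
        · exact Or.inr (Or.inl hv))
  have h4 : Reach (G ∩ ↑(RE (z - n) (z + n) t (t + n))) u w := by
    refine hw3.mono ?_
    rintro ⟨p, q, o⟩ ⟨h1, h3⟩
    have h2' : t ≤ q := hG _ h1
    refine ⟨h1, ?_⟩
    rw [Finset.mem_coe] at h3 ⊢
    cases o
    · rw [mem_RE_false] at h3 ⊢
      omega
    · rw [mem_RE_true] at h3 ⊢
      omega
  obtain ⟨-, hi3, hi4⟩ := reach_inR (a := z - n) (b := z + n) (c := t) (d := t + n)
    ⟨⟨by omega, by omega⟩, by omega, by omega⟩ h4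
  refine ⟨w, ?_, h4⟩
  unfold onH
  rcases hw2 with h5 | h5 | h5 | h5
  · exact Or.inl h5
  · exact Or.inr (Or.inl h5)
  · omega
  · exact Or.inr (Or.inr h5)

/-- the boundary faces `[a, b] × {-1}` are connected to the half-box by the dual edges of `F` -/
def UBd (a b x r : ℤ) (F : Finset Edg) : Prop :=
  ∃ i w, (a ≤ i ∧ i ≤ b) ∧ inR (x - r) (x + r) (-1) (-1 + r) w ∧ Reach (↑F : Set Edg) (i, -1) w

/-- the dual edges outside the half-box -/
noncomputable def OEd (x r N : ℤ) : Finset Edg :=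
  VE (-N) (N - 1) (-1) (N - 1) \ RE (x - r) (x + r) (-1) (-1 + r)

/-- hook, tube to the left, half-circuit, and a connection to the free boundary, in the lattice of
faces -/
def Cdeep (x y a b r r1 N : ℤ) (m : ℕ) (D : Finset Edg) : Prop :=
  (1 ≤ m → TBc (x - 8 * m) (x - 4 * m) (y - 12 * m) (y + 12 * m) D) ∧
    LRc (x - 3 * r) (x - 4 * m) (y - m) (y + m) D ∧ HC x (-1) r D ∧
    UBd a b x r1 (D ∩ OEd x r1 N)

theorem dual_deep {I : Set ℤ} {G H : Set Edg} (hH : H ⊆ dl '' (Gᶜ ∩ HP))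
    {x y a b r r1 N : ℤ} {m : ℕ} {g : Vtx} (hg : g.1 = x - 12 * m)
    (harm : Reach (H ∩ ↑(RE (x - 12 * m) (x + 3 * m) (y - 12 * m) (y + 12 * m))) (x, y) g)
    {D : Finset Edg} (hD : (↑D : Set Edg) ⊆ H) (hC : Cdeep x y a b r r1 N m D)
    (hy : 0 ≤ y) (hym : 100 * m ≤ y + 1) (hr : r = 2 * (y + 1)) (hr1 : r1 = r - 1)
    (hb : b ≤ x - 3 * r) (hI : ∀ k ∈ I, b < k) : DC I G (x, y) := by
  obtain ⟨h1, ⟨s, s', hs, hs', tube0⟩, hHC, i, w0, hi, hw0, hub⟩ := hC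
  have tube : Reach (H ∩ ↑(RE (x - 3 * r) (x - 4 * m) (y - m) (y + m)))
      (x - 3 * r, s) (x - 4 * m, s') := tube0.mono (by
    rintro e ⟨h7, h8⟩
    exact ⟨hD h7, Finset.mem_coe.mpr (LRE_subset_RE (Finset.mem_coe.mp h8))⟩)
  have st := dual_start hg harm (fun hm => by
    obtain ⟨p, p', -, hp⟩ := TB_RE hD (h1 hm)
    exact ⟨p, p', hp⟩) hs' tube (by omega)
  obtain ⟨fl, fr, hfl, hfr, hmeet⟩ := HC_meet (z := x) (t := -1) (r := r) (by omega) hHC
  have m1 := (hmeet (x - 4 * m, s') (x - 3 * r, s)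
    ⟨⟨by simp only; omega, by simp only; omega⟩, by simp only; omega, by simp only; omega⟩
    (Or.inl rfl) (tube0.symm.mono (by
      rintro e ⟨h7, h8⟩
      refine ⟨h7, ?_⟩
      exact_mod_cast RE_subset (by omega) (by omega) (by omega) (by omega)
        (LRE_subset_RE (Finset.mem_coe.mp h8))))).1
  have hub1 : Reach (↑D : Set Edg) (i, -1) w0 := hub.mono (by
    intro e he
    rw [Finset.mem_coe, Finset.mem_inter] at he
    exact he.1)
  have hrow : ∀ e ∈ (↑D : Set Edg), -1 ≤ e.2.1 := by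
    intro e he
    exact F_low (G := G) hH (hD he)
  obtain ⟨⟨g1, g2⟩, g3, g4⟩ := hw0
  obtain ⟨w2, hw2, hr2⟩ := exit_t (G := (↑D : Set Edg)) (z := x) (t := -1) (m := r) (n := 3 * r)
    (u := w0) (v := (i, -1)) (by omega) ⟨⟨by omega, by omega⟩, by omega, by omega⟩
    (by left; simp only; omega) hrow hub1.symm
  have m2 := (hmeet w0 w2 ⟨⟨by omega, by omega⟩, by omega, by omega⟩ hw2 hr2).1
  have hfin : Reach H (i, -1) (x, y) :=
    (hub1.mono hD).trans ((m2.mono (Set.inter_subset_left.trans hD)).trans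
      ((m1.symm.mono (Set.inter_subset_left.trans hD)).trans st.symm))
  refine DC_of hH (q := i) ?_ hy hfin
  rintro ⟨h4, -⟩
  have := hI i h4
  omega

/-- hook, tube to the right and tube to the boundary -/
def Odeep (x y : ℤ) (m : ℕ) (F : Finset Edg) : Prop :=
  (1 ≤ m → TBc (x + 1 + 4 * m) (x + 1 + 8 * m) (y - 12 * m) (y + 12 * m) F) ∧
    LRc (x + 1 + 4 * m) (x + 1 + 16 * m) (y - m) (y + m) F ∧
    TBc (x + 1 + 12 * m) (x + 1 + 16 * m) 0 (y + m) F

theorem open_deep {I : Set ℤ} {G : Set Edg} {x y : ℤ} {m : ℕ} {w : Vtx}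
    (hw : w.1 = x + 1 + 12 * m)
    (harm : Reach (G ∩ ↑(RE (x + 1 - 3 * m) (x + 1 + 12 * m) (y - 12 * m) (y + 12 * m)))
      (x + 1, y) w)
    {F : Finset Edg} (hF : (↑F : Set Edg) ⊆ G) (hO : Odeep x y m F)
    (hy : 0 ≤ y) (hym : 100 * m ≤ y + 1) (hI : ∀ k, x + 1 ≤ k → k ≤ x + 1 + 16 * m → k ∈ I) :
    CI I G (x + 1, y) := by
  obtain ⟨h1, h2, h3⟩ := hO
  obtain ⟨s, s', ⟨hs, hs'⟩, tube⟩ := LR_RE hF h2
  obtain ⟨p, p', ⟨hp, hp'⟩, vert⟩ := TB_RE hF h3
  have st := open_start hw harm (fun hm => by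
    obtain ⟨p, p', -, hp⟩ := TB_RE hF (h1 hm)
    exact ⟨p, p', hp⟩) hs tube (by omega) (by omega)
  have hHP : ∀ A B C D : ℤ, 0 ≤ C → G ∩ (↑(RE A B C D) : Set Edg) ⊆ G ∩ HP :=
    fun A B C D hC => Set.inter_subset_inter_right _ (HP_RE hC)
  refine ⟨p, hI p (by omega) (by omega), ?_⟩
  rcases Nat.eq_zero_or_pos m with h0 | h0
  · subst h0
    simp only [Nat.cast_zero, mul_zero, sub_zero, add_zero] at *
    have e1 : s = y := by omega
    have e3 : p' = x + 1 := by omega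
    subst e1
    rw [e3] at vert
    exact (vert.mono (hHP _ _ _ _ le_rfl)).trans st.symm
  · have k1 := cross_meet (a := x + 1 + 12 * m) (b := x + 1 + 16 * m) (C := 0) (D := y + m)
      (by omega) (by omega) le_rfl (by omega) (by omega) le_rfl tube (by simp only; omega)
      le_rfl vert (by simp only; omega) le_rfl
    exact (k1.symm.mono (hHP _ _ _ _ le_rfl)).trans st.symm

end Pool.Agent.H67GF
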