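import Pool.Agent.H67GF.Low3

/-!
Faces on the exploration path: lower bound near the interval.
-/

set_option autoImplicit false

namespace Pool.Agent.H67GF

open H974 H731C H342P Finset MeasureTheory Filter Topology Pool.Agent.H67LP

theorem cond_low {T : Finset Edg} {A : Finset Edg → Prop} {c : ℝ} {m : ℕ} (hc : c ≤ 1)
    (h : 1 ≤ m → c ≤ P2 T A) : c ≤ P2 T (fun F => 1 ≤ m → A F) := by
  rcases Nat.eq_zero_or_pos m with h0 | h0
  · have h1 : P2 T (fun F => 1 ≤ m → A F) = 1 := Pr_true T (fun F _ h => by omega)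
    rw [h1]
    exact hc
  · exact (h h0).trans (Pr_mono okhalf2 (fun F _ hF _ => hF))

theorem imp_incr {S : Finset Edg} {A : Finset Edg → Prop} {p : Prop} (hA : IncrE S A) :
    IncrE S (fun F => p → A F) := fun F G h1 h2 h3 hp => hA F G h1 h2 (h3 hp)

theorem rsw_gen (K : ℕ) : ∃ c : ℝ, 0 < c ∧ c ≤ 1 ∧ ∀ w h : ℤ, 0 ≤ w → 0 ≤ h →
    w ≤ K * (h + 1) → c ≤ hh (1/2) w h := by
  obtain ⟨c, hc, hk⟩ := H731R.CLong.hh_long' (2 * K)
  refine ⟨min 1 (min c ((1/2 : ℝ) ^ K)), by positivity, min_le_left _ _, ?_⟩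
  intro w h hw hh0 hwh
  rcases hw.eq_or_lt with h0 | h0
  · refine (min_le_left _ _).trans ?_
    rw [← h0]
    unfold hh
    rw [Pr_true]
    intro F _
    exact ⟨0, 0, ⟨le_rfl, hh0⟩, ⟨le_rfl, hh0⟩, Reach.refl _ _⟩
  · rcases hh0.eq_or_lt with h1 | h1
    · refine (min_le_right _ _).trans ((min_le_right _ _).trans ?_)
      rw [← h1] at hwh ⊢
      have h2 := H731R.CLong.hh_line w.toNat
      have h3 : ((w.toNat : ℕ) : ℤ) = w := Int.toNat_of_nonneg hw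
      rw [h3] at h2
      refine le_trans ?_ h2
      apply pow_le_pow_of_le_one (by norm_num) (by norm_num)
      omega
    · refine (min_le_right _ _).trans ((min_le_left _ _).trans ?_)
      apply hk w h h0 (by omega)
      push_cast
      have : (K : ℤ) * (h + 1) ≤ K * (2 * h) :=
        mul_le_mul_of_nonneg_left (by omega) (by positivity)
      linarith

theorem LR_gen {K : ℕ} {c : ℝ} (hk : ∀ w h : ℤ, 0 ≤ w → 0 ≤ h → w ≤ K * (h + 1) → c ≤ hh (1/2) w h)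
    {S : Finset Edg} {a b t d : ℤ} (hS : LRE a b t d ⊆ S) (hab : a ≤ b) (htd : t ≤ d)
    (h : b - a ≤ K * (d - t + 1)) : c ≤ P2 S (LRc a b t d) := by
  unfold P2
  rw [pr_LRc (1/2) hS]
  exact hk _ _ (by omega) (by omega) h

theorem TB_gen {K : ℕ} {c : ℝ} (hk : ∀ w h : ℤ, 0 ≤ w → 0 ≤ h → w ≤ K * (h + 1) → c ≤ hh (1/2) w h)
    {S : Finset Edg} {a b t d : ℤ} (hS : TBE a b t d ⊆ S) (hab : a ≤ b) (htd : t ≤ d)
    (h : d - t ≤ K * (b - a + 1)) : c ≤ P2 S (TBc a b t d) := by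
  unfold P2
  rw [pr_TBc (1/2) hS]
  exact hk _ _ (by omega) (by omega) h

/-- the edges crossed by the dual edges of `R` -/
noncomputable def UD (R : Finset Edg) : Finset Edg := R.map dl.symm.toEmbedding

theorem mem_UD {R : Finset Edg} {e : Edg} : e ∈ UD R ↔ dl e ∈ R := by
  unfold UD
  rw [Finset.mem_map_equiv, Equiv.symm_symm]

theorem dmp_UD (R : Finset Edg) : dmp (UD R) = R := by
  ext e
  rw [mem_dmp, mem_UD, Equiv.apply_symm_apply]

theorem final_low {I : Set ℤ} {x y : ℤ} {m : ℕ} {S T1 R2 : Finset Edg}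
    (h1 : T1 ⊆ S) (h2 : UD R2 ⊆ S) (hd : Disjoint T1 (UD R2))
    (hOA : Disjoint (RE (x + 1 - 3 * m) (x + 1 + 12 * m) (y - 12 * m) (y + 12 * m)) (UD R2))
    (hDA : ∀ e ∈ T1, dl e ∉ RE (x - 12 * m) (x + 3 * m) (y - 12 * m) (y + 12 * m))
    {O C : Finset Edg → Prop} (hO : IncrE T1 O) (hC : IncrE R2 C)
    (hdet : ∀ ω, RAr x y m (↑(FF S ω) : Set Edg) → O (FF T1 ω) → C (dmp (UD R2 \ FF S ω)) →
      ω ∈ PathE I x y) {A B D : ℝ} (hA0 : 0 ≤ A) (hB0 : 0 ≤ B) (hD0 : 0 ≤ D)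
    (hA : A ≤ P2 S (fun F => RAr x y m (↑F : Set Edg))) (hB : B ≤ P2 T1 O) (hD : D ≤ P2 R2 C) :
    A * (B * D) ≤ (bondLaw half).real (PathE I x y) := by
  have hs := signed h1 h2 hd hOA hDA hO (C := C) (by rw [dmp_UD]; exact hC)
  rw [dmp_UD] at hs
  refine le_trans ?_ (hs.trans (P2_le_real ?_))
  · exact mul_le_mul hA (mul_le_mul hB hD hD0 (hB0.trans hB)) (by positivity) (hA0.trans hA)
  · rintro ω ⟨g1, g2, g3⟩
    rw [FF_inter h1] at g2
    exact hdet ω g1 g2 g3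

theorem rar_low {κ : ℝ} (hκ : 0 < κ) (hL : H984P.LowA κ (1/4)) {x y : ℤ} (hy : 0 ≤ y)
    {S : Finset Edg} (hS : NBr x y ((y + 1) / 128).toNat ⊆ S) :
    min κ 1 * ((y + 1 : ℤ) : ℝ) ^ (-(1/4 : ℝ)) ≤
      P2 S (fun F => RAr x y ((y + 1) / 128).toNat (↑F : Set Edg)) := by
  have hy1 : (1 : ℝ) ≤ ((y + 1 : ℤ) : ℝ) := by exact_mod_cast (by omega : 1 ≤ y + 1)
  have hp0 : 0 ≤ ((y + 1 : ℤ) : ℝ) ^ (-(1/4 : ℝ)) := by positivity
  rcases Nat.eq_zero_or_pos ((y + 1) / 128).toNat with h0 | h0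
  · have h2 : P2 S (fun F => RAr x y 0 (↑F : Set Edg)) = 1 := Pr_true S (fun F _ =>
      ⟨⟨(x + 1, y), by simp, Reach.refl _ _⟩, (x, y), by simp, DReach.refl _ _⟩)
    rw [h0, h2]
    have h1 : ((y + 1 : ℤ) : ℝ) ^ (-(1/4 : ℝ)) ≤ 1 :=
      Real.rpow_le_one_of_one_le_of_nonpos hy1 (by norm_num)
    calc min κ 1 * ((y + 1 : ℤ) : ℝ) ^ (-(1/4 : ℝ)) ≤ 1 * 1 :=
          mul_le_mul (min_le_right _ _) h1 hp0 (by norm_num)
      _ = 1 := by norm_num
  · refine le_trans ?_ (RAr_lower hL h0 hS)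
    refine mul_le_mul (min_le_left _ _) ?_ hp0 hκ.le
    apply Real.rpow_le_rpow_of_nonpos
    · exact_mod_cast h0
    · exact_mod_cast (by omega : ((((y + 1) / 128).toNat : ℕ) : ℤ) ≤ y + 1)
    · norm_num

theorem Psi_le {h l p q : ℝ} (hh : 1 ≤ h) (hl : 1 ≤ l) (hp : 0 ≤ p) (hq : 0 ≤ q)
    (hpq : l ≤ p + q + 1) : Psi h l p q ≤ 1 ∧ Psi h l p q ≤ l / h := by
  unfold Psi
  have h1 : h * l ≤ (p + h) * (q + h) := by nlinarith [mul_nonneg hp hq]
  constructor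
  · rw [div_le_one (by positivity)]
    exact h1
  · rw [div_le_div_iff₀ (by positivity) (by positivity)]
    have h2 : h * h ≤ (p + h) * (q + h) := mul_le_mul (by linarith) (by linarith) (by linarith) (by linarith)
    calc h * l * h = l * (h * h) := by ring
      _ ≤ _ := mul_le_mul_of_nonneg_left h2 (by linarith)

theorem dual_sub2 {S T : Finset Edg} (hT : T ⊆ S) (hS : (↑S : Set Edg) ⊆ HP)
    (ω : sqLattice.edgeSet → Bool) :
    (↑(dmp (T \ FF S ω)) : Set Edg) ⊆ dl '' ((opn ω)ᶜ ∩ HP) := by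
  rw [coe_dmp]
  rintro _ ⟨e, he, rfl⟩
  rw [Finset.mem_coe, Finset.mem_sdiff] at he
  refine ⟨e, ⟨?_, hS (Finset.mem_coe.mpr (hT he.1))⟩, rfl⟩
  intro h
  apply he.2
  rw [← Finset.mem_coe, FF_coe]
  exact ⟨h, Finset.mem_coe.mpr (hT he.1)⟩

theorem low_near {κ : ℝ} (hκ : 0 < κ) (hL : H984P.LowA κ (1/4)) : ∃ c : ℝ, 0 < c ∧
    ∀ (I : Set ℤ) (a b x y : ℤ), a ≤ b → 0 ≤ y → (∀ k, a ≤ k → k ≤ b → k ∈ I) →
    (∀ k ∈ I, a ≤ k) → 2 * x + 1 ≤ a + b → a ≤ x + 6 * (y + 1) → x - 6 * (y + 1) ≤ a →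
    c * ((y + 1 : ℤ) : ℝ) ^ (-(1/4 : ℝ)) *
        (Psi ((y + 1 : ℤ) : ℝ) ((b - a + 1 : ℤ) : ℝ) ((|x - a| : ℤ) : ℝ) ((|x - b| : ℤ) : ℝ)) ^
          ((1 : ℝ) / 3) ≤ (bondLaw half).real (PathE I x y) := by
  obtain ⟨δ, hδ, hδ1, hk⟩ := rsw_gen 2000
  obtain ⟨cI, hcI, hIA⟩ := IA_lower
  obtain ⟨c5, hc5⟩ : ∃ c5 : ℝ, c5 = min 1 ((1/2 : ℝ) ^ 141 * cI / 2) := ⟨_, rfl⟩
  have hc50 : 0 < c5 := by rw [hc5]; positivity
  refine ⟨min κ 1 * (δ * (δ * (δ * (δ * c5)))) * (δ * (δ * δ)), by positivity, ?_⟩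
  intro I a b x y hab hy hI1 hI2 hcen ha1 ha2
  obtain ⟨m, hm⟩ : ∃ m : ℕ, m = ((y + 1) / 128).toNat := ⟨_, rfl⟩
  have hm1 : (m : ℤ) = (y + 1) / 128 := by omega
  have hm2 : 128 * (m : ℤ) ≤ y + 1 := by omega
  have hm3 : y + 1 < 128 * (m : ℤ) + 128 := by omega
  have hm0 : 0 ≤ (m : ℤ) := by positivity
  obtain ⟨s, hs⟩ : ∃ s : ℤ, s = max a (x + 1) := ⟨_, rfl⟩
  obtain ⟨b', hb'⟩ : ∃ b' : ℤ, b' = min b (s + 8 * m) := ⟨_, rfl⟩
  set h : ℝ := ((y + 1 : ℤ) : ℝ) with hh'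
  set l : ℝ := ((b - a + 1 : ℤ) : ℝ) with hl'
  set p : ℝ := ((|x - a| : ℤ) : ℝ) with hp'
  set q : ℝ := ((|x - b| : ℤ) : ℝ) with hq'
  have hh : 1 ≤ h := by rw [hh']; exact_mod_cast (by omega : 1 ≤ y + 1)
  have hl : 1 ≤ l := by rw [hl']; exact_mod_cast (by omega : 1 ≤ b - a + 1)
  have hp : 0 ≤ p := by rw [hp']; exact_mod_cast abs_nonneg _
  have hq : 0 ≤ q := by rw [hq']; exact_mod_cast abs_nonneg _
  have q1 := abs_cases (x - a)
  have q2 := abs_cases (x - b)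
  have hpq : l ≤ p + q + 1 := by
    rw [hl', hp', hq']
    exact_mod_cast (by omega : b - a + 1 ≤ |x - a| + |x - b| + 1)
  have hX := Psi_nonneg hh hl hp hq
  obtain ⟨hX1, hX2⟩ := Psi_le hh hl hp hq hpq
  obtain ⟨Z, hZ⟩ : ∃ Z : ℝ, Z = (Psi h l p q) ^ ((1 : ℝ) / 3) := ⟨_, rfl⟩
  have hZ0 : 0 ≤ Z := by rw [hZ]; positivity
  have hZ1 : Z ≤ 1 := by rw [hZ]; exact Real.rpow_le_one hX hX1 (by norm_num)
  rw [← hZ]
  obtain ⟨z, hz1, hz2⟩ : ∃ z : ℤ, (s ≤ z ∧ z ≤ b') ∧ (1 ≤ m → ∀ S : Finset Edg,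
      VE (z - 24 * m) (z + 24 * m) 0 (0 + 24 * m) ⊆ S →
      cI / 2 * Z ≤ P2 S (IA s b' z 0 (24 * m))) := by
    rcases Nat.eq_zero_or_pos m with h0 | h0
    · exact ⟨s, ⟨le_rfl, by omega⟩, fun h => by omega⟩
    · obtain ⟨z, hz1, hz2⟩ := hIA s b' 0 (24 * m) (by omega) (by omega)
      refine ⟨z, hz1, fun _ S hS => le_trans ?_ (hz2 S hS)⟩
      have hmr : (1 : ℝ) ≤ (m : ℝ) := by exact_mod_cast h0
      have hY : Psi h l p q ≤ 8 * (((b' - s + 1 : ℤ) : ℝ) / ((24 * m : ℤ) : ℝ)) := by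
        have hd0 : (0 : ℝ) < ((24 * m : ℤ) : ℝ) := by exact_mod_cast (by omega : 0 < 24 * (m : ℤ))
        rcases le_or_gt b (s + 8 * m) with hb1 | hb1
        · refine hX2.trans ?_
          rw [mul_div_assoc', div_le_div_iff₀ (by linarith) hd0]
          have e1 : l ≤ 2 * ((b' - s + 1 : ℤ) : ℝ) := by
            rw [hl']
            exact_mod_cast (by omega : b - a + 1 ≤ 2 * (b' - s + 1))
          have e2 : ((24 * m : ℤ) : ℝ) ≤ 4 * h := by
            rw [hh']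
            exact_mod_cast (by omega : 24 * (m : ℤ) ≤ 4 * (y + 1))
          have e3 : 0 ≤ ((b' - s + 1 : ℤ) : ℝ) := by
            exact_mod_cast (by omega : 0 ≤ b' - s + 1)
          calc l * ((24 * m : ℤ) : ℝ) ≤ (2 * ((b' - s + 1 : ℤ) : ℝ)) * (4 * h) :=
                mul_le_mul e1 e2 hd0.le (by positivity)
            _ = _ := by ring
        · refine hX1.trans ?_
          rw [mul_div_assoc', le_div_iff₀ hd0, one_mul]
          have e1 : b' - s + 1 = 8 * m + 1 := by omega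
          rw [e1]
          exact_mod_cast (by omega : 24 * (m : ℤ) ≤ 8 * (8 * m + 1))
      have h3 := cube_root_le (K := 2) hX (by
        apply div_nonneg
        · exact_mod_cast (by omega : 0 ≤ b' - s + 1)
        · exact_mod_cast (by omega : 0 ≤ 24 * (m : ℤ))) (by norm_num) hY (by norm_num)
      rw [← hZ] at h3
      calc cI / 2 * Z ≤ cI / 2 * (2 * (((b' - s + 1 : ℤ) : ℝ) / ((24 * m : ℤ) : ℝ)) ^
            ((1 : ℝ) / 3)) := mul_le_mul_of_nonneg_left h3 (by positivity)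
        _ = _ := by ring
  obtain ⟨X, hXd⟩ : ∃ X : ℤ, X = s + 40 * m + 1 := ⟨_, rfl⟩
  obtain ⟨c0, hc0⟩ : ∃ c0 : ℤ, c0 = min a x := ⟨_, rfl⟩
  obtain ⟨N, hN⟩ : ∃ N : ℤ, N = |x| + |a| + 100 * (y + 1) := ⟨_, rfl⟩
  have hx1 := le_abs_self x
  have hx2 := neg_abs_le x
  have hx3 := abs_nonneg x
  have ha3 := le_abs_self a
  have ha4 := neg_abs_le a
  have ha5 := abs_nonneg a
  obtain ⟨S, hS⟩ : ∃ S : Finset Edg, S = RE (-N) N 0 N := ⟨_, rfl⟩
  obtain ⟨T1, hT1⟩ : ∃ T1 : Finset Edg, T1 = RE (x + 1 + 4 * m) X 0 (y + 12 * m) ∪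
    RE (z - 24 * m) X 0 (24 * m) := ⟨_, rfl⟩
  obtain ⟨R2, hR2⟩ : ∃ R2 : Finset Edg,
    R2 = RE (c0 - (y + 1)) (x - 4 * m) (y - 12 * m) (y + 12 * m) ∪
      VE (c0 - (y + 1)) (c0 - (y + 1) + 63 * m) (-1) (y + 12 * m) := ⟨_, rfl⟩
  have hHP : (↑S : Set Edg) ⊆ HP := by rw [hS]; exact HP_RE le_rfl
  have hNB : NBr x y m ⊆ S := by
    rw [hS]
    exact RE_subset (by omega) (by omega) (by omega) (by omega)
  have hT1S : T1 ⊆ S := by
    rw [hT1, hS]
    exact Finset.union_subset (RE_subset (by omega) (by omega) (by omega) (by omega))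
      (RE_subset (by omega) (by omega) (by omega) (by omega))
  have hT2S : UD R2 ⊆ S := by
    rintro ⟨p, q, _ | _⟩ h1
    · rw [mem_UD, dl_f, hR2, Finset.mem_union, mem_RE_true, mem_VE_true] at h1
      rw [hS, mem_RE_false]
      omega
    · rw [mem_UD, dl_t, hR2, Finset.mem_union, mem_RE_false, mem_VE_false] at h1
      rw [hS, mem_RE_true]
      omega
  have hd : Disjoint T1 (UD R2) := by
    rw [Finset.disjoint_left]
    rintro ⟨p, q, _ | _⟩ h1 h2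
    · rw [mem_UD, dl_f, hR2, Finset.mem_union, mem_RE_true, mem_VE_true] at h2
      rw [hT1, Finset.mem_union, mem_RE_false, mem_RE_false] at h1
      omega
    · rw [mem_UD, dl_t, hR2, Finset.mem_union, mem_RE_false, mem_VE_false] at h2
      rw [hT1, Finset.mem_union, mem_RE_true, mem_RE_true] at h1
      omega
  have hOA : Disjoint (RE (x + 1 - 3 * m) (x + 1 + 12 * m) (y - 12 * m) (y + 12 * m))
      (UD R2) := by
    rw [Finset.disjoint_left]
    rintro ⟨p, q, _ | _⟩ h1 h2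
    · rw [mem_UD, dl_f, hR2, Finset.mem_union, mem_RE_true, mem_VE_true] at h2
      rw [mem_RE_false] at h1
      omega
    · rw [mem_UD, dl_t, hR2, Finset.mem_union, mem_RE_false, mem_VE_false] at h2
      rw [mem_RE_true] at h1
      omega
  have hDA : ∀ e ∈ T1, dl e ∉ RE (x - 12 * m) (x + 3 * m) (y - 12 * m) (y + 12 * m) := by
    rintro ⟨p, q, _ | _⟩ h1 h2
    · rw [dl_f, mem_RE_true] at h2
      rw [hT1, Finset.mem_union, mem_RE_false, mem_RE_false] at h1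
      omega
    · rw [dl_t, mem_RE_false] at h2
      rw [hT1, Finset.mem_union, mem_RE_true, mem_RE_true] at h1
      omega
  have hOi : IncrE T1 (Onr x y z X s b' m) :=
    and_incr (imp_incr (TBc_incr _ _ _ _ _)) (and_incr (LRc_incr _ _ _ _ _)
      (and_incr (TBc_incr _ _ _ _ _) (and_incr (LRc_incr _ _ _ _ _)
        (imp_incr (and_incr (HC_incr _ _ _ _) (IA_incr _ _ _ _ _ _))))))
  have hCi : IncrE R2 (Cnr x y c0 (y + 1) m) :=
    and_incr (imp_incr (TBc_incr _ _ _ _ _)) (and_incr (LRc_incr _ _ _ _ _)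
      (TBc_incr _ _ _ _ _))
  -- probabilities of the open events
  have u1 : RE (x + 1 + 4 * m) X 0 (y + 12 * m) ⊆ T1 := by
    rw [hT1]; exact Finset.subset_union_left
  have u2 : RE (z - 24 * m) X 0 (24 * m) ⊆ T1 := by
    rw [hT1]; exact Finset.subset_union_right
  have p1 : δ ≤ P2 T1 (fun F => 1 ≤ m →
      TBc (x + 1 + 4 * m) (x + 1 + 8 * m) (y - 12 * m) (y + 12 * m) F) :=
    cond_low hδ1 (fun h0 => TB_gen hk ((TBE_subset_RE.trans
      (RE_subset le_rfl (by omega) (by omega) le_rfl)).trans u1) (by omega) (by omega)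
      (by push_cast; omega))
  have p2 : δ ≤ P2 T1 (LRc (x + 1 + 4 * m) X (y - m) (y + m)) :=
    LR_gen hk ((LRE_subset_RE.trans
      (RE_subset le_rfl (by omega) (by omega) (by omega))).trans u1) (by omega) (by omega)
      (by push_cast; omega)
  have p3 : δ ≤ P2 T1 (TBc (X - 4 * m) X 0 (y + m)) :=
    TB_gen hk ((TBE_subset_RE.trans
      (RE_subset (by omega) (by omega) (by omega) (by omega))).trans u1) (by omega) (by omega)
      (by push_cast; omega)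
  have p4 : δ ≤ P2 T1 (LRc z X 0 (4 * m)) :=
    LR_gen hk ((LRE_subset_RE.trans
      (RE_subset (by omega) (by omega) (by omega) (by omega))).trans u2) (by omega) (by omega)
      (by push_cast; omega)
  have p5 : c5 * Z ≤ P2 T1 (fun F => 1 ≤ m → (HC z 0 (8 * m) F ∧ IA s b' z 0 (24 * m) F)) := by
    refine cond_low ?_ (fun h0 => ?_)
    · have : c5 ≤ 1 := by rw [hc5]; exact min_le_left _ _
      calc c5 * Z ≤ 1 * 1 := mul_le_mul this hZ1 hZ0 (by norm_num)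
        _ = 1 := by norm_num
    · have v1 : VE (z - 24 * m) (z + 24 * m) 0 (0 + 24 * m) ⊆ T1 :=
        (VE_subset_RE.trans (RE_subset le_rfl (by omega) le_rfl (by omega))).trans u2
      have v2 := pr_HC (z := z) (t := 0) (r := 8 * m) (by omega) (S := T1) (by
        have e : 3 * (8 * (m : ℤ)) = 24 * m := by ring
        rw [e]
        exact v1)
      have v3 := hz2 h0 T1 v1
      have v4 := low2 (HC_incr T1 z 0 (8 * m)) (IA_incr T1 s b' z 0 (24 * m)) (by positivity)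
        (by positivity) v2 v3
      refine le_trans ?_ v4
      calc c5 * Z ≤ ((1/2 : ℝ) ^ 141 * cI / 2) * Z :=
            mul_le_mul_of_nonneg_right (by rw [hc5]; exact min_le_right _ _) hZ0
        _ = _ := by ring
  have r4 := low2 (LRc_incr T1 z X 0 (4 * m))
    (imp_incr (p := 1 ≤ m) (and_incr (HC_incr T1 z 0 (8 * m)) (IA_incr T1 s b' z 0 (24 * m))))
    hδ.le (by positivity) p4 p5
  have r3 := low2 (TBc_incr T1 (X - 4 * m) X 0 (y + m)) (and_incr (LRc_incr T1 z X 0 (4 * m))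
    (imp_incr (p := 1 ≤ m) (and_incr (HC_incr T1 z 0 (8 * m)) (IA_incr T1 s b' z 0 (24 * m)))))
    hδ.le (by positivity) p3 r4
  have r2 := low2 (LRc_incr T1 (x + 1 + 4 * m) X (y - m) (y + m))
    (and_incr (TBc_incr T1 (X - 4 * m) X 0 (y + m)) (and_incr (LRc_incr T1 z X 0 (4 * m))
    (imp_incr (p := 1 ≤ m) (and_incr (HC_incr T1 z 0 (8 * m)) (IA_incr T1 s b' z 0 (24 * m))))))
    hδ.le (by positivity) p2 r3
  have r1 := low2 (imp_incr (p := 1 ≤ m)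
    (TBc_incr T1 (x + 1 + 4 * m) (x + 1 + 8 * m) (y - 12 * m) (y + 12 * m)))
    (and_incr (LRc_incr T1 (x + 1 + 4 * m) X (y - m) (y + m))
    (and_incr (TBc_incr T1 (X - 4 * m) X 0 (y + m)) (and_incr (LRc_incr T1 z X 0 (4 * m))
    (imp_incr (p := 1 ≤ m) (and_incr (HC_incr T1 z 0 (8 * m)) (IA_incr T1 s b' z 0 (24 * m)))))))
    hδ.le (by positivity) p1 r2
  -- probabilities of the dual events
  have w1 : RE (c0 - (y + 1)) (x - 4 * m) (y - 12 * m) (y + 12 * m) ⊆ R2 := by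
    rw [hR2]; exact Finset.subset_union_left
  have w2 : VE (c0 - (y + 1)) (c0 - (y + 1) + 63 * m) (-1) (y + 12 * m) ⊆ R2 := by
    rw [hR2]; exact Finset.subset_union_right
  have d1 : δ ≤ P2 R2 (fun F => 1 ≤ m →
      TBc (x - 8 * m) (x - 4 * m) (y - 12 * m) (y + 12 * m) F) :=
    cond_low hδ1 (fun h0 => TB_gen hk ((TBE_subset_RE.trans
      (RE_subset (by omega) le_rfl le_rfl le_rfl)).trans w1) (by omega) (by omega)
      (by push_cast; omega))
  have d2 : δ ≤ P2 R2 (LRc (c0 - (y + 1)) (x - 4 * m) (y - m) (y + m)) :=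
    LR_gen hk ((LRE_subset_RE.trans
      (RE_subset le_rfl le_rfl (by omega) (by omega))).trans w1) (by omega) (by omega)
      (by push_cast; omega)
  have d3 : δ ≤ P2 R2 (TBc (c0 - (y + 1)) (c0 - (y + 1) + 63 * m) (-1) (y + m)) :=
    TB_gen hk (((TBE_subset_VE le_rfl le_rfl).trans
      (VE_mono le_rfl le_rfl (by omega))).trans w2) (by omega) (by omega)
      (by push_cast; omega)
  have e2 := low2 (LRc_incr R2 (c0 - (y + 1)) (x - 4 * m) (y - m) (y + m))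
    (TBc_incr R2 (c0 - (y + 1)) (c0 - (y + 1) + 63 * m) (-1) (y + m)) hδ.le hδ.le d2 d3
  have e1 := low2 (imp_incr (p := 1 ≤ m)
    (TBc_incr R2 (x - 8 * m) (x - 4 * m) (y - 12 * m) (y + 12 * m)))
    (and_incr (LRc_incr R2 (c0 - (y + 1)) (x - 4 * m) (y - m) (y + m))
    (TBc_incr R2 (c0 - (y + 1)) (c0 - (y + 1) + 63 * m) (-1) (y + m))) hδ.le (by positivity) d1 e2
  have key := final_low (I := I) hT1S hT2S hd hOA hDA hOi hCi (by
    rintro ω ⟨⟨w, hw, harm⟩, g, hg, hdarm⟩ gO gC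
    have harm2 := arm_dual hNB hHP hdarm
    refine ⟨?_, (x + 1, y), ⟨Or.inr rfl, Or.inl rfl⟩, ?_⟩
    · exact dual_near (G := opn ω) (a := a) (Set.Subset.refl _) hg harm2 (dual_sub2 hT2S hHP ω) gC
        hy (by omega) (by omega) (by omega) (by omega) le_rfl hI2
    · exact open_near (G := opn ω) hw (harm.mono (Set.inter_subset_inter_left _ (FF_sub S ω)))
        (FF_sub T1 ω) gO hy (by omega) (by omega) (by omega) hz1 (by omega)
        (fun k h1 h2 => hI1 k (by omega) (by omega)))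
    (A := min κ 1 * h ^ (-(1/4 : ℝ))) (B := δ * (δ * (δ * (δ * (c5 * Z)))))
    (D := δ * (δ * δ)) (by positivity) (by positivity) (by positivity)
    (by rw [hm] at hNB ⊢; exact rar_low hκ hL hy hNB) r1 e1
  refine le_trans (le_of_eq ?_) key
  ring

end Pool.Agent.H67GF
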