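import Pool.Agent.H67GF.Low4

/-!
Faces on the exploration path: lower bound far from the interval.
-/

set_option autoImplicit false

namespace Pool.Agent.H67GF

open H974 H731C H342P Finset MeasureTheory Filter Topology Pool.Agent.H67LP

theorem UBf_incr (S : Finset Edg) (a b x r r1 N : ℤ) :
    IncrE S (fun F => UBf a b x r (F ∩ OE x r1 N)) := by
  rintro F G h _ hF
  exact UBf_mono (Finset.inter_subset_inter_right h) hF

theorem HC_loc {x t r : ℤ} {T F : Finset Edg}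
    (h1 : LRE (x - 3 * r) (x + 3 * r) (t + r) (t + 3 * r) ⊆ T)
    (h2 : TBE (x + r) (x + 3 * r) t (t + 3 * r) ⊆ T)
    (h3 : TBE (x - 3 * r) (x - r) t (t + 3 * r) ⊆ T) : HC x t r F ↔ HC x t r (F ∩ T) := by
  unfold HC
  rw [← LRc_local h1, ← TBc_local h2, ← TBc_local h3]

/-- half-circuits, in a set which contains the edges of the half-annulus -/
theorem pr_HC2 {x t r : ℤ} (hr : 1 ≤ r) {T : Finset Edg}
    (h1 : LRE (x - 3 * r) (x + 3 * r) (t + r) (t + 3 * r) ⊆ T)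
    (h2 : TBE (x + r) (x + 3 * r) t (t + 3 * r) ⊆ T)
    (h3 : TBE (x - 3 * r) (x - r) t (t + 3 * r) ⊆ T) : (1/2 : ℝ) ^ 141 ≤ P2 T (HC x t r) := by
  have e1 := P2_restrict (S := T ∪ VE (x - 3 * r) (x + 3 * r) t (t + 3 * r)) (S' := T)
    Finset.subset_union_left (HC x t r)
  rw [← e1]
  have e2 : P2 (T ∪ VE (x - 3 * r) (x + 3 * r) t (t + 3 * r)) (fun F => HC x t r (F ∩ T)) =
      P2 (T ∪ VE (x - 3 * r) (x + 3 * r) t (t + 3 * r)) (HC x t r) :=
    Pr_congr (fun F _ => (HC_loc h1 h2 h3).symm)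
  rw [e2]
  exact pr_HC hr Finset.subset_union_right

theorem far_ratio2 {h l p q : ℝ} (hh : 1 ≤ h) (hl : 1 ≤ l) (hp : 6 * h ≤ p) (hq : q = p + l - 1) :
    Psi h l p q ≤ 8 * (((4 * h - 1) / ((4 * h - 1) + (p - (2 * h - 1)))) *
      (l / ((p - (2 * h - 1)) + l))) := by
  unfold Psi
  rw [hq, div_mul_div_comm, mul_div_assoc', div_le_div_iff₀ (by nlinarith) (by nlinarith)]
  have h1 : 0 < p + h := by linarith
  have h2 : 0 < p + l - 1 + h := by linarith
  have k1 : (4 * h - 1 + (p - (2 * h - 1))) ≤ 2 * (p + h) := by linarith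
  have k2 : (p - (2 * h - 1) + l) ≤ (p + l - 1 + h) := by linarith
  have k3 : (4 * h - 1 + (p - (2 * h - 1))) * (p - (2 * h - 1) + l) ≤
      (2 * (p + h)) * (p + l - 1 + h) := mul_le_mul k1 k2 (by linarith) (by linarith)
  calc h * l * ((4 * h - 1 + (p - (2 * h - 1))) * (p - (2 * h - 1) + l))
      ≤ h * l * ((2 * (p + h)) * (p + l - 1 + h)) := mul_le_mul_of_nonneg_left k3 (by positivity)
    _ = (2 * h * l) * ((p + h) * (p + l - 1 + h)) := by ring
    _ ≤ (8 * ((4 * h - 1) * l)) * ((p + h) * (p + l - 1 + h)) := by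
        apply mul_le_mul_of_nonneg_right _ (by positivity)
        nlinarith
    _ = _ := by ring

/-- connection of the half-box to the interval, outside the half-box -/
theorem UB_lower : ∃ c : ℝ, 0 < c ∧ ∀ a b x h : ℤ, a ≤ b → 1 ≤ h → x + 6 * h ≤ a →
    ∃ N0 : ℤ, ∀ N : ℤ, N0 ≤ N → ∀ T : Finset Edg, OE x (2 * h - 1) N ⊆ T →
    c * (Psi (h : ℝ) ((b - a + 1 : ℤ) : ℝ) ((|x - a| : ℤ) : ℝ) ((|x - b| : ℤ) : ℝ)) ^
      ((1 : ℝ) / 3) ≤ P2 T (fun F => UBf a b x (2 * h - 1) (F ∩ OE x (2 * h - 1) N)) := by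
  obtain ⟨c, hc, hCN⟩ := CN_lower
  refine ⟨c / 2, by positivity, ?_⟩
  intro a b x h hab hh hxa
  obtain ⟨r1, hr1⟩ : ∃ r1 : ℤ, r1 = 2 * h - 1 := ⟨_, rfl⟩
  rw [← hr1]
  obtain ⟨N0, hN0⟩ := hCN (x - r1) (x + r1) a b (by omega) (by omega) hab
  refine ⟨N0, ?_⟩
  intro N hN T hT
  have h1 := hN0 N hN
  have e1 : P2 T (fun F => UBf a b x r1 (F ∩ OE x r1 N)) = P2 (OE x r1 N) (UBf a b x r1) :=
    P2_restrict hT _
  have e2 : P2 (OE x r1 N) (UBf a b x r1) =
      P2 (RE (-N) N 0 N) (fun F => UBf a b x r1 (F ∩ OE x r1 N)) :=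
    (P2_restrict Finset.sdiff_subset _).symm
  rw [e1, e2]
  have h2 : P2 (RE (-N) N 0 N) (CN (x - r1) (x + r1) a b (-N) N 0 N) ≤
      P2 (RE (-N) N 0 N) (fun F => UBf a b x r1 (F ∩ OE x r1 N)) := by
    apply Pr_mono okhalf2
    rintro F _ ⟨j, i, hj, hi, hr⟩
    obtain ⟨w, hw1, hw2⟩ := first_hit (A' := ↑(RE (x - r1) (x + r1) 0 r1))
      (P := fun w => inR (x - r1) (x + r1) 0 (0 + r1) w) (by
        intro e he
        have := RE_ends (Finset.mem_coe.mp he)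
        rw [zero_add]
        exact this) hr.symm ⟨⟨by simp only; omega, by simp only; omega⟩, by simp, by simp; omega⟩
    refine ⟨i, w, hi, hw1, ?_⟩
    unfold OE
    rw [Finset.coe_inter, Finset.coe_sdiff]
    exact hw2
  refine le_trans ?_ (h1.trans h2)
  have hhr : (1 : ℝ) ≤ (h : ℝ) := by exact_mod_cast hh
  have hlr : (1 : ℝ) ≤ ((b - a + 1 : ℤ) : ℝ) := by exact_mod_cast (by omega : 1 ≤ b - a + 1)
  have q1 := abs_cases (x - a)
  have q2 := abs_cases (x - b)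
  have hp : 6 * (h : ℝ) ≤ ((|x - a| : ℤ) : ℝ) := by
    exact_mod_cast (by omega : 6 * h ≤ |x - a|)
  have hq : ((|x - b| : ℤ) : ℝ) = ((|x - a| : ℤ) : ℝ) + ((b - a + 1 : ℤ) : ℝ) - 1 := by
    have : |x - b| = |x - a| + (b - a + 1) - 1 := by omega
    rw [this]
    push_cast
    ring
  have h3 := far_ratio2 hhr hlr hp hq
  have e3 : ((4 * (h : ℝ) - 1) / ((4 * (h : ℝ) - 1) + (((|x - a| : ℤ) : ℝ) - (2 * (h : ℝ) - 1)))) *
      (((b - a + 1 : ℤ) : ℝ) / ((((|x - a| : ℤ) : ℝ) - (2 * (h : ℝ) - 1)) +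
        ((b - a + 1 : ℤ) : ℝ))) =
      (((x + r1 - (x - r1) + 1 : ℤ) : ℝ) / ((x + r1 - (x - r1) + 1 + (a - (x + r1)) : ℤ) : ℝ)) *
        (((b - a + 1 : ℤ) : ℝ) / ((a - (x + r1) + (b - a + 1) : ℤ) : ℝ)) := by
    have : |x - a| = a - x := by omega
    rw [this, hr1]
    push_cast
    ring_nf
  rw [e3] at h3
  have h4 := cube_root_le (K := 2) (Psi_nonneg hhr hlr (by positivity)
    (by exact_mod_cast abs_nonneg _)) (by
      apply mul_nonneg
      · apply div_nonneg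
        · exact_mod_cast (by omega : 0 ≤ x + r1 - (x - r1) + 1)
        · exact_mod_cast (by omega : 0 ≤ x + r1 - (x - r1) + 1 + (a - (x + r1)))
      · apply div_nonneg
        · exact_mod_cast (by omega : 0 ≤ b - a + 1)
        · exact_mod_cast (by omega : 0 ≤ a - (x + r1) + (b - a + 1))) (by norm_num) h3
      (by norm_num)
  calc _ ≤ c / 2 * (2 * _) := mul_le_mul_of_nonneg_left h4 (by positivity)
    _ = _ := by ring

theorem low_far {κ : ℝ} (hκ : 0 < κ) (hL : H984P.LowA κ (1/4)) : ∃ c : ℝ, 0 < c ∧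
    ∀ (I : Set ℤ) (a b x y : ℤ), a ≤ b → 0 ≤ y → (∀ k, a ≤ k → k ≤ b → k ∈ I) →
    (∀ k ∈ I, a ≤ k) → x + 6 * (y + 1) ≤ a →
    c * ((y + 1 : ℤ) : ℝ) ^ (-(1/4 : ℝ)) *
        (Psi ((y + 1 : ℤ) : ℝ) ((b - a + 1 : ℤ) : ℝ) ((|x - a| : ℤ) : ℝ) ((|x - b| : ℤ) : ℝ)) ^
          ((1 : ℝ) / 3) ≤ (bondLaw half).real (PathE I x y) := by
  obtain ⟨δ, hδ, hδ1, hk⟩ := rsw_gen 2000
  obtain ⟨cU, hcU, hUB⟩ := UB_lower
  refine ⟨min κ 1 * (δ * (δ * ((1/2 : ℝ) ^ 141 * cU))) * (δ * (δ * δ)), by positivity, ?_⟩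
  intro I a b x y hab hy hI1 hI2 hxa
  obtain ⟨m, hm⟩ : ∃ m : ℕ, m = ((y + 1) / 128).toNat := ⟨_, rfl⟩
  have hm1 : (m : ℤ) = (y + 1) / 128 := by omega
  have hm2 : 128 * (m : ℤ) ≤ y + 1 := by omega
  have hm3 : y + 1 < 128 * (m : ℤ) + 128 := by omega
  have hm0 : 0 ≤ (m : ℤ) := by positivity
  obtain ⟨N0, hN0⟩ := hUB a b x (y + 1) hab (by omega) hxa
  set h : ℝ := ((y + 1 : ℤ) : ℝ) with hh'
  set l : ℝ := ((b - a + 1 : ℤ) : ℝ) with hl'
  set p : ℝ := ((|x - a| : ℤ) : ℝ) with hp'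
  set q : ℝ := ((|x - b| : ℤ) : ℝ) with hq'
  have hh : 1 ≤ h := by rw [hh']; exact_mod_cast (by omega : 1 ≤ y + 1)
  have hl : 1 ≤ l := by rw [hl']; exact_mod_cast (by omega : 1 ≤ b - a + 1)
  have hp : 0 ≤ p := by rw [hp']; exact_mod_cast abs_nonneg _
  have hq : 0 ≤ q := by rw [hq']; exact_mod_cast abs_nonneg _
  have hX := Psi_nonneg hh hl hp hq
  obtain ⟨Z, hZ⟩ : ∃ Z : ℝ, Z = (Psi h l p q) ^ ((1 : ℝ) / 3) := ⟨_, rfl⟩
  have hZ0 : 0 ≤ Z := by rw [hZ]; positivity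
  rw [← hZ] at hN0 ⊢
  obtain ⟨r, hr⟩ : ∃ r : ℤ, r = 2 * (y + 1) := ⟨_, rfl⟩
  obtain ⟨r1, hr1⟩ : ∃ r1 : ℤ, r1 = 2 * (y + 1) - 1 := ⟨_, rfl⟩
  rw [← hr1] at hN0
  obtain ⟨N, hN⟩ : ∃ N : ℤ, N = max N0 (|x| + 100 * (y + 1)) := ⟨_, rfl⟩
  have hx1 := le_abs_self x
  have hx2 := neg_abs_le x
  have hx3 := abs_nonneg x
  obtain ⟨S, hS⟩ : ∃ S : Finset Edg, S = RE (-N) N 0 N := ⟨_, rfl⟩
  obtain ⟨T1, hT1⟩ : ∃ T1 : Finset Edg, T1 = OE x r1 N ∪ RE (x + 1 + 4 * m) (x + r1) 0 r1 :=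
    ⟨_, rfl⟩
  obtain ⟨R2, hR2⟩ : ∃ R2 : Finset Edg,
    R2 = RE (x - (y + 1)) (x - 4 * m) (y - 12 * m) (y + 12 * m) ∪
      VE (x - (y + 1)) (x - (y + 1) + 63 * m) (-1) (y + 12 * m) := ⟨_, rfl⟩
  have hHP : (↑S : Set Edg) ⊆ HP := by rw [hS]; exact HP_RE le_rfl
  have hNB : NBr x y m ⊆ S := by
    rw [hS]
    exact RE_subset (by omega) (by omega) (by omega) (by omega)
  have hT1S : T1 ⊆ S := by
    rw [hT1, hS]
    exact Finset.union_subset Finset.sdiff_subset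
      (RE_subset (by omega) (by omega) (by omega) (by omega))
  have hT2S : UD R2 ⊆ S := by
    rintro ⟨p, q, _ | _⟩ h1
    · rw [mem_UD, dl_f, hR2, Finset.mem_union, mem_RE_true, mem_VE_true] at h1
      rw [hS, mem_RE_false]
      omega
    · rw [mem_UD, dl_t, hR2, Finset.mem_union, mem_RE_false, mem_VE_false] at h1
      rw [hS, mem_RE_true]
      omega
  have hd : Disjoint T1 (UD R2) := by
    rw [Finset.disjoint_left]
    rintro ⟨p, q, _ | _⟩ h1 h2
    · rw [mem_UD, dl_f, hR2, Finset.mem_union, mem_RE_true, mem_VE_true] at h2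
      rw [hT1, OE, Finset.mem_union, Finset.mem_sdiff, mem_RE_false, mem_RE_false,
        mem_RE_false] at h1
      omega
    · rw [mem_UD, dl_t, hR2, Finset.mem_union, mem_RE_false, mem_VE_false] at h2
      rw [hT1, OE, Finset.mem_union, Finset.mem_sdiff, mem_RE_true, mem_RE_true,
        mem_RE_true] at h1
      omega
  have hOA : Disjoint (RE (x + 1 - 3 * m) (x + 1 + 12 * m) (y - 12 * m) (y + 12 * m))
      (UD R2) := by
    rw [Finset.disjoint_left]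
    rintro ⟨p, q, _ | _⟩ h1 h2
    · rw [mem_UD, dl_f, hR2, Finset.mem_union, mem_RE_true, mem_VE_true] at h2
      rw [mem_RE_false] at h1
      omega
    · rw [mem_UD, dl_t, hR2, Finset.mem_union, mem_RE_false, mem_VE_false] at h2
      rw [mem_RE_true] at h1
      omega
  have hDA : ∀ e ∈ T1, dl e ∉ RE (x - 12 * m) (x + 3 * m) (y - 12 * m) (y + 12 * m) := by
    rintro ⟨p, q, _ | _⟩ h1 h2
    · rw [dl_f, mem_RE_true] at h2
      rw [hT1, OE, Finset.mem_union, Finset.mem_sdiff, mem_RE_false, mem_RE_false,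
        mem_RE_false] at h1
      omega
    · rw [dl_t, mem_RE_false] at h2
      rw [hT1, OE, Finset.mem_union, Finset.mem_sdiff, mem_RE_true, mem_RE_true,
        mem_RE_true] at h1
      omega
  have hOi : IncrE T1 (Ofar x y a b r r1 N m) :=
    and_incr (imp_incr (TBc_incr _ _ _ _ _)) (and_incr (LRc_incr _ _ _ _ _)
      (and_incr (HC_incr _ _ _ _) (UBf_incr _ _ _ _ _ _ _)))
  have hCi : IncrE R2 (Cnr x y x (y + 1) m) :=
    and_incr (imp_incr (TBc_incr _ _ _ _ _)) (and_incr (LRc_incr _ _ _ _ _)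
      (TBc_incr _ _ _ _ _))
  -- probabilities of the open events
  have u1 : RE (x + 1 + 4 * m) (x + 3 * r) 0 (3 * r) ⊆ T1 := by
    rintro ⟨p, q, _ | _⟩ h1
    · rw [mem_RE_false] at h1
      rw [hT1, OE, Finset.mem_union, Finset.mem_sdiff, mem_RE_false, mem_RE_false, mem_RE_false]
      omega
    · rw [mem_RE_true] at h1
      rw [hT1, OE, Finset.mem_union, Finset.mem_sdiff, mem_RE_true, mem_RE_true, mem_RE_true]
      omega
  have p1 : δ ≤ P2 T1 (fun F => 1 ≤ m →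
      TBc (x + 1 + 4 * m) (x + 1 + 8 * m) (y - 12 * m) (y + 12 * m) F) :=
    cond_low hδ1 (fun h0 => TB_gen hk ((TBE_subset_RE.trans
      (RE_subset le_rfl (by omega) (by omega) (by omega))).trans u1) (by omega) (by omega)
      (by push_cast; omega))
  have p2 : δ ≤ P2 T1 (LRc (x + 1 + 4 * m) (x + 3 * r) (y - m) (y + m)) :=
    LR_gen hk ((LRE_subset_RE.trans
      (RE_subset le_rfl (by omega) (by omega) (by omega))).trans u1) (by omega) (by omega)
      (by push_cast; omega)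
  have p3 : (1/2 : ℝ) ^ 141 ≤ P2 T1 (HC x 0 r) := by
    apply pr_HC2 (by omega)
    · rintro ⟨p, q, _ | _⟩ h1
      · rw [mem_LRE_false] at h1
        rw [hT1, OE, Finset.mem_union, Finset.mem_sdiff, mem_RE_false, mem_RE_false, mem_RE_false]
        omega
      · rw [mem_LRE_true] at h1
        rw [hT1, OE, Finset.mem_union, Finset.mem_sdiff, mem_RE_true, mem_RE_true, mem_RE_true]
        omega
    · rintro ⟨p, q, _ | _⟩ h1
      · rw [mem_TBE_false] at h1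
        rw [hT1, OE, Finset.mem_union, Finset.mem_sdiff, mem_RE_false, mem_RE_false, mem_RE_false]
        omega
      · rw [mem_TBE_true] at h1
        rw [hT1, OE, Finset.mem_union, Finset.mem_sdiff, mem_RE_true, mem_RE_true, mem_RE_true]
        omega
    · rintro ⟨p, q, _ | _⟩ h1
      · rw [mem_TBE_false] at h1
        rw [hT1, OE, Finset.mem_union, Finset.mem_sdiff, mem_RE_false, mem_RE_false, mem_RE_false]
        omega
      · rw [mem_TBE_true] at h1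
        rw [hT1, OE, Finset.mem_union, Finset.mem_sdiff, mem_RE_true, mem_RE_true, mem_RE_true]
        omega
  have p4 : cU * Z ≤ P2 T1 (fun F => UBf a b x r1 (F ∩ OE x r1 N)) :=
    hN0 N (by omega) T1 (by rw [hT1]; exact Finset.subset_union_left)
  have r3 := low2 (HC_incr T1 x 0 r) (UBf_incr T1 a b x r1 r1 N) (by positivity) (by positivity)
    p3 p4
  have r2 := low2 (LRc_incr T1 (x + 1 + 4 * m) (x + 3 * r) (y - m) (y + m))
    (and_incr (HC_incr T1 x 0 r) (UBf_incr T1 a b x r1 r1 N)) hδ.le (by positivity) p2 r3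
  have r1' := low2 (imp_incr (p := 1 ≤ m)
    (TBc_incr T1 (x + 1 + 4 * m) (x + 1 + 8 * m) (y - 12 * m) (y + 12 * m)))
    (and_incr (LRc_incr T1 (x + 1 + 4 * m) (x + 3 * r) (y - m) (y + m))
    (and_incr (HC_incr T1 x 0 r) (UBf_incr T1 a b x r1 r1 N))) hδ.le (by positivity) p1 r2
  -- probabilities of the dual events
  have w1 : RE (x - (y + 1)) (x - 4 * m) (y - 12 * m) (y + 12 * m) ⊆ R2 := by
    rw [hR2]; exact Finset.subset_union_left
  have w2 : VE (x - (y + 1)) (x - (y + 1) + 63 * m) (-1) (y + 12 * m) ⊆ R2 := by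
    rw [hR2]; exact Finset.subset_union_right
  have d1 : δ ≤ P2 R2 (fun F => 1 ≤ m →
      TBc (x - 8 * m) (x - 4 * m) (y - 12 * m) (y + 12 * m) F) :=
    cond_low hδ1 (fun h0 => TB_gen hk ((TBE_subset_RE.trans
      (RE_subset (by omega) le_rfl le_rfl le_rfl)).trans w1) (by omega) (by omega)
      (by push_cast; omega))
  have d2 : δ ≤ P2 R2 (LRc (x - (y + 1)) (x - 4 * m) (y - m) (y + m)) :=
    LR_gen hk ((LRE_subset_RE.trans
      (RE_subset le_rfl le_rfl (by omega) (by omega))).trans w1) (by omega) (by omega)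
      (by push_cast; omega)
  have d3 : δ ≤ P2 R2 (TBc (x - (y + 1)) (x - (y + 1) + 63 * m) (-1) (y + m)) :=
    TB_gen hk (((TBE_subset_VE le_rfl le_rfl).trans
      (VE_mono le_rfl le_rfl (by omega))).trans w2) (by omega) (by omega)
      (by push_cast; omega)
  have e2 := low2 (LRc_incr R2 (x - (y + 1)) (x - 4 * m) (y - m) (y + m))
    (TBc_incr R2 (x - (y + 1)) (x - (y + 1) + 63 * m) (-1) (y + m)) hδ.le hδ.le d2 d3
  have e1 := low2 (imp_incr (p := 1 ≤ m)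
    (TBc_incr R2 (x - 8 * m) (x - 4 * m) (y - 12 * m) (y + 12 * m)))
    (and_incr (LRc_incr R2 (x - (y + 1)) (x - 4 * m) (y - m) (y + m))
    (TBc_incr R2 (x - (y + 1)) (x - (y + 1) + 63 * m) (-1) (y + m))) hδ.le (by positivity) d1 e2
  have key := final_low (I := I) hT1S hT2S hd hOA hDA hOi hCi (by
    rintro ω ⟨⟨w, hw, harm⟩, g, hg, hdarm⟩ gO gC
    have harm2 := arm_dual hNB hHP hdarm
    refine ⟨?_, (x + 1, y), ⟨Or.inr rfl, Or.inl rfl⟩, ?_⟩
    · exact dual_near (G := opn ω) (a := a) (Set.Subset.refl _) hg harm2 (dual_sub2 hT2S hHP ω) gC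
        hy (by omega) (by omega) (by omega) (by omega) le_rfl hI2
    · exact open_far (G := opn ω) hw (harm.mono (Set.inter_subset_inter_left _ (FF_sub S ω)))
        (FF_sub T1 ω) gO hy (by omega) hr (by omega) (by omega) hI1)
    (A := min κ 1 * h ^ (-(1/4 : ℝ))) (B := δ * (δ * ((1/2 : ℝ) ^ 141 * (cU * Z))))
    (D := δ * (δ * δ)) (by positivity) (by positivity) (by positivity)
    (by rw [hm] at hNB ⊢; exact rar_low hκ hL hy hNB) r1' e1
  refine le_trans (le_of_eq ?_) key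
  ring

end Pool.Agent.H67GF
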