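import Pool.Agent.H67GF.Low5

/-!
Faces on the exploration path: lower bound deep inside the interval.
-/

set_option autoImplicit false

namespace Pool.Agent.H67GF

open H974 H731C H342P Finset MeasureTheory Filter Topology Pool.Agent.H67LP

theorem UBd_mono {a b x r : ℤ} {F G : Finset Edg} (h : F ⊆ G) (hF : UBd a b x r F) :
    UBd a b x r G := by
  obtain ⟨i, w, h1, h2, h3⟩ := hF
  exact ⟨i, w, h1, h2, h3.mono (by exact_mod_cast h)⟩

theorem UBd_incr (S : Finset Edg) (a b x r r1 N : ℤ) :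
    IncrE S (fun F => UBd a b x r (F ∩ OEd x r1 N)) := by
  rintro F G h _ hF
  exact UBd_mono (Finset.inter_subset_inter_right h) hF

/-- connection of the half-box to the free boundary, outside the half-box -/
theorem UBd_lower : ∃ c : ℝ, 0 < c ∧ ∀ x h s N : ℤ, 1 ≤ h → 6 * h ≤ s → |x| + 40 * s ≤ N →
    ∀ T : Finset Edg, OEd x (2 * h - 1) N ⊆ T →
    c * ((h : ℝ) / (s : ℝ)) ^ ((1 : ℝ) / 3) ≤
      P2 T (fun F => UBd (x - 2 * s) (x - s) x (2 * h - 1) (F ∩ OEd x (2 * h - 1) N)) := by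
  obtain ⟨c0, hc0, hX⟩ := XC_lower
  refine ⟨c0 / 2, by positivity, ?_⟩
  intro x h s N hh hs hN T hT
  obtain ⟨r1, hr1⟩ : ∃ r1 : ℤ, r1 = 2 * h - 1 := ⟨_, rfl⟩
  rw [← hr1] at hT ⊢
  have hx1 := le_abs_self x
  have hx2 := neg_abs_le x
  have hx3 := abs_nonneg x
  obtain ⟨S0, hS0⟩ : ∃ S0 : Finset Edg, S0 = VE (-N) (N - 1) (-1) (N - 1) := ⟨_, rfl⟩
  have e1 : P2 T (fun F => UBd (x - 2 * s) (x - s) x r1 (F ∩ OEd x r1 N)) =
      P2 (OEd x r1 N) (UBd (x - 2 * s) (x - s) x r1) := P2_restrict hT _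
  have e2 : P2 (OEd x r1 N) (UBd (x - 2 * s) (x - s) x r1) =
      P2 S0 (fun F => UBd (x - 2 * s) (x - s) x r1 (F ∩ OEd x r1 N)) := by
    rw [hS0]
    exact (P2_restrict Finset.sdiff_subset _).symm
  rw [e1, e2]
  have h2 : P2 S0 (XC (x - 2 * s) (x - s) (x - r1) (x + r1) (-N) (N - 1) (-1) (N - 1)) ≤
      P2 S0 (fun F => UBd (x - 2 * s) (x - s) x r1 (F ∩ OEd x r1 N)) := by
    apply Pr_mono okhalf2
    rintro F _ ⟨i, j, hi, hj, hr⟩
    obtain ⟨w, hw1, hw2⟩ := first_hit (A' := ↑(RE (x - r1) (x + r1) (-1) (-1 + r1)))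
      (P := fun w => inR (x - r1) (x + r1) (-1) (-1 + r1) w) (by
        intro e he
        exact RE_ends (Finset.mem_coe.mp he))
      hr ⟨⟨by simp only; omega, by simp only; omega⟩, by simp, by simp; omega⟩
    refine ⟨i, w, hi, hw1, ?_⟩
    unfold OEd
    rw [Finset.coe_inter, Finset.coe_sdiff]
    exact hw2
  refine le_trans ?_ h2
  have k1 := hX (x - 2 * s) (x - s) (x - r1) (x + r1) (-1) (-N) (N - 1) (N - 1) (by omega)
    (by omega) (by omega) (by omega) (by omega) (by omega) S0 (by rw [hS0])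
  have hhr : (1 : ℝ) ≤ (h : ℝ) := by exact_mod_cast hh
  have hr1r : (h : ℝ) ≤ (r1 : ℝ) := by exact_mod_cast (by omega : h ≤ r1)
  have hsr : (r1 : ℝ) + 1 ≤ (s : ℝ) := by exact_mod_cast (by omega : r1 + 1 ≤ s)
  have hs0 : (0 : ℝ) < (s : ℝ) := by linarith
  have hr0 : (0 : ℝ) < (r1 : ℝ) := by linarith
  have hrat := xc_ratio hhr hr1r hsr
  set R : ℝ := (2 * (r1 : ℝ) + 1) * ((s : ℝ) + 1) / (2 * (s : ℝ) + r1 + 1) ^ 2 with hR
  have hR0 : 0 ≤ R := by positivity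
  have hcube := cube_root_le (K := 2) (by positivity) hR0 (by norm_num) hrat (by norm_num)
  have e3 : ((((x - s - (x - 2 * s) + 1 : ℤ) : ℝ) * ((x + r1 - (x - r1) + 1 : ℤ) : ℝ)) /
      ((x + r1 - (x - 2 * s) + 1 : ℤ) : ℝ) ^ 2) = R := by
    rw [hR]
    push_cast
    ring_nf
  rw [e3] at k1
  refine le_trans ?_ k1
  calc c0 / 2 * ((h : ℝ) / (s : ℝ)) ^ ((1 : ℝ) / 3)
      ≤ c0 / 2 * (2 * R ^ ((1 : ℝ) / 3)) := mul_le_mul_of_nonneg_left hcube (by positivity)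
    _ = _ := by ring

theorem Psi_deep {h l p q s : ℝ} (hh : 1 ≤ h) (hs : 1 ≤ s) (hp : p = s - 1) (hq : s ≤ q)
    (hl : l = p + q + 1) : Psi h l p q ≤ 8 * (h / s) := by
  unfold Psi
  rw [mul_div_assoc', div_le_div_iff₀ (by nlinarith) (by linarith), hl, hp]
  have h1 : s * (s - 1 + q + 1) ≤ (s - 1 + h) * (2 * (q + h)) :=
    mul_le_mul (by linarith) (by linarith) (by linarith) (by linarith)
  calc h * (s - 1 + q + 1) * s = h * (s * (s - 1 + q + 1)) := by ring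
    _ ≤ h * ((s - 1 + h) * (2 * (q + h))) := mul_le_mul_of_nonneg_left h1 (by linarith)
    _ = (2 * h) * ((s - 1 + h) * (q + h)) := by ring
    _ ≤ (8 * h) * ((s - 1 + h) * (q + h)) := by
        apply mul_le_mul_of_nonneg_right (by linarith)
        apply mul_nonneg <;> linarith

theorem low_deep {κ : ℝ} (hκ : 0 < κ) (hL : H984P.LowA κ (1/4)) : ∃ c : ℝ, 0 < c ∧
    ∀ (I : Set ℤ) (a b x y : ℤ), a ≤ b → 0 ≤ y → (∀ k, a ≤ k → k ≤ b → k ∈ I) →
    (∀ k ∈ I, a ≤ k) → 2 * x + 1 ≤ a + b → a < x - 6 * (y + 1) →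
    c * ((y + 1 : ℤ) : ℝ) ^ (-(1/4 : ℝ)) *
        (Psi ((y + 1 : ℤ) : ℝ) ((b - a + 1 : ℤ) : ℝ) ((|x - a| : ℤ) : ℝ) ((|x - b| : ℤ) : ℝ)) ^
          ((1 : ℝ) / 3) ≤ (bondLaw half).real (PathE I x y) := by
  obtain ⟨δ, hδ, hδ1, hk⟩ := rsw_gen 2000
  obtain ⟨cU, hcU, hUB⟩ := UBd_lower
  refine ⟨min κ 1 * (δ * (δ * δ)) * (δ * (δ * ((1/2 : ℝ) ^ 141 * (cU / 2)))), by positivity, ?_⟩
  intro I a b x y hab hy hI1 hI2 hcen hxa
  obtain ⟨m, hm⟩ : ∃ m : ℕ, m = ((y + 1) / 128).toNat := ⟨_, rfl⟩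
  have hm1 : (m : ℤ) = (y + 1) / 128 := by omega
  have hm2 : 128 * (m : ℤ) ≤ y + 1 := by omega
  have hm3 : y + 1 < 128 * (m : ℤ) + 128 := by omega
  have hm0 : 0 ≤ (m : ℤ) := by positivity
  obtain ⟨σ, hσ⟩ : ∃ σ : ℤ, σ = x - a + 1 := ⟨_, rfl⟩
  set h : ℝ := ((y + 1 : ℤ) : ℝ) with hh'
  set l : ℝ := ((b - a + 1 : ℤ) : ℝ) with hl'
  set p : ℝ := ((|x - a| : ℤ) : ℝ) with hp'
  set q : ℝ := ((|x - b| : ℤ) : ℝ) with hq'
  have hh : 1 ≤ h := by rw [hh']; exact_mod_cast (by omega : 1 ≤ y + 1)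
  have hl : 1 ≤ l := by rw [hl']; exact_mod_cast (by omega : 1 ≤ b - a + 1)
  have hp : 0 ≤ p := by rw [hp']; exact_mod_cast abs_nonneg _
  have hq : 0 ≤ q := by rw [hq']; exact_mod_cast abs_nonneg _
  have q1 := abs_cases (x - a)
  have q2 := abs_cases (x - b)
  have hX := Psi_nonneg hh hl hp hq
  obtain ⟨Z, hZ⟩ : ∃ Z : ℝ, Z = (Psi h l p q) ^ ((1 : ℝ) / 3) := ⟨_, rfl⟩
  have hZ0 : 0 ≤ Z := by rw [hZ]; positivity
  have hσ1 : (1 : ℝ) ≤ (σ : ℝ) := by exact_mod_cast (by omega : 1 ≤ σ)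
  have hPd : Psi h l p q ≤ 8 * (h / (σ : ℝ)) := by
    apply Psi_deep hh hσ1
    · rw [hp']
      exact_mod_cast (by omega : |x - a| = σ - 1)
    · rw [hq']
      exact_mod_cast (by omega : σ ≤ |x - b|)
    · rw [hl', hp', hq']
      exact_mod_cast (by omega : b - a + 1 = |x - a| + |x - b| + 1)
  have hZ2 : Z ≤ 2 * (h / (σ : ℝ)) ^ ((1 : ℝ) / 3) := by
    rw [hZ]
    exact cube_root_le (K := 2) hX (by positivity) (by norm_num) hPd (by norm_num)
  rw [← hZ]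
  obtain ⟨r, hr⟩ : ∃ r : ℤ, r = 2 * (y + 1) := ⟨_, rfl⟩
  obtain ⟨r1, hr1⟩ : ∃ r1 : ℤ, r1 = 2 * (y + 1) - 1 := ⟨_, rfl⟩
  obtain ⟨N, hN⟩ : ∃ N : ℤ, N = |x| + 40 * σ := ⟨_, rfl⟩
  have hU0 := hUB x (y + 1) σ N (by omega) (by omega) (by omega)
  rw [← hr1] at hU0
  have hx1 := le_abs_self x
  have hx2 := neg_abs_le x
  have hx3 := abs_nonneg x
  obtain ⟨S, hS⟩ : ∃ S : Finset Edg, S = RE (-N) N 0 N := ⟨_, rfl⟩
  obtain ⟨T1, hT1⟩ : ∃ T1 : Finset Edg, T1 = RE (x + 1 + 4 * m) (x + 1 + 16 * m) 0 (y + 12 * m) :=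
    ⟨_, rfl⟩
  obtain ⟨R2, hR2⟩ : ∃ R2 : Finset Edg,
    R2 = OEd x r1 N ∪ RE (x - r1) (x - 4 * m) 0 (-1 + r1) := ⟨_, rfl⟩
  have hHP : (↑S : Set Edg) ⊆ HP := by rw [hS]; exact HP_RE le_rfl
  have hNB : NBr x y m ⊆ S := by
    rw [hS]
    exact RE_subset (by omega) (by omega) (by omega) (by omega)
  have hT1S : T1 ⊆ S := by
    rw [hT1, hS]
    exact RE_subset (by omega) (by omega) (by omega) (by omega)
  have hT2S : UD R2 ⊆ S := by
    rintro ⟨p, q, _ | _⟩ h1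
    · rw [mem_UD, dl_f, hR2, OEd, Finset.mem_union, Finset.mem_sdiff, mem_VE_true, mem_RE_true,
        mem_RE_true] at h1
      rw [hS, mem_RE_false]
      omega
    · rw [mem_UD, dl_t, hR2, OEd, Finset.mem_union, Finset.mem_sdiff, mem_VE_false, mem_RE_false,
        mem_RE_false] at h1
      rw [hS, mem_RE_true]
      omega
  have hd : Disjoint T1 (UD R2) := by
    rw [Finset.disjoint_left]
    rintro ⟨p, q, _ | _⟩ h1 h2
    · rw [mem_UD, dl_f, hR2, OEd, Finset.mem_union, Finset.mem_sdiff, mem_VE_true, mem_RE_true,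
        mem_RE_true] at h2
      rw [hT1, mem_RE_false] at h1
      omega
    · rw [mem_UD, dl_t, hR2, OEd, Finset.mem_union, Finset.mem_sdiff, mem_VE_false, mem_RE_false,
        mem_RE_false] at h2
      rw [hT1, mem_RE_true] at h1
      omega
  have hOA : Disjoint (RE (x + 1 - 3 * m) (x + 1 + 12 * m) (y - 12 * m) (y + 12 * m))
      (UD R2) := by
    rw [Finset.disjoint_left]
    rintro ⟨p, q, _ | _⟩ h1 h2
    · rw [mem_UD, dl_f, hR2, OEd, Finset.mem_union, Finset.mem_sdiff, mem_VE_true, mem_RE_true,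
        mem_RE_true] at h2
      rw [mem_RE_false] at h1
      omega
    · rw [mem_UD, dl_t, hR2, OEd, Finset.mem_union, Finset.mem_sdiff, mem_VE_false, mem_RE_false,
        mem_RE_false] at h2
      rw [mem_RE_true] at h1
      omega
  have hDA : ∀ e ∈ T1, dl e ∉ RE (x - 12 * m) (x + 3 * m) (y - 12 * m) (y + 12 * m) := by
    rintro ⟨p, q, _ | _⟩ h1 h2
    · rw [dl_f, mem_RE_true] at h2
      rw [hT1, mem_RE_false] at h1
      omega
    · rw [dl_t, mem_RE_false] at h2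
      rw [hT1, mem_RE_true] at h1
      omega
  have hOi : IncrE T1 (Odeep x y m) :=
    and_incr (imp_incr (TBc_incr _ _ _ _ _)) (and_incr (LRc_incr _ _ _ _ _)
      (TBc_incr _ _ _ _ _))
  have hCi : IncrE R2 (Cdeep x y (x - 2 * σ) (x - σ) r r1 N m) :=
    and_incr (imp_incr (TBc_incr _ _ _ _ _)) (and_incr (LRc_incr _ _ _ _ _)
      (and_incr (HC_incr _ _ _ _) (UBd_incr _ _ _ _ _ _ _)))
  -- probabilities of the open events
  have p1 : δ ≤ P2 T1 (fun F => 1 ≤ m →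
      TBc (x + 1 + 4 * m) (x + 1 + 8 * m) (y - 12 * m) (y + 12 * m) F) :=
    cond_low hδ1 (fun h0 => TB_gen hk (by
      rw [hT1]
      exact TBE_subset_RE.trans (RE_subset le_rfl (by omega) (by omega) (by omega)))
      (by omega) (by omega) (by push_cast; omega))
  have p2 : δ ≤ P2 T1 (LRc (x + 1 + 4 * m) (x + 1 + 16 * m) (y - m) (y + m)) :=
    LR_gen hk (by
      rw [hT1]
      exact LRE_subset_RE.trans (RE_subset le_rfl (by omega) (by omega) (by omega)))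
      (by omega) (by omega) (by push_cast; omega)
  have p3 : δ ≤ P2 T1 (TBc (x + 1 + 12 * m) (x + 1 + 16 * m) 0 (y + m)) :=
    TB_gen hk (by
      rw [hT1]
      exact TBE_subset_RE.trans (RE_subset (by omega) (by omega) (by omega) (by omega)))
      (by omega) (by omega) (by push_cast; omega)
  have r2 := low2 (LRc_incr T1 (x + 1 + 4 * m) (x + 1 + 16 * m) (y - m) (y + m))
    (TBc_incr T1 (x + 1 + 12 * m) (x + 1 + 16 * m) 0 (y + m)) hδ.le hδ.le p2 p3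
  have r1' := low2 (imp_incr (p := 1 ≤ m)
    (TBc_incr T1 (x + 1 + 4 * m) (x + 1 + 8 * m) (y - 12 * m) (y + 12 * m)))
    (and_incr (LRc_incr T1 (x + 1 + 4 * m) (x + 1 + 16 * m) (y - m) (y + m))
    (TBc_incr T1 (x + 1 + 12 * m) (x + 1 + 16 * m) 0 (y + m))) hδ.le (by positivity) p1 r2
  -- probabilities of the dual events
  have w1 : RE (x - 3 * r) (x - 4 * m) 0 (-1 + r1) ⊆ R2 := by
    rintro ⟨p, q, _ | _⟩ h1
    · rw [mem_RE_false] at h1
      rw [hR2, OEd, Finset.mem_union, Finset.mem_sdiff, mem_VE_false, mem_RE_false, mem_RE_false]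
      omega
    · rw [mem_RE_true] at h1
      rw [hR2, OEd, Finset.mem_union, Finset.mem_sdiff, mem_VE_true, mem_RE_true, mem_RE_true]
      omega
  have d1 : δ ≤ P2 R2 (fun F => 1 ≤ m →
      TBc (x - 8 * m) (x - 4 * m) (y - 12 * m) (y + 12 * m) F) :=
    cond_low hδ1 (fun h0 => TB_gen hk ((TBE_subset_RE.trans
      (RE_subset (by omega) le_rfl (by omega) (by omega))).trans w1) (by omega) (by omega)
      (by push_cast; omega))
  have d2 : δ ≤ P2 R2 (LRc (x - 3 * r) (x - 4 * m) (y - m) (y + m)) :=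
    LR_gen hk ((LRE_subset_RE.trans
      (RE_subset le_rfl le_rfl (by omega) (by omega))).trans w1) (by omega) (by omega)
      (by push_cast; omega)
  have d3 : (1/2 : ℝ) ^ 141 ≤ P2 R2 (HC x (-1) r) := by
    apply pr_HC2 (by omega)
    · rintro ⟨p, q, _ | _⟩ h1
      · rw [mem_LRE_false] at h1
        rw [hR2, OEd, Finset.mem_union, Finset.mem_sdiff, mem_VE_false, mem_RE_false, mem_RE_false]
        omega
      · rw [mem_LRE_true] at h1
        rw [hR2, OEd, Finset.mem_union, Finset.mem_sdiff, mem_VE_true, mem_RE_true, mem_RE_true]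
        omega
    · rintro ⟨p, q, _ | _⟩ h1
      · rw [mem_TBE_false] at h1
        rw [hR2, OEd, Finset.mem_union, Finset.mem_sdiff, mem_VE_false, mem_RE_false, mem_RE_false]
        omega
      · rw [mem_TBE_true] at h1
        rw [hR2, OEd, Finset.mem_union, Finset.mem_sdiff, mem_VE_true, mem_RE_true, mem_RE_true]
        omega
    · rintro ⟨p, q, _ | _⟩ h1
      · rw [mem_TBE_false] at h1
        rw [hR2, OEd, Finset.mem_union, Finset.mem_sdiff, mem_VE_false, mem_RE_false, mem_RE_false]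
        omega
      · rw [mem_TBE_true] at h1
        rw [hR2, OEd, Finset.mem_union, Finset.mem_sdiff, mem_VE_true, mem_RE_true, mem_RE_true]
        omega
  have d4 : cU / 2 * Z ≤ P2 R2 (fun F => UBd (x - 2 * σ) (x - σ) x r1 (F ∩ OEd x r1 N)) := by
    refine le_trans ?_ (hU0 R2 (by rw [hR2]; exact Finset.subset_union_left))
    calc cU / 2 * Z ≤ cU / 2 * (2 * (h / (σ : ℝ)) ^ ((1 : ℝ) / 3)) :=
          mul_le_mul_of_nonneg_left hZ2 (by positivity)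
      _ = _ := by ring
  have e3 := low2 (HC_incr R2 x (-1) r) (UBd_incr R2 (x - 2 * σ) (x - σ) x r1 r1 N)
    (by positivity) (by positivity) d3 d4
  have e2 := low2 (LRc_incr R2 (x - 3 * r) (x - 4 * m) (y - m) (y + m))
    (and_incr (HC_incr R2 x (-1) r) (UBd_incr R2 (x - 2 * σ) (x - σ) x r1 r1 N))
    hδ.le (by positivity) d2 e3
  have e1 := low2 (imp_incr (p := 1 ≤ m)
    (TBc_incr R2 (x - 8 * m) (x - 4 * m) (y - 12 * m) (y + 12 * m)))
    (and_incr (LRc_incr R2 (x - 3 * r) (x - 4 * m) (y - m) (y + m))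
    (and_incr (HC_incr R2 x (-1) r) (UBd_incr R2 (x - 2 * σ) (x - σ) x r1 r1 N)))
    hδ.le (by positivity) d1 e2
  have key := final_low (I := I) hT1S hT2S hd hOA hDA hOi hCi (by
    rintro ω ⟨⟨w, hw, harm⟩, g, hg, hdarm⟩ gO gC
    have harm2 := arm_dual hNB hHP hdarm
    refine ⟨?_, (x + 1, y), ⟨Or.inr rfl, Or.inl rfl⟩, ?_⟩
    · exact dual_deep (G := opn ω) (Set.Subset.refl _) hg harm2 (dual_sub2 hT2S hHP ω) gC
        hy (by omega) hr (by omega) (by omega) (fun k hk => by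
          have := hI2 k hk
          omega)
    · exact open_deep (G := opn ω) hw (harm.mono (Set.inter_subset_inter_left _ (FF_sub S ω)))
        (FF_sub T1 ω) gO hy (by omega) (fun k h1 h2 => hI1 k (by omega) (by omega)))
    (A := min κ 1 * h ^ (-(1/4 : ℝ))) (B := δ * (δ * δ))
    (D := δ * (δ * ((1/2 : ℝ) ^ 141 * (cU / 2 * Z)))) (by positivity) (by positivity)
    (by positivity) (by rw [hm] at hNB ⊢; exact rar_low hκ hL hy hNB) r1' e1
  refine le_trans (le_of_eq ?_) key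
  ring

/-- the lower bound on the left half -/
theorem low_left {κ : ℝ} (hκ : 0 < κ) (hL : H984P.LowA κ (1/4)) : ∃ c : ℝ, 0 < c ∧
    ∀ (I : Set ℤ) (a b x y : ℤ), a ≤ b → 0 ≤ y → (∀ k, a ≤ k → k ≤ b → k ∈ I) →
    (∀ k ∈ I, a ≤ k) → 2 * x + 1 ≤ a + b →
    c * ((y + 1 : ℤ) : ℝ) ^ (-(1/4 : ℝ)) *
        (Psi ((y + 1 : ℤ) : ℝ) ((b - a + 1 : ℤ) : ℝ) ((|x - a| : ℤ) : ℝ) ((|x - b| : ℤ) : ℝ)) ^
          ((1 : ℝ) / 3) ≤ (bondLaw half).real (PathE I x y) := by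
  obtain ⟨c1, hc1, h1⟩ := low_near hκ hL
  obtain ⟨c2, hc2, h2⟩ := low_far hκ hL
  obtain ⟨c3, hc3, h3⟩ := low_deep hκ hL
  refine ⟨min c1 (min c2 c3), by positivity, ?_⟩
  intro I a b x y hab hy hI1 hI2 hcen
  have hY : 0 ≤ ((y + 1 : ℤ) : ℝ) ^ (-(1/4 : ℝ)) * (Psi ((y + 1 : ℤ) : ℝ) ((b - a + 1 : ℤ) : ℝ)
      ((|x - a| : ℤ) : ℝ) ((|x - b| : ℤ) : ℝ)) ^ ((1 : ℝ) / 3) := by
    have hh : (0 : ℝ) ≤ ((y + 1 : ℤ) : ℝ) := by exact_mod_cast (by omega : 0 ≤ y + 1)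
    have hl : (0 : ℝ) ≤ ((b - a + 1 : ℤ) : ℝ) := by exact_mod_cast (by omega : 0 ≤ b - a + 1)
    have hp : (0 : ℝ) ≤ ((|x - a| : ℤ) : ℝ) := by exact_mod_cast abs_nonneg _
    have hq : (0 : ℝ) ≤ ((|x - b| : ℤ) : ℝ) := by exact_mod_cast abs_nonneg _
    unfold Psi
    positivity
  rcases le_or_gt (x + 6 * (y + 1)) a with g1 | g1
  · refine le_trans ?_ (h2 I a b x y hab hy hI1 hI2 g1)
    rw [mul_assoc, mul_assoc]
    exact mul_le_mul_of_nonneg_right ((min_le_right _ _).trans (min_le_left _ _)) hY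
  · rcases le_or_gt (x - 6 * (y + 1)) a with g2 | g2
    · refine le_trans ?_ (h1 I a b x y hab hy hI1 hI2 hcen g1.le g2)
      rw [mul_assoc, mul_assoc]
      exact mul_le_mul_of_nonneg_right (min_le_left _ _) hY
    · refine le_trans ?_ (h3 I a b x y hab hy hI1 hI2 hcen g2)
      rw [mul_assoc, mul_assoc]
      exact mul_le_mul_of_nonneg_right ((min_le_right _ _).trans (min_le_right _ _)) hY

end Pool.Agent.H67GF
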