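import Pool.Agent.H67GF.Gen
import Pool.Agent.H985R3.TA.STA

/-!
Local events: annuli, and pairs of faces.
-/

set_option autoImplicit false

namespace Pool.Agent.H67GF

open H974 H731C H342P Finset MeasureTheory Filter Topology Pool.Agent.H67LP

/-- first exit of a dual path -/
theorem dexit {G : Set Edg} {x y R : ℤ} {f g : Vtx}
    (hf : (x - R < f.1 ∧ f.1 < x + R) ∧ (y - R < f.2 ∧ f.2 < y + R)) (h : DReach G f g)
    (hg : g.1 ≤ x - R ∨ x + R ≤ g.1 ∨ g.2 ≤ y - R ∨ y + R ≤ g.2) :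
    ∃ w : Vtx, (w.1 ≤ x - R ∨ x + R ≤ w.1 ∨ w.2 ≤ y - R ∨ y + R ≤ w.2) ∧
      DReach (G ∩ ↑(RE (x - R) (x + R) (y - R) (y + R))) f w := by
  have key : ∀ w, DReach G f w →
      (∃ w : Vtx, (w.1 ≤ x - R ∨ x + R ≤ w.1 ∨ w.2 ≤ y - R ∨ y + R ≤ w.2) ∧
        DReach (G ∩ ↑(RE (x - R) (x + R) (y - R) (y + R))) f w) ∨
      (((x - R < w.1 ∧ w.1 < x + R) ∧ (y - R < w.2 ∧ w.2 < y + R)) ∧
        DReach (G ∩ ↑(RE (x - R) (x + R) (y - R) (y + R))) f w) := by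
    intro w hw
    induction hw with
    | refl => exact Or.inr ⟨hf, DReach.refl _ _⟩
    | @tail p q _ hs ih =>
      rcases ih with ih | ⟨hin, ih⟩
      · exact Or.inl ih
      · obtain ⟨e, he, hc⟩ := hs
        have heB : e ∈ RE (x - R) (x + R) (y - R) (y + R) := by
          obtain ⟨a, b, _ | _⟩ := e
          · rw [mem_RE_false]
            simp only [dsrc_false, dtgt_mk] at hc
            rcases hc with ⟨h1, h2⟩ | ⟨h1, h2⟩
            · rw [← h1] at hin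
              simp only at hin
              omega
            · rw [← h2] at hin
              simp only at hin
              omega
          · rw [mem_RE_true]
            simp only [dsrc_true, dtgt_mk] at hc
            rcases hc with ⟨h1, h2⟩ | ⟨h1, h2⟩
            · rw [← h1] at hin
              simp only at hin
              omega
            · rw [← h2] at hin
              simp only at hin
              omega
        have h5 : DReach (G ∩ ↑(RE (x - R) (x + R) (y - R) (y + R))) f q :=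
          Relation.ReflTransGen.tail ih ⟨e, ⟨he, Finset.mem_coe.mpr heB⟩, hc⟩
        by_cases hq : q.1 ≤ x - R ∨ x + R ≤ q.1 ∨ q.2 ≤ y - R ∨ y + R ≤ q.2
        · exact Or.inl ⟨q, hq, h5⟩
        · right
          refine ⟨?_, h5⟩
          omega
  rcases key g h with h1 | ⟨h1, -⟩
  · exact h1
  · omega

theorem dfirst_hit {F A' : Set Edg} {P : Vtx → Prop} (hA : ∀ e ∈ A', P (dsrc e) ∧ P (dtgt e))
    {u v : Vtx} (h : DReach F u v) (hv : P v) :
    ∃ w, P w ∧ DReach (F \ A') u w := by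
  by_contra hcon
  push Not at hcon
  have key : ∀ w, DReach F u w → DReach (F \ A') u w := by
    intro w hw
    induction hw with
    | refl => exact DReach.refl _ _
    | @tail p q _ hs ih =>
      obtain ⟨e, heF, hc⟩ := hs
      refine Relation.ReflTransGen.tail ih ⟨e, ⟨heF, fun he => ?_⟩, hc⟩
      have h1 := hA e he
      rcases hc with ⟨h3, -⟩ | ⟨-, h3⟩
      · rw [h3] at h1
        exact hcon p h1.1 ih
      · rw [h3] at h1
        exact hcon p h1.2 ih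
  exact hcon v hv (key v h)

/-- the annulus -/
noncomputable def AN (x y : ℤ) (k R : ℕ) : Finset Edg :=
  RE (x - R) (x + R) (y - R) (y + R) \ RE (x - k) (x + k) (y - k) (y + k)

/-- both arms cross the annulus -/
def AnnE (x y : ℤ) (k R : ℕ) (F : Finset Edg) : Prop :=
  H12S.Crs x y (k + 1) R (↑F : Set Edg) ∧ H12S.DCrs x y (k + 1) R (↑(AN x y k R \ F) : Set Edg)

theorem ann_of {I : Set ℤ} {ω : sqLattice.edgeSet → Bool} {x y : ℤ} {k R : ℕ} {x' y' : ℤ}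
    {v : Vtx} (hR : k + 1 ≤ R) (hRy : (R : ℤ) ≤ y) (hx : x - k ≤ x' ∧ x' + 1 ≤ x + k)
    (hy : y - k ≤ y' ∧ y' + 1 ≤ y + k) (hv : Cor (x', y') v) (hD : DC I (opn ω) (x', y'))
    (hC : CI I (opn ω) v) : AnnE x y k R (FF (AN x y k R) ω) := by
  obtain ⟨hv1, hv2⟩ := hv
  simp only at hv1 hv2
  have hRz : (k : ℤ) + 1 ≤ R := by exact_mod_cast hR
  constructor
  · obtain ⟨i, hi, hr⟩ := hC
    obtain ⟨w1, hw1, hw2, hw3⟩ := first_exit (a := x - R) (b := x + R) (c := y - R) (d := y + R)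
      (u := v) (v := (i, 0)) ⟨⟨by omega, by omega⟩, by omega, by omega⟩ hr.symm
      (by right; right; left; simp only; omega)
    obtain ⟨w2, hw4, hw5⟩ := first_hit (A' := ↑(RE (x - k) (x + k) (y - k) (y + k)))
      (P := fun w => inR (x - k) (x + k) (y - k) (y + k) w) (by
        intro e he
        exact RE_ends (Finset.mem_coe.mp he)) hw3.symm ⟨⟨by omega, by omega⟩, by omega, by omega⟩
    obtain ⟨⟨g1, g2⟩, g3, g4⟩ := hw4
    refine ⟨w2, w1, ⟨⟨by push_cast; omega, by push_cast; omega⟩, by push_cast; omega,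
      by push_cast; omega⟩, ?_, ?_⟩
    · rcases hw2 with h | h | h | h <;> omega
    · rw [FF_coe]
      refine hw5.symm.mono ?_
      rintro e ⟨⟨h1, -⟩, h2, h3⟩
      refine ⟨h1, ?_⟩
      unfold AN
      rw [Finset.coe_sdiff]
      exact ⟨h2, h3⟩
  · obtain ⟨kk, hk⟩ := hD
    obtain ⟨w1, hw1, hw2⟩ := dexit (x := x) (y := y) (R := R) (f := (x', y'))
      ⟨⟨by simp only; omega, by simp only; omega⟩, by simp only; omega, by simp only; omega⟩ hk
      (by right; right; left; simp only; omega)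
    obtain ⟨w2, hw4, hw5⟩ := dfirst_hit (A' := ↑(RE (x - k) (x + k) (y - k) (y + k)))
      (P := fun w => inR (x - (k + 1)) (x + (k + 1)) (y - (k + 1)) (y + (k + 1)) w) (by
        rintro ⟨p, q, _ | _⟩ he
        · rw [Finset.mem_coe, mem_RE_false] at he
          simp only [dsrc_false, dtgt_mk, inR]
          omega
        · rw [Finset.mem_coe, mem_RE_true] at he
          simp only [dsrc_true, dtgt_mk, inR]
          omega) hw2.symm ⟨⟨by simp only; omega, by simp only; omega⟩, by simp only; omega,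
            by simp only; omega⟩
    obtain ⟨⟨g1, g2⟩, g3, g4⟩ := hw4
    refine ⟨w2, w1, ⟨⟨by push_cast; omega, by push_cast; omega⟩, by push_cast; omega,
      by push_cast; omega⟩, hw1, ?_⟩
    refine hw5.symm.mono ?_
    rintro e ⟨⟨⟨⟨h1, -⟩, -⟩, h2⟩, h3⟩
    rw [Finset.coe_sdiff, FF_coe]
    refine ⟨?_, fun h => h1 h.1⟩
    unfold AN
    rw [Finset.coe_sdiff]
    exact ⟨h2, h3⟩

theorem loc_sub {x y : ℤ} {E : Set (sqLattice.edgeSet → Bool)} {X0 : ℝ} {S : Finset Edg}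
    (hS : S ⊆ BX x y) {A : Finset Edg → Prop} (h : ∀ ω ∈ E, A (FF S ω)) (hX : P2 S A ≤ X0) :
    Loc x y E X0 := by
  refine ⟨fun F => A (F ∩ S), ?_, ?_⟩
  · intro ω hω
    rw [FF_inter hS]
    exact h ω hω
  · rw [P2_restrict hS]
    exact hX

theorem loc3 {x y : ℤ} {E : Set (sqLattice.edgeSet → Bool)} {X1 X2 X3 : ℝ}
    {S1 S2 S3 : Finset Edg} (h1 : S1 ⊆ BX x y) (h2 : S2 ⊆ BX x y) (h3 : S3 ⊆ BX x y)
    (h12 : Disjoint S1 S2) (h13 : Disjoint S1 S3) (h23 : Disjoint S2 S3)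
    {A1 A2 A3 : Finset Edg → Prop}
    (h : ∀ ω ∈ E, A1 (FF S1 ω) ∧ A2 (FF S2 ω) ∧ A3 (FF S3 ω))
    (hX1 : P2 S1 A1 ≤ X1) (hX2 : P2 S2 A2 ≤ X2) (hX3 : P2 S3 A3 ≤ X3) :
    Loc x y E (X1 * (X2 * X3)) := by
  have hU : S2 ∪ S3 ⊆ BX x y := Finset.union_subset h2 h3
  refine ⟨fun F => A1 (F ∩ S1) ∧ (fun F => A2 (F ∩ S2) ∧ A3 (F ∩ S3)) (F ∩ (S2 ∪ S3)), ?_, ?_⟩
  · intro ω hω
    obtain ⟨g1, g2, g3⟩ := h ω hω
    show A1 (FF (BX x y) ω ∩ S1) ∧ A2 (FF (BX x y) ω ∩ (S2 ∪ S3) ∩ S2) ∧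
      A3 (FF (BX x y) ω ∩ (S2 ∪ S3) ∩ S3)
    rw [FF_inter h1, FF_inter hU, FF_inter Finset.subset_union_left,
      FF_inter Finset.subset_union_right]
    exact ⟨g1, g2, g3⟩
  · have e1 := P2_indep h1 hU (Finset.disjoint_union_right.mpr ⟨h12, h13⟩) A1
      (fun F => A2 (F ∩ S2) ∧ A3 (F ∩ S3))
    have e2 := P2_indep (U := S2 ∪ S3) Finset.subset_union_left Finset.subset_union_right h23 A2 A3
    rw [e1, e2]
    have n1 : 0 ≤ P2 S1 A1 := Pr_nonneg okhalf2 _ _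
    have n2 : 0 ≤ P2 S2 A2 := Pr_nonneg okhalf2 _ _
    have n3 : 0 ≤ P2 S3 A3 := Pr_nonneg okhalf2 _ _
    exact mul_le_mul hX1 (mul_le_mul hX2 hX3 n3 (n2.trans hX2)) (by positivity) (n1.trans hX1)

theorem quarter_up {A B K : ℝ} (hA : 0 ≤ A) (hB : 0 ≤ B) (hK : 0 ≤ K) (h : A ≤ K ^ 4 * B) :
    A ^ (1/4 : ℝ) ≤ K * B ^ (1/4 : ℝ) := by
  have h1 : A ^ (1/4 : ℝ) ≤ (K ^ 4 * B) ^ (1/4 : ℝ) := Real.rpow_le_rpow hA h (by norm_num)
  refine h1.trans (le_of_eq ?_)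
  rw [Real.mul_rpow (by positivity) hB]
  congr 1
  rw [← Real.rpow_natCast K 4, ← Real.rpow_mul hK]
  norm_num

theorem ann_bound : ∃ C : ℝ, 0 < C ∧ ∀ (x y : ℤ) (k R : ℕ), k + 1 ≤ R →
    P2 (AN x y k R) (AnnE x y k R) ≤ C * (((k + 1 : ℕ) : ℝ) / (R : ℝ)) ^ (1/4 : ℝ) := by
  obtain ⟨C, hC, h⟩ := H985T.st_A
  exact ⟨C, hC, fun x y k R hR => h (k + 1) R (by omega) hR x y (AN x y k R)⟩

/-- the path passes at some face of the box of radius `r` around the face -/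
def PathB (I : Set ℤ) (x y r : ℤ) : Set (sqLattice.edgeSet → Bool) :=
  {ω | ∃ x' y' : ℤ, (x - r ≤ x' ∧ x' ≤ x + r) ∧ (y - r ≤ y' ∧ y' ≤ y + r) ∧ ω ∈ PathE I x' y'}

theorem PathB_sub {I : Set ℤ} {x y r : ℤ} (h : 2 * r ≤ y + 1) : PathB I x y r ⊆ NPt I x y := by
  rintro ω ⟨x', y', h1, h2, h3, v, h4, h5⟩
  exact ⟨x', y', v, by omega, by omega, h4, h3, h5⟩

theorem loc_meso : ∃ C : ℝ, 0 < C ∧ ∀ (I : Set ℤ) (x y r : ℤ), 0 ≤ y → 0 ≤ r → 2 * r ≤ y + 1 →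
    Loc x y (PathB I x y r) (C * (((r + 1 : ℤ) : ℝ) / ((y + 1 : ℤ) : ℝ)) ^ (1/4 : ℝ)) := by
  obtain ⟨C, hC, hA⟩ := ann_bound
  refine ⟨max 2 (2 * C), by positivity, ?_⟩
  intro I x y r hy hr hry
  have hyr : (0 : ℝ) < ((y + 1 : ℤ) : ℝ) := by exact_mod_cast (by omega : 0 < y + 1)
  have hrr : (0 : ℝ) < ((r + 1 : ℤ) : ℝ) := by exact_mod_cast (by omega : 0 < r + 1)
  have hZ : 0 ≤ (((r + 1 : ℤ) : ℝ) / ((y + 1 : ℤ) : ℝ)) ^ (1/4 : ℝ) := by positivity
  rcases le_or_gt (r + 2) ((y + 1) / 4) with h | h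
  · obtain ⟨k, hk⟩ : ∃ k : ℕ, (k : ℤ) = r + 1 := ⟨(r + 1).toNat, by omega⟩
    obtain ⟨R, hR⟩ : ∃ R : ℕ, (R : ℤ) = (y + 1) / 4 := ⟨((y + 1) / 4).toNat, by omega⟩
    refine (loc_sub (S := AN x y k R) (A := AnnE x y k R) ?_ ?_ (hA x y k R (by omega))).le ?_
    · unfold AN BX
      rw [hR]
      exact Finset.sdiff_subset
    · rintro ω ⟨x', y', h1, h2, h3, v, h4, h5⟩
      exact ann_of (by omega) (by omega) (by omega) (by omega) h4 h3 h5
    · have hRr : (0 : ℝ) < (R : ℝ) := by exact_mod_cast (by omega : 0 < R)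
      have e1 : (((k + 1 : ℕ) : ℝ) / (R : ℝ)) ≤
          2 ^ 4 * (((r + 1 : ℤ) : ℝ) / ((y + 1 : ℤ) : ℝ)) := by
        rw [mul_div_assoc', div_le_div_iff₀ hRr hyr]
        have a1 : ((k + 1 : ℕ) : ℝ) ≤ 2 * ((r + 1 : ℤ) : ℝ) := by
          have : ((k + 1 : ℕ) : ℤ) ≤ 2 * (r + 1) := by push_cast; omega
          exact_mod_cast this
        have a2 : ((y + 1 : ℤ) : ℝ) ≤ 8 * (R : ℝ) := by
          have : y + 1 ≤ 8 * (R : ℤ) := by omega
          exact_mod_cast this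
        calc ((k + 1 : ℕ) : ℝ) * ((y + 1 : ℤ) : ℝ) ≤ (2 * ((r + 1 : ℤ) : ℝ)) * (8 * (R : ℝ)) :=
              mul_le_mul a1 a2 hyr.le (by positivity)
          _ = _ := by ring
      have e2 := quarter_up (by positivity) (by positivity) (by norm_num) e1
      calc C * (((k + 1 : ℕ) : ℝ) / (R : ℝ)) ^ (1/4 : ℝ)
          ≤ C * (2 * (((r + 1 : ℤ) : ℝ) / ((y + 1 : ℤ) : ℝ)) ^ (1/4 : ℝ)) :=
            mul_le_mul_of_nonneg_left e2 hC.le
        _ = (2 * C) * (((r + 1 : ℤ) : ℝ) / ((y + 1 : ℤ) : ℝ)) ^ (1/4 : ℝ) := by ring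
        _ ≤ _ := mul_le_mul_of_nonneg_right (le_max_right _ _) hZ
  · refine (loc_one x y _).le ?_
    have e1 : (1 : ℝ) ≤ 2 ^ 4 * (((r + 1 : ℤ) : ℝ) / ((y + 1 : ℤ) : ℝ)) := by
      rw [mul_div_assoc', le_div_iff₀ hyr, one_mul]
      have : y + 1 ≤ 16 * (r + 1) := by omega
      have h2 : ((y + 1 : ℤ) : ℝ) ≤ 16 * ((r + 1 : ℤ) : ℝ) := by exact_mod_cast this
      linarith
    have e2 := quarter_up (by norm_num) (by positivity) (by norm_num) e1
    rw [Real.one_rpow] at e2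
    exact e2.trans (mul_le_mul_of_nonneg_right (le_max_left _ _) hZ)

/-- two faces -/
theorem loc_two {C0 : ℝ} (hC0 : 0 < C0) (hU : TwoUp C0 (1/4)) : ∃ C : ℝ, 0 < C ∧
    ∀ (I : Set ℤ) (x y x' y' d : ℤ) (v v' : Vtx), 1 ≤ d → 16 * d ≤ y + 1 →
    (d = |x' - x| ∨ d = |y' - y|) → |x' - x| ≤ d → |y' - y| ≤ d → Cor (x, y) v →
    Cor (x', y') v' →
    Loc x y (PathV I (x, y) v ∩ PathV I (x', y') v')
      (C * ((d : ℝ) ^ (-(1/4 : ℝ)) * ((y + 1 : ℤ) : ℝ) ^ (-(1/4 : ℝ)))) := by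
  obtain ⟨C, hC, hA⟩ := ann_bound
  refine ⟨max (12 * C0 ^ 2 * C) (4 * (C0 + 1)), by positivity, ?_⟩
  intro I x y x' y' d v v' hd hdy hcase hdx hdy' hv hv'
  have hyr : (0 : ℝ) < ((y + 1 : ℤ) : ℝ) := by exact_mod_cast (by omega : 0 < y + 1)
  have hdr : (0 : ℝ) < (d : ℝ) := by exact_mod_cast (by omega : 0 < d)
  have hdn : 0 ≤ (d : ℝ) ^ (-(1/4 : ℝ)) := by positivity
  have hyn : 0 ≤ ((y + 1 : ℤ) : ℝ) ^ (-(1/4 : ℝ)) := by positivity
  have q1 := abs_cases (x' - x)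
  have q2 := abs_cases (y' - y)
  have hvv := hv
  have hvv' := hv'
  obtain ⟨hv1, hv2⟩ := hvv
  obtain ⟨hv3, hv4⟩ := hvv'
  simp only at hv1 hv2 hv3 hv4
  rcases le_or_gt 4 d with h4 | h4
  · obtain ⟨s, hs⟩ : ∃ s : ℤ, s = d / 4 := ⟨_, rfl⟩
    obtain ⟨k, hk⟩ : ∃ k : ℕ, (k : ℤ) = 2 * d := ⟨(2 * d).toNat, by omega⟩
    obtain ⟨R, hR⟩ : ∃ R : ℕ, (R : ℤ) = (y + 1) / 4 := ⟨((y + 1) / 4).toNat, by omega⟩
    have hU1 := hU s v (x, y) (by omega) (by unfold Inc; simp only; omega)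
    have hU2 := hU s v' (x', y') (by omega) (by unfold Inc; simp only; omega)
    refine (loc3 (S1 := VB v s) (S2 := VB v' s) (S3 := AN x y k R)
      (A1 := fun F => Two v (x, y) s (↑F : Set Edg))
      (A2 := fun F => Two v' (x', y') s (↑F : Set Edg)) (A3 := AnnE x y k R)
      ?_ ?_ ?_ ?_ ?_ ?_ ?_ hU1 hU2 (hA x y k R (by omega))).le ?_
    · unfold VB BX
      exact RE_subset (by omega) (by omega) (by omega) (by omega)
    · unfold VB BX
      exact RE_subset (by omega) (by omega) (by omega) (by omega)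
    · unfold AN BX
      rw [hR]
      exact Finset.sdiff_subset
    · unfold VB
      rw [Finset.disjoint_left]
      rintro ⟨p, q, _ | _⟩ h1 h2
      · rw [mem_RE_false] at h1 h2
        omega
      · rw [mem_RE_true] at h1 h2
        omega
    · unfold VB AN
      rw [Finset.disjoint_left]
      rintro ⟨p, q, _ | _⟩ h1 h2
      · rw [Finset.mem_sdiff, mem_RE_false, mem_RE_false] at h2
        rw [mem_RE_false] at h1
        omega
      · rw [Finset.mem_sdiff, mem_RE_true, mem_RE_true] at h2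
        rw [mem_RE_true] at h1
        omega
    · unfold VB AN
      rw [Finset.disjoint_left]
      rintro ⟨p, q, _ | _⟩ h1 h2
      · rw [Finset.mem_sdiff, mem_RE_false, mem_RE_false] at h2
        rw [mem_RE_false] at h1
        omega
      · rw [Finset.mem_sdiff, mem_RE_true, mem_RE_true] at h2
        rw [mem_RE_true] at h1
        omega
    · rintro ω ⟨h1, h2⟩
      exact ⟨two_of_path (by omega) (by omega) hv h1, two_of_path (by omega) (by omega) hv' h2,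
        ann_of (by omega) (by omega) (by omega) (by omega) hv h1.1 h1.2⟩
    · have hsr : (0 : ℝ) < (s : ℝ) := by exact_mod_cast (by omega : 0 < s)
      have hRr : (0 : ℝ) < (R : ℝ) := by exact_mod_cast (by omega : 0 < R)
      have e0 := quarter hdr hsr (by exact_mod_cast (by omega : d ≤ 16 * s))
      have e1 : (((k + 1 : ℕ) : ℝ) / (R : ℝ)) ≤ 3 ^ 4 * ((d : ℝ) / ((y + 1 : ℤ) : ℝ)) := by
        rw [mul_div_assoc', div_le_div_iff₀ hRr hyr]
        have a1 : ((k + 1 : ℕ) : ℝ) ≤ 3 * (d : ℝ) := by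
          have : ((k + 1 : ℕ) : ℤ) ≤ 3 * d := by push_cast; omega
          exact_mod_cast this
        have a2 : ((y + 1 : ℤ) : ℝ) ≤ 8 * (R : ℝ) := by
          have : y + 1 ≤ 8 * (R : ℤ) := by omega
          exact_mod_cast this
        calc ((k + 1 : ℕ) : ℝ) * ((y + 1 : ℤ) : ℝ) ≤ (3 * (d : ℝ)) * (8 * (R : ℝ)) :=
              mul_le_mul a1 a2 hyr.le (by positivity)
          _ = 24 * ((d : ℝ) * (R : ℝ)) := by ring
          _ ≤ 81 * ((d : ℝ) * (R : ℝ)) := mul_le_mul_of_nonneg_right (by norm_num) (by positivity)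
          _ = _ := by ring
      have e2 := quarter_up (by positivity) (by positivity) (by norm_num) e1
      have e3 : (((d : ℝ) / ((y + 1 : ℤ) : ℝ))) ^ (1/4 : ℝ) =
          (d : ℝ) ^ (1/4 : ℝ) * ((y + 1 : ℤ) : ℝ) ^ (-(1/4 : ℝ)) := by
        rw [Real.div_rpow hdr.le hyr.le, Real.rpow_neg hyr.le, div_eq_mul_inv]
      have e4 : (d : ℝ) ^ (-(1/4 : ℝ)) * (d : ℝ) ^ (1/4 : ℝ) = 1 := by
        rw [← Real.rpow_add hdr]
        norm_num
      rw [e3] at e2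
      set u : ℝ := (d : ℝ) ^ (-(1/4 : ℝ)) with hu
      set t : ℝ := (d : ℝ) ^ (1/4 : ℝ) with ht
      set w : ℝ := ((y + 1 : ℤ) : ℝ) ^ (-(1/4 : ℝ)) with hw
      have ht0 : 0 ≤ t := by rw [ht]; positivity
      have hs0 : 0 ≤ (s : ℝ) ^ (-(1/4 : ℝ)) := by positivity
      have f1 : C0 * (s : ℝ) ^ (-(1/4 : ℝ)) ≤ C0 * (2 * u) := mul_le_mul_of_nonneg_left e0 hC0.le
      calc C0 * (s : ℝ) ^ (-(1/4 : ℝ)) * (C0 * (s : ℝ) ^ (-(1/4 : ℝ)) *
            (C * (((k + 1 : ℕ) : ℝ) / (R : ℝ)) ^ (1/4 : ℝ)))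
          ≤ (C0 * (2 * u)) * ((C0 * (2 * u)) * (C * (3 * (t * w)))) := by
            apply mul_le_mul f1 _ (by positivity) (by positivity)
            exact mul_le_mul f1 (mul_le_mul_of_nonneg_left e2 hC.le) (by positivity)
              (by positivity)
        _ = 12 * C0 ^ 2 * C * (u * t) * (u * w) := by ring
        _ = 12 * C0 ^ 2 * C * (u * w) := by rw [e4, mul_one]
        _ ≤ _ := mul_le_mul_of_nonneg_right (le_max_left _ _) (by positivity)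
  · refine (loc_sub (S := VB v ((y + 1) / 8)) (A := fun F => 1 ≤ (y + 1) / 8 →
      Two v (x, y) ((y + 1) / 8) (↑F : Set Edg)) ?_ ?_ (two_bound hC0 hU (by omega) hv)).le ?_
    · unfold VB BX
      exact RE_subset (by omega) (by omega) (by omega) (by omega)
    · rintro ω ⟨h1, -⟩ hm
      exact two_of_path (by omega) hm hv h1
    · have e0 := quarter (A := (d : ℝ)) (B := 1) hdr one_pos
        (by rw [mul_one]; exact_mod_cast (by omega : d ≤ 16))
      have e1 : (1 : ℝ) ≤ 2 * (d : ℝ) ^ (-(1/4 : ℝ)) := by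
        rw [Real.one_rpow] at e0
        exact e0
      calc 2 * (C0 + 1) * ((y + 1 : ℤ) : ℝ) ^ (-(1/4 : ℝ))
          = 2 * (C0 + 1) * ((y + 1 : ℤ) : ℝ) ^ (-(1/4 : ℝ)) * 1 := by ring
        _ ≤ 2 * (C0 + 1) * ((y + 1 : ℤ) : ℝ) ^ (-(1/4 : ℝ)) * (2 * (d : ℝ) ^ (-(1/4 : ℝ))) :=
            mul_le_mul_of_nonneg_left e1 (by positivity)
        _ = (4 * (C0 + 1)) * ((d : ℝ) ^ (-(1/4 : ℝ)) * ((y + 1 : ℤ) : ℝ) ^ (-(1/4 : ℝ))) := by
            ring
        _ ≤ _ := mul_le_mul_of_nonneg_right (le_max_right _ _) (by positivity)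

end Pool.Agent.H67GF
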