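import Pool.Agent.H67GF.Low6

/-!
Faces on the exploration path: reflection and the lower bounds on the whole half-plane.
-/

set_option autoImplicit false

namespace Pool.Agent.H67GF

open H974 H731C H342P Finset MeasureTheory Filter Topology Pool.Agent.H67LP

theorem toE_surj : Function.Surjective toE := by
  rintro ⟨g, hg⟩
  induction g using Sym2.ind with
  | _ u v =>
    obtain ⟨e, he⟩ := adj_edge ((SimpleGraph.mem_edgeSet _).mp hg)
    refine ⟨e, Subtype.ext ?_⟩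
    rcases he with ⟨h1, h2⟩ | ⟨h1, h2⟩
    · simp only [toE, h1, h2]
    · simp only [toE, h1, h2]
      exact Sym2.eq_swap

/-- the two encodings of the edges -/
noncomputable def toEq : Edg ≃ sqLattice.edgeSet := Equiv.ofBijective toE ⟨toE_inj, toE_surj⟩

/-- the action of a permutation of the edges on the configurations -/
noncomputable def mvE (φ : Edg ≃ Edg) : (sqLattice.edgeSet → Bool) ≃ᵐ (sqLattice.edgeSet → Bool) :=
  MeasurableEquiv.piCongrLeft (fun _ : sqLattice.edgeSet => Bool)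
    ((toEq.symm.trans φ).trans toEq)

theorem mvE_apply (φ : Edg ≃ Edg) (ω : sqLattice.edgeSet → Bool) (e : Edg) :
    mvE φ ω (toE (φ e)) = ω (toE e) := by
  have h := Equiv.piCongrLeft_apply_apply (fun _ : sqLattice.edgeSet => Bool)
    ((toEq.symm.trans φ).trans toEq) ω (toE e)
  have e1 : ((toEq.symm.trans φ).trans toEq) (toE e) = toE (φ e) := by
    show toEq (φ (toEq.symm (toE e))) = toE (φ e)
    have : toEq.symm (toE e) = e := toEq.symm_apply_apply e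
    rw [this]
    rfl
  rw [← e1]
  exact h

theorem opn_mvE (φ : Edg ≃ Edg) (ω : sqLattice.edgeSet → Bool) :
    opn (mvE φ ω) = φ '' opn ω := by
  ext e
  constructor
  · intro h
    refine ⟨φ.symm e, ?_, φ.apply_symm_apply e⟩
    show ω (toE (φ.symm e)) = true
    rw [← mvE_apply φ ω, φ.apply_symm_apply]
    exact h
  · rintro ⟨e', he', rfl⟩
    show mvE φ ω (toE (φ e')) = true
    rw [mvE_apply]
    exact he'

theorem map_mvE (φ : Edg ≃ Edg) (p : unitInterval) : (bondLaw p).map (mvE φ) = bondLaw p := by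
  have h := Measure.infinitePi_map_piCongrLeft
    (μ := fun _ : sqLattice.edgeSet => ProbabilityTheory.bernoulliMeasure true false p)
    ((toEq.symm.trans φ).trans toEq)
  exact h

theorem real_mvE (φ : Edg ≃ Edg) (p : unitInterval) (A : Set (sqLattice.edgeSet → Bool)) :
    (bondLaw p).real (mvE φ ⁻¹' A) = (bondLaw p).real A := by
  conv_rhs => rw [← map_mvE φ p]
  unfold Measure.real
  rw [MeasurableEquiv.map_apply]

/-- the reflected set -/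
def negS (I : Set ℤ) : Set ℤ := {k | -k ∈ I}

theorem CI_refl {I : Set ℤ} {G : Set Edg} {v : Vtx} (h : CI (negS I) G v) :
    CI I ((rfx 0).φ '' G) ((rfx 0).ψ v) := by
  obtain ⟨i, hi, hr⟩ := h
  refine ⟨-i, hi, ?_⟩
  have h1 := (rfx 0).reach hr
  have e1 : (rfx 0).ψ (i, 0) = (-i, 0) := by simp
  rw [e1] at h1
  refine h1.mono ?_
  rintro _ ⟨⟨x, y, o⟩, ⟨h2, h3⟩, rfl⟩
  refine ⟨⟨_, h2, rfl⟩, ?_⟩
  cases o
  · rw [rfx_φf]
    exact h3
  · rw [rfx_φt]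
    exact h3

/-- the reflection of the faces -/
def rfF (f : Vtx) : Vtx := (-f.1 - 1, f.2)

theorem dadj_refl {F : Set Edg} {u v : Vtx} (h : DAdj F u v) :
    DAdj ((rfx 0).φ '' F) (rfF u) (rfF v) := by
  obtain ⟨⟨x, y, o⟩, he, hc⟩ := h
  refine ⟨_, ⟨_, he, rfl⟩, ?_⟩
  cases o
  · rw [rfx_φf]
    rcases hc with ⟨h1, h2⟩ | ⟨h1, h2⟩
    · right
      rw [← h1, ← h2]
      exact ⟨Prod.ext (by show 0 - x - 1 = -x - 1; omega) rfl,
        Prod.ext (by show 0 - x = -(x - 1) - 1; omega) rfl⟩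
    · left
      rw [← h1, ← h2]
      exact ⟨Prod.ext (by show 0 - x - 1 = -x - 1; omega) rfl,
        Prod.ext (by show 0 - x = -(x - 1) - 1; omega) rfl⟩
  · rw [rfx_φt]
    rcases hc with ⟨h1, h2⟩ | ⟨h1, h2⟩
    · left
      rw [← h1, ← h2]
      exact ⟨Prod.ext (by show 0 - x - 1 = -x - 1; omega) rfl,
        Prod.ext (by show 0 - x - 1 = -x - 1; omega) rfl⟩
    · right
      rw [← h1, ← h2]
      exact ⟨Prod.ext (by show 0 - x - 1 = -x - 1; omega) rfl,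
        Prod.ext (by show 0 - x - 1 = -x - 1; omega) rfl⟩

theorem dreach_refl {F : Set Edg} {u v : Vtx} (h : DReach F u v) :
    DReach ((rfx 0).φ '' F) (rfF u) (rfF v) := by
  induction h with
  | refl => exact DReach.refl _ _
  | tail _ hs ih => exact Relation.ReflTransGen.tail ih (dadj_refl hs)

theorem DC_refl {I : Set ℤ} {G : Set Edg} {f : Vtx} (h : DC (negS I) G f) :
    DC I ((rfx 0).φ '' G) (rfF f) := by
  obtain ⟨k, hk⟩ := h
  refine ⟨-k - 1, ?_⟩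
  have h1 := dreach_refl hk
  refine h1.mono ?_
  rintro _ ⟨⟨x, y, o⟩, ⟨⟨h2, h3⟩, h4⟩, rfl⟩
  refine ⟨⟨?_, ?_⟩, ?_⟩
  · rintro ⟨e', he', hee⟩
    exact h2 ((rfx 0).φ.injective hee ▸ he')
  · cases o
    · rw [rfx_φf]; exact h3
    · rw [rfx_φt]; exact h3
  · cases o
    · rw [rfx_φf]
      rintro ⟨⟨-, h5⟩, -⟩
      exact Bool.false_ne_true h5
    · rw [rfx_φt]
      rintro ⟨⟨h6, -⟩, h7, h8⟩
      apply h4
      refine ⟨⟨h6, rfl⟩, ?_, ?_⟩
      · show -x ∈ I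
        have e : -x = 0 - x - 1 + 1 := by ring
        rw [e]
        exact h8
      · show -(x + 1) ∈ I
        have e : -(x + 1) = 0 - x - 1 := by ring
        rw [e]
        exact h7

theorem PathE_refl (I : Set ℤ) (x y : ℤ) :
    (bondLaw half).real (PathE (negS I) (-x - 1) y) ≤ (bondLaw half).real (PathE I x y) := by
  rw [← real_mvE (rfx 0).φ half (PathE I x y)]
  apply real_mono'
  rintro ω ⟨h1, v, hv, h2⟩
  show mvE (rfx 0).φ ω ∈ PathE I x y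
  have h3 := DC_refl h1
  have h4 := CI_refl h2
  refine ⟨?_, (rfx 0).ψ v, ?_, ?_⟩
  · rw [opn_mvE]
    have e : rfF (-x - 1, y) = (x, y) :=
      Prod.ext (by show -(-x - 1) - 1 = x; omega) rfl
    rw [← e]
    exact h3
  · obtain ⟨p, q⟩ := v
    obtain ⟨k1, k2⟩ := hv
    rw [rfx_ψ]
    unfold Cor
    simp only at k1 k2 ⊢
    omega
  · rw [opn_mvE]
    exact h4

theorem Psi_shift {h l p q p' q' : ℝ} (hh : 1 ≤ h) (hl : 1 ≤ l) (hp : 0 ≤ p) (hq : 0 ≤ q)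
    (hp' : 0 ≤ p') (hq' : 0 ≤ q') (h1 : p' ≤ p + 1) (h2 : q' ≤ q + 1) :
    Psi h l p q ≤ 8 * Psi h l p' q' := by
  unfold Psi
  rw [mul_div_assoc', div_le_div_iff₀ (by positivity) (by positivity)]
  have h3 : (p' + h) * (q' + h) ≤ (2 * (p + h)) * (2 * (q + h)) :=
    mul_le_mul (by linarith) (by linarith) (by positivity) (by positivity)
  calc h * l * ((p' + h) * (q' + h)) ≤ h * l * ((2 * (p + h)) * (2 * (q + h))) :=
        mul_le_mul_of_nonneg_left h3 (by positivity)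
    _ = (4 * (h * l)) * ((p + h) * (q + h)) := by ring
    _ ≤ (8 * (h * l)) * ((p + h) * (q + h)) := by
        apply mul_le_mul_of_nonneg_right _ (by positivity)
        nlinarith
    _ = _ := by ring

theorem low_right {κ : ℝ} (hκ : 0 < κ) (hL : H984P.LowA κ (1/4)) : ∃ c : ℝ, 0 < c ∧
    ∀ (I : Set ℤ) (a b x y : ℤ), a ≤ b → 0 ≤ y → (∀ k, a ≤ k → k ≤ b → k ∈ I) →
    (∀ k ∈ I, k ≤ b) → a + b ≤ 2 * x + 1 →
    c * ((y + 1 : ℤ) : ℝ) ^ (-(1/4 : ℝ)) *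
        (Psi ((y + 1 : ℤ) : ℝ) ((b - a + 1 : ℤ) : ℝ) ((|x - a| : ℤ) : ℝ) ((|x - b| : ℤ) : ℝ)) ^
          ((1 : ℝ) / 3) ≤ (bondLaw half).real (PathE I x y) := by
  obtain ⟨c, hc, hlow⟩ := low_left hκ hL
  refine ⟨c / 2, by positivity, ?_⟩
  intro I a b x y hab hy hI1 hI2 hcen
  refine le_trans ?_ ((hlow (negS I) (-b) (-a) (-x - 1) y (by omega) hy
    (fun k h1 h2 => hI1 (-k) (by omega) (by omega))
    (fun k hk => by have := hI2 (-k) hk; omega) (by omega)).trans (PathE_refl I x y))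
  have hh : (1 : ℝ) ≤ ((y + 1 : ℤ) : ℝ) := by exact_mod_cast (by omega : 1 ≤ y + 1)
  have hl : (1 : ℝ) ≤ ((b - a + 1 : ℤ) : ℝ) := by exact_mod_cast (by omega : 1 ≤ b - a + 1)
  have e1 : -a - -b + 1 = b - a + 1 := by ring
  rw [e1]
  have hs : Psi ((y + 1 : ℤ) : ℝ) ((b - a + 1 : ℤ) : ℝ) ((|x - a| : ℤ) : ℝ) ((|x - b| : ℤ) : ℝ) ≤
      8 * Psi ((y + 1 : ℤ) : ℝ) ((b - a + 1 : ℤ) : ℝ) ((|-x - 1 - -b| : ℤ) : ℝ)
        ((|-x - 1 - -a| : ℤ) : ℝ) := by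
    have e2 : Psi ((y + 1 : ℤ) : ℝ) ((b - a + 1 : ℤ) : ℝ) ((|-x - 1 - -b| : ℤ) : ℝ)
        ((|-x - 1 - -a| : ℤ) : ℝ) = Psi ((y + 1 : ℤ) : ℝ) ((b - a + 1 : ℤ) : ℝ)
        ((|-x - 1 - -a| : ℤ) : ℝ) ((|-x - 1 - -b| : ℤ) : ℝ) := by
      unfold Psi
      rw [mul_comm (((|-x - 1 - -b| : ℤ) : ℝ) + _)]
    rw [e2]
    have q1 := abs_cases (x - a)
    have q2 := abs_cases (x - b)
    have q3 := abs_cases (-x - 1 - -a)
    have q4 := abs_cases (-x - 1 - -b)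
    apply Psi_shift hh hl (by exact_mod_cast abs_nonneg _) (by exact_mod_cast abs_nonneg _)
      (by exact_mod_cast abs_nonneg _) (by exact_mod_cast abs_nonneg _)
    · exact_mod_cast (by omega : |-x - 1 - -a| ≤ |x - a| + 1)
    · exact_mod_cast (by omega : |-x - 1 - -b| ≤ |x - b| + 1)
  have h3 := cube_root_le (K := 2) (Psi_nonneg hh hl (by exact_mod_cast abs_nonneg _)
    (by exact_mod_cast abs_nonneg _)) (Psi_nonneg hh hl (by exact_mod_cast abs_nonneg _)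
    (by exact_mod_cast abs_nonneg _)) (by norm_num) hs (by norm_num)
  calc _ ≤ c / 2 * ((y + 1 : ℤ) : ℝ) ^ (-(1/4 : ℝ)) * (2 * _) :=
        mul_le_mul_of_nonneg_left h3 (by positivity)
    _ = _ := by ring

theorem path_lower {κ : ℝ} (hκ : 0 < κ) (hL : H984P.LowA κ (1/4)) : ∃ c : ℝ, 0 < c ∧
    ∀ a b x y : ℤ, a ≤ b → 0 ≤ y →
    c * ((y + 1 : ℤ) : ℝ) ^ (-(1/4 : ℝ)) *
        (Psi ((y + 1 : ℤ) : ℝ) ((b - a + 1 : ℤ) : ℝ) ((|x - a| : ℤ) : ℝ) ((|x - b| : ℤ) : ℝ)) ^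
          ((1 : ℝ) / 3) ≤ (bondLaw half).real (PathE (Set.Icc a b) x y) := by
  obtain ⟨c1, hc1, h1⟩ := low_left hκ hL
  obtain ⟨c2, hc2, h2⟩ := low_right hκ hL
  refine ⟨min c1 c2, by positivity, ?_⟩
  intro a b x y hab hy
  have hY : 0 ≤ ((y + 1 : ℤ) : ℝ) ^ (-(1/4 : ℝ)) * (Psi ((y + 1 : ℤ) : ℝ) ((b - a + 1 : ℤ) : ℝ)
      ((|x - a| : ℤ) : ℝ) ((|x - b| : ℤ) : ℝ)) ^ ((1 : ℝ) / 3) := by
    have hh : (1 : ℝ) ≤ ((y + 1 : ℤ) : ℝ) := by exact_mod_cast (by omega : 1 ≤ y + 1)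
    have hl : (1 : ℝ) ≤ ((b - a + 1 : ℤ) : ℝ) := by exact_mod_cast (by omega : 1 ≤ b - a + 1)
    have := Psi_nonneg hh hl (p := ((|x - a| : ℤ) : ℝ)) (q := ((|x - b| : ℤ) : ℝ))
      (by exact_mod_cast abs_nonneg _) (by exact_mod_cast abs_nonneg _)
    positivity
  rcases le_or_gt (2 * x + 1) (a + b) with g | g
  · refine le_trans ?_ (h1 (Set.Icc a b) a b x y hab hy (fun k h1 h2 => ⟨h1, h2⟩)
      (fun k hk => hk.1) g)
    rw [mul_assoc, mul_assoc]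
    exact mul_le_mul_of_nonneg_right (min_le_left _ _) hY
  · refine le_trans ?_ (h2 (Set.Icc a b) a b x y hab hy (fun k h1 h2 => ⟨h1, h2⟩)
      (fun k hk => hk.2) g.le)
    rw [mul_assoc, mul_assoc]
    exact mul_le_mul_of_nonneg_right (min_le_right _ _) hY

theorem path_lower_Iic {κ : ℝ} (hκ : 0 < κ) (hL : H984P.LowA κ (1/4)) : ∃ c : ℝ, 0 < c ∧
    ∀ b x y : ℤ, 0 ≤ y →
    c * ((y + 1 : ℤ) : ℝ) ^ (-(1/4 : ℝ)) *
        (((y + 1 : ℤ) : ℝ) / (((|x - b| : ℤ) : ℝ) + ((y + 1 : ℤ) : ℝ))) ^ ((1 : ℝ) / 3) ≤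
      (bondLaw half).real (PathE (Set.Iic b) x y) := by
  obtain ⟨c, hc, hlow⟩ := low_right hκ hL
  refine ⟨c / 2, by positivity, ?_⟩
  intro b x y hy
  obtain ⟨a, ha⟩ : ∃ a : ℤ, a = - (10 * |x| + 10 * |b| + 10 * (y + 1)) := ⟨_, rfl⟩
  have hx1 := le_abs_self x
  have hx2 := neg_abs_le x
  have hb1 := le_abs_self b
  have hb2 := neg_abs_le b
  have q1 := abs_cases (x - a)
  refine le_trans ?_ (hlow (Set.Iic b) a b x y (by omega) hy (fun k _ h2 => h2)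
    (fun k hk => hk) (by omega))
  have hh : (1 : ℝ) ≤ ((y + 1 : ℤ) : ℝ) := by exact_mod_cast (by omega : 1 ≤ y + 1)
  have hl : (1 : ℝ) ≤ ((b - a + 1 : ℤ) : ℝ) := by exact_mod_cast (by omega : 1 ≤ b - a + 1)
  have hp : (0 : ℝ) ≤ ((|x - a| : ℤ) : ℝ) := by exact_mod_cast abs_nonneg _
  have hq : (0 : ℝ) ≤ ((|x - b| : ℤ) : ℝ) := by exact_mod_cast abs_nonneg _
  have h1 : ((|x - a| : ℤ) : ℝ) + ((y + 1 : ℤ) : ℝ) ≤ 8 * ((b - a + 1 : ℤ) : ℝ) := by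
    exact_mod_cast (by omega : |x - a| + (y + 1) ≤ 8 * (b - a + 1))
  have h2 : ((y + 1 : ℤ) : ℝ) / (((|x - b| : ℤ) : ℝ) + ((y + 1 : ℤ) : ℝ)) ≤
      8 * Psi ((y + 1 : ℤ) : ℝ) ((b - a + 1 : ℤ) : ℝ) ((|x - a| : ℤ) : ℝ) ((|x - b| : ℤ) : ℝ) := by
    unfold Psi
    set h : ℝ := ((y + 1 : ℤ) : ℝ)
    set l : ℝ := ((b - a + 1 : ℤ) : ℝ)
    set p : ℝ := ((|x - a| : ℤ) : ℝ)
    set q : ℝ := ((|x - b| : ℤ) : ℝ)
    rw [mul_div_assoc', div_le_div_iff₀ (by positivity) (by positivity)]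
    calc h * ((p + h) * (q + h)) = (p + h) * (h * (q + h)) := by ring
      _ ≤ (8 * l) * (h * (q + h)) := mul_le_mul_of_nonneg_right h1 (by positivity)
      _ = _ := by ring
  have h3 := cube_root_le (K := 2) (by positivity) (Psi_nonneg hh hl hp hq) (by norm_num) h2
    (by norm_num)
  calc _ ≤ c / 2 * ((y + 1 : ℤ) : ℝ) ^ (-(1/4 : ℝ)) * (2 * _) :=
        mul_le_mul_of_nonneg_left h3 (by positivity)
    _ = _ := by ring

end Pool.Agent.H67GF
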