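import Pool.Agent.H67GF.Dist

/-!
Distance from a point to the exploration path: final statements.
-/

set_option autoImplicit false

namespace Pool.Agent.H67GF

open H974 H731C H342P Finset MeasureTheory Filter Topology Pool.Agent.H67LP

theorem comb {c C A B Z S P : ℝ} (hc : 0 < c) (hC : 0 < C) (hA : 0 ≤ A) (hB : 0 ≤ B) (hZ : 0 ≤ Z)
    (hS : 0 ≤ S) (h1 : A ≤ 2 * B) (h2 : S ≤ 4 * Z) (h : c * B * Z ≤ P) : c / 8 * A * S ≤ P := by
  refine le_trans ?_ h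
  calc c / 8 * A * S ≤ c / 8 * (2 * B) * (4 * Z) :=
        mul_le_mul (mul_le_mul_of_nonneg_left h1 (by positivity)) h2 hS (by positivity)
    _ = _ := by ring

theorem comb_up {C A B Z S P : ℝ} (hC : 0 < C) (hA : 0 ≤ A) (hB : 0 ≤ B) (hZ : 0 ≤ Z)
    (hS : 0 ≤ S) (h1 : B ≤ 2 * A) (h2 : Z ≤ 4 * S) (h : P ≤ C * B * Z) : P ≤ 8 * C * A * S := by
  refine h.trans ?_
  calc C * B * Z ≤ C * (2 * A) * (4 * S) :=
        mul_le_mul (mul_le_mul_of_nonneg_left h1 (by positivity)) h2 hZ (by positivity)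
    _ = _ := by ring

theorem main_dist : ∃ c C : ℝ, 0 < c ∧ 0 < C ∧
    (∀ a b x y r : ℤ, a ≤ b → 0 ≤ y → 0 ≤ r → 2 * r ≤ y + 1 →
      c * (((r : ℝ) + 1) / ((y : ℝ) + 1)) ^ ((1 : ℝ) / 4) *
        Real.sin (vw a b x y) ^ ((1 : ℝ) / 3) ≤ (bondLaw half).real (PathB (Set.Icc a b) x y r) ∧
      (bondLaw half).real (PathB (Set.Icc a b) x y r) ≤
        C * (((r : ℝ) + 1) / ((y : ℝ) + 1)) ^ ((1 : ℝ) / 4) *
          Real.sin (vw a b x y) ^ ((1 : ℝ) / 3)) ∧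
    (∀ b x y r : ℤ, 0 ≤ y → 0 ≤ r → 2 * r ≤ y + 1 →
      c * (((r : ℝ) + 1) / ((y : ℝ) + 1)) ^ ((1 : ℝ) / 4) *
        Real.sin (vwInf b x y) ^ ((1 : ℝ) / 3) ≤ (bondLaw half).real (PathB (Set.Iic b) x y r) ∧
      (bondLaw half).real (PathB (Set.Iic b) x y r) ≤
        C * (((r : ℝ) + 1) / ((y : ℝ) + 1)) ^ ((1 : ℝ) / 4) *
          Real.sin (vwInf b x y) ^ ((1 : ℝ) / 3)) ∧
    (∀ (z : ℂ) (δ ρ : ℝ), 0 < δ → 2 * δ ≤ ρ → 4 * ρ ≤ z.im →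
      c * (ρ / z.im) ^ ((1 : ℝ) / 4) * Real.sin z.arg ^ ((1 : ℝ) / 3) ≤
        (bondLaw half).real (NearP δ ρ z) ∧
      (bondLaw half).real (NearP δ ρ z) ≤
        C * (ρ / z.im) ^ ((1 : ℝ) / 4) * Real.sin z.arg ^ ((1 : ℝ) / 3)) := by
  obtain ⟨c, C, hc, hC, hmain⟩ := scales
  refine ⟨c / 8, 8 * C, by positivity, by positivity, ?_, ?_, ?_⟩
  · intro a b x y r hab hy hr hry
    obtain ⟨g1, g2⟩ := (hmain (Set.Icc a b) (ZI a b) (Or.inl ⟨a, b, hab, rfl, rfl⟩)).1 x y r hy hr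
      hry
    obtain ⟨s1, s2⟩ := ZI_sin (x := x) hab hy
    have hZ := (cmpI hab).1 x y hy
    have hS : 0 ≤ Real.sin (vw a b x y) ^ ((1 : ℝ) / 3) := by linarith
    have e : (((r : ℝ) + 1) / ((y : ℝ) + 1)) = (((r + 1 : ℤ) : ℝ) / ((y + 1 : ℤ) : ℝ)) := by
      push_cast; rfl
    rw [e]
    have hyr : (0 : ℝ) < ((y + 1 : ℤ) : ℝ) := by exact_mod_cast (by omega : 0 < y + 1)
    have hrr : (0 : ℝ) < ((r + 1 : ℤ) : ℝ) := by exact_mod_cast (by omega : 0 < r + 1)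
    set B : ℝ := (((r + 1 : ℤ) : ℝ) / ((y + 1 : ℤ) : ℝ)) ^ ((1 : ℝ) / 4) with hB
    have hB0 : 0 ≤ B := by positivity
    exact ⟨comb hc hC hB0 hB0 hZ hS (by linarith) s2 g1,
      comb_up hC hB0 hB0 hZ hS (by linarith) (by linarith) g2⟩
  · intro b x y r hy hr hry
    obtain ⟨g1, g2⟩ := (hmain (Set.Iic b) (ZH b) (Or.inr ⟨b, rfl, rfl⟩)).1 x y r hy hr hry
    obtain ⟨s1, s2⟩ := ZH_sin (b := b) (x := x) hy
    have hZ := (cmpH b).1 x y hy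
    have hS : 0 ≤ Real.sin (vwInf b x y) ^ ((1 : ℝ) / 3) := by linarith
    have e : (((r : ℝ) + 1) / ((y : ℝ) + 1)) = (((r + 1 : ℤ) : ℝ) / ((y + 1 : ℤ) : ℝ)) := by
      push_cast; rfl
    rw [e]
    have hyr : (0 : ℝ) < ((y + 1 : ℤ) : ℝ) := by exact_mod_cast (by omega : 0 < y + 1)
    have hrr : (0 : ℝ) < ((r + 1 : ℤ) : ℝ) := by exact_mod_cast (by omega : 0 < r + 1)
    set B : ℝ := (((r + 1 : ℤ) : ℝ) / ((y + 1 : ℤ) : ℝ)) ^ ((1 : ℝ) / 4) with hB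
    have hB0 : 0 ≤ B := by positivity
    exact ⟨comb hc hC hB0 hB0 hZ hS (by linarith) s2 g1,
      comb_up hC hB0 hB0 hZ hS (by linarith) (by linarith) g2⟩
  · intro z δ ρ hδ hρ hz
    have hρ0 : 0 < ρ := by linarith
    have hzi : 0 < z.im := by linarith
    have hm := (hmain (Set.Iic 0) (ZH 0) (Or.inr ⟨0, rfl, rfl⟩)).1
    obtain ⟨s1, s2⟩ := arg_cmp (z := z) (δ := δ) hδ (by linarith)
    have e1 : 2 ≤ ρ / δ := by rw [le_div_iff₀ hδ]; linarith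
    have e2 : 4 * (ρ / δ) ≤ z.im / δ := by
      rw [mul_div_assoc', div_le_div_iff_of_pos_right hδ]; exact hz
    have e3 : ρ / (2 * δ) = (ρ / δ) / 2 := by field_simp
    have e4 : ρ / z.im = (ρ / δ) / (z.im / δ) := by field_simp
    have k1 := near_sub (z := z) hδ hρ
    have k2 := sub_near (z := z) (ρ := ρ) hδ
    rw [e3] at k1
    rw [e4]
    obtain ⟨t, ht⟩ : ∃ t : ℝ, t = ρ / δ := ⟨_, rfl⟩
    obtain ⟨u, hu⟩ : ∃ u : ℝ, u = z.im / δ := ⟨_, rfl⟩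
    rw [← ht, ← hu] at k1 k2
    rw [← ht] at e1 e2
    rw [← hu] at e2 s1 s2
    rw [← ht, ← hu]
    obtain ⟨Y, hY⟩ : ∃ Y : ℤ, Y = ⌊u⌋ := ⟨_, rfl⟩
    obtain ⟨X, hX⟩ : ∃ X : ℤ, X = ⌊z.re / δ⌋ := ⟨_, rfl⟩
    obtain ⟨n, hn⟩ : ∃ n : ℤ, n = ⌊t / 2⌋ := ⟨_, rfl⟩
    obtain ⟨m, hm'⟩ : ∃ m : ℤ, m = ⌊t⌋ := ⟨_, rfl⟩
    rw [← hY, ← hX] at k1 k2 s1 s2
    rw [← hn] at k1
    rw [← hm'] at k2
    have f1 : (Y : ℝ) ≤ u := by rw [hY]; exact Int.floor_le _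
    have f2 : u < (Y : ℝ) + 1 := by rw [hY]; exact Int.lt_floor_add_one _
    have f3 : (n : ℝ) ≤ t / 2 := by rw [hn]; exact Int.floor_le _
    have f4 : t / 2 < (n : ℝ) + 1 := by rw [hn]; exact Int.lt_floor_add_one _
    have f5 : (m : ℝ) ≤ t := by rw [hm']; exact Int.floor_le _
    have f6 : t < (m : ℝ) + 1 := by rw [hm']; exact Int.lt_floor_add_one _
    have n1 : 1 ≤ n := by
      rw [hn, Int.le_floor]
      push_cast
      linarith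
    have n1r : (1 : ℝ) ≤ (n : ℝ) := by exact_mod_cast n1
    have m1 : 2 ≤ m := by
      rw [hm', Int.le_floor]
      push_cast
      linarith
    have m1r : (2 : ℝ) ≤ (m : ℝ) := by exact_mod_cast m1
    have Y1 : 0 ≤ Y := by
      rw [hY]
      exact Int.floor_nonneg.mpr (by linarith)
    have a1 : 2 * (n - 1) ≤ Y + 1 := by
      have : (2 : ℝ) * ((n : ℝ) - 1) ≤ (Y : ℝ) + 1 := by linarith
      exact_mod_cast this
    have a2 : 2 * (m + 1) ≤ Y + 1 := by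
      have : (2 : ℝ) * ((m : ℝ) + 1) ≤ (Y : ℝ) + 1 := by linarith
      exact_mod_cast this
    have g1 := (hm X Y (n - 1) Y1 (by omega) a1).1
    have g2 := (hm X Y (m + 1) Y1 (by omega) a2).2
    have hZ := (cmpH 0).1 X Y Y1
    have hS : 0 ≤ Real.sin z.arg ^ ((1 : ℝ) / 3) := by linarith
    have u0 : 0 < u := by linarith
    have t0 : 0 < t := by linarith
    have hYr : (0 : ℝ) < ((Y + 1 : ℤ) : ℝ) := by exact_mod_cast (by omega : 0 < Y + 1)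
    have hYc : ((Y + 1 : ℤ) : ℝ) = (Y : ℝ) + 1 := by push_cast; rfl
    have hnc : ((n - 1 + 1 : ℤ) : ℝ) = (n : ℝ) := by push_cast; ring
    have hmc : ((m + 1 + 1 : ℤ) : ℝ) = (m : ℝ) + 2 := by push_cast; ring
    have b1 : t / u ≤ 2 ^ 4 * (((n - 1 + 1 : ℤ) : ℝ) / ((Y + 1 : ℤ) : ℝ)) := by
      rw [mul_div_assoc', div_le_div_iff₀ u0 hYr, hYc, hnc]
      have c1 : t ≤ 4 * (n : ℝ) := by linarith
      have c2 : (Y : ℝ) + 1 ≤ 2 * u := by linarith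
      calc t * ((Y : ℝ) + 1) ≤ (4 * (n : ℝ)) * (2 * u) :=
            mul_le_mul c1 c2 (by linarith) (by linarith)
        _ = 8 * ((n : ℝ) * u) := by ring
        _ ≤ 16 * ((n : ℝ) * u) := mul_le_mul_of_nonneg_right (by norm_num) (by positivity)
        _ = _ := by ring
    have b2 : ((m + 1 + 1 : ℤ) : ℝ) / ((Y + 1 : ℤ) : ℝ) ≤ 2 ^ 4 * (t / u) := by
      rw [mul_div_assoc', div_le_div_iff₀ hYr u0, hYc, hmc]
      have c1 : (m : ℝ) + 2 ≤ 2 * t := by linarith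
      calc ((m : ℝ) + 2) * u ≤ (2 * t) * ((Y : ℝ) + 1) :=
            mul_le_mul c1 f2.le u0.le (by positivity)
        _ = 2 * (t * ((Y : ℝ) + 1)) := by ring
        _ ≤ 16 * (t * ((Y : ℝ) + 1)) := mul_le_mul_of_nonneg_right (by norm_num)
            (mul_nonneg t0.le (by linarith))
        _ = _ := by ring
    have hnr : (0 : ℝ) ≤ ((n - 1 + 1 : ℤ) : ℝ) := by rw [hnc]; linarith
    have hmr : (0 : ℝ) ≤ ((m + 1 + 1 : ℤ) : ℝ) := by rw [hmc]; linarith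
    have d1 := quarter_up (by positivity) (by positivity) (by norm_num) b1
    have d2 := quarter_up (by positivity) (by positivity) (by norm_num) b2
    constructor
    · exact comb hc hC (by positivity) (by positivity) hZ hS d1 s2 (g1.trans (real_mono' k1))
    · exact comb_up hC (by positivity) (by positivity) hZ hS d2 s1 ((real_mono' k2).trans g2)

theorem main_two : ∃ C : ℝ, 0 < C ∧
    (∀ a b x y x' y' d : ℤ, a ≤ b → 1 ≤ d → 16 * d ≤ y + 1 → (d = |x' - x| ∨ d = |y' - y|) →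
      |x' - x| ≤ d → |y' - y| ≤ d →
      (bondLaw half).real (PathE (Set.Icc a b) x y ∩ PathE (Set.Icc a b) x' y') ≤
        C * ((d : ℝ) ^ (-(1/4 : ℝ)) * ((y : ℝ) + 1) ^ (-(1/4 : ℝ))) *
          Real.sin (vw a b x y) ^ ((1 : ℝ) / 3)) ∧
    (∀ b x y x' y' d : ℤ, 1 ≤ d → 16 * d ≤ y + 1 → (d = |x' - x| ∨ d = |y' - y|) →
      |x' - x| ≤ d → |y' - y| ≤ d →
      (bondLaw half).real (PathE (Set.Iic b) x y ∩ PathE (Set.Iic b) x' y') ≤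
        C * ((d : ℝ) ^ (-(1/4 : ℝ)) * ((y : ℝ) + 1) ^ (-(1/4 : ℝ))) *
          Real.sin (vwInf b x y) ^ ((1 : ℝ) / 3)) := by
  obtain ⟨c, C, hc, hC, hmain⟩ := scales
  refine ⟨8 * C, by positivity, ?_, ?_⟩
  · intro a b x y x' y' d hab hd hdy hcase hdx hdy'
    have hy : 0 ≤ y := by omega
    have g := (hmain (Set.Icc a b) (ZI a b) (Or.inl ⟨a, b, hab, rfl, rfl⟩)).2 x y x' y' d hd hdy
      hcase hdx hdy'
    obtain ⟨s1, s2⟩ := ZI_sin (x := x) hab hy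
    have hZ := (cmpI hab).1 x y hy
    have hS : 0 ≤ Real.sin (vw a b x y) ^ ((1 : ℝ) / 3) := by linarith
    have e : (y : ℝ) + 1 = ((y + 1 : ℤ) : ℝ) := by push_cast; rfl
    rw [e]
    have hyr : (0 : ℝ) < ((y + 1 : ℤ) : ℝ) := by exact_mod_cast (by omega : 0 < y + 1)
    have hdr : (0 : ℝ) < (d : ℝ) := by exact_mod_cast (by omega : 0 < d)
    set B : ℝ := (d : ℝ) ^ (-(1/4 : ℝ)) * ((y + 1 : ℤ) : ℝ) ^ (-(1/4 : ℝ)) with hB
    have hB0 : 0 ≤ B := by positivity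
    exact comb_up hC hB0 hB0 hZ hS (by linarith) (by linarith) g
  · intro b x y x' y' d hd hdy hcase hdx hdy'
    have hy : 0 ≤ y := by omega
    have g := (hmain (Set.Iic b) (ZH b) (Or.inr ⟨b, rfl, rfl⟩)).2 x y x' y' d hd hdy
      hcase hdx hdy'
    obtain ⟨s1, s2⟩ := ZH_sin (b := b) (x := x) hy
    have hZ := (cmpH b).1 x y hy
    have hS : 0 ≤ Real.sin (vwInf b x y) ^ ((1 : ℝ) / 3) := by linarith
    have e : (y : ℝ) + 1 = ((y + 1 : ℤ) : ℝ) := by push_cast; rfl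
    rw [e]
    have hyr : (0 : ℝ) < ((y + 1 : ℤ) : ℝ) := by exact_mod_cast (by omega : 0 < y + 1)
    have hdr : (0 : ℝ) < (d : ℝ) := by exact_mod_cast (by omega : 0 < d)
    set B : ℝ := (d : ℝ) ^ (-(1/4 : ℝ)) * ((y + 1 : ℤ) : ℝ) ^ (-(1/4 : ℝ)) with hB
    have hB0 : 0 ≤ B := by positivity
    exact comb_up hC hB0 hB0 hZ hS (by linarith) (by linarith) g

end Pool.Agent.H67GF
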