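import Pool.Agent.H67LP.ProbD
import Pool.Agent.H67LP.Meas
import Pool.Agent.H342R2.Per.Sum

/-!
Faces on the exploration path: definitions and the upper bounds.
-/

set_option autoImplicit false

namespace Pool.Agent.H67GF

open H974 H731C H342P Finset MeasureTheory Filter Topology Pool.Agent.H67LP

/-- the boundary edges between neighbours of `I` -/
def Wir (I : Set ℤ) : Set Edg := {e | (e.2.1 = 0 ∧ e.2.2 = true) ∧ e.1 ∈ I ∧ e.1 + 1 ∈ I}

/-- the closed edges of the half-plane which are not wired -/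
def Cls (I : Set ℤ) (G : Set Edg) : Set Edg := {e | (e ∉ G ∧ 0 ≤ e.2.1) ∧ e ∉ Wir I}

/-- the face is in the dual cluster of the free boundary -/
def DC (I : Set ℤ) (G : Set Edg) (f : Vtx) : Prop := ∃ k : ℤ, DReach (Cls I G) f (k, -1)

/-- `v` is a corner of the face `f` -/
def Cor (f v : Vtx) : Prop := (v.1 = f.1 ∨ v.1 = f.1 + 1) ∧ (v.2 = f.2 ∨ v.2 = f.2 + 1)

/-- the path passes at the corner `v` of the face `f` -/
def PathV (I : Set ℤ) (f v : Vtx) : Set (sqLattice.edgeSet → Bool) :=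
  {ω | DC I (opn ω) f ∧ CI I (opn ω) v}

/-- the path passes at the face -/
def PathE (I : Set ℤ) (x y : ℤ) : Set (sqLattice.edgeSet → Bool) :=
  {ω | DC I (opn ω) (x, y) ∧ ∃ v, Cor (x, y) v ∧ CI I (opn ω) v}

theorem DC_Out {I : Set ℤ} {G : Set Edg} {f : Vtx} (h : DC I G f) : Out I G f := by
  obtain ⟨k, hk⟩ := h
  refine (hk.mono ?_).trans (low_all I G k 0)
  rintro e ⟨⟨h1, h2⟩, h3⟩ ⟨-, h4 | h4⟩
  · exact h1 h4.1
  · exact h3 ⟨⟨h4.1, h4.2.1⟩, h4.2.2.1, h4.2.2.2⟩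

theorem two_of_path {I : Set ℤ} {ω : sqLattice.edgeSet → Bool} {x y m : ℤ} {v : Vtx}
    (hm : m ≤ y) (hm1 : 1 ≤ m) (hv : Cor (x, y) v) (h : ω ∈ PathV I (x, y) v) :
    Two v (x, y) m (↑(FF (RE (v.1 - m) (v.1 + m) (v.2 - m) (v.2 + m)) ω) : Set Edg) := by
  obtain ⟨⟨k, hk⟩, i, hi, hr⟩ := h
  obtain ⟨hv1, hv2⟩ := hv
  simp only at hv1 hv2
  constructor
  · obtain ⟨w, hw1, hw2, hw3⟩ := first_exit (a := v.1 - m) (b := v.1 + m) (c := v.2 - m)
      (d := v.2 + m) (u := v) (v := (i, 0)) ⟨⟨by omega, by omega⟩, by omega, by omega⟩ hr.symm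
      (by right; right; left; simp only; omega)
    refine ⟨w, ?_, ?_⟩
    · unfold Far
      rcases hw2 with h | h | h | h <;> omega
    · rw [FF_coe]
      refine hw3.mono ?_
      rintro e ⟨⟨h1, -⟩, h2⟩
      exact ⟨h1, h2⟩
  · refine ⟨(k, -1), ?_, hk.mono ?_⟩
    · unfold FarF inF
      simp only
      omega
    · rintro e ⟨⟨h1, -⟩, -⟩ h2
      rw [FF_coe] at h2
      exact h1 h2.1

theorem first_hit {F A A' : Set Edg} {P : Vtx → Prop} (hA : ∀ e ∈ A', P (src e) ∧ P (tgt e))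
    {u v : Vtx} (h : Reach (F ∩ A) u v) (hv : P v) :
    ∃ w, P w ∧ Reach (F ∩ (A \ A')) u w := by
  by_contra hcon
  push Not at hcon
  have key : ∀ w, Reach (F ∩ A) u w → Reach (F ∩ (A \ A')) u w := by
    intro w hw
    induction hw with
    | refl => exact Reach.refl _ _
    | @tail p q _ hs ih =>
      refine ih.trans (Adj.reach ?_)
      obtain ⟨e, ⟨heF, heA⟩, hc⟩ := hs
      refine ⟨e, ⟨heF, heA, fun he => ?_⟩, hc⟩
      have h1 := hA e he
      rcases hc with ⟨h3, -⟩ | ⟨-, h3⟩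
      · rw [h3] at h1
        exact hcon p h1.1 ih
      · rw [h3] at h1
        exact hcon p h1.2 ih
  exact hcon v hv (key v h)

/-- the interval is connected to the half-box by the edges of `F` -/
def UBf (a b x r : ℤ) (F : Finset Edg) : Prop :=
  ∃ i w, (a ≤ i ∧ i ≤ b) ∧ inR (x - r) (x + r) 0 (0 + r) w ∧ Reach (↑F : Set Edg) (i, 0) w

/-- the edges outside the half-box -/
noncomputable def OE (x r N : ℤ) : Finset Edg := RE (-N) N 0 N \ RE (x - r) (x + r) 0 r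

theorem UBf_mono {a b x r : ℤ} {F G : Finset Edg} (h : F ⊆ G) (hF : UBf a b x r F) :
    UBf a b x r G := by
  obtain ⟨i, w, h1, h2, h3⟩ := hF
  exact ⟨i, w, h1, h2, h3.mono (by exact_mod_cast h)⟩

theorem UB_HC_CN {a b x r N : ℤ} {F : Finset Edg} (hr : 1 ≤ r)
    (hd : b ≤ x - 3 * r ∨ x + 3 * r ≤ a)
    (hN1 : -N ≤ x - 3 * r) (hN2 : x + 3 * r ≤ N) (hN3 : 3 * r ≤ N)
    (h1 : UBf a b x r (F ∩ OE x r N)) (h2 : HC x 0 r F) :
    CN a b (x - 3 * r) (x + 3 * r) (-N) N 0 N F := by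
  obtain ⟨i, w0, hi, hin, hr0⟩ := h1
  have hr1 : Reach (↑F ∩ ↑(RE (-N) N 0 N)) (i, 0) w0 := hr0.mono (by
    intro e he
    rw [Finset.mem_coe, Finset.mem_inter] at he
    exact ⟨he.1, Finset.mem_coe.mpr (Finset.mem_sdiff.mp he.2).1⟩)
  obtain ⟨w, hw, hr2⟩ := exit_box (z := x) (m := r) (n := 3 * r) (by omega) hN1 hN2 hN3
    hin (v := (i, 0)) (by simp only; omega) hr1.symm
  obtain ⟨fl, fr, hfl, hfr, hmeet⟩ := HC_meet (z := x) (t := 0) (r := r) hr h2
  have h3 := (hmeet w0 w hin hw hr2).1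
  refine ⟨i, fl, hi, by omega, hr1.trans (h3.mono ?_)⟩
  exact Set.inter_subset_inter_right _ (by
    exact_mod_cast RE_subset hN1 hN2 le_rfl (by omega))

theorem CN3_upper : ∃ C : ℝ, 0 < C ∧ ∀ a b x r D N : ℤ, a ≤ b → 1 ≤ r →
    (D = x - b ∨ D = a - x) → 6 * r ≤ D → |x| + |a| + |b| + 20 * D ≤ N →
    P2 (RE (-N) N 0 N) (CN a b (x - 3 * r) (x + 3 * r) (-N) N 0 N) ≤
      C * (Phi r (b - a + 1) D) ^ ((1 : ℝ) / 3) := by
  obtain ⟨C, hC, hup⟩ := CN_upper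
  refine ⟨3 * C, by positivity, ?_⟩
  intro a b x r D N hab hr hcase hD hN
  have hx1 := le_abs_self x
  have hx2 := neg_abs_le x
  have ha1 := le_abs_self a
  have ha2 := neg_abs_le a
  have hb1 := le_abs_self b
  have hb2 := neg_abs_le b
  have hh : (1 : ℝ) ≤ (r : ℝ) := by exact_mod_cast hr
  have hl : (1 : ℝ) ≤ ((b - a + 1 : ℤ) : ℝ) := by
    exact_mod_cast (by omega : (1 : ℤ) ≤ b - a + 1)
  have hdr : 6 * (r : ℝ) ≤ (D : ℝ) := by exact_mod_cast hD
  have hX0 := Phi_nonneg (h := r) (l := b - a + 1) (D := D) (by omega) (by omega) (by omega)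
  have hratio := far_ratio_up hh hl hdr
  set R : ℝ := (((b - a + 1 : ℤ) : ℝ) / (((b - a + 1 : ℤ) : ℝ) +
    ((D : ℝ) - 3 * (r : ℝ)))) *
    ((6 * (r : ℝ) + 1) / (((D : ℝ) - 3 * (r : ℝ)) +
      (6 * (r : ℝ) + 1))) with hR
  have hR0 : 0 ≤ R := by
    rw [hR]
    apply mul_nonneg
    · apply div_nonneg <;> linarith
    · apply div_nonneg <;> linarith
  have hR2 : R ≤ 27 * Phi r (b - a + 1) D := by
    unfold Phi
    exact hratio
  have h2 := cube_root_le (K := 3) hR0 hX0 (by norm_num) hR2 (by norm_num)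
  have h3 : P2 (RE (-N) N 0 N) (CN a b (x - 3 * r) (x + 3 * r) (-N) N 0 N) ≤
      C * R ^ ((1 : ℝ) / 3) := by
    rcases hcase with hc | hc
    · have h4 := hup a b (x - 3 * r) (x + 3 * r) (-N) N 0 N hab (by omega)
        (by omega) (by omega) (by omega) (by omega)
      refine h4.trans (le_of_eq ?_)
      rw [hR, hc]
      push_cast
      ring_nf
    · have h4 := hup (x - 3 * r) (x + 3 * r) a b (-N) N 0 N (by omega) (by omega)
        hab (by omega) (by omega) (by omega)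
      have h5 : P2 (RE (-N) N 0 N) (CN a b (x - 3 * r) (x + 3 * r) (-N) N 0 N) ≤
          P2 (RE (-N) N 0 N) (CN (x - 3 * r) (x + 3 * r) a b (-N) N 0 N) :=
        Pr_mono okhalf2 (fun F _ hF => CN_symm hF)
      refine (h5.trans h4).trans (le_of_eq ?_)
      rw [hR, hc]
      push_cast
      ring_nf
  calc _ ≤ C * R ^ ((1 : ℝ) / 3) := h3
    _ ≤ C * (3 * (Phi r (b - a + 1) D) ^ ((1 : ℝ) / 3)) :=
        mul_le_mul_of_nonneg_left h2 hC.le
    _ = _ := by ring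

theorem UB_upper : ∃ C : ℝ, 0 < C ∧ ∀ a b x r D N : ℤ, a ≤ b → 1 ≤ r →
    (D = x - b ∨ D = a - x) → 6 * r ≤ D → |x| + |a| + |b| + 20 * D ≤ N →
    P2 (OE x r N) (UBf a b x r) ≤ C * (Phi r (b - a + 1) D) ^ ((1 : ℝ) / 3) := by
  obtain ⟨C, hC, hCN⟩ := CN3_upper
  refine ⟨2 ^ 141 * C, by positivity, ?_⟩
  intro a b x r D N hab hr hcase hD hN
  have key := hCN a b x r D N hab hr hcase hD hN
  have hx1 := le_abs_self x
  have hx2 := neg_abs_le x
  have ha1 := le_abs_self a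
  have ha2 := neg_abs_le a
  have hb1 := le_abs_self b
  have hb2 := neg_abs_le b
  have hsub : RE (x - 3 * r) (x + 3 * r) 0 (0 + 3 * r) ⊆ RE (-N) N 0 N :=
    RE_subset (by omega) (by omega) le_rfl (by omega)
  have k2 := pr_HC (z := x) (t := 0) (r := r) hr (S := RE (-N) N 0 N)
    (VE_subset_RE.trans hsub)
  have e1 : P2 (OE x r N) (UBf a b x r) =
      P2 (RE (-N) N 0 N) (fun F => UBf a b x r (F ∩ OE x r N)) :=
    (P2_restrict Finset.sdiff_subset _).symm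
  have i1 := Pr_harris okhalf2 (S := RE (-N) N 0 N) (A := fun F => UBf a b x r (F ∩ OE x r N))
    (fun F G h _ hF => UBf_mono (Finset.inter_subset_inter_right h) hF)
    (HC_incr (RE (-N) N 0 N) x 0 r)
  have i2 : Pr (fun _ => (1/2 : ℝ)) (RE (-N) N 0 N)
      (fun F => UBf a b x r (F ∩ OE x r N) ∧ HC x 0 r F) ≤
      P2 (RE (-N) N 0 N) (CN a b (x - 3 * r) (x + 3 * r) (-N) N 0 N) := by
    apply Pr_mono okhalf2
    rintro F _ ⟨h1, h2⟩
    exact UB_HC_CN hr (by omega) (by omega) (by omega) (by omega) h1 h2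
  have hU0 : 0 ≤ P2 (RE (-N) N 0 N) (fun F => UBf a b x r (F ∩ OE x r N)) :=
    Pr_nonneg okhalf2 _ _
  have i4 := (mul_le_mul_of_nonneg_left k2 hU0).trans (i1.trans (i2.trans key))
  rw [e1]
  have e : P2 (RE (-N) N 0 N) (fun F => UBf a b x r (F ∩ OE x r N)) =
      2 ^ 141 * (P2 (RE (-N) N 0 N) (fun F => UBf a b x r (F ∩ OE x r N)) *
        (1/2 : ℝ) ^ 141) := by
    rw [mul_comm (P2 (RE (-N) N 0 N) _), ← mul_assoc, ← mul_pow]
    norm_num
  rw [e, mul_assoc]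
  exact mul_le_mul_of_nonneg_left i4 (by positivity)

theorem FF_inter {S U : Finset Edg} (h : S ⊆ U) (ω : sqLattice.edgeSet → Bool) :
    FF U ω ∩ S = FF S ω := by
  ext e
  rw [Finset.mem_inter, mem_FF, mem_FF]
  constructor
  · rintro ⟨⟨h1, h2⟩, h3⟩
    exact ⟨h3, h2⟩
  · rintro ⟨h1, h2⟩
    exact ⟨⟨h h1, h2⟩, h1⟩

theorem indep2 {S T : Finset Edg} (hd : Disjoint S T) (A B : Finset Edg → Prop)
    {E : Set (sqLattice.edgeSet → Bool)} (h : ∀ ω ∈ E, A (FF S ω) ∧ B (FF T ω)) :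
    (bondLaw half).real E ≤ P2 S A * P2 T B := by
  have hU1 : S ⊆ S ∪ T := subset_union_left
  have hU2 : T ⊆ S ∪ T := subset_union_right
  rw [← P2_indep hU1 hU2 hd A B]
  apply real_le_P2
  intro ω hω
  rw [FF_inter hU1, FF_inter hU2]
  exact h ω hω

end Pool.Agent.H67GF
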