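import Pool.Agent.H67GF.Up

/-!
Faces on the exploration path: upper bounds for intervals.
-/

set_option autoImplicit false

namespace Pool.Agent.H67GF

open H974 H731C H342P Finset MeasureTheory Filter Topology Pool.Agent.H67LP

theorem quarter {A B : ℝ} (hA : 0 < A) (hB : 0 < B) (h : A ≤ 16 * B) :
    B ^ (-(1/4 : ℝ)) ≤ 2 * A ^ (-(1/4 : ℝ)) := by
  have h1 : (16 * B) ^ (-(1/4 : ℝ)) ≤ A ^ (-(1/4 : ℝ)) :=
    Real.rpow_le_rpow_of_nonpos hA h (by norm_num)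
  have h2 : (16 * B) ^ (-(1/4 : ℝ)) = (1/2) * B ^ (-(1/4 : ℝ)) := by
    rw [Real.mul_rpow (by norm_num) hB.le]
    congr 1
    have : (16 : ℝ) = 2 ^ (4 : ℝ) := by norm_num
    rw [this, ← Real.rpow_mul (by norm_num)]
    norm_num
  linarith

/-- the box around the corner -/
noncomputable def VB (v : Vtx) (m : ℤ) : Finset Edg := RE (v.1 - m) (v.1 + m) (v.2 - m) (v.2 + m)

theorem two_bound {C0 : ℝ} (hC0 : 0 < C0) (hU : TwoUp C0 (1/4)) {x y : ℤ} {v : Vtx} (hy : 0 ≤ y)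
    (hv : Cor (x, y) v) :
    P2 (VB v ((y + 1) / 8)) (fun F => 1 ≤ (y + 1) / 8 → Two v (x, y) ((y + 1) / 8) (↑F : Set Edg)) ≤
      2 * (C0 + 1) * ((y + 1 : ℤ) : ℝ) ^ (-(1/4 : ℝ)) := by
  have hy1 : (0 : ℝ) < ((y + 1 : ℤ) : ℝ) := by exact_mod_cast (by omega : 0 < y + 1)
  have hp0 : 0 ≤ ((y + 1 : ℤ) : ℝ) ^ (-(1/4 : ℝ)) := by positivity
  rcases le_or_gt 1 ((y + 1) / 8) with hm | hm
  · have h1 := hU ((y + 1) / 8) v (x, y) (by omega) (by
      obtain ⟨h1, h2⟩ := hv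
      unfold Inc
      simp only at h1 h2 ⊢
      omega)
    have hm0 : (0 : ℝ) < (((y + 1) / 8 : ℤ) : ℝ) := by exact_mod_cast (by omega : 0 < (y + 1) / 8)
    have h2 := quarter hy1 hm0 (by exact_mod_cast (by omega : y + 1 ≤ 16 * ((y + 1) / 8)))
    have h3 : P2 (VB v ((y + 1) / 8)) (fun F => 1 ≤ (y + 1) / 8 →
        Two v (x, y) ((y + 1) / 8) (↑F : Set Edg)) ≤ C0 * (((y + 1) / 8 : ℤ) : ℝ) ^ (-(1/4 : ℝ)) :=
      (Pr_mono okhalf2 (fun F _ hF => hF hm)).trans h1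
    calc _ ≤ _ := h3
      _ ≤ C0 * (2 * ((y + 1 : ℤ) : ℝ) ^ (-(1/4 : ℝ))) := mul_le_mul_of_nonneg_left h2 hC0.le
      _ ≤ _ := by nlinarith
  · have h2 := quarter hy1 one_pos (by rw [mul_one]; exact_mod_cast (by omega : y + 1 ≤ 16))
    rw [Real.one_rpow] at h2
    calc _ ≤ (1 : ℝ) := Pr_le_one okhalf2 _ _
      _ ≤ 2 * ((y + 1 : ℤ) : ℝ) ^ (-(1/4 : ℝ)) := h2
      _ ≤ _ := by nlinarith

theorem path_indep {C0 : ℝ} (hC0 : 0 < C0) (hU : TwoUp C0 (1/4)) {I : Set ℤ} {x y : ℤ} {v : Vtx}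
    (hy : 0 ≤ y) (hv : Cor (x, y) v) {T : Finset Edg} (hd : Disjoint (VB v ((y + 1) / 8)) T)
    (B : Finset Edg → Prop) {E : Set (sqLattice.edgeSet → Bool)} (hE : E ⊆ PathV I (x, y) v)
    (h : ∀ ω ∈ E, B (FF T ω)) {X : ℝ} (hX : P2 T B ≤ X) :
    (bondLaw half).real E ≤ 2 * (C0 + 1) * ((y + 1 : ℤ) : ℝ) ^ (-(1/4 : ℝ)) * X := by
  have h1 := indep2 hd (fun F => 1 ≤ (y + 1) / 8 → Two v (x, y) ((y + 1) / 8) (↑F : Set Edg)) B
    (E := E) (fun ω hω => ⟨fun hm => two_of_path (by omega) hm hv (hE hω), h ω hω⟩)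
  have hy1 : (0 : ℝ) < ((y + 1 : ℤ) : ℝ) := by exact_mod_cast (by omega : 0 < y + 1)
  exact h1.trans (mul_le_mul (two_bound hC0 hU hy hv) hX (Pr_nonneg okhalf2 _ _) (by positivity))

theorem VB_sub {x y m : ℤ} {v : Vtx} (hm : 8 * m ≤ y + 1) (hv : Cor (x, y) v) (hy : 0 ≤ y) :
    VB v m ⊆ RE (x - 2 * (y + 1)) (x + 2 * (y + 1)) 0 (2 * (y + 1)) := by
  obtain ⟨h1, h2⟩ := hv
  simp only at h1 h2
  exact RE_subset (by omega) (by omega) (by omega) (by omega)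

theorem path_far {C0 : ℝ} (hC0 : 0 < C0) (hU : TwoUp C0 (1/4)) : ∃ C : ℝ, 0 < C ∧
    ∀ (a b x y D : ℤ) (v : Vtx), a ≤ b → 0 ≤ y → Cor (x, y) v → (D = x - b ∨ D = a - x) →
    12 * (y + 1) ≤ D → (bondLaw half).real (PathV (Set.Icc a b) (x, y) v) ≤
      C * ((y + 1 : ℤ) : ℝ) ^ (-(1/4 : ℝ)) *
        (Phi (2 * (y + 1)) (b - a + 1) D) ^ ((1 : ℝ) / 3) := by
  obtain ⟨C, hC, hUB⟩ := UB_upper
  refine ⟨2 * (C0 + 1) * C, by positivity, ?_⟩
  intro a b x y D v hab hy hv hcase hD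
  set r : ℤ := 2 * (y + 1) with hr
  set A : ℕ → Set (sqLattice.edgeSet → Bool) := fun N =>
    {ω | ω ∈ PathV (Set.Icc a b) (x, y) v ∧ UBf a b x r (FF (OE x r N) ω)} with hA
  have hmono : Monotone A := by
    intro N M hNM ω h
    refine ⟨h.1, ?_⟩
    obtain ⟨i, w, h1, h2, h3⟩ := h.2
    refine ⟨i, w, h1, h2, h3.mono ?_⟩
    rw [FF_coe, FF_coe]
    refine Set.inter_subset_inter_right _ ?_
    unfold OE
    rw [Finset.coe_sdiff, Finset.coe_sdiff]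
    refine Set.sdiff_subset_sdiff_left ?_
    exact_mod_cast RE_mono' (by exact_mod_cast hNM)
  have hsub : PathV (Set.Icc a b) (x, y) v ⊆ ⋃ N, A N := by
    intro ω hω
    obtain ⟨i, hi, hri⟩ := hω.2
    obtain ⟨N, hN⟩ := window hri
    rw [Set.mem_iUnion]
    refine ⟨N, hω, ?_⟩
    obtain ⟨w, hw1, hw2⟩ := first_hit (A' := ↑(RE (x - r) (x + r) 0 r))
      (P := fun w => inR (x - r) (x + r) 0 (0 + r) w) (by
        intro e he
        have := RE_ends (Finset.mem_coe.mp he)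
        rw [zero_add]
        exact this) hN (by
        obtain ⟨h1, h2⟩ := hv
        simp only at h1 h2
        exact ⟨⟨by omega, by omega⟩, by omega, by omega⟩)
    refine ⟨i, w, hi, hw1, ?_⟩
    rw [FF_coe]
    unfold OE
    rw [Finset.coe_sdiff]
    exact hw2
  refine (real_mono' hsub).trans (real_iUnion_le hmono ?_)
  filter_upwards [eventually_ge_atTop (|x| + |a| + |b| + 20 * D).toNat] with N hN
  have h1 := hUB a b x r D N hab (by omega) hcase (by omega) (by omega)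
  have h2 := path_indep hC0 hU hy hv (T := OE x r N) (by
    refine Disjoint.mono_left (VB_sub (by omega) hv hy) ?_
    exact Finset.disjoint_sdiff) (UBf a b x r) (E := A N) (fun ω hω => hω.1)
    (fun ω hω => hω.2) h1
  refine h2.trans (le_of_eq (by ring))

/-- a connection between the two sides of the half-box by the edges of `F` -/
def QEf (a b x k : ℤ) (F : Finset Edg) : Prop :=
  ∃ i1 i2, (a ≤ i1 ∧ i1 ≤ x - k) ∧ (x + k ≤ i2 ∧ i2 ≤ b) ∧ Reach (↑F : Set Edg) (i1, 0) (i2, 0)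

theorem QEf_iff {a b x r k N : ℤ} {F : Finset Edg} :
    QEf a b x k (F ∩ OE x r N) ↔ QE a b x r k N F := by
  unfold QEf QE OE
  rw [Finset.coe_inter, Finset.coe_sdiff]

theorem QE_upper : ∃ (K : ℕ) (C : ℝ), 2 ≤ K ∧ 0 < C ∧ ∀ a b x r e : ℤ, 1 ≤ r → (K : ℤ) * r ≤ e →
    e ≤ x - a → e ≤ b - x → ∃ N : ℤ,
    P2 (OE x r N) (fun F => ¬ QEf a b x (K * r) F) ≤
      C * ((r : ℝ) / ((e : ℝ) + (r : ℝ))) ^ ((1 : ℝ) / 3) := by
  obtain ⟨K, hK2, hHA⟩ := exists_K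
  obtain ⟨C, hC, hCN⟩ := CN_compl_upper
  refine ⟨K, 2 * (C * (2 * K)), hK2, by positivity, ?_⟩
  intro a b x r e hr hge he1 he2
  have hh : (1 : ℝ) ≤ (r : ℝ) := by exact_mod_cast hr
  obtain ⟨k, hk⟩ : ∃ k : ℤ, k = (K : ℤ) * r := ⟨_, rfl⟩
  have hKz : (2 : ℤ) ≤ (K : ℤ) := by exact_mod_cast hK2
  have hk1 : r < k := by rw [hk]; nlinarith
  have hk0 : k ≤ e := by rw [hk]; exact hge
  have her : (0 : ℝ) ≤ (e : ℝ) := by exact_mod_cast (by omega : 0 ≤ e)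
  have hKr : (1 : ℝ) ≤ (K : ℝ) := by exact_mod_cast (by omega : 1 ≤ K)
  have hX0 : 0 ≤ (r : ℝ) / ((e : ℝ) + (r : ℝ)) := by positivity
  obtain ⟨N0, hN0⟩ := hCN a (x - k) (x + k) b (by omega) (by omega) (by omega)
  obtain ⟨N, hN⟩ : ∃ N : ℤ, N = max N0 (|x| + k) := ⟨_, rfl⟩
  refine ⟨N, ?_⟩
  have hx1 := le_abs_self x
  have hx2 := neg_abs_le x
  have hx3 := abs_nonneg x
  have key := hN0 N (by omega)
  have hsub : RE (x - K * r) (x + K * r) 0 (0 + K * r) ⊆ RE (-N) N 0 N := by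
    rw [← hk]
    exact RE_subset (by omega) (by omega) le_rfl (by omega)
  have k1 := hHA x r (by omega) (RE (-N) N 0 N) hsub
  rw [← hk] at k1 ⊢
  have k2 := Pr_harris_dd okhalf2 (QE_incr (RE (-N) N 0 N) a b x r k N)
    (HA_incr (RE (-N) N 0 N) x 0 r k)
  have k3 : Pr (fun _ => (1/2 : ℝ)) (RE (-N) N 0 N)
      (fun F => ¬ QE a b x r k N F ∧ ¬ HA x 0 r k F) ≤
      P2 (RE (-N) N 0 N) (fun F => ¬ CN a (x - k) (x + k) b (-N) N 0 N F) := by
    apply Pr_mono okhalf2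
    rintro F _ ⟨h1, h2⟩ h3
    exact h1 (QE_of hk1 (by omega) (by omega) (by omega) h3 h2)
  have k4 : P2 (OE x r N) (fun F => ¬ QEf a b x k F) =
      P2 (RE (-N) N 0 N) (fun F => ¬ QE a b x r k N F) := by
    rw [← P2_restrict (S := RE (-N) N 0 N) (S' := OE x r N) Finset.sdiff_subset
      (fun F => ¬ QEf a b x k F)]
    apply Pr_congr
    intro F _
    rw [QEf_iff]
  have k5 : P2 (RE (-N) N 0 N) (fun F => ¬ QE a b x r k N F) =
      1 - P2 (RE (-N) N 0 N) (QE a b x r k N) := Pr_not _ _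
  set q : ℝ := P2 (RE (-N) N 0 N) (QE a b x r k N) with hq
  have hq1 : q ≤ 1 := Pr_le_one okhalf2 _ _
  have k6 : (1 - q) * (1 / 2) ≤
      P2 (RE (-N) N 0 N) (fun F => ¬ CN a (x - k) (x + k) b (-N) N 0 N F) := by
    refine le_trans ?_ (k2.trans k3)
    exact mul_le_mul_of_nonneg_left (by
      have : P2 (RE (-N) N 0 N) (HA x 0 r k) ≤ 1 / 2 := k1
      unfold P2 at this
      linarith) (by linarith)
  have k7 : max (((x + k - (x - k) : ℤ) : ℝ) / ((x - k - a + 1 + (x + k - (x - k)) : ℤ) : ℝ))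
      (((x + k - (x - k) : ℤ) : ℝ) / ((x + k - (x - k) + (b - (x + k) + 1) : ℤ) : ℝ)) ≤
      2 * K * ((r : ℝ) / ((e : ℝ) + (r : ℝ))) := by
    have hu1 : (e : ℝ) ≤ ((x - a : ℤ) : ℝ) := by
      exact_mod_cast (by omega : e ≤ x - a)
    have hu2 : (e : ℝ) ≤ ((b - x : ℤ) : ℝ) := by
      exact_mod_cast (by omega : e ≤ b - x)
    have d1 := deep_ratio (K := (K : ℝ)) hh her hu1 hKr
    have d2 := deep_ratio (K := (K : ℝ)) hh her hu2 hKr
    apply max_le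
    · refine le_trans (le_of_eq ?_) d1
      rw [hk]
      push_cast
      ring_nf
    · refine le_trans (le_of_eq ?_) d2
      rw [hk]
      push_cast
      ring_nf
  have k8 : P2 (RE (-N) N 0 N) (fun F => ¬ CN a (x - k) (x + k) b (-N) N 0 N F) ≤
      C * (2 * K) * ((r : ℝ) / ((e : ℝ) + (r : ℝ))) ^ ((1 : ℝ) / 3) := by
    refine key.trans ?_
    rw [mul_assoc]
    refine mul_le_mul_of_nonneg_left ?_ hC.le
    refine le_trans (Real.rpow_le_rpow ?_ k7 (by norm_num))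
      (F_cube_le hX0 (K := 2 * K) (by linarith))
    apply le_max_of_le_left
    apply div_nonneg
    · exact_mod_cast (by omega : (0 : ℤ) ≤ x + k - (x - k))
    · exact_mod_cast (by omega : (0 : ℤ) ≤ x - k - a + 1 + (x + k - (x - k)))
  rw [k4, k5]
  calc 1 - q = 2 * ((1 - q) * (1 / 2)) := by ring
    _ ≤ 2 * (C * (2 * K) * ((r : ℝ) / ((e : ℝ) + (r : ℝ))) ^ ((1 : ℝ) / 3)) := by
        linarith [k6.trans k8]
    _ = _ := by ring

theorem path_deep {C0 : ℝ} (hC0 : 0 < C0) (hU : TwoUp C0 (1/4)) : ∃ (K : ℕ) (C : ℝ), 2 ≤ K ∧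
    0 < C ∧ ∀ (a b x y e : ℤ) (v : Vtx), 0 ≤ y → Cor (x, y) v → (K : ℤ) * (2 * (y + 1)) ≤ e →
    e ≤ x - a → e ≤ b - x → (bondLaw half).real (PathV (Set.Icc a b) (x, y) v) ≤
      C * ((y + 1 : ℤ) : ℝ) ^ (-(1/4 : ℝ)) *
        (((2 * (y + 1) : ℤ) : ℝ) / ((e : ℝ) + ((2 * (y + 1) : ℤ) : ℝ))) ^ ((1 : ℝ) / 3) := by
  obtain ⟨K, C, hK, hC, hQ⟩ := QE_upper
  refine ⟨K, 2 * (C0 + 1) * C, hK, by positivity, ?_⟩
  intro a b x y e v hy hv he he1 he2
  obtain ⟨N, hN⟩ := hQ a b x (2 * (y + 1)) e (by omega) he he1 he2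
  have hKz : (2 : ℤ) ≤ (K : ℤ) := by exact_mod_cast hK
  have hk1 : 2 * (y + 1) ≤ (K : ℤ) * (2 * (y + 1)) := by nlinarith
  have h2 := path_indep hC0 hU hy hv (T := OE x (2 * (y + 1)) N) (by
    refine Disjoint.mono_left (VB_sub (by omega) hv hy) ?_
    exact Finset.disjoint_sdiff) (fun F => ¬ QEf a b x (K * (2 * (y + 1))) F)
    (E := PathV (Set.Icc a b) (x, y) v) (fun ω hω => hω) (by
      rintro ω hω ⟨i1, i2, hi1, hi2, hr⟩
      rw [FF_coe] at hr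
      unfold OE at hr
      rw [Finset.coe_sdiff] at hr
      exact surr_arc (I := Set.Icc a b) (G := opn ω) (z := x) (r := 2 * (y + 1)) (x := x) (y := y)
        (N := N) (i1 := i1) (i2 := i2) (fun k h1 h2 => ⟨by omega, by omega⟩) (by omega) (by omega)
        (by omega) (by omega) hy (by omega) hr (DC_Out hω.1)) hN
  refine h2.trans (le_of_eq (by ring))

theorem exit_hp {G : Set Edg} {z m n : ℤ} {u v : Vtx} (hmn : m ≤ n)
    (hu : inR (z - m) (z + m) 0 (0 + m) u) (hv : v.1 ≤ z - n ∨ z + n ≤ v.1 ∨ n ≤ v.2)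
    (h : Reach (G ∩ HP) u v) :
    ∃ w, onH z 0 n w ∧ Reach (G ∩ ↑(RE (z - n) (z + n) 0 (0 + n))) u w := by
  obtain ⟨⟨hu1, hu2⟩, hu3, hu4⟩ := hu
  obtain ⟨w, hw1, hw2, hw3⟩ := first_exit (G := G ∩ HP) (a := z - n) (b := z + n)
    (c := 0 - 1) (d := 0 + n) (u := u) (v := v) ⟨⟨by omega, by omega⟩, by omega, by omega⟩ h
    (by rcases hv with hv | hv | hv
        · exact Or.inl hv
        · exact Or.inr (Or.inl hv)
        · exact Or.inr (Or.inr (Or.inr (by omega))))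
  have h4 : Reach (G ∩ ↑(RE (z - n) (z + n) 0 (0 + n))) u w := by
    refine hw3.mono ?_
    rintro ⟨p, q, o⟩ ⟨⟨h1, h2⟩, h3⟩
    have h2' : 0 ≤ q := h2
    refine ⟨h1, ?_⟩
    rw [Finset.mem_coe] at h3 ⊢
    cases o
    · rw [mem_RE_false] at h3 ⊢
      omega
    · rw [mem_RE_true] at h3 ⊢
      omega
  obtain ⟨-, hi3, hi4⟩ := reach_inR (a := z - n) (b := z + n) (c := 0) (d := 0 + n)
    ⟨⟨by omega, by omega⟩, by omega, by omega⟩ h4
  refine ⟨w, ?_, h4⟩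
  unfold onH
  rcases hw2 with h5 | h5 | h5 | h5
  · exact Or.inl h5
  · exact Or.inr (Or.inl h5)
  · omega
  · exact Or.inr (Or.inr h5)

theorem path_near {C0 : ℝ} (hC0 : 0 < C0) (hU : TwoUp C0 (1/4)) : ∃ C : ℝ, 0 < C ∧
    ∀ (a b x y : ℤ) (v : Vtx), a ≤ b → 0 ≤ y → Cor (x, y) v → b - a + 1 ≤ (y + 1) / 8 →
    (bondLaw half).real (PathV (Set.Icc a b) (x, y) v) ≤
      C * ((y + 1 : ℤ) : ℝ) ^ (-(1/4 : ℝ)) *
        (((b - a + 1 : ℤ) : ℝ) / (((y + 1) / 8 : ℤ) : ℝ)) ^ ((1 : ℝ) / 3) := by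
  obtain ⟨C, hC, hHA⟩ := HA_upper
  refine ⟨2 * (C0 + 1) * C, by positivity, ?_⟩
  intro a b x y v hab hy hv hl
  set m : ℤ := (y + 1) / 8 with hm
  have h1 := hHA b 0 (b - a + 1) m (by omega) hl _ (Finset.Subset.refl (RE (b - m) (b + m) 0 (0 + m)))
  have h2 := path_indep hC0 hU hy hv (T := RE (b - m) (b + m) 0 (0 + m)) (by
    rw [Finset.disjoint_left]
    obtain ⟨h1, h2⟩ := hv
    simp only at h1 h2
    rintro ⟨p, q, _ | _⟩ h3 h4
    · unfold VB at h3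
      rw [mem_RE_false] at h3 h4
      omega
    · unfold VB at h3
      rw [mem_RE_true] at h3 h4
      omega) (HA b 0 (b - a + 1) m)
    (E := PathV (Set.Icc a b) (x, y) v) (fun ω hω => hω) (by
      rintro ω ⟨-, i, hi, hri⟩
      have hi1 := hi.1
      have hi2 := hi.2
      obtain ⟨w, hw1, hw2⟩ := exit_hp (z := b) (m := b - a + 1) (n := m) hl (u := (i, 0)) (v := v)
        ⟨⟨by simp only; omega, by simp only; omega⟩, by simp, by simp; omega⟩ (by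
          obtain ⟨h1, h2⟩ := hv
          simp only at h1 h2
          right; right; omega) hri
      refine ⟨(i, 0), w, ⟨⟨by simp only; omega, by simp only; omega⟩, by simp, by simp; omega⟩,
        hw1, ?_⟩
      rw [FF_coe, Set.inter_assoc, Set.inter_self]
      exact hw2) h1
  refine h2.trans (le_of_eq (by ring))

theorem path_triv {C0 : ℝ} (hC0 : 0 < C0) (hU : TwoUp C0 (1/4)) {I : Set ℤ} {x y : ℤ} {v : Vtx}
    (hy : 0 ≤ y) (hv : Cor (x, y) v) :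
    (bondLaw half).real (PathV I (x, y) v) ≤
      2 * (C0 + 1) * ((y + 1 : ℤ) : ℝ) ^ (-(1/4 : ℝ)) := by
  have h2 := path_indep hC0 hU hy hv (T := ∅) (Finset.disjoint_empty_right _) (fun _ => True)
    (E := PathV I (x, y) v) (fun ω hω => hω) (fun _ _ => trivial) (X := 1)
    (Pr_le_one okhalf2 _ _)
  rwa [mul_one] at h2

end Pool.Agent.H67GF
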