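import Pool.Agent.H67GF.Up2

/-!
Faces on the exploration path: the upper bound at all positions.
-/

set_option autoImplicit false

namespace Pool.Agent.H67GF

open H974 H731C H342P Finset MeasureTheory Filter Topology Pool.Agent.H67LP

/-- the sine of the angle, up to constants -/
noncomputable def Psi (h l p q : ℝ) : ℝ := h * l / ((p + h) * (q + h))

theorem Psi_nonneg {h l p q : ℝ} (hh : 1 ≤ h) (hl : 1 ≤ l) (hp : 0 ≤ p) (hq : 0 ≤ q) :
    0 ≤ Psi h l p q := by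
  unfold Psi
  positivity

/-- comparison of a ratio with `Psi` -/
theorem Psi_ge {h l p q X A : ℝ} (hh : 1 ≤ h) (hl : 1 ≤ l) (hp : 0 ≤ p) (hq : 0 ≤ q) (hX : 0 < X)
    (hA : A * ((p + h) * (q + h)) ≤ h * l * X) : A / X ≤ Psi h l p q := by
  unfold Psi
  rw [div_le_div_iff₀ hX (by positivity)]
  exact hA

theorem A1 {h l D p q : ℝ} (hh : 1 ≤ h) (hl : 1 ≤ l) (hD : 0 ≤ D) (hp : 0 ≤ p) (hq : 0 ≤ q)
    (hc : (p ≤ D ∧ q ≤ D + l) ∨ (q ≤ D ∧ p ≤ D + l)) :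
    (2 * h) * l / ((D + 2 * h) * (D + 2 * h + l)) ≤ 8 * Psi h l p q := by
  have h1 : (p + h) * (q + h) ≤ (D + 2 * h) * (D + 2 * h + l) := by
    rcases hc with ⟨h1, h2⟩ | ⟨h1, h2⟩
    · exact mul_le_mul (by linarith) (by linarith) (by linarith) (by linarith)
    · rw [mul_comm]
      exact mul_le_mul (by linarith) (by linarith) (by linarith) (by linarith)
  have h2 := Psi_ge (A := h * l) hh hl hp hq (X := (D + 2 * h) * (D + 2 * h + l)) (by positivity)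
    (mul_le_mul_of_nonneg_left h1 (by positivity))
  have h3 := Psi_nonneg hh hl hp hq
  calc (2 * h) * l / ((D + 2 * h) * (D + 2 * h + l))
      = 2 * (h * l / ((D + 2 * h) * (D + 2 * h + l))) := by ring
    _ ≤ _ := by linarith

theorem A2 {h l p q m : ℝ} (hh : 1 ≤ h) (hl : 1 ≤ l) (hp : 0 ≤ p) (hq : 0 ≤ q)
    (hp2 : p ≤ 13 * h) (hq2 : q ≤ 13 * h) (hm : 0 < m) (hm2 : h ≤ 16 * m) :
    l / m ≤ 3375 * Psi h l p q := by
  have h1 : (p + h) * (q + h) ≤ (14 * h) * (14 * h) :=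
    mul_le_mul (by linarith) (by linarith) (by linarith) (by linarith)
  have h2 := Psi_ge (A := l) hh hl hp hq (X := 196 * h) (by positivity) (by
    calc l * ((p + h) * (q + h)) ≤ l * ((14 * h) * (14 * h)) :=
          mul_le_mul_of_nonneg_left h1 (by positivity)
      _ = h * l * (196 * h) := by ring)
  have h3 : l / m ≤ 3136 * (l / (196 * h)) := by
    rw [mul_div_assoc', div_le_div_iff₀ hm (by positivity)]
    nlinarith
  have h4 := Psi_nonneg hh hl hp hq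
  linarith

theorem A3 {h l p q M : ℝ} (hh : 1 ≤ h) (hl : 1 ≤ l) (hM : 0 ≤ M) (hp : 0 ≤ p) (hq : 0 ≤ q)
    (hc : (p ≤ M * h ∧ q ≤ M * h + l) ∨ (q ≤ M * h ∧ p ≤ M * h + l)) (h8 : h ≤ 8 * l) :
    1 ≤ ((M + 1) * (8 * (M + 1) + 1)) * Psi h l p q := by
  have h0 : 0 < (M + 1) * (8 * (M + 1) + 1) := by positivity
  have h1 : (p + h) * (q + h) ≤ ((M + 1) * h) * ((M + 1) * h + l) := by
    rcases hc with ⟨h1, h2⟩ | ⟨h1, h2⟩
    · exact mul_le_mul (by linarith) (by linarith) (by linarith) (by positivity)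
    · rw [mul_comm]
      exact mul_le_mul (by linarith) (by linarith) (by linarith) (by positivity)
  have h3 : (M + 1) * h + l ≤ (8 * (M + 1) + 1) * l := by nlinarith
  have h2 := Psi_ge (A := 1) hh hl hp hq (X := (M + 1) * (8 * (M + 1) + 1)) h0 (by
    rw [one_mul]
    calc (p + h) * (q + h) ≤ ((M + 1) * h) * ((M + 1) * h + l) := h1
      _ ≤ ((M + 1) * h) * ((8 * (M + 1) + 1) * l) := mul_le_mul_of_nonneg_left h3 (by positivity)
      _ = _ := by ring)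
  rw [div_le_iff₀ h0] at h2
  linarith

theorem A4 {h l p q e : ℝ} (hh : 1 ≤ h) (hl : 1 ≤ l) (he : 0 ≤ e) (hp : 0 ≤ p) (hq : 0 ≤ q)
    (hc : (p ≤ e ∧ q ≤ l) ∨ (q ≤ e ∧ p ≤ l)) (h8 : h ≤ l) :
    (2 * h) / (e + 2 * h) ≤ 8 * Psi h l p q := by
  have h1 : (p + h) * (q + h) ≤ (e + h) * (l + h) := by
    rcases hc with ⟨h1, h2⟩ | ⟨h1, h2⟩
    · exact mul_le_mul (by linarith) (by linarith) (by linarith) (by positivity)
    · rw [mul_comm]
      exact mul_le_mul (by linarith) (by linarith) (by linarith) (by positivity)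
  have h2 := Psi_ge (A := h) hh hl hp hq (X := 2 * (e + 2 * h)) (by positivity) (by
    calc h * ((p + h) * (q + h)) ≤ h * ((e + h) * (l + h)) :=
          mul_le_mul_of_nonneg_left h1 (by positivity)
      _ ≤ h * ((e + 2 * h) * (2 * l)) := by
          apply mul_le_mul_of_nonneg_left _ (by positivity)
          exact mul_le_mul (by linarith) (by linarith) (by linarith) (by positivity)
      _ = _ := by ring)
  have h3 : (2 * h) / (e + 2 * h) = 4 * (h / (2 * (e + 2 * h))) := by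
    field_simp
    ring
  have h4 := Psi_nonneg hh hl hp hq
  rw [h3]
  linarith

theorem path_upper {C0 : ℝ} (hC0 : 0 < C0) (hU : TwoUp C0 (1/4)) : ∃ C : ℝ, 0 < C ∧
    ∀ (a b x y : ℤ) (v : Vtx), a ≤ b → 0 ≤ y → Cor (x, y) v →
    (bondLaw half).real (PathV (Set.Icc a b) (x, y) v) ≤
      C * ((y + 1 : ℤ) : ℝ) ^ (-(1/4 : ℝ)) *
        (Psi ((y + 1 : ℤ) : ℝ) ((b - a + 1 : ℤ) : ℝ) ((|x - a| : ℤ) : ℝ) ((|x - b| : ℤ) : ℝ)) ^
          ((1 : ℝ) / 3) := by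
  obtain ⟨C1, hC1, hfar⟩ := path_far hC0 hU
  obtain ⟨K, C2, hK, hC2, hdeep⟩ := path_deep hC0 hU
  obtain ⟨C3, hC3, hnear⟩ := path_near hC0 hU
  obtain ⟨M, hM⟩ : ∃ M : ℝ, M = 2 * K + 12 := ⟨_, rfl⟩
  have hM0 : 0 ≤ M := by rw [hM]; positivity
  obtain ⟨L, hL⟩ : ∃ L : ℝ, L = (M + 1) * (8 * (M + 1) + 1) := ⟨_, rfl⟩
  have hL1 : 1 ≤ L := by rw [hL]; nlinarith
  refine ⟨2 * C1 + 2 * C2 + 15 * C3 + 2 * (C0 + 1) * L, by positivity, ?_⟩
  intro a b x y v hab hy hv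
  set h : ℝ := ((y + 1 : ℤ) : ℝ) with hh'
  set l : ℝ := ((b - a + 1 : ℤ) : ℝ) with hl'
  set p : ℝ := ((|x - a| : ℤ) : ℝ) with hp'
  set q : ℝ := ((|x - b| : ℤ) : ℝ) with hq'
  have hh : 1 ≤ h := by rw [hh']; exact_mod_cast (by omega : 1 ≤ y + 1)
  have hl : 1 ≤ l := by rw [hl']; exact_mod_cast (by omega : 1 ≤ b - a + 1)
  have hp : 0 ≤ p := by rw [hp']; exact_mod_cast abs_nonneg _
  have hq : 0 ≤ q := by rw [hq']; exact_mod_cast abs_nonneg _
  have hX := Psi_nonneg hh hl hp hq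
  have hX3 : 0 ≤ (Psi h l p q) ^ ((1 : ℝ) / 3) := by positivity
  have hh4 : 0 ≤ h ^ (-(1/4 : ℝ)) := by positivity
  have hx : 0 ≤ h ^ (-(1/4 : ℝ)) * (Psi h l p q) ^ ((1 : ℝ) / 3) := mul_nonneg hh4 hX3
  have n2 : 0 ≤ C0 * L := by positivity
  have fin : ∀ c : ℝ, c ≤ 2 * C1 + 2 * C2 + 15 * C3 + 2 * (C0 + 1) * L →
      c * h ^ (-(1/4 : ℝ)) * (Psi h l p q) ^ ((1 : ℝ) / 3) ≤
        (2 * C1 + 2 * C2 + 15 * C3 + 2 * (C0 + 1) * L) * h ^ (-(1/4 : ℝ)) *
          (Psi h l p q) ^ ((1 : ℝ) / 3) := by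
    intro c hc
    rw [mul_assoc, mul_assoc]
    exact mul_le_mul_of_nonneg_right hc hx
  have step : ∀ c d Z : ℝ, 0 ≤ c → Z ^ ((1 : ℝ) / 3) ≤ d * (Psi h l p q) ^ ((1 : ℝ) / 3) →
      c * h ^ (-(1/4 : ℝ)) * Z ^ ((1 : ℝ) / 3) ≤
        (c * d) * h ^ (-(1/4 : ℝ)) * (Psi h l p q) ^ ((1 : ℝ) / 3) := by
    intro c d Z hc hZ
    calc c * h ^ (-(1/4 : ℝ)) * Z ^ ((1 : ℝ) / 3)
        ≤ c * h ^ (-(1/4 : ℝ)) * (d * (Psi h l p q) ^ ((1 : ℝ) / 3)) :=
          mul_le_mul_of_nonneg_left hZ (by positivity)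
      _ = _ := by ring
  obtain ⟨D, hD⟩ : ∃ D : ℤ, D = max 0 (max (a - x) (x - b)) := ⟨_, rfl⟩
  have q1 := abs_cases (x - a)
  have q2 := abs_cases (x - b)
  rcases le_or_gt (12 * (y + 1)) D with hf | hc
  · -- far
    have h1 := hfar a b x y D v hab hy hv (by omega) hf
    have hDr : (0 : ℝ) ≤ (D : ℝ) := by exact_mod_cast (by omega : 0 ≤ D)
    have h2 : Phi (2 * (y + 1)) (b - a + 1) D ≤ 8 * Psi h l p q := by
      have h3 := A1 (D := (D : ℝ)) hh hl hDr hp hq (by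
        rcases (by omega : (|x - a| ≤ D ∧ |x - b| ≤ D + (b - a + 1)) ∨
          (|x - b| ≤ D ∧ |x - a| ≤ D + (b - a + 1))) with ⟨g1, g2⟩ | ⟨g1, g2⟩
        · left
          rw [hp', hq', hl']
          exact ⟨by exact_mod_cast g1, by exact_mod_cast g2⟩
        · right
          rw [hp', hq', hl']
          exact ⟨by exact_mod_cast g1, by exact_mod_cast g2⟩)
      refine le_trans (le_of_eq ?_) h3
      unfold Phi
      rw [hh', hl']
      push_cast
      ring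
    have hP0 := Phi_nonneg (h := 2 * (y + 1)) (l := b - a + 1) (D := D) (by omega) (by omega)
      (by omega)
    have h3 := cube_root_le (K := 2) hP0 hX (by norm_num) h2 (by norm_num)
    refine (h1.trans (step C1 2 _ hC1.le h3)).trans (fin _ ?_)
    nlinarith
  · rcases le_or_gt (b - a + 1) ((y + 1) / 8) with hs | hb
    · -- near and small
      have h1 := hnear a b x y v hab hy hv hs
      have hm0 : (0 : ℝ) < (((y + 1) / 8 : ℤ) : ℝ) := by
        exact_mod_cast (by omega : 0 < (y + 1) / 8)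
      have h2 := A2 (m := (((y + 1) / 8 : ℤ) : ℝ)) hh hl hp hq
        (by rw [hp', hh']; exact_mod_cast (by omega : |x - a| ≤ 13 * (y + 1)))
        (by rw [hq', hh']; exact_mod_cast (by omega : |x - b| ≤ 13 * (y + 1))) hm0
        (by rw [hh']; exact_mod_cast (by omega : y + 1 ≤ 16 * ((y + 1) / 8)))
      have h3 := cube_root_le (K := 15) (by positivity) hX (by norm_num) h2 (by norm_num)
      refine (h1.trans (step C3 15 _ hC3.le h3)).trans (fin _ ?_)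
      nlinarith
    · have h8 : h ≤ 8 * l := by
        rw [hh', hl']
        exact_mod_cast (by omega : y + 1 ≤ 8 * (b - a + 1))
      obtain ⟨e, he⟩ : ∃ e : ℤ, e = min (x - a) (b - x) := ⟨_, rfl⟩
      rcases lt_or_ge e ((K : ℤ) * (2 * (y + 1))) with hlt | hge
      · -- trivial
        have h1 := path_triv hC0 hU (I := Set.Icc a b) hy hv
        have hKh : (0 : ℤ) ≤ (K : ℤ) * (2 * (y + 1)) := by positivity
        have hM2 : (((K : ℤ) * (2 * (y + 1)) + 12 * (y + 1) : ℤ) : ℝ) = M * h := by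
          rw [hM, hh']
          push_cast
          ring
        have h2 := A3 hh hl hM0 hp hq (by
          rcases (by omega : (|x - a| ≤ (K : ℤ) * (2 * (y + 1)) + 12 * (y + 1) ∧
              |x - b| ≤ (K : ℤ) * (2 * (y + 1)) + 12 * (y + 1) + (b - a + 1)) ∨
            (|x - b| ≤ (K : ℤ) * (2 * (y + 1)) + 12 * (y + 1) ∧
              |x - a| ≤ (K : ℤ) * (2 * (y + 1)) + 12 * (y + 1) + (b - a + 1))) with
            ⟨g1, g2⟩ | ⟨g1, g2⟩
          · left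
            rw [← hM2, hp', hq', hl']
            exact ⟨by exact_mod_cast g1, by exact_mod_cast g2⟩
          · right
            rw [← hM2, hp', hq', hl']
            exact ⟨by exact_mod_cast g1, by exact_mod_cast g2⟩) h8
        rw [← hL] at h2
        have h3 := cube_root_le (K := L) (x := 1) (by norm_num) hX (by linarith) h2 (by nlinarith [mul_le_mul hL1 hL1 (by norm_num) (by linarith : (0:ℝ) ≤ L), sq_nonneg L])
        rw [Real.one_rpow] at h3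
        calc _ ≤ 2 * (C0 + 1) * h ^ (-(1/4 : ℝ)) * 1 := by rw [mul_one]; exact h1
          _ ≤ 2 * (C0 + 1) * h ^ (-(1/4 : ℝ)) * (L * (Psi h l p q) ^ ((1 : ℝ) / 3)) :=
              mul_le_mul_of_nonneg_left h3 (by positivity)
          _ = (2 * (C0 + 1) * L) * h ^ (-(1/4 : ℝ)) * (Psi h l p q) ^ ((1 : ℝ) / 3) := by ring
          _ ≤ _ := fin _ (by nlinarith)
      · -- deep
        have h1 := hdeep a b x y e v hy hv hge (by omega) (by omega)
        have hKz : (2 : ℤ) ≤ (K : ℤ) := by exact_mod_cast hK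
        have hk1 : 2 * (y + 1) ≤ (K : ℤ) * (2 * (y + 1)) := by nlinarith
        have her : (0 : ℝ) ≤ (e : ℝ) := by exact_mod_cast (by omega : 0 ≤ e)
        have h2 := A4 (e := (e : ℝ)) hh hl her hp hq (by
          rcases (by omega : (|x - a| ≤ e ∧ |x - b| ≤ b - a + 1) ∨
            (|x - b| ≤ e ∧ |x - a| ≤ b - a + 1)) with ⟨g1, g2⟩ | ⟨g1, g2⟩
          · left
            rw [hp', hq', hl']
            exact ⟨by exact_mod_cast g1, by exact_mod_cast g2⟩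
          · right
            rw [hp', hq', hl']
            exact ⟨by exact_mod_cast g1, by exact_mod_cast g2⟩)
          (by rw [hh', hl']; exact_mod_cast (by omega : y + 1 ≤ b - a + 1))
        have e1 : ((2 * (y + 1) : ℤ) : ℝ) = 2 * h := by rw [hh']; push_cast; ring
        rw [e1] at h1
        have h3 := cube_root_le (K := 2) (by positivity) hX (by norm_num) h2 (by norm_num)
        refine (h1.trans (step C2 2 _ hC2.le h3)).trans (fin _ ?_)
        nlinarith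

theorem path_upper_Iic {C0 : ℝ} (hC0 : 0 < C0) (hU : TwoUp C0 (1/4)) : ∃ C : ℝ, 0 < C ∧
    ∀ (b x y : ℤ) (v : Vtx), 0 ≤ y → Cor (x, y) v →
    (bondLaw half).real (PathV (Set.Iic b) (x, y) v) ≤
      C * ((y + 1 : ℤ) : ℝ) ^ (-(1/4 : ℝ)) *
        (((y + 1 : ℤ) : ℝ) / (((|x - b| : ℤ) : ℝ) + ((y + 1 : ℤ) : ℝ))) ^ ((1 : ℝ) / 3) := by
  obtain ⟨C, hC, hup⟩ := path_upper hC0 hU
  refine ⟨2 * C, by positivity, ?_⟩
  intro b x y v hy hv
  set A : ℕ → Set (sqLattice.edgeSet → Bool) := fun M =>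
    {ω | DC (Set.Iic b) (opn ω) (x, y) ∧ CI (Set.Icc (-(M : ℤ)) b) (opn ω) v} with hA
  have hmono : Monotone A := by
    intro N M hNM ω h
    exact ⟨h.1, CI_mono (Set.Icc_subset_Icc_left (by
      have : (N : ℤ) ≤ M := by exact_mod_cast hNM
      omega)) h.2⟩
  have hsub : PathV (Set.Iic b) (x, y) v ⊆ ⋃ M, A M := by
    rintro ω ⟨h1, i, hi, hr⟩
    rw [Set.mem_iUnion]
    refine ⟨i.natAbs, h1, i, ⟨by omega, hi⟩, hr⟩
  refine (real_mono' hsub).trans (real_iUnion_le hmono ?_)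
  filter_upwards [eventually_ge_atTop (|b| + 2 * |x| + 2).toNat] with M hM
  have hb1 := le_abs_self b
  have hb2 := neg_abs_le b
  have hx1 := le_abs_self x
  have hx2 := neg_abs_le x
  have hsub2 : A M ⊆ PathV (Set.Icc (-(M : ℤ)) b) (x, y) v := by
    rintro ω ⟨⟨k, hk⟩, h2⟩
    refine ⟨⟨k, hk.mono ?_⟩, h2⟩
    rintro e ⟨h3, h4⟩
    refine ⟨h3, ?_⟩
    rintro ⟨h5, h6, h7⟩
    exact h4 ⟨h5, h6.2, h7.2⟩
  have h1 := hup (-(M : ℤ)) b x y v (by omega) hy hv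
  refine ((real_mono' hsub2).trans h1).trans ?_
  set h : ℝ := ((y + 1 : ℤ) : ℝ) with hh'
  have hh : 1 ≤ h := by rw [hh']; exact_mod_cast (by omega : 1 ≤ y + 1)
  have hl : (1 : ℝ) ≤ ((b - -(M : ℤ) + 1 : ℤ) : ℝ) := by
    exact_mod_cast (by omega : 1 ≤ b - -(M : ℤ) + 1)
  have hp : (0 : ℝ) ≤ ((|x - -(M : ℤ)| : ℤ) : ℝ) := by exact_mod_cast abs_nonneg _
  have hq : (0 : ℝ) ≤ ((|x - b| : ℤ) : ℝ) := by exact_mod_cast abs_nonneg _
  have h2 : Psi h ((b - -(M : ℤ) + 1 : ℤ) : ℝ) ((|x - -(M : ℤ)| : ℤ) : ℝ) ((|x - b| : ℤ) : ℝ) ≤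
      8 * (h / (((|x - b| : ℤ) : ℝ) + h)) := by
    unfold Psi
    rw [mul_div_assoc', div_le_div_iff₀ (by positivity) (by positivity)]
    have h3 : ((b - -(M : ℤ) + 1 : ℤ) : ℝ) ≤ 8 * (((|x - -(M : ℤ)| : ℤ) : ℝ) + h) := by
      have h4 : ((b - -(M : ℤ) + 1 : ℤ) : ℝ) ≤ 8 * ((|x - -(M : ℤ)| : ℤ) : ℝ) := by
        exact_mod_cast (by
          have := abs_cases (x - -(M : ℤ))
          omega : b - -(M : ℤ) + 1 ≤ 8 * |x - -(M : ℤ)|)
      linarith
    calc h * ((b - -(M : ℤ) + 1 : ℤ) : ℝ) * (((|x - b| : ℤ) : ℝ) + h)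
        = (h * (((|x - b| : ℤ) : ℝ) + h)) * ((b - -(M : ℤ) + 1 : ℤ) : ℝ) := by ring
      _ ≤ (h * (((|x - b| : ℤ) : ℝ) + h)) * (8 * (((|x - -(M : ℤ)| : ℤ) : ℝ) + h)) :=
          mul_le_mul_of_nonneg_left h3 (by positivity)
      _ = _ := by ring
  have h3 := cube_root_le (K := 2) (Psi_nonneg hh hl hp hq) (by positivity) (by norm_num) h2
    (by norm_num)
  calc _ ≤ C * h ^ (-(1/4 : ℝ)) * (2 * (h / (((|x - b| : ℤ) : ℝ) + h)) ^ ((1 : ℝ) / 3)) :=
        mul_le_mul_of_nonneg_left h3 (by positivity)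
    _ = _ := by ring

theorem PathE_sub (I : Set ℤ) (x y : ℤ) : PathE I x y ⊆
    (PathV I (x, y) (x, y) ∪ PathV I (x, y) (x + 1, y)) ∪
      (PathV I (x, y) (x, y + 1) ∪ PathV I (x, y) (x + 1, y + 1)) := by
  rintro ω ⟨h1, ⟨p, q⟩, ⟨h2, h3⟩, h4⟩
  simp only at h2 h3
  rcases h2 with rfl | rfl <;> rcases h3 with rfl | rfl
  · exact Or.inl (Or.inl ⟨h1, h4⟩)
  · exact Or.inr (Or.inl ⟨h1, h4⟩)
  · exact Or.inl (Or.inr ⟨h1, h4⟩)
  · exact Or.inr (Or.inr ⟨h1, h4⟩)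

theorem PathE_le {I : Set ℤ} {x y : ℤ} {X : ℝ}
    (h : ∀ v, Cor (x, y) v → (bondLaw half).real (PathV I (x, y) v) ≤ X) :
    (bondLaw half).real (PathE I x y) ≤ 4 * X := by
  have h1 := h (x, y) ⟨Or.inl rfl, Or.inl rfl⟩
  have h2 := h (x + 1, y) ⟨Or.inr rfl, Or.inl rfl⟩
  have h3 := h (x, y + 1) ⟨Or.inl rfl, Or.inr rfl⟩
  have h4 := h (x + 1, y + 1) ⟨Or.inr rfl, Or.inr rfl⟩
  have h5 := measureReal_union_le (μ := bondLaw half) (PathV I (x, y) (x, y))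
    (PathV I (x, y) (x + 1, y))
  have h6 := measureReal_union_le (μ := bondLaw half) (PathV I (x, y) (x, y + 1))
    (PathV I (x, y) (x + 1, y + 1))
  have h7 := measureReal_union_le (μ := bondLaw half)
    (PathV I (x, y) (x, y) ∪ PathV I (x, y) (x + 1, y))
    (PathV I (x, y) (x, y + 1) ∪ PathV I (x, y) (x + 1, y + 1))
  have h8 := real_mono' (PathE_sub I x y)
  linarith

end Pool.Agent.H67GF
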